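import Pool.Agent.Lib.MP_36bd7d_h28.CountG

set_option autoImplicit false

open Finset

namespace Pool.Agent.Lib.MP36

/-- The table of the certificates: end points, `ρ` and the number of near-top characters. -/
def table : List (ℕ × ℕ × ℕ × ℕ) :=
  [(19000, 23050, 1000, 0), (23050, 24250, 1000, 0), (24250, 24900, 1000, 0),
   (24900, 25350, 1000, 0), (25350, 25650, 1000, 0), (25650, 25850, 1000, 0),
   (25850, 26000, 1000, 0), (26000, 26290, 980, 16), (26290, 26510, 980, 16),
   (26510, 26690, 980, 16), (26690, 26820, 980, 16), (26820, 26930, 980, 16),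
   (26930, 27000, 980, 16), (27000, 27120, 980, 13), (27120, 27390, 970, 13),
   (27390, 27630, 970, 13), (27630, 27970, 950, 13), (27970, 28310, 935, 13),
   (28310, 28650, 930, 13), (28650, 29100, 920, 13), (29100, 30000, 920, 13),
   (30000, 39000, 1000, 0)]

theorem cases_q {n : ℕ} (g : Finset (Fin n) → ℝ) (i : Fin n) (q : ℝ)
    (h01 : ∀ A, g A = 0 ∨ g A = 1) (hmono : ∀ A B, A ⊆ B → g A ≤ g B)
    (hp : avg (fun A => g (A.erase i)) = 1 / 8) (hq : avg (fun A => g (insert i A)) = q)
    (hW : ∀ W : Finset (Fin n), W ≠ ∅ →
      |hat (fun A => g (A.erase i)) W| + |hat (fun A => g (insert i A)) W| ≤ q - 1 / 8)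
    (hq1 : 19 / 100 < q) (hq2 : q < 39 / 100)
    (C : ∀ qa qb rho k : ℕ, (qa, qb, rho, k) ∈ table → (qa : ℝ) / 100000 ≤ q →
      q ≤ (qb : ℝ) / 100000 →
      ((Finset.univ : Finset (Finset (Fin n))).filter
        (fun S => S ≠ ∅ ∧ hat (fun A => g (A.erase i)) S + hat (fun A => g (insert i A)) S
          < -((rho : ℝ) / 1000 * (q - 1 / 8)))).card ≤ k → False) : False := by
  have hk0 : ((Finset.univ : Finset (Finset (Fin n))).filter
      (fun S => S ≠ ∅ ∧ hat (fun A => g (A.erase i)) S + hat (fun A => g (insert i A)) S
        < -(((1000 : ℕ) : ℝ) / 1000 * (q - 1 / 8)))).card ≤ 0 := by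
    rw [Nat.le_zero, Finset.card_eq_zero, Finset.filter_eq_empty_iff]
    rintro S - ⟨hS, h⟩
    have h5 := hW S hS
    have h6 := neg_abs_le (hat (fun A => g (A.erase i)) S)
    have h7 := neg_abs_le (hat (fun A => g (insert i A)) S)
    push_cast at h
    linarith
  have hk16 : 26 / 100 ≤ q → ((Finset.univ : Finset (Finset (Fin n))).filter
      (fun S => S ≠ ∅ ∧ hat (fun A => g (A.erase i)) S + hat (fun A => g (insert i A)) S
        < -(((980 : ℕ) : ℝ) / 1000 * (q - 1 / 8)))).card ≤ 16 := by
    intro h
    have h5 := count16 g i q h01 hmono hp hq hW h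
    have h6 : (((980 : ℕ) : ℝ) / 1000 : ℝ) = 98 / 100 := by norm_num
    rw [h6]
    exact h5
  have hk13 : ∀ rho : ℕ, 1 < (q - 1 / 8) * (8 - 22 * (1 - (rho : ℝ) / 1000)) →
      (1 / 8 + q) / 3 < (rho : ℝ) / 1000 * (q - 1 / 8) →
      4 * (1 / 8) + 2 * q + 93998 / 100000 < 14 * ((rho : ℝ) / 1000 * (q - 1 / 8)) →
      ((Finset.univ : Finset (Finset (Fin n))).filter
      (fun S => S ≠ ∅ ∧ hat (fun A => g (A.erase i)) S + hat (fun A => g (insert i A)) S
        < -((rho : ℝ) / 1000 * (q - 1 / 8)))).card ≤ 13 := by
    intro rho h1 h2 h4
    exact count13 g i q ((rho : ℝ) / 1000) h01 hmono hp hq hW h1 h2 h4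
  rcases le_or_gt q (23050 / 100000) with h | h
  · exact C 19000 23050 1000 0 (by simp [table]) (by push_cast; linarith) (by push_cast; linarith) hk0
  rcases le_or_gt q (24250 / 100000) with h' | h'
  · exact C 23050 24250 1000 0 (by simp [table]) (by push_cast; linarith) (by push_cast; linarith) hk0
  clear h; rename' h' => h
  rcases le_or_gt q (24900 / 100000) with h' | h'
  · exact C 24250 24900 1000 0 (by simp [table]) (by push_cast; linarith) (by push_cast; linarith) hk0
  clear h; rename' h' => h
  rcases le_or_gt q (25350 / 100000) with h' | h'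
  · exact C 24900 25350 1000 0 (by simp [table]) (by push_cast; linarith) (by push_cast; linarith) hk0
  clear h; rename' h' => h
  rcases le_or_gt q (25650 / 100000) with h' | h'
  · exact C 25350 25650 1000 0 (by simp [table]) (by push_cast; linarith) (by push_cast; linarith) hk0
  clear h; rename' h' => h
  rcases le_or_gt q (25850 / 100000) with h' | h'
  · exact C 25650 25850 1000 0 (by simp [table]) (by push_cast; linarith) (by push_cast; linarith) hk0
  clear h; rename' h' => h
  rcases le_or_gt q (26000 / 100000) with h' | h'
  · exact C 25850 26000 1000 0 (by simp [table]) (by push_cast; linarith) (by push_cast; linarith) hk0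
  clear h; rename' h' => h
  have hk := hk16 (by linarith)
  rcases le_or_gt q (26290 / 100000) with h' | h'
  · exact C 26000 26290 980 16 (by simp [table]) (by push_cast; linarith) (by push_cast; linarith) hk
  clear h; rename' h' => h
  rcases le_or_gt q (26510 / 100000) with h' | h'
  · exact C 26290 26510 980 16 (by simp [table]) (by push_cast; linarith) (by push_cast; linarith) hk
  clear h; rename' h' => h
  rcases le_or_gt q (26690 / 100000) with h' | h'
  · exact C 26510 26690 980 16 (by simp [table]) (by push_cast; linarith) (by push_cast; linarith) hk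
  clear h; rename' h' => h
  rcases le_or_gt q (26820 / 100000) with h' | h'
  · exact C 26690 26820 980 16 (by simp [table]) (by push_cast; linarith) (by push_cast; linarith) hk
  clear h; rename' h' => h
  rcases le_or_gt q (26930 / 100000) with h' | h'
  · exact C 26820 26930 980 16 (by simp [table]) (by push_cast; linarith) (by push_cast; linarith) hk
  clear h; rename' h' => h
  rcases le_or_gt q (27000 / 100000) with h' | h'
  · exact C 26930 27000 980 16 (by simp [table]) (by push_cast; linarith) (by push_cast; linarith) hk
  clear h; rename' h' => h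
  clear hk
  rcases le_or_gt q (27120 / 100000) with h' | h'
  · exact C 27000 27120 980 13 (by simp [table]) (by push_cast; linarith) (by push_cast; linarith)
      (hk13 980 (by push_cast; linarith) (by push_cast; linarith) (by push_cast; linarith))
  clear h; rename' h' => h
  rcases le_or_gt q (27390 / 100000) with h' | h'
  · exact C 27120 27390 970 13 (by simp [table]) (by push_cast; linarith) (by push_cast; linarith)
      (hk13 970 (by push_cast; linarith) (by push_cast; linarith) (by push_cast; linarith))
  clear h; rename' h' => h
  rcases le_or_gt q (27630 / 100000) with h' | h'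
  · exact C 27390 27630 970 13 (by simp [table]) (by push_cast; linarith) (by push_cast; linarith)
      (hk13 970 (by push_cast; linarith) (by push_cast; linarith) (by push_cast; linarith))
  clear h; rename' h' => h
  rcases le_or_gt q (27970 / 100000) with h' | h'
  · exact C 27630 27970 950 13 (by simp [table]) (by push_cast; linarith) (by push_cast; linarith)
      (hk13 950 (by push_cast; linarith) (by push_cast; linarith) (by push_cast; linarith))
  clear h; rename' h' => h
  rcases le_or_gt q (28310 / 100000) with h' | h'
  · exact C 27970 28310 935 13 (by simp [table]) (by push_cast; linarith) (by push_cast; linarith)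
      (hk13 935 (by push_cast; linarith) (by push_cast; linarith) (by push_cast; linarith))
  clear h; rename' h' => h
  rcases le_or_gt q (28650 / 100000) with h' | h'
  · exact C 28310 28650 930 13 (by simp [table]) (by push_cast; linarith) (by push_cast; linarith)
      (hk13 930 (by push_cast; linarith) (by push_cast; linarith) (by push_cast; linarith))
  clear h; rename' h' => h
  rcases le_or_gt q (29100 / 100000) with h' | h'
  · exact C 28650 29100 920 13 (by simp [table]) (by push_cast; linarith) (by push_cast; linarith)
      (hk13 920 (by push_cast; linarith) (by push_cast; linarith) (by push_cast; linarith))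
  clear h; rename' h' => h
  rcases le_or_gt q (30000 / 100000) with h' | h'
  · exact C 29100 30000 920 13 (by simp [table]) (by push_cast; linarith) (by push_cast; linarith)
      (hk13 920 (by push_cast; linarith) (by push_cast; linarith) (by push_cast; linarith))
  clear h; rename' h' => h
  exact C 30000 39000 1000 0 (by simp [table]) (by push_cast; linarith) (by push_cast; linarith) hk0

end Pool.Agent.Lib.MP36
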