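import Pool.Agent.Lib.MP_36bd7d_h28.Cert01
import Pool.Agent.Lib.MP_36bd7d_h28.Cert02
import Pool.Agent.Lib.MP_36bd7d_h28.Cert03
import Pool.Agent.Lib.MP_36bd7d_h28.Cert04
import Pool.Agent.Lib.MP_36bd7d_h28.Cert05
import Pool.Agent.Lib.MP_36bd7d_h28.Cert06
import Pool.Agent.Lib.MP_36bd7d_h28.Cert07
import Pool.Agent.Lib.MP_36bd7d_h28.Cert08
import Pool.Agent.Lib.MP_36bd7d_h28.Cert09
import Pool.Agent.Lib.MP_36bd7d_h28.Cert10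
import Pool.Agent.Lib.MP_36bd7d_h28.Cert11
import Pool.Agent.Lib.MP_36bd7d_h28.Cert12
import Pool.Agent.Lib.MP_36bd7d_h28.Cert13
import Pool.Agent.Lib.MP_36bd7d_h28.Cert14
import Pool.Agent.Lib.MP_36bd7d_h28.Cert15
import Pool.Agent.Lib.MP_36bd7d_h28.Cert16
import Pool.Agent.Lib.MP_36bd7d_h28.Cert17
import Pool.Agent.Lib.MP_36bd7d_h28.Cert18
import Pool.Agent.Lib.MP_36bd7d_h28.Cert19
import Pool.Agent.Lib.MP_36bd7d_h28.Cert20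
import Pool.Agent.Lib.MP_36bd7d_h28.Cert21
import Pool.Agent.Lib.MP_36bd7d_h28.Cert22
import Pool.Agent.Lib.MP_36bd7d_h28.Cases

set_option autoImplicit false

namespace Pool.Agent.Lib.MP36

theorem certs_cover : ∀ qa qb rho k : ℕ, (qa, qb, rho, k) ∈ table →
    ∃ C : Cert, C.check = true ∧ C.qa = qa ∧ C.qb = qb ∧ C.rho = rho ∧ C.k = k := by
  intro qa qb rho k h
  simp only [table, List.mem_cons, Prod.mk.injEq, List.not_mem_nil, or_false] at h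
  rcases h with ⟨rfl, rfl, rfl, rfl⟩ | ⟨rfl, rfl, rfl, rfl⟩ | ⟨rfl, rfl, rfl, rfl⟩ | ⟨rfl, rfl, rfl, rfl⟩ | ⟨rfl, rfl, rfl, rfl⟩ | ⟨rfl, rfl, rfl, rfl⟩ | ⟨rfl, rfl, rfl, rfl⟩ | ⟨rfl, rfl, rfl, rfl⟩ | ⟨rfl, rfl, rfl, rfl⟩ | ⟨rfl, rfl, rfl, rfl⟩ | ⟨rfl, rfl, rfl, rfl⟩ | ⟨rfl, rfl, rfl, rfl⟩ | ⟨rfl, rfl, rfl, rfl⟩ | ⟨rfl, rfl, rfl, rfl⟩ | ⟨rfl, rfl, rfl, rfl⟩ | ⟨rfl, rfl, rfl, rfl⟩ | ⟨rfl, rfl, rfl, rfl⟩ | ⟨rfl, rfl, rfl, rfl⟩ | ⟨rfl, rfl, rfl, rfl⟩ | ⟨rfl, rfl, rfl, rfl⟩ | ⟨rfl, rfl, rfl, rfl⟩ | ⟨rfl, rfl, rfl, rfl⟩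
  · exact ⟨cert01, cert01_check, rfl, rfl, rfl, rfl⟩
  · exact ⟨cert02, cert02_check, rfl, rfl, rfl, rfl⟩
  · exact ⟨cert03, cert03_check, rfl, rfl, rfl, rfl⟩
  · exact ⟨cert04, cert04_check, rfl, rfl, rfl, rfl⟩
  · exact ⟨cert05, cert05_check, rfl, rfl, rfl, rfl⟩
  · exact ⟨cert06, cert06_check, rfl, rfl, rfl, rfl⟩
  · exact ⟨cert07, cert07_check, rfl, rfl, rfl, rfl⟩
  · exact ⟨cert08, cert08_check, rfl, rfl, rfl, rfl⟩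
  · exact ⟨cert09, cert09_check, rfl, rfl, rfl, rfl⟩
  · exact ⟨cert10, cert10_check, rfl, rfl, rfl, rfl⟩
  · exact ⟨cert11, cert11_check, rfl, rfl, rfl, rfl⟩
  · exact ⟨cert12, cert12_check, rfl, rfl, rfl, rfl⟩
  · exact ⟨cert13, cert13_check, rfl, rfl, rfl, rfl⟩
  · exact ⟨cert14, cert14_check, rfl, rfl, rfl, rfl⟩
  · exact ⟨cert15, cert15_check, rfl, rfl, rfl, rfl⟩
  · exact ⟨cert16, cert16_check, rfl, rfl, rfl, rfl⟩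
  · exact ⟨cert17, cert17_check, rfl, rfl, rfl, rfl⟩
  · exact ⟨cert18, cert18_check, rfl, rfl, rfl, rfl⟩
  · exact ⟨cert19, cert19_check, rfl, rfl, rfl, rfl⟩
  · exact ⟨cert20, cert20_check, rfl, rfl, rfl, rfl⟩
  · exact ⟨cert21, cert21_check, rfl, rfl, rfl, rfl⟩
  · exact ⟨cert22, cert22_check, rfl, rfl, rfl, rfl⟩

end Pool.Agent.Lib.MP36
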