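import Pool.Agent.Lib.MP_36bd7d_h28.ChkEval3

set_option autoImplicit false

open Finset

namespace Pool.Agent.Lib.MP36

noncomputable section

/-! ### Certificates -/

/-- Rows `i = 0, …, n - 1` (row `i` has `i + 1` fields of width `w`), as lists of pairs. -/
def rowsGo (w N n : ℕ) : List SL → List SL :=
  Nat.rec (motive := fun _ => List SL → List SL) (fun acc => acc)
    (fun i ih acc => ih (ofCodes (unpk w (Nat.succ i)
      (Nat.shiftRight N (Nat.mul w (Nat.div (Nat.mul i (Nat.succ i)) 2)))) :: acc)) n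

theorem rowsGo_length (w N n : ℕ) (acc : List SL) :
    (rowsGo w N n acc).length = n + acc.length := by
  induction n generalizing acc with
  | zero => simp [rowsGo]
  | succ n ih =>
    have h : rowsGo w N (n + 1) acc = rowsGo w N n (ofCodes (unpk w (Nat.succ n)
      (Nat.shiftRight N (Nat.mul w (Nat.div (Nat.mul n (Nat.succ n)) 2)))) :: acc) := rfl
    rw [h, ih, List.length_cons]
    ring

/-- The rows of a packed triangular matrix. -/
def rowsS (w n N : ℕ) : List SL := rowsGo w N n []

theorem rowsS_length (w n N : ℕ) : (rowsS w n N).length = n := by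
  rw [rowsS, rowsGo_length]; rfl

/-- A certificate: packed triangular factors of the five matrix blocks, of `YH`, `YD`, of the
multipliers of the top certificate, its relation coefficients, the hyperplane table. -/
structure Cert where
  m0 : ℕ
  m1 : ℕ
  m2 : ℕ
  m3 : ℕ
  m4 : ℕ
  lh : ℕ
  ld : ℕ
  ls : ℕ
  lu : ℕ
  lz : ℕ
  rel : ℕ
  e : ℕ
  lam : ℕ
  k : ℕ
  rho : ℕ
  qa : ℕ
  qb : ℕ

/-- The keys of the hyperplane table. -/
def omKeys : List ℕ := [0, 2, 4, 6, 8, 16, 18, 20, 22, 32, 34, 36, 48, 50, 64, 7, 9, 11, 13, 15, 23]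

/-- The hyperplane table from its packed form. -/
def elOf (keys : List ℕ) : ℕ → EL :=
  List.rec (motive := fun _ => ℕ → EL) (fun _ => EL.nil)
    (fun o _ ih N => force (Nat.mod N 18446744073709551616) fun z1 =>
      force (Nat.mod (Nat.div N 18446744073709551616) 18446744073709551616) fun z2 =>
      EL.cons o (zpos z1) (zneg z1) (zpos z2) (zneg z2)
        (ih (Nat.div N 340282366920938463463374607431768211456))) keys

/-- The rows of the block `σ`. -/
def Cert.rows (C : Cert) (σ : ℕ) : List SL :=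
  if σ = 0 then rowsS 32 27 C.m0
  else if σ = 9 then rowsS 32 13 C.m1
  else if σ = 18 then rowsS 32 9 C.m2
  else if σ = 12 then rowsS 32 10 C.m3
  else if σ = 21 then rowsS 32 7 C.m4
  else []

/-- The row of a class. -/
def Cert.row (C : Cert) (σ k : ℕ) : List ℤ :=
  if k ∈ cls σ then ((C.rows σ).getD ((cls σ).idxOf k) SL.nil).toL else []

/-- All lower triangles. -/
def yOf (R0 R1 R2 R3 R4 : List SL) : SL :=
  triGo R0 [] (triGo R1 [] (triGo R2 [] (triGo R3 [] (triGo R4 [] SL.nil))))

/-- The values of the matrix entries by key. -/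
def Cert.F (C : Cert) (key : ℕ) : ℝ :=
  (((yOf (C.rows 0) (C.rows 9) (C.rows 18) (C.rows 12) (C.rows 21)).toL.getD key 0 : ℤ) : ℝ)

theorem tri_block (R : List SL) (rest : SL) (i j : ℕ) (hi : i < R.length) (hj : j < R.length) :
    (triGo R [] rest).toL.getD (tri i j) 0
      = gdot (R.getD i SL.nil).toL (R.getD j SL.nil).toL := by
  have key : ∀ i j : ℕ, i < R.length → j ≤ i →
      (triGo R [] rest).toL.getD (i * (i + 1) / 2 + j) 0
        = gdot (R.getD i SL.nil).toL (R.getD j SL.nil).toL := by
    intro i j hi hj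
    have h := triGo_get R [] rest i j (i * (i + 1) / 2) hi (by simpa using hj)
      (by
        rw [Nat.two_mul_div_two_of_even (Nat.even_mul_succ_self i)]
        simp)
    simpa using h
  unfold tri
  split_ifs with h
  · exact key i j hi h
  · rw [key j i hj (by omega), gdot_comm]

theorem tri_lt (n i j : ℕ) (hi : i < n) (hj : j < n) : 2 * tri i j < n * (n + 1) := by
  have key : ∀ i j : ℕ, i < n → j ≤ i → 2 * (i * (i + 1) / 2 + j) < n * (n + 1) := by
    intro i j hi hj
    have h1 := Nat.two_mul_div_two_of_even (Nat.even_mul_succ_self i)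
    have h2 : 2 * (i * (i + 1) / 2 + j) = i * (i + 1) + 2 * j := by omega
    rw [h2]
    nlinarith
  unfold tri
  split_ifs with h
  · exact key i j hi h
  · exact key j i hj (by omega)

theorem Cert.F_600 (C : Cert) : C.F 600 = 0 := by
  unfold Cert.F
  have h : (yOf (C.rows 0) (C.rows 9) (C.rows 18) (C.rows 12) (C.rows 21)).toL.length = 597 := by
    have h0 := triGo_length (C.rows 0) [] (triGo (C.rows 9) [] (triGo (C.rows 18) []
      (triGo (C.rows 12) [] (triGo (C.rows 21) [] SL.nil))))
    have h1 := triGo_length (C.rows 9) [] (triGo (C.rows 18) []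
      (triGo (C.rows 12) [] (triGo (C.rows 21) [] SL.nil)))
    have h2 := triGo_length (C.rows 18) [] (triGo (C.rows 12) [] (triGo (C.rows 21) [] SL.nil))
    have h3 := triGo_length (C.rows 12) [] (triGo (C.rows 21) [] SL.nil)
    have h4 := triGo_length (C.rows 21) [] SL.nil
    have l0 : (C.rows 0).length = 27 := by simp [Cert.rows, rowsS_length]
    have l1 : (C.rows 9).length = 13 := by simp [Cert.rows, rowsS_length]
    have l2 : (C.rows 18).length = 9 := by simp [Cert.rows, rowsS_length]
    have l3 : (C.rows 12).length = 10 := by simp [Cert.rows, rowsS_length]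
    have l4 : (C.rows 21).length = 7 := by simp [Cert.rows, rowsS_length]
    rw [l0] at h0
    rw [l1] at h1
    rw [l2] at h2
    rw [l3] at h3
    rw [l4] at h4
    simp only [List.length_nil, SL.toL_nil] at h0 h1 h2 h3 h4
    unfold yOf
    omega
  rw [List.getD_eq_default _ _ (by rw [h]; norm_num)]
  simp

theorem Cert.F_key (C : Cert) (σ k l : ℕ) :
    C.F (keyM σ k l) = ((gdot (C.row σ k) (C.row σ l) : ℤ) : ℝ) := by
  by_cases hkl : k ∈ cls σ ∧ l ∈ cls σ
  · have hk := List.idxOf_lt_length_of_mem hkl.1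
    have hl := List.idxOf_lt_length_of_mem hkl.2
    unfold keyM Cert.row
    rw [if_pos hkl, if_pos hkl.1, if_pos hkl.2]
    set i := (cls σ).idxOf k with hi
    set j := (cls σ).idxOf l with hj
    have l0 : (C.rows 0).length = 27 := by simp [Cert.rows, rowsS_length]
    have l1 : (C.rows 9).length = 13 := by simp [Cert.rows, rowsS_length]
    have l2 : (C.rows 18).length = 9 := by simp [Cert.rows, rowsS_length]
    have l3 : (C.rows 12).length = 10 := by simp [Cert.rows, rowsS_length]
    have l4 : (C.rows 21).length = 7 := by simp [Cert.rows, rowsS_length]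
    unfold Cert.F yOf
    congr 1
    by_cases s0 : σ = 0
    · subst s0
      have e : offs 0 = 0 := rfl
      rw [e, Nat.zero_add]
      exact tri_block _ _ i j (by rw [l0]; exact hk) (by rw [l0]; exact hl)
    by_cases s1 : σ = 9
    · subst s1
      have e : offs 9 = 378 := rfl
      rw [e, triGo_rest _ _ _ 378 _ (by rw [l0]; rfl)]
      exact tri_block _ _ i j (by rw [l1]; exact hk) (by rw [l1]; exact hl)
    by_cases s2 : σ = 18
    · subst s2
      have e : offs 18 = 378 + 91 := rfl
      rw [e, Nat.add_assoc, triGo_rest _ _ _ 378 _ (by rw [l0]; rfl),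
        triGo_rest _ _ _ 91 _ (by rw [l1]; rfl)]
      exact tri_block _ _ i j (by rw [l2]; exact hk) (by rw [l2]; exact hl)
    by_cases s3 : σ = 12
    · subst s3
      have e : offs 12 = 378 + (91 + 45) := rfl
      rw [e, Nat.add_assoc, Nat.add_assoc, triGo_rest _ _ _ 378 _ (by rw [l0]; rfl),
        triGo_rest _ _ _ 91 _ (by rw [l1]; rfl), triGo_rest _ _ _ 45 _ (by rw [l2]; rfl)]
      exact tri_block _ _ i j (by rw [l3]; exact hk) (by rw [l3]; exact hl)
    by_cases s4 : σ = 21
    · subst s4
      have e : offs 21 = 378 + (91 + (45 + 55)) := rfl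
      rw [e, Nat.add_assoc, Nat.add_assoc, Nat.add_assoc,
        triGo_rest _ _ _ 378 _ (by rw [l0]; rfl),
        triGo_rest _ _ _ 91 _ (by rw [l1]; rfl), triGo_rest _ _ _ 45 _ (by rw [l2]; rfl),
        triGo_rest _ _ _ 55 _ (by rw [l3]; rfl)]
      exact tri_block _ _ i j (by rw [l4]; exact hk) (by rw [l4]; exact hl)
    · exfalso
      have : cls σ = [] := by simp [cls, s0, s1, s2, s3, s4]
      rw [this] at hkl
      simp at hkl
  · have h1 : keyM σ k l = 600 := by unfold keyM; rw [if_neg hkl]
    rw [h1, C.F_600]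
    unfold Cert.row
    by_cases hk : k ∈ cls σ
    · have hl : l ∉ cls σ := fun h => hkl ⟨hk, h⟩
      rw [if_neg hl]
      simp
    · rw [if_neg hk]
      simp

/-! ### Evaluation of a leaf -/

/-- The final comparison at one end point. -/
def finOK (rho lam k mp mn xp xn zp zn tp tn up un vp vn ap an bp bn cp cn qn : ℕ) : Bool :=
  force (Nat.sub (Nat.mul 8 qn) 100000) fun D =>
  force (Nat.add (Nat.mul 8 qn) 100000) fun S =>
  Nat.ble (Nat.succ
    (Nat.add (Nat.add
      (Nat.mul 800000000 (Nat.add (Nat.add (Nat.add (Nat.mul 32 mp) tp) (Nat.add up vn))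
        (Nat.add (Nat.mul 168 (Nat.add ap cn)) (Nat.mul 20160 (Nat.mul lam k)))))
      (Nat.mul (Nat.mul rho D) (Nat.add xp zn)))
      (Nat.add (Nat.mul (Nat.mul 1000 S) zn) (Nat.mul (Nat.mul 1344000 D) bn))))
    (Nat.add (Nat.add
      (Nat.mul 800000000 (Nat.add (Nat.add (Nat.add (Nat.mul 32 mn) tn) (Nat.add un vp))
        (Nat.mul 168 (Nat.add an cp))))
      (Nat.mul (Nat.mul rho D) (Nat.add xn zp)))
      (Nat.add (Nat.mul (Nat.mul 1000 S) zp) (Nat.mul (Nat.mul 1344000 D) bp)))

/-- Evaluation of one leaf. -/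
def leafOK (rho lam k qa qb : ℕ) (Y HL DL : SL) (L : EL) (t : Feat) : Bool :=
  evM t.m Y 0 0 fun mp mn =>
  evH HL t.X 0 0 fun xp xn => evH HL t.Z 0 0 fun zp zn => evH HL t.T 0 0 fun tp tn =>
  evH DL t.X 0 0 fun up un => evH DL t.Z 0 0 fun vp vn =>
  evE L t.e 0 0 0 0 0 0 fun ap an bp bn cp cn =>
  cnd (finOK rho lam k mp mn xp xn zp zn tp tn up un vp vn ap an bp bn cp cn qa)
    (finOK rho lam k mp mn xp xn zp zn tp tn up un vp vn ap an bp bn cp cn qb) false

/-- All leaves of a list. -/
def allF (f : Feat → Bool) (l : List Feat) : Bool :=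
  List.rec (motive := fun _ => Bool) true (fun t _ ih => cnd (f t) ih false) l

theorem allF_spec (f : Feat → Bool) (l : List Feat) (h : allF f l = true) : ∀ t ∈ l, f t = true := by
  induction l with
  | nil => simp
  | cons t l ih =>
    have h1 : allF f (t :: l) = cnd (f t) (allF f l) false := rfl
    rw [h1, cnd_eq] at h
    by_cases hf : f t = true
    · rw [hf] at h
      intro s hs
      rcases List.mem_cons.1 hs with rfl | hs
      · exact hf
      · exact ih h s hs
    · simp [hf] at h

/-- The check of all leaves. -/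
def Cert.leafCheck (C : Cert) : Bool :=
  deepR (rowsS 32 27 C.m0) fun R0 => deepR (rowsS 32 13 C.m1) fun R1 =>
  deepR (rowsS 32 9 C.m2) fun R2 => deepR (rowsS 32 10 C.m3) fun R3 =>
  deepR (rowsS 32 7 C.m4) fun R4 => deepS (yOf R0 R1 R2 R3 R4) fun Y =>
  deepR (rowsS 32 6 C.lh) fun RH => deepS (sqL RH RH) fun HL =>
  deepR (rowsS 32 6 C.ld) fun RD => deepS (sqL RD RD) fun DL =>
  deepE (elOf omKeys C.e) fun L =>
  cnd (Nat.ble 12500 C.qa) (cnd (Nat.ble C.qa C.qb) (cnd (Nat.ble C.rho 1000)
    (allF (leafOK C.rho C.lam C.k C.qa C.qb Y HL DL L) ltab) false) false) false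

/-- The check of the top certificate. -/
def Cert.topOK (C : Cert) : Bool :=
  cnd (Nat.beq C.rho 1000) true
    (topCheck C.qa C.qb C.rho C.lam ((rowsS 32 6 C.lh).map SL.toL) ((rowsS 32 6 C.ld).map SL.toL)
      ((rowsS 32 3 C.ls).map SL.toL) ((rowsS 32 3 C.lu).map SL.toL)
      ((unpk 64 6 C.rel).map zval) ((rowsS 64 7 C.lz).map SL.toL))

/-- The whole check. -/
def Cert.check (C : Cert) : Bool := cnd C.leafCheck C.topOK false

end

end Pool.Agent.Lib.MP36
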