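import Pool.Agent.Lib.MP_36bd7d_h28.Defs2

set_option autoImplicit false

open Finset

namespace Pool.Agent.Lib.MP36

/-! ### Kernel friendly helpers -/

/-- Evaluate the argument first (in the kernel), then continue. -/
@[reducible] def force {α : Type} (n : ℕ) (f : ℕ → α) : α :=
  Nat.rec (motive := fun _ => α) (f 0) (fun m _ => f (Nat.succ m)) n

theorem force_eq {α : Type} (n : ℕ) (f : ℕ → α) : force n f = f n := by cases n <;> rfl

/-- Boolean choice. -/
@[reducible] def cnd {α : Type} (b : Bool) (x y : α) : α :=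
  Bool.rec (motive := fun _ => α) y x b

theorem cnd_eq {α : Type} (b : Bool) (x y : α) : cnd b x y = if b then x else y := by
  cases b <;> rfl

/-- Sum over `k < n`. -/
def rsum (n : ℕ) (f : ℕ → ℕ) : ℕ :=
  Nat.rec (motive := fun _ => ℕ) 0 (fun k ih => Nat.add ih (f k)) n

theorem rsum_eq (n : ℕ) (f : ℕ → ℕ) : rsum n f = ∑ k ∈ range n, f k := by
  induction n with
  | zero => rfl
  | succ n ih => rw [Finset.sum_range_succ, ← ih]; rfl

/-- The first `n` fields of width `w` bits of `N`. -/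
def unpk (w n : ℕ) : ℕ → List ℕ :=
  Nat.rec (motive := fun _ => ℕ → List ℕ) (fun _ => [])
    (fun _ ih N => force (Nat.land N (Nat.sub (Nat.shiftLeft 1 w) 1)) fun c =>
      c :: ih (Nat.shiftRight N w)) n

/-! ### The table format -/

/-- Features of a leaf: `N` the packed code, `mp` packed list (fields of 20 bits, `nm` of them) of
`cnt + 1024 * gap`, `X`, `T`, `Z` packed `6 × 6` matrices (fields of 18 bits, entry `a, b` in field
`6 a + b`), `ep` packed list (15 fields of 16 bits) of `om + 256 n1 + 4096 n2`. -/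
structure Feat where
  N : ℕ
  nm : ℕ
  mp : ℕ
  X : ℕ
  T : ℕ
  Z : ℕ
  ep : ℕ

/-- The list of `cnt + 1024 * gap`. -/
def Feat.m (t : Feat) : List ℕ := unpk 20 t.nm t.mp

/-- The list of `om + 256 n1 + 4096 n2`. -/
def Feat.e (t : Feat) : List ℕ := unpk 16 15 t.ep

/-- Field `i` of width 18 bits. -/
def d18 (X i : ℕ) : ℕ := (X / 2 ^ (18 * i)) % 2 ^ 18

/-- Linear functional of the matrix part: an entry `cnt + 1024 * gap` skips `gap` positions and
contributes `cnt * F position`. -/
noncomputable def evalG (F : ℕ → ℝ) : List ℕ → ℕ → ℝ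
  | [], _ => 0
  | e :: l, pos => ((e % 1024 : ℕ) : ℝ) * F (pos + e / 1024) + evalG F l (pos + e / 1024 + 1)

/-! ### Keys of the matrix entries -/

/-- The classes of the root block `σ` (`σ = c x + 3 c y + 9 c (x + y)`). -/
def cls (σ : ℕ) : List ℕ :=
  if σ = 0 then [0, 1, 2, 4, 5, 8, 10, 11, 12, 13, 14, 15, 16, 17, 20, 22, 23, 24, 25, 26, 40, 41,
    44, 50, 52, 53, 80]
  else if σ = 9 then [0, 1, 2, 4, 5, 8, 10, 11, 12, 13, 14, 20, 40]
  else if σ = 18 then [0, 1, 2, 4, 5, 8, 10, 11, 20]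
  else if σ = 12 then [0, 1, 2, 4, 5, 8, 10, 12, 13, 40]
  else if σ = 21 then [0, 1, 2, 4, 5, 8, 10]
  else []

/-- Offset of the root block `σ`. -/
def offs (σ : ℕ) : ℕ :=
  if σ = 0 then 0 else if σ = 9 then 378 else if σ = 18 then 469 else if σ = 12 then 514 else 569

/-- Triangular index. -/
def tri (i j : ℕ) : ℕ := if j ≤ i then i * (i + 1) / 2 + j else j * (j + 1) / 2 + i

/-- Key of the matrix entry `MM σ k l`; `600` is the key of an entry which is not used. -/
def keyM (σ k l : ℕ) : ℕ :=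
  if k ∈ cls σ ∧ l ∈ cls σ then offs σ + tri ((cls σ).idxOf k) ((cls σ).idxOf l) else 600

end Pool.Agent.Lib.MP36
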