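import Pool.Agent.Lib.MP_36bd7d_h28.Defs

set_option autoImplicit false

open Finset

namespace Pool.Agent.Lib.MP36

/-! ## Gram matrices of integer vectors -/

/-- Inner product of two integer vectors (cut off at the shorter length). -/
def gdot : List ℤ → List ℤ → ℤ
  | a :: l, b :: m => a * b + gdot l m
  | _, _ => 0

@[simp] theorem gdot_nil_left (m : List ℤ) : gdot [] m = 0 := by
  cases m <;> rfl

@[simp] theorem gdot_nil_right (l : List ℤ) : gdot l [] = 0 := by
  cases l <;> rfl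

theorem gdot_comm (l m : List ℤ) : gdot l m = gdot m l := by
  induction l generalizing m with
  | nil => simp
  | cons a l ih =>
    cases m with
    | nil => simp
    | cons b m => simp only [gdot]; rw [ih m]; ring

theorem gdot_eq_sum (l m : List ℤ) (N : ℕ) (h : l.length ≤ N) :
    gdot l m = ∑ t ∈ range N, l.getD t 0 * m.getD t 0 := by
  induction l generalizing m N with
  | nil => simp
  | cons a l ih =>
    cases N with
    | zero => simp at h
    | succ N =>
      rw [Finset.sum_range_succ']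
      cases m with
      | nil => simp
      | cons b m =>
        simp only [gdot, List.getD_cons_succ, List.getD_cons_zero]
        rw [ih m N (by simpa using h)]
        ring

/-- A Gram matrix is positive semidefinite. -/
theorem gram_nonneg {ι : Type*} (s : Finset ι) (f : ι → List ℤ) (w : ι → ℝ) :
    0 ≤ ∑ k ∈ s, ∑ l ∈ s, ((gdot (f k) (f l) : ℤ) : ℝ) * (w k * w l) := by
  obtain ⟨N, hN⟩ : ∃ N, ∀ k ∈ s, (f k).length ≤ N :=
    ⟨s.sup fun k => (f k).length, fun k hk => Finset.le_sup (f := fun k => (f k).length) hk⟩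
  have h1 : ∑ k ∈ s, ∑ l ∈ s, ((gdot (f k) (f l) : ℤ) : ℝ) * (w k * w l) =
      ∑ t ∈ range N, (∑ k ∈ s, (((f k).getD t 0 : ℤ) : ℝ) * w k) ^ 2 := by
    have h2 : ∀ k ∈ s, ∀ l ∈ s, ((gdot (f k) (f l) : ℤ) : ℝ) * (w k * w l) =
        ∑ t ∈ range N, ((((f k).getD t 0 : ℤ) : ℝ) * w k) * ((((f l).getD t 0 : ℤ) : ℝ) * w l) := by
      intro k hk l _
      rw [gdot_eq_sum _ _ N (hN k hk)]
      push_cast
      rw [Finset.sum_mul]
      exact Finset.sum_congr rfl fun t _ => by ring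
    calc ∑ k ∈ s, ∑ l ∈ s, ((gdot (f k) (f l) : ℤ) : ℝ) * (w k * w l)
        = ∑ k ∈ s, ∑ l ∈ s, ∑ t ∈ range N,
            ((((f k).getD t 0 : ℤ) : ℝ) * w k) * ((((f l).getD t 0 : ℤ) : ℝ) * w l) :=
          Finset.sum_congr rfl fun k hk => Finset.sum_congr rfl fun l hl => h2 k hk l hl
      _ = ∑ k ∈ s, ∑ t ∈ range N, ∑ l ∈ s,
            ((((f k).getD t 0 : ℤ) : ℝ) * w k) * ((((f l).getD t 0 : ℤ) : ℝ) * w l) :=
          Finset.sum_congr rfl fun k _ => Finset.sum_comm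
      _ = ∑ t ∈ range N, ∑ k ∈ s, ∑ l ∈ s,
            ((((f k).getD t 0 : ℤ) : ℝ) * w k) * ((((f l).getD t 0 : ℤ) : ℝ) * w l) :=
          Finset.sum_comm
      _ = _ := by
          refine Finset.sum_congr rfl fun t _ => ?_
          rw [sq, Finset.sum_mul_sum]
  rw [h1]
  exact Finset.sum_nonneg fun t _ => sq_nonneg _

/-- Matrix of a list of rows, as a real `6 × 6` matrix. -/
noncomputable def gmat (L : List (List ℤ)) (a b : Fin 6) : ℝ :=
  ((gdot (L.getD a []) (L.getD b []) : ℤ) : ℝ)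

theorem quad_gmat_nonneg (L : List (List ℤ)) (x : Fin 6 → ℝ) : 0 ≤ quad (gmat L) x :=
  gram_nonneg Finset.univ (fun a : Fin 6 => L.getD a []) x

/-! ## Diagonally dominant matrices -/

theorem dominant_nonneg (n : ℕ) (R : ℕ → ℕ → ℤ)
    (hs : ∀ i ∈ range n, ∀ j ∈ range n, R i j = R j i)
    (hd : ∀ i ∈ range n, (∑ j ∈ range n, if i = j then 0 else |R i j|) ≤ R i i) (z : ℕ → ℝ) :
    0 ≤ ∑ i ∈ range n, ∑ j ∈ range n, (R i j : ℝ) * (z i * z j) := by
  set a : ℕ → ℕ → ℝ := fun i j => if i = j then 0 else |(R i j : ℝ)| with ha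
  have ha0 : ∀ i j, 0 ≤ a i j := by
    intro i j
    simp only [ha]
    split_ifs
    · exact le_rfl
    · exact abs_nonneg _
  have has : ∀ i ∈ range n, ∀ j ∈ range n, a i j = a j i := by
    intro i hi j hj
    simp only [ha]
    by_cases h : i = j
    · subst h; rfl
    · rw [if_neg h, if_neg (Ne.symm h), hs i hi j hj]
  have h1 : ∀ i ∈ range n, ∀ j ∈ range n,
      (if i = j then (R i i : ℝ) * z i ^ 2 else 0) - (a i j * z i ^ 2 / 2 + a i j * z j ^ 2 / 2) ≤
        (R i j : ℝ) * (z i * z j) := by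
    intro i _ j _
    simp only [ha]
    by_cases h : i = j
    · subst h
      simp only [if_true]
      nlinarith
    · rw [if_neg h, if_neg h]
      have h2 := neg_abs_le ((R i j : ℝ) * (z i * z j))
      rw [abs_mul] at h2
      have h3 : |z i * z j| ≤ (z i ^ 2 + z j ^ 2) / 2 := by
        rw [abs_le]
        constructor
        · nlinarith [sq_nonneg (z i + z j)]
        · nlinarith [sq_nonneg (z i - z j)]
      have h4 := mul_le_mul_of_nonneg_left h3 (abs_nonneg (R i j : ℝ))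
      linarith
  have h5 : ∑ i ∈ range n, ∑ j ∈ range n, a i j * z j ^ 2 / 2 =
      ∑ i ∈ range n, ∑ j ∈ range n, a i j * z i ^ 2 / 2 := by
    rw [Finset.sum_comm]
    exact Finset.sum_congr rfl fun i hi => Finset.sum_congr rfl fun j hj => by rw [has i hi j hj]
  have h6 : ∑ i ∈ range n, ∑ j ∈ range n,
      ((if i = j then (R i i : ℝ) * z i ^ 2 else 0) -
        (a i j * z i ^ 2 / 2 + a i j * z j ^ 2 / 2)) =
      ∑ i ∈ range n, ((R i i : ℝ) - ∑ j ∈ range n, a i j) * z i ^ 2 := by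
    simp only [Finset.sum_sub_distrib, Finset.sum_add_distrib]
    rw [h5, ← Finset.sum_add_distrib, ← Finset.sum_sub_distrib]
    refine Finset.sum_congr rfl fun i hi => ?_
    rw [Finset.sum_ite_eq, if_pos hi, sub_mul, Finset.sum_mul, ← Finset.sum_add_distrib]
    congr 1
    exact Finset.sum_congr rfl fun j _ => by ring
  refine le_trans ?_ (Finset.sum_le_sum fun i hi => Finset.sum_le_sum fun j hj => h1 i hi j hj)
  rw [h6]
  refine Finset.sum_nonneg fun i hi => mul_nonneg ?_ (sq_nonneg _)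
  have h7 := hd i hi
  have h8 : ∑ j ∈ range n, a i j = ((∑ j ∈ range n, if i = j then 0 else |R i j| : ℤ) : ℝ) := by
    push_cast
    refine Finset.sum_congr rfl fun j _ => ?_
    simp only [ha]
  rw [h8]
  have h9 : ((∑ j ∈ range n, if i = j then 0 else |R i j| : ℤ) : ℝ) ≤ ((R i i : ℤ) : ℝ) := by
    exact_mod_cast h7
  linarith

/-! ## The matrix of the top certificate -/

/-- Four times the integer matrix of the top certificate in the basis
`1, x, y, x ^ 2, 2 x y, y ^ 2, t`. -/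
def zmat (K c d1 d2 lam : ℤ) (yd yh s u : ℕ → ℕ → ℤ) (r : ℕ → ℤ) : List (List ℤ) :=
  let A := fun i j => 4 * (K * yd i j - c * yh i j)
  let c0 := d2 * s 0 0 - d1 * u 0 0
  let cx := 2 * d2 * s 0 1 + K * s 0 0 - 2 * d1 * u 0 1 - K * u 0 0
  let cy := 2 * d2 * s 0 2 + K * s 0 0 - 2 * d1 * u 0 2 - K * u 0 0
  let cxx := d2 * s 1 1 + 2 * K * s 0 1 - d1 * u 1 1 - 2 * K * u 0 1
  let cxy := 2 * d2 * s 1 2 + 2 * K * (s 0 1 + s 0 2) - 2 * d1 * u 1 2 - 2 * K * (u 0 1 + u 0 2)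
  let cyy := d2 * s 2 2 + 2 * K * s 0 2 - d1 * u 2 2 - 2 * K * u 0 2
  let cxxx := K * (s 1 1 - u 1 1)
  let cxxy := K * (2 * s 1 2 + s 1 1 - 2 * u 1 2 - u 1 1)
  let cxyy := K * (2 * s 1 2 + s 2 2 - 2 * u 1 2 - u 2 2)
  let cyyy := K * (s 2 2 - u 2 2)
  [[4 * (K * lam - c0), -2 * cx, -2 * cy, 2 * K * r 0, K * r 1, 2 * K * r 2, 0],
   [-2 * cx, A 0 0 - 4 * cxx - 4 * K * r 0, A 0 1 - 2 * cxy - 2 * K * r 1, A 0 2 - 2 * cxxx,
    A 0 3 + K * r 3, A 0 4 - 2 * cxyy + 2 * K * r 4, A 0 5],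
   [-2 * cy, A 1 0 - 2 * cxy - 2 * K * r 1, A 1 1 - 4 * cyy - 4 * K * r 2,
    A 1 2 - 2 * cxxy - 2 * K * r 3, A 1 3 - K * r 4, A 1 4 - 2 * cyyy, A 1 5],
   [2 * K * r 0, A 2 0 - 2 * cxxx, A 2 1 - 2 * cxxy - 2 * K * r 3, A 2 2, A 2 3,
    A 2 4 + 2 * K * r 5, A 2 5],
   [K * r 1, A 3 0 + K * r 3, A 3 1 - K * r 4, A 3 2, A 3 3 - K * r 5, A 3 4, A 3 5],
   [2 * K * r 2, A 4 0 - 2 * cxyy + 2 * K * r 4, A 4 1 - 2 * cyyy, A 4 2 + 2 * K * r 5, A 4 3,
    A 4 4, A 4 5],
   [0, A 5 0, A 5 1, A 5 2, A 5 3, A 5 4, A 5 5]]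

/-- Entry of a matrix given by its rows. -/
def gent (L : List (List ℤ)) (i j : ℕ) : ℤ := (L.getD i []).getD j 0

/-- The vector `1, x, y, x ^ 2, 2 x y, y ^ 2, t`. -/
def zvec (x y t : ℝ) (i : ℕ) : ℝ := [1, x, y, x ^ 2, 2 * x * y, y ^ 2, t].getD i 0

theorem zmat_form (K c d1 d2 lam : ℤ) (yd yh s u : ℕ → ℕ → ℤ) (r : ℕ → ℤ) (x y t : ℝ) :
    ∑ i ∈ range 7, ∑ j ∈ range 7,
      (gent (zmat K c d1 d2 lam yd yh s u r) i j : ℝ) * (zvec x y t i * zvec x y t j) =
    4 * (K * lam + K * quad (fun a b => (yd a b : ℝ)) (hv x y t) -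
      c * quad (fun a b => (yh a b : ℝ)) (hv x y t) -
      (d2 + K * (x + y)) * (s 0 0 + 2 * s 0 1 * x + 2 * s 0 2 * y + s 1 1 * x ^ 2 +
        2 * s 1 2 * (x * y) + s 2 2 * y ^ 2) -
      (-d1 - K * (x + y)) * (u 0 0 + 2 * u 0 1 * x + 2 * u 0 2 * y + u 1 1 * x ^ 2 +
        2 * u 1 2 * (x * y) + u 2 2 * y ^ 2)) := by
  simp only [Finset.sum_range_succ, Finset.sum_range_zero, gent, zmat, zvec, quad, hv,
    Fin.sum_univ_succ, Fin.sum_univ_zero, List.getD_cons_succ, List.getD_cons_zero]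
  simp
  ring

/-- Row sum of the absolute values off the diagonal. -/
def topRsum (R : ℕ → ℕ → ℤ) (i : ℕ) : List ℕ → ℤ
  | [] => 0
  | j :: l => (if i = j then 0 else ((R i j).natAbs : ℤ)) + topRsum R i l

/-- The matrix `zmat` of a certificate minus the Gram matrix of the rows `LZ`. -/
def zres (qa qb rho lam : ℤ) (LH LD LS LU : List (List ℤ)) (r : List ℤ) (LZ : List (List ℤ))
    (i j : ℕ) : ℤ :=
  gent (zmat 800000000 ((1000 - rho) * (8 * qb - 100000)) (rho * (8 * qa - 100000))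
    (1000 * (8 * qb - 100000)) lam (fun i j => gdot (LD.getD i []) (LD.getD j []))
    (fun i j => gdot (LH.getD i []) (LH.getD j [])) (fun i j => gdot (LS.getD i []) (LS.getD j []))
    (fun i j => gdot (LU.getD i []) (LU.getD j [])) (fun i => r.getD i 0)) i j -
  gdot (LZ.getD i []) (LZ.getD j [])

/-- Check of the top certificate. -/
def topCheck (qa qb rho lam : ℤ) (LH LD LS LU : List (List ℤ)) (r : List ℤ)
    (LZ : List (List ℤ)) : Bool :=
  [0, 1, 2, 3, 4, 5, 6].all fun i =>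
    decide (topRsum (zres qa qb rho lam LH LD LS LU r LZ) i [0, 1, 2, 3, 4, 5, 6] ≤
      zres qa qb rho lam LH LD LS LU r LZ i i) &&
    [0, 1, 2, 3, 4, 5, 6].all fun j =>
      decide (zres qa qb rho lam LH LD LS LU r LZ i j = zres qa qb rho lam LH LD LS LU r LZ j i)

theorem s_form_nonneg (L : List (List ℤ)) (x y : ℝ) :
    0 ≤ ((gdot (L.getD 0 []) (L.getD 0 []) : ℤ) : ℝ) +
      2 * (gdot (L.getD 0 []) (L.getD 1 []) : ℤ) * x +
      2 * (gdot (L.getD 0 []) (L.getD 2 []) : ℤ) * y +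
      (gdot (L.getD 1 []) (L.getD 1 []) : ℤ) * x ^ 2 +
      2 * (gdot (L.getD 1 []) (L.getD 2 []) : ℤ) * (x * y) +
      (gdot (L.getD 2 []) (L.getD 2 []) : ℤ) * y ^ 2 := by
  have h := gram_nonneg (range 3) (fun i => L.getD i []) (fun i => [1, x, y].getD i 0)
  simp only [Finset.sum_range_succ, Finset.sum_range_zero, List.getD_cons_succ,
    List.getD_cons_zero] at h
  rw [gdot_comm (L.getD 1 []) (L.getD 0 []), gdot_comm (L.getD 2 []) (L.getD 0 []),
    gdot_comm (L.getD 2 []) (L.getD 1 [])] at h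
  linarith

theorem htop_of_check (qa qb rho : ℕ) (lam : ℤ) (LH LD LS LU : List (List ℤ)) (r : List ℤ)
    (LZ : List (List ℤ)) (h : topCheck qa qb rho lam LH LD LS LU r LZ = true) (x y t : ℝ)
    (h1 : 0 ≤ ((qb : ℝ) / 100000 - 1 / 8) + x + y)
    (h2 : x + y ≤ -((rho : ℝ) / 1000 * ((qa : ℝ) / 100000 - 1 / 8))) :
    0 ≤ (lam : ℝ) + quad (gmat LD) (hv x y t) -
      (1 - (rho : ℝ) / 1000) * ((qb : ℝ) / 100000 - 1 / 8) * quad (gmat LH) (hv x y t) := by
  set R := zres qa qb rho lam LH LD LS LU r LZ with hR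
  simp only [topCheck, List.all_eq_true, Bool.and_eq_true, decide_eq_true_eq] at h
  have hmem : ∀ i ∈ range 7, i ∈ [0, 1, 2, 3, 4, 5, 6] := by
    intro i hi
    rw [Finset.mem_range] at hi
    interval_cases i <;> simp
  have h3 := dominant_nonneg 7 R (fun i hi j hj => (h i (hmem i hi)).2 j (hmem j hj))
    (fun i hi => by
      refine le_trans (le_of_eq ?_) (h i (hmem i hi)).1
      simp only [topRsum, Finset.sum_range_succ, Finset.sum_range_zero, Int.natCast_natAbs]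
      ring) (zvec x y t)
  have h4 := gram_nonneg (range 7) (fun i => LZ.getD i []) (zvec x y t)
  have h5 := zmat_form 800000000 ((1000 - rho) * (8 * qb - 100000)) (rho * (8 * qa - 100000))
    (1000 * (8 * qb - 100000)) lam (fun i j => gdot (LD.getD i []) (LD.getD j []))
    (fun i j => gdot (LH.getD i []) (LH.getD j [])) (fun i j => gdot (LS.getD i []) (LS.getD j []))
    (fun i j => gdot (LU.getD i []) (LU.getD j [])) (fun i => r.getD i 0) x y t
  have h6 : ∑ i ∈ range 7, ∑ j ∈ range 7, (R i j : ℝ) * (zvec x y t i * zvec x y t j) +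
      ∑ i ∈ range 7, ∑ j ∈ range 7,
        ((gdot (LZ.getD i []) (LZ.getD j []) : ℤ) : ℝ) * (zvec x y t i * zvec x y t j) =
      ∑ i ∈ range 7, ∑ j ∈ range 7,
      (gent (zmat 800000000 ((1000 - rho) * (8 * qb - 100000)) (rho * (8 * qa - 100000))
        (1000 * (8 * qb - 100000)) lam (fun i j => gdot (LD.getD i []) (LD.getD j []))
        (fun i j => gdot (LH.getD i []) (LH.getD j []))
        (fun i j => gdot (LS.getD i []) (LS.getD j []))
        (fun i j => gdot (LU.getD i []) (LU.getD j [])) (fun i => r.getD i 0)) i j : ℝ) *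
        (zvec x y t i * zvec x y t j) := by
    rw [← Finset.sum_add_distrib]
    refine Finset.sum_congr rfl fun i _ => ?_
    rw [← Finset.sum_add_distrib]
    refine Finset.sum_congr rfl fun j _ => ?_
    simp only [hR, zres]
    push_cast
    ring
  have h7 := s_form_nonneg LS x y
  have h8 := s_form_nonneg LU x y
  rw [h5] at h6
  have h9 : 0 ≤ 800000000 * (((qb : ℝ) / 100000 - 1 / 8) + x + y) := by linarith
  have h10 : 0 ≤ 800000000 * (-((rho : ℝ) / 1000 * ((qa : ℝ) / 100000 - 1 / 8)) - (x + y)) := by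
    linarith
  have h11 := mul_nonneg h9 h7
  have h12 := mul_nonneg h10 h8
  have h13 : 0 ≤ 800000000 * ((lam : ℝ) + quad (gmat LD) (hv x y t) -
      (1 - (rho : ℝ) / 1000) * ((qb : ℝ) / 100000 - 1 / 8) * quad (gmat LH) (hv x y t)) := by
    have hq1 : quad (fun a b : Fin 6 => ((gdot (LD.getD a []) (LD.getD b []) : ℤ) : ℝ))
        (hv x y t) = quad (gmat LD) (hv x y t) := rfl
    have hq2 : quad (fun a b : Fin 6 => ((gdot (LH.getD a []) (LH.getD b []) : ℤ) : ℝ))
        (hv x y t) = quad (gmat LH) (hv x y t) := rfl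
    rw [hq1, hq2] at h6
    push_cast at h6
    linarith
  linarith

/-- The certificates without near-top characters. -/
theorem htop_trivial (qb : ℕ) (lam : ℤ) (hl : 0 ≤ lam) (LH LD : List (List ℤ)) (x y t : ℝ) :
    0 ≤ (lam : ℝ) + quad (gmat LD) (hv x y t) -
      (1 - ((1000 : ℕ) : ℝ) / 1000) * ((qb : ℝ) / 100000 - 1 / 8) *
        quad (gmat LH) (hv x y t) := by
  have h1 := quad_gmat_nonneg LD (hv x y t)
  have h2 : (0 : ℝ) ≤ lam := by exact_mod_cast hl
  have h3 : (1 : ℝ) - ((1000 : ℕ) : ℝ) / 1000 = 0 := by norm_num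
  rw [h3, zero_mul, zero_mul]
  linarith

end Pool.Agent.Lib.MP36
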