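import Pool.Agent.Lib.MP_36bd7d_h28.ChkDefs
import Pool.Agent.Lib.MP_36bd7d_h28.Top

set_option autoImplicit false

open Finset

namespace Pool.Agent.Lib.MP36

noncomputable section

/-! ### Signed numbers as pairs of naturals -/

/-- Positive part of a zigzag code. -/
def zpos (z : ℕ) : ℕ := cnd (Nat.beq (Nat.land z 1) 0) (Nat.shiftRight z 1) 0

/-- Negative part of a zigzag code. -/
def zneg (z : ℕ) : ℕ := cnd (Nat.beq (Nat.land z 1) 0) 0 (Nat.shiftRight z 1)

/-- Value of a zigzag code. -/
def zval (z : ℕ) : ℤ := (zpos z : ℤ) - (zneg z : ℤ)

/-- Lists of signed numbers, given as pairs. -/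
inductive SL : Type
  | nil : SL
  | cons : ℕ → ℕ → SL → SL

/-- The integer list of a list of pairs. -/
def SL.toL : SL → List ℤ
  | SL.nil => []
  | SL.cons p n t => ((p : ℤ) - (n : ℤ)) :: SL.toL t

/-- Length. -/
theorem SL.toL_nil : SL.nil.toL = [] := rfl

theorem SL.toL_cons (p n : ℕ) (t : SL) : (SL.cons p n t).toL = ((p : ℤ) - (n : ℤ)) :: t.toL := rfl

/-- From codes. -/
def ofCodes (l : List ℕ) : SL :=
  List.rec (motive := fun _ => SL) SL.nil (fun z _ ih => SL.cons (zpos z) (zneg z) ih) l

theorem toL_ofCodes (l : List ℕ) : (ofCodes l).toL = l.map zval := by
  induction l with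
  | nil => rfl
  | cons z l ih => simp only [List.map_cons]; rw [← ih]; rfl

/-- Evaluate all entries first. -/
def deepS {α : Type} (l : SL) : (SL → α) → α :=
  SL.rec (motive := fun _ => (SL → α) → α) (fun k => k SL.nil)
    (fun p n _ ih k => force p fun p' => force n fun n' => ih (fun t' => k (SL.cons p' n' t'))) l

theorem deepS_eq {α : Type} (l : SL) (k : SL → α) : deepS l k = k l := by
  induction l generalizing k with
  | nil => rfl
  | cons p n t ih =>
    show force p (fun p' => force n fun n' => deepS t (fun t' => k (SL.cons p' n' t'))) = _
    rw [force_eq, force_eq, ih]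

/-- Evaluate all rows first. -/
def deepR {α : Type} (l : List SL) : (List SL → α) → α :=
  List.rec (motive := fun _ => (List SL → α) → α) (fun k => k [])
    (fun r _ ih k => deepS r fun r' => ih (fun t' => k (r' :: t'))) l

theorem deepR_eq {α : Type} (l : List SL) (k : List SL → α) : deepR l k = k l := by
  induction l generalizing k with
  | nil => rfl
  | cons r t ih =>
    show deepS r (fun r' => deepR t (fun t' => k (r' :: t'))) = _
    rw [deepS_eq, ih]

/-- Positive part of the inner product. -/
def dp (l : SL) : SL → ℕ :=
  SL.rec (motive := fun _ => SL → ℕ) (fun _ => 0)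
    (fun a b _ ih l' => SL.rec (motive := fun _ => ℕ) 0
      (fun c d t' _ => Nat.add (Nat.add (Nat.mul a c) (Nat.mul b d)) (ih t')) l') l

/-- Negative part of the inner product. -/
def dn (l : SL) : SL → ℕ :=
  SL.rec (motive := fun _ => SL → ℕ) (fun _ => 0)
    (fun a b _ ih l' => SL.rec (motive := fun _ => ℕ) 0
      (fun c d t' _ => Nat.add (Nat.add (Nat.mul a d) (Nat.mul b c)) (ih t')) l') l

theorem dp_sub_dn (l l' : SL) : ((dp l l' : ℕ) : ℤ) - ((dn l l' : ℕ) : ℤ) = gdot l.toL l'.toL := by
  induction l generalizing l' with
  | nil => simp [dp, dn, SL.toL]
  | cons a b t ih =>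
    cases l' with
    | nil => simp [dp, dn, SL.toL]
    | cons c d t' =>
      have h1 : dp (SL.cons a b t) (SL.cons c d t') = (a * c + b * d) + dp t t' := rfl
      have h2 : dn (SL.cons a b t) (SL.cons c d t') = (a * d + b * c) + dn t t' := rfl
      rw [h1, h2, SL.toL_cons, SL.toL_cons, gdot, ← ih t']
      push_cast
      ring

/-- Inner products of `r` with all rows of `l`, followed by `rest`. -/
def inner (r : SL) (l : List SL) (rest : SL) : SL :=
  List.rec (motive := fun _ => SL) rest (fun s _ ih => SL.cons (dp r s) (dn r s) ih) l

theorem toL_inner (r : SL) (l : List SL) (rest : SL) :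
    (inner r l rest).toL = l.map (fun s => gdot r.toL s.toL) ++ rest.toL := by
  induction l with
  | nil => rfl
  | cons s l ih =>
    have h : inner r (s :: l) rest = SL.cons (dp r s) (dn r s) (inner r l rest) := rfl
    rw [h, SL.toL_cons, ih, dp_sub_dn]
    rfl

/-- Append one row. -/
def snoc (l : List SL) (r : SL) : List SL :=
  List.rec (motive := fun _ => List SL) [r] (fun s _ ih => s :: ih) l

theorem snoc_eq (l : List SL) (r : SL) : snoc l r = l ++ [r] := by
  induction l with
  | nil => rfl
  | cons s l ih =>
    show s :: snoc l r = _
    rw [ih]; rfl

/-- Lower triangle of the Gram matrix. -/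
def triGo (rows : List SL) : List SL → SL → SL :=
  List.rec (motive := fun _ => List SL → SL → SL) (fun _ rest => rest)
    (fun r _ ih prev rest => inner r (snoc prev r) (ih (snoc prev r) rest)) rows

theorem triGo_cons (r : SL) (rs prev : List SL) (rest : SL) :
    triGo (r :: rs) prev rest = inner r (prev ++ [r]) (triGo rs (prev ++ [r]) rest) := by
  show inner r (snoc prev r) (triGo rs (snoc prev r) rest) = _
  rw [snoc_eq]

theorem triGo_length (rows prev : List SL) (rest : SL) :
    2 * (triGo rows prev rest).toL.length
      = rows.length * (2 * prev.length + rows.length + 1) + 2 * rest.toL.length := by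
  induction rows generalizing prev with
  | nil => simp [triGo]
  | cons r rs ih =>
    rw [triGo_cons, toL_inner, List.length_append, Nat.mul_add, ih]
    simp only [List.length_map, List.length_append, List.length_cons, List.length_nil]
    ring

theorem triGo_rest (rows prev : List SL) (rest : SL) (L k : ℕ)
    (hL : 2 * L = rows.length * (2 * prev.length + rows.length + 1)) :
    (triGo rows prev rest).toL.getD (L + k) 0 = rest.toL.getD k 0 := by
  induction rows generalizing prev L with
  | nil =>
    have : L = 0 := by simpa using hL
    subst this
    simp [triGo]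
  | cons r rs ih =>
    rw [triGo_cons, toL_inner]
    simp only [List.length_cons] at hL
    obtain ⟨L', hL'⟩ : ∃ L', L = (prev.length + 1) + L' := by
      refine ⟨L - (prev.length + 1), ?_⟩
      have : 2 * (prev.length + 1) ≤ 2 * L := by rw [hL]; nlinarith
      omega
    subst hL'
    rw [List.getD_append_right]
    · have : (prev.length + 1 + L' + k - (List.map (fun s => gdot r.toL s.toL)
          (prev ++ [r])).length) = L' + k := by
        simp only [List.length_map, List.length_append, List.length_cons, List.length_nil]
        omega
      rw [this]
      apply ih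
      simp only [List.length_append, List.length_cons, List.length_nil]
      nlinarith
    · simp only [List.length_map, List.length_append, List.length_cons, List.length_nil]
      omega

theorem triGo_get (rows prev : List SL) (rest : SL) (i j L : ℕ) (hi : i < rows.length)
    (hj : j ≤ prev.length + i) (hL : 2 * L = i * (2 * prev.length + i + 1)) :
    (triGo rows prev rest).toL.getD (L + j) 0
      = gdot (rows.getD i SL.nil).toL ((prev ++ rows).getD j SL.nil).toL := by
  induction rows generalizing prev L i with
  | nil => simp at hi
  | cons r rs ih =>
    rw [triGo_cons, toL_inner]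
    cases i with
    | zero =>
      have : L = 0 := by simpa using hL
      subst this
      rw [List.getD_append, Nat.zero_add]
      · have hj' : j < (prev ++ [r]).length := by
          simp only [List.length_append, List.length_cons, List.length_nil]; omega
        rw [List.getD_eq_getElem _ _ (by rw [List.length_map]; exact hj'), List.getElem_map]
        have e1 : (r :: rs).getD 0 SL.nil = r := rfl
        rw [e1]
        congr 2
        have e2 : prev ++ r :: rs = (prev ++ [r]) ++ rs := by simp
        rw [e2, List.getD_append _ _ _ _ hj', List.getD_eq_getElem _ _ hj']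
      · simp only [List.length_map, List.length_append, List.length_cons, List.length_nil]
        omega
    | succ i =>
      simp only [List.length_cons] at hi
      obtain ⟨L', hL'⟩ : ∃ L', L = (prev.length + 1) + L' := by
        refine ⟨L - (prev.length + 1), ?_⟩
        have : 2 * (prev.length + 1) ≤ 2 * L := by rw [hL]; nlinarith
        omega
      subst hL'
      rw [List.getD_append_right]
      · have e1 : (prev.length + 1 + L' + j - (List.map (fun s => gdot r.toL s.toL)
            (prev ++ [r])).length) = L' + j := by
          simp only [List.length_map, List.length_append, List.length_cons, List.length_nil]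
          omega
        rw [e1, ih (prev ++ [r]) i L' (by omega)
          (by simp only [List.length_append, List.length_cons, List.length_nil]; omega)
          (by simp only [List.length_append, List.length_cons, List.length_nil]; nlinarith)]
        have e2 : (r :: rs).getD (i + 1) SL.nil = rs.getD i SL.nil := rfl
        have e3 : prev ++ [r] ++ rs = prev ++ r :: rs := by simp
        rw [e2, e3]
      · simp only [List.length_map, List.length_append, List.length_cons, List.length_nil]
        omega

end

end Pool.Agent.Lib.MP36
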