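import Pool.Agent.Lib.MP_36bd7d_h28.ChkEval

set_option autoImplicit false

open Finset

namespace Pool.Agent.Lib.MP36

noncomputable section

/-! ### Evaluation of the matrix part -/

/-- Drop `g` cells. -/
def dropS (g : ℕ) : SL → SL :=
  Nat.rec (motive := fun _ => SL → SL) (fun Y => Y)
    (fun _ ih Y => SL.rec (motive := fun _ => SL) SL.nil (fun _ _ t _ => ih t) Y) g

theorem toL_dropS (g : ℕ) (Y : SL) : (dropS g Y).toL = Y.toL.drop g := by
  induction g generalizing Y with
  | zero => rfl
  | succ g ih =>
    cases Y with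
    | nil => simp [dropS, SL.toL]
    | cons a b t =>
      show (dropS g t).toL = _
      rw [ih]; rfl

/-- Matrix part of a leaf. -/
def evM (l : List ℕ) : SL → ℕ → ℕ → (ℕ → ℕ → Bool) → Bool :=
  List.rec (motive := fun _ => SL → ℕ → ℕ → (ℕ → ℕ → Bool) → Bool)
    (fun _ p n k => k p n)
    (fun e _ ih Y p n k => force (Nat.mod e 1024) fun c =>
      SL.rec (motive := fun _ => Bool) (ih SL.nil p n k)
        (fun a b t _ => force (Nat.add p (Nat.mul c a)) fun p' =>
          force (Nat.add n (Nat.mul c b)) fun n' => ih t p' n' k)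
        (dropS (Nat.div e 1024) Y)) l

theorem evM_spec (F : ℕ → ℝ) (l : List ℕ) (Y : SL) (p n : ℕ) (k : ℕ → ℕ → Bool) (L : List ℤ)
    (pos : ℕ) (hF : ∀ m, F m = ((L.getD m 0 : ℤ) : ℝ)) (hY : Y.toL = L.drop pos)
    (h : evM l Y p n k = true) :
    ∃ p' n' : ℕ, k p' n' = true ∧ (p' : ℝ) - n' = p - n + evalG F l pos := by
  induction l generalizing Y p n pos with
  | nil => exact ⟨p, n, h, by simp [evalG]⟩
  | cons e l ih =>
    have h1 : evM (e :: l) Y p n k = force (Nat.mod e 1024) fun c =>
      SL.rec (motive := fun _ => Bool) (evM l SL.nil p n k)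
        (fun a b t _ => force (Nat.add p (Nat.mul c a)) fun p' =>
          force (Nat.add n (Nat.mul c b)) fun n' => evM l t p' n' k)
        (dropS (Nat.div e 1024) Y) := rfl
    rw [h1, force_eq] at h
    have h2 : (dropS (Nat.div e 1024) Y).toL = L.drop (pos + e / 1024) := by
      rw [toL_dropS, hY, List.drop_drop]; rfl
    have hget : F (pos + e / 1024) = (((L.drop (pos + e / 1024)).getD 0 0 : ℤ) : ℝ) := by
      rw [hF]
      congr 1
      simp [List.getD_eq_getElem?_getD, List.getElem?_drop]
    have hdrop : L.drop (pos + e / 1024 + 1) = (L.drop (pos + e / 1024)).drop 1 := by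
      rw [List.drop_drop]
    cases hd : dropS (Nat.div e 1024) Y with
    | nil =>
      rw [hd] at h h2
      have h3 : F (pos + e / 1024) = 0 := by
        rw [hget, ← h2]; simp [SL.toL]
      obtain ⟨p', n', hk, hv⟩ := ih SL.nil p n (pos + e / 1024 + 1)
        (by rw [hdrop, ← h2]; rfl) h
      exact ⟨p', n', hk, by rw [hv, evalG, h3]; ring⟩
    | cons a b t =>
      rw [hd] at h h2
      have h4 : (force (Nat.add p (Nat.mul (Nat.mod e 1024) a)) fun p' =>
          force (Nat.add n (Nat.mul (Nat.mod e 1024) b)) fun n' => evM l t p' n' k) = true := h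
      rw [force_eq, force_eq] at h4
      have h3 : F (pos + e / 1024) = (a : ℝ) - b := by
        rw [hget, ← h2, SL.toL_cons]; simp
      obtain ⟨p', n', hk, hv⟩ := ih t _ _ (pos + e / 1024 + 1)
        (by rw [hdrop, ← h2]; rfl) h4
      refine ⟨p', n', hk, ?_⟩
      rw [hv, evalG, h3]
      have e1 : Nat.add p (Nat.mul (Nat.mod e 1024) a) = p + (e % 1024) * a := rfl
      have e2 : Nat.add n (Nat.mul (Nat.mod e 1024) b) = n + (e % 1024) * b := rfl
      rw [e1, e2]
      push_cast
      ring

/-! ### Evaluation of the Fourier part -/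

/-- Scalar product with the 18-bit digits. -/
def evH (Y : SL) : ℕ → ℕ → ℕ → (ℕ → ℕ → Bool) → Bool :=
  SL.rec (motive := fun _ => ℕ → ℕ → ℕ → (ℕ → ℕ → Bool) → Bool)
    (fun _ p n k => k p n)
    (fun a b _ ih X p n k => force (Nat.mod X 262144) fun c =>
      force (Nat.add p (Nat.mul c a)) fun p' =>
        force (Nat.add n (Nat.mul c b)) fun n' =>
          force (Nat.div X 262144) fun X' => ih X' p' n' k) Y

theorem evH_spec (Y : SL) (X p n : ℕ) (k : ℕ → ℕ → Bool) (h : evH Y X p n k = true) :
    ∃ p' n' : ℕ, k p' n' = true ∧ (p' : ℝ) - n' = p - n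
      + ∑ i ∈ range Y.toL.length, ((Y.toL.getD i 0 : ℤ) : ℝ) * (d18 X i : ℝ) := by
  induction Y generalizing X p n with
  | nil => exact ⟨p, n, h, by simp [SL.toL]⟩
  | cons a b t ih =>
    have h1 : evH (SL.cons a b t) X p n k = force (Nat.mod X 262144) fun c =>
      force (Nat.add p (Nat.mul c a)) fun p' =>
        force (Nat.add n (Nat.mul c b)) fun n' =>
          force (Nat.div X 262144) fun X' => evH t X' p' n' k := rfl
    rw [h1, force_eq, force_eq, force_eq, force_eq] at h
    obtain ⟨p', n', hk, hv⟩ := ih _ _ _ h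
    refine ⟨p', n', hk, ?_⟩
    rw [hv, SL.toL_cons, List.length_cons, Finset.sum_range_succ']
    have e0 : d18 X 0 = X % 262144 := by simp [d18]
    have e3 : ∀ i, d18 X (i + 1) = d18 (X / 262144) i := by
      intro i
      have e5 : 2 ^ (18 * (i + 1)) = 262144 * 2 ^ (18 * i) := by
        rw [show 18 * (i + 1) = 18 + 18 * i from by ring, pow_add,
          show (2 : ℕ) ^ 18 = 262144 from by norm_num]
      unfold d18
      rw [e5, Nat.div_div_eq_div_mul]
    have e1 : Nat.add p (Nat.mul (Nat.mod X 262144) a) = p + (X % 262144) * a := rfl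
    have e2 : Nat.add n (Nat.mul (Nat.mod X 262144) b) = n + (X % 262144) * b := rfl
    have e4 : Nat.div X 262144 = X / 262144 := rfl
    rw [e1, e2, e4]
    simp only [List.getD_cons_succ, List.getD_cons_zero, e3, e0]
    push_cast
    ring

/-- Full Gram matrix, row by row. -/
def sqL (rows : List SL) (l : List SL) : SL :=
  List.rec (motive := fun _ => SL) SL.nil (fun r _ ih => inner r rows ih) l

theorem sqL_cons (rows : List SL) (r : SL) (l : List SL) :
    (sqL rows (r :: l)).toL = rows.map (fun s => gdot r.toL s.toL) ++ (sqL rows l).toL :=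
  toL_inner r rows (sqL rows l)

theorem sqL_length (rows l : List SL) : (sqL rows l).toL.length = l.length * rows.length := by
  induction l with
  | nil => simp [sqL, SL.toL]
  | cons r l ih =>
    rw [sqL_cons, List.length_append, ih, List.length_map, List.length_cons]
    ring

theorem sqL_get (rows l : List SL) (i j : ℕ) (hi : i < l.length) (hj : j < rows.length) :
    (sqL rows l).toL.getD (rows.length * i + j) 0
      = gdot (l.getD i SL.nil).toL (rows.getD j SL.nil).toL := by
  induction l generalizing i with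
  | nil => simp at hi
  | cons r l ih =>
    rw [sqL_cons]
    cases i with
    | zero =>
      rw [List.getD_append, Nat.mul_zero, Nat.zero_add,
        List.getD_eq_getElem _ _ (by rw [List.length_map]; exact hj), List.getElem_map,
        List.getD_eq_getElem _ _ hj]
      · rfl
      · rw [List.length_map]; omega
    | succ i =>
      rw [List.getD_append_right]
      · have e1 : rows.length * (i + 1) + j - (List.map (fun s => gdot r.toL s.toL) rows).length
            = rows.length * i + j := by
          rw [List.length_map, Nat.mul_succ]; omega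
        rw [e1, ih i (by simpa using hi)]
        rfl
      · rw [List.length_map, Nat.mul_succ]; omega

theorem sum36 (g : ℕ → ℝ) :
    ∑ i ∈ range 36, g i = ∑ a : Fin 6, ∑ b : Fin 6, g (6 * a + b) := by
  simp only [Finset.sum_range_succ, Finset.sum_range_zero, Fin.sum_univ_succ, Fin.sum_univ_zero]
  simp
  ring

theorem evSq_spec (rows : List SL) (hlen : rows.length = 6) (X p n : ℕ) (k : ℕ → ℕ → Bool)
    (h : evH (sqL rows rows) X p n k = true) :
    ∃ p' n' : ℕ, k p' n' = true ∧ (p' : ℝ) - n' = p - n
      + ∑ a : Fin 6, ∑ b : Fin 6, gmat (rows.map SL.toL) a b * (d18 X (6 * a + b) : ℝ) := by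
  obtain ⟨p', n', hk, hv⟩ := evH_spec _ _ _ _ _ h
  refine ⟨p', n', hk, ?_⟩
  rw [hv, sqL_length, hlen, sum36]
  congr 1
  refine Finset.sum_congr rfl (fun a _ => Finset.sum_congr rfl (fun b _ => ?_))
  have h1 := sqL_get rows rows a b (by rw [hlen]; exact a.2) (by rw [hlen]; exact b.2)
  rw [hlen] at h1
  rw [h1]
  unfold gmat
  have h2 : ∀ i : ℕ, (rows.map SL.toL).getD i [] = (rows.getD i SL.nil).toL := by
    intro i
    rw [← SL.toL_nil, List.getD_map]
  rw [h2, h2]

end

end Pool.Agent.Lib.MP36
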