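import Pool.Agent.Lib.MP_36bd7d_h28.ChkEval2
import Pool.Agent.Lib.MP_36bd7d_h28.ChkTable

set_option autoImplicit false

open Finset

namespace Pool.Agent.Lib.MP36

noncomputable section

/-! ### The hyperplane table of a certificate -/

/-- Table of pairs of signed numbers, with keys. -/
inductive EL : Type
  | nil : EL
  | cons : ℕ → ℕ → ℕ → ℕ → ℕ → EL → EL

/-- First value at key `w`. -/
def EL.v1 (L : EL) (w : ℕ) : ℤ :=
  EL.rec (motive := fun _ => ℤ) 0 (fun o p1 n1 _ _ _ ih => if o = w then (p1 : ℤ) - n1 else ih) L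

/-- Second value at key `w`. -/
def EL.v2 (L : EL) (w : ℕ) : ℤ :=
  EL.rec (motive := fun _ => ℤ) 0 (fun o _ _ p2 n2 _ ih => if o = w then (p2 : ℤ) - n2 else ih) L

/-- Evaluate all entries first. -/
def deepE {α : Type} (L : EL) : (EL → α) → α :=
  EL.rec (motive := fun _ => (EL → α) → α) (fun k => k EL.nil)
    (fun o p1 n1 p2 n2 _ ih k => force o fun o' => force p1 fun a => force n1 fun b =>
      force p2 fun c => force n2 fun d => ih (fun t' => k (EL.cons o' a b c d t'))) L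

theorem deepE_eq {α : Type} (L : EL) (k : EL → α) : deepE L k = k L := by
  induction L generalizing k with
  | nil => rfl
  | cons o p1 n1 p2 n2 t ih =>
    show force o (fun o' => force p1 fun a => force n1 fun b =>
      force p2 fun c => force n2 fun d => deepE t (fun t' => k (EL.cons o' a b c d t'))) = _
    rw [force_eq, force_eq, force_eq, force_eq, force_eq, ih]

/-- Look up a key. -/
def findE (L : EL) (w : ℕ) (k : ℕ → ℕ → ℕ → ℕ → Bool) : Bool :=
  EL.rec (motive := fun _ => Bool) (k 0 0 0 0)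
    (fun o p1 n1 p2 n2 _ ih => cnd (Nat.beq o w) (k p1 n1 p2 n2) ih) L

theorem findE_spec (L : EL) (w : ℕ) (k : ℕ → ℕ → ℕ → ℕ → Bool) (h : findE L w k = true) :
    ∃ p1 n1 p2 n2 : ℕ, k p1 n1 p2 n2 = true ∧ (p1 : ℤ) - n1 = L.v1 w ∧ (p2 : ℤ) - n2 = L.v2 w := by
  induction L with
  | nil => exact ⟨0, 0, 0, 0, h, by simp [EL.v1], by simp [EL.v2]⟩
  | cons o p1 n1 p2 n2 t ih =>
    have h1 : findE (EL.cons o p1 n1 p2 n2 t) w k = cnd (Nat.beq o w) (k p1 n1 p2 n2) (findE t w k) :=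
      rfl
    have h2 : EL.v1 (EL.cons o p1 n1 p2 n2 t) w = if o = w then (p1 : ℤ) - n1 else EL.v1 t w := rfl
    have h3 : EL.v2 (EL.cons o p1 n1 p2 n2 t) w = if o = w then (p2 : ℤ) - n2 else EL.v2 t w := rfl
    rw [h1, cnd_eq] at h
    rw [h2, h3]
    by_cases how : o = w
    · have : Nat.beq o w = true := by rw [how]; exact Nat.beq_refl w
      rw [this] at h
      exact ⟨p1, n1, p2, n2, h, by rw [if_pos how], by rw [if_pos how]⟩
    · have : Nat.beq o w = false := by
        rw [← Bool.not_eq_true]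
        intro hc
        exact how (Nat.eq_of_beq_eq_true hc)
      rw [this] at h
      rw [if_neg how, if_neg how]
      exact ih h

/-- The functional of the hyperplane part. -/
def EEof (L : EL) (w l : ℕ) : ℝ := if l = 1 then (L.v1 w : ℝ) else if l = 2 then (L.v2 w : ℝ) else 0

/-- Hyperplane part of a leaf: sums of `n1 E1 + n2 E2`, of `E1` and of `E2`. -/
def evE (L : EL) (l : List ℕ) : ℕ → ℕ → ℕ → ℕ → ℕ → ℕ →
    (ℕ → ℕ → ℕ → ℕ → ℕ → ℕ → Bool) → Bool :=
  List.rec (motive := fun _ => ℕ → ℕ → ℕ → ℕ → ℕ → ℕ →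
      (ℕ → ℕ → ℕ → ℕ → ℕ → ℕ → Bool) → Bool)
    (fun a1 a2 b1 b2 c1 c2 k => k a1 a2 b1 b2 c1 c2)
    (fun v _ ih a1 a2 b1 b2 c1 c2 k =>
      force (Nat.mod v 256) fun w => force (Nat.mod (Nat.div v 256) 16) fun n =>
      force (Nat.div v 4096) fun m =>
      findE L w fun p1 n1 p2 n2 =>
        force (Nat.add a1 (Nat.add (Nat.mul n p1) (Nat.mul m p2))) fun a1' =>
        force (Nat.add a2 (Nat.add (Nat.mul n n1) (Nat.mul m n2))) fun a2' =>
        force (Nat.add b1 p1) fun b1' => force (Nat.add b2 n1) fun b2' =>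
        force (Nat.add c1 p2) fun c1' => force (Nat.add c2 n2) fun c2' =>
        ih a1' a2' b1' b2' c1' c2' k) l

theorem evE_spec (L : EL) (l : List ℕ) (a1 a2 b1 b2 c1 c2 : ℕ)
    (k : ℕ → ℕ → ℕ → ℕ → ℕ → ℕ → Bool) (h : evE L l a1 a2 b1 b2 c1 c2 k = true) :
    ∃ a1' a2' b1' b2' c1' c2' : ℕ, k a1' a2' b1' b2' c1' c2' = true ∧
      ∀ a b : ℝ, ((a1' : ℝ) - a2') - a * ((b1' : ℝ) - b2') - b * ((c1' : ℝ) - c2')
        = ((a1 : ℝ) - a2) - a * ((b1 : ℝ) - b2) - b * ((c1 : ℝ) - c2)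
          + (l.map (fun v => ((v / 256 % 16 : ℕ) : ℝ) * EEof L (v % 256) 1
            + ((v / 4096 : ℕ) : ℝ) * EEof L (v % 256) 2
            - a * EEof L (v % 256) 1 - b * EEof L (v % 256) 2)).sum := by
  induction l generalizing a1 a2 b1 b2 c1 c2 with
  | nil => exact ⟨a1, a2, b1, b2, c1, c2, h, by intro a b; simp⟩
  | cons v l ih =>
    have h1 : evE L (v :: l) a1 a2 b1 b2 c1 c2 k =
      force (Nat.mod v 256) fun w => force (Nat.mod (Nat.div v 256) 16) fun n =>
      force (Nat.div v 4096) fun m =>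
      findE L w fun p1 n1 p2 n2 =>
        force (Nat.add a1 (Nat.add (Nat.mul n p1) (Nat.mul m p2))) fun a1' =>
        force (Nat.add a2 (Nat.add (Nat.mul n n1) (Nat.mul m n2))) fun a2' =>
        force (Nat.add b1 p1) fun b1' => force (Nat.add b2 n1) fun b2' =>
        force (Nat.add c1 p2) fun c1' => force (Nat.add c2 n2) fun c2' =>
        evE L l a1' a2' b1' b2' c1' c2' k := rfl
    rw [h1, force_eq, force_eq, force_eq] at h
    obtain ⟨p1, n1, p2, n2, h2, hv1, hv2⟩ := findE_spec _ _ _ h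
    simp only [force_eq] at h2
    obtain ⟨a1', a2', b1', b2', c1', c2', hk, hv⟩ := ih _ _ _ _ _ _ h2
    refine ⟨a1', a2', b1', b2', c1', c2', hk, ?_⟩
    intro a b
    rw [hv a b, List.map_cons, List.sum_cons]
    have e1 : EEof L (v % 256) 1 = (p1 : ℝ) - n1 := by
      have : L.v1 (v % 256) = (p1 : ℤ) - n1 := hv1.symm
      unfold EEof
      rw [if_pos rfl, this]; push_cast; ring
    have e2 : EEof L (v % 256) 2 = (p2 : ℝ) - n2 := by
      have : L.v2 (v % 256) = (p2 : ℤ) - n2 := hv2.symm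
      unfold EEof
      rw [if_neg (by norm_num), if_pos rfl, this]; push_cast; ring
    rw [e1, e2]
    have f1 : Nat.mod (Nat.div v 256) 16 = v / 256 % 16 := rfl
    have f2 : Nat.div v 4096 = v / 4096 := rfl
    have f3 : ∀ x y : ℕ, Nat.add x y = x + y := fun _ _ => rfl
    have f4 : ∀ x y : ℕ, Nat.mul x y = x * y := fun _ _ => rfl
    simp only [f1, f2, f3, f4]
    push_cast
    ring

end

end Pool.Agent.Lib.MP36
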