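import Pool.Agent.Lib.MP_36bd7d_h28.Defs

set_option autoImplicit false

open Finset

namespace Pool.Agent.Lib.MP36

/-! ### Orderly search: every admissible code is equivalent to a leaf -/

theorem lf_ite_xor (p q : Bool) (a : ℕ) :
    (if (p ^^ q) = true then a else 0) = (if p = true then a else 0) ^^^ (if q = true then a else 0) := by
  cases p <;> cases q <;> simp

theorem lf_lin_xor (b : ℕ × ℕ × ℕ × ℕ) (x y : ℕ) : lin b (x ^^^ y) = lin b x ^^^ lin b y := by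
  unfold lin
  simp only [Nat.testBit_xor, lf_ite_xor]
  ac_rfl

theorem lf_lin_zero (b : ℕ × ℕ × ℕ × ℕ) : lin b 0 = 0 := by
  simp [lin]

theorem lf_lin_ite (b : ℕ × ℕ × ℕ × ℕ) (p : Prop) [Decidable p] (x : ℕ) :
    lin b (if p then x else 0) = if p then lin b x else 0 := by
  split_ifs
  · rfl
  · exact lf_lin_zero b

theorem lf_mem_bases {b : ℕ × ℕ × ℕ × ℕ} : b ∈ bases ↔
    (b.1 < 16 ∧ b.2.1 < 16 ∧ b.2.2.1 < 16 ∧ b.2.2.2 < 16) ∧
      ∀ j ∈ Finset.Icc (1 : ℕ) 15, lin b j ≠ 0 := by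
  unfold bases
  simp only [Finset.mem_filter, Finset.mem_product, Finset.mem_range]

theorem lf_lin_lt {b : ℕ × ℕ × ℕ × ℕ} (hb : b ∈ bases) (j : ℕ) : lin b j < 16 := by
  obtain ⟨⟨h1, h2, h3, h4⟩, -⟩ := lf_mem_bases.1 hb
  have hite : ∀ (p : Prop) [Decidable p] (a : ℕ), a < 16 → (if p then a else 0) < 2 ^ 4 := by
    intro p _ a ha
    split_ifs
    · exact ha
    · norm_num
  have : lin b j < 2 ^ 4 := by
    unfold lin
    exact Nat.xor_lt_two_pow (Nat.xor_lt_two_pow (hite _ _ h1) (hite _ _ h2))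
      (Nat.xor_lt_two_pow (hite _ _ h3) (hite _ _ h4))
  exact this

/-- Composition of bases. -/
def lfComp (g h : ℕ × ℕ × ℕ × ℕ) : ℕ × ℕ × ℕ × ℕ :=
  (lin g h.1, lin g h.2.1, lin g h.2.2.1, lin g h.2.2.2)

theorem lf_lin_comp (g h : ℕ × ℕ × ℕ × ℕ) (j : ℕ) : lin (lfComp g h) j = lin g (lin h j) := by
  have h1 : lin g (lin h j) =
      ((if j.testBit 0 then lin g h.1 else 0) ^^^ (if j.testBit 1 then lin g h.2.1 else 0)) ^^^
      ((if j.testBit 2 then lin g h.2.2.1 else 0) ^^^ (if j.testBit 3 then lin g h.2.2.2 else 0)) := by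
    conv_lhs => rw [show lin h j =
      ((if j.testBit 0 then h.1 else 0) ^^^ (if j.testBit 1 then h.2.1 else 0)) ^^^
      ((if j.testBit 2 then h.2.2.1 else 0) ^^^ (if j.testBit 3 then h.2.2.2 else 0)) from rfl]
    rw [lf_lin_xor, lf_lin_xor, lf_lin_xor]
    simp only [lf_lin_ite]
  rw [h1]
  rfl

theorem lf_comp_mem {g h : ℕ × ℕ × ℕ × ℕ} (hg : g ∈ bases) (hh : h ∈ bases) :
    lfComp g h ∈ bases := by
  rw [lf_mem_bases]
  refine ⟨⟨lf_lin_lt hg _, lf_lin_lt hg _, lf_lin_lt hg _, lf_lin_lt hg _⟩, ?_⟩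
  intro j hj
  rw [lf_lin_comp]
  have h1 := (lf_mem_bases.1 hh).2 j hj
  have h2 := lf_lin_lt hh j
  exact (lf_mem_bases.1 hg).2 _ (Finset.mem_Icc.2 ⟨Nat.one_le_iff_ne_zero.2 h1, by omega⟩)

/-! The score of a code: its labels as digits in base three. -/

def lfScore (c : ℕ → ℕ) : ℕ := ∑ j ∈ Finset.Icc (1 : ℕ) 15, c j * 3 ^ (15 - j)

theorem lf_score_lt (a b : ℕ → ℕ) (hb : ∀ j < 16, b j ≤ 2) (j : ℕ) (h1 : 1 ≤ j) (h15 : j ≤ 15)
    (heq : ∀ i, 1 ≤ i → i < j → a i = b i) (hlt : b j < a j) : lfScore b < lfScore a := by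
  unfold lfScore
  have hI : Finset.Icc (1 : ℕ) 15 = {1, 2, 3, 4, 5, 6, 7, 8, 9, 10, 11, 12, 13, 14, 15} := by decide
  rw [hI]
  simp only [Finset.mem_insert, Finset.mem_singleton, not_false_eq_true, Finset.sum_insert,
    Finset.sum_singleton, Nat.reduceEqDiff, or_self, OfNat.one_ne_ofNat]
  norm_num
  have e1 := hb 1 (by norm_num)
  have e2 := hb 2 (by norm_num)
  have e3 := hb 3 (by norm_num)
  have e4 := hb 4 (by norm_num)
  have e5 := hb 5 (by norm_num)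
  have e6 := hb 6 (by norm_num)
  have e7 := hb 7 (by norm_num)
  have e8 := hb 8 (by norm_num)
  have e9 := hb 9 (by norm_num)
  have e10 := hb 10 (by norm_num)
  have e11 := hb 11 (by norm_num)
  have e12 := hb 12 (by norm_num)
  have e13 := hb 13 (by norm_num)
  have e14 := hb 14 (by norm_num)
  have e15 := hb 15 (by norm_num)
  have f : ∀ i, 1 ≤ i → i < j → a i = b i := heq
  have f1 := f 1
  have f2 := f 2
  have f3 := f 3
  have f4 := f 4
  have f5 := f 5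
  have f6 := f 6
  have f7 := f 7
  have f8 := f 8
  have f9 := f 9
  have f10 := f 10
  have f11 := f 11
  have f12 := f 12
  have f13 := f 13
  have f14 := f 14
  clear f heq
  interval_cases j <;> norm_num at f1 f2 f3 f4 f5 f6 f7 f8 f9 f10 f11 f12 f13 f14 <;> omega

/-! Packed codes. -/

def lfPk (c : ℕ → ℕ) : ℕ → ℕ
  | 0 => c 0
  | m + 1 => lfPk c m + c (m + 1) * 4 ^ (m + 1)

theorem lf_pk_lt (c : ℕ → ℕ) (m : ℕ) (hc : ∀ j ≤ m, c j ≤ 2) : lfPk c m < 4 ^ (m + 1) := by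
  induction m with
  | zero =>
    have := hc 0 le_rfl
    simp only [lfPk]
    omega
  | succ m ih =>
    have h1 := ih (fun j hj => hc j (by omega))
    have h2 := hc (m + 1) le_rfl
    simp only [lfPk]
    have h3 : c (m + 1) * 4 ^ (m + 1) ≤ 2 * 4 ^ (m + 1) := Nat.mul_le_mul_right _ h2
    have h4 : 4 ^ (m + 1 + 1) = 4 * 4 ^ (m + 1) := by ring
    omega

theorem lf_dig_pk (c : ℕ → ℕ) (m : ℕ) (hc : ∀ j ≤ m, c j ≤ 2) (j : ℕ) (hj : j ≤ m) :
    dig (lfPk c m) j = c j := by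
  have key : ∀ (N j : ℕ), dig N j = N / 4 ^ j % 4 := by
    intro N j
    unfold dig
    rw [Nat.shiftRight_eq_div_pow, pow_mul]
    norm_num
  rw [key]
  induction m with
  | zero =>
    obtain rfl : j = 0 := by omega
    have := hc 0 le_rfl
    simp only [lfPk]
    omega
  | succ m ih =>
    have hlt := lf_pk_lt c m (fun j hj => hc j (by omega))
    simp only [lfPk]
    rcases Nat.lt_or_ge m j with h | h
    · obtain rfl : j = m + 1 := by omega
      rw [Nat.add_mul_div_right _ _ (by positivity), Nat.div_eq_of_lt hlt]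
      have := hc (m + 1) le_rfl
      omega
    · have h4 : (4 : ℕ) ^ (m + 1) = (4 * 4 ^ (m - j)) * 4 ^ j := by
        have : m + 1 = 1 + (m - j) + j := by omega
        rw [this, pow_add, pow_add]
        simp
      rw [h4, ← mul_assoc, Nat.add_mul_div_right _ _ (by positivity)]
      have h5 := ih (fun j hj => hc j (by omega)) h
      rw [← h5]
      have : c (m + 1) * (4 * 4 ^ (m - j)) = 4 * (c (m + 1) * 4 ^ (m - j)) := by ring
      rw [this]
      omega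

/-! The search. -/

/-- A forbidden line through the last assigned position `x`. -/
def lfBad (x N : ℕ) : Bool :=
  (List.range x).any (fun w => Nat.blt (x ^^^ w) x && (Nat.blt 0 (dig N x) && (Nat.blt 0 (dig N w) &&
    (Nat.blt 0 (dig N (x ^^^ w)) &&
      (Nat.beq (dig N x) 2 || Nat.beq (dig N w) 2 || Nat.beq (dig N (x ^^^ w)) 2)))))

/-- The transformed code is lexicographically larger. -/
def lfLarger (x N : ℕ) : ℕ → List ℕ → Bool
  | _, [] => false
  | i, y :: ys =>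
    if Nat.blt x y then false else if Nat.blt x i then false else
    if Nat.blt (dig N i) (dig N y) then true else
    if Nat.blt (dig N y) (dig N i) then false else lfLarger x N (i + 1) ys

def lfTabs : List (List ℕ) :=
  [[2, 4, 6, 15, 13, 11, 9, 12, 14, 8, 10, 3, 1, 7, 5],
   [1, 3, 2, 10, 11, 9, 8, 14, 15, 13, 12, 4, 5, 7, 6],
   [1, 5, 4, 2, 3, 7, 6, 8, 9, 13, 12, 10, 11, 15, 14],
   [1, 2, 3, 7, 6, 5, 4, 13, 12, 15, 14, 10, 11, 8, 9],
   [1, 2, 3, 4, 5, 6, 7, 9, 8, 11, 10, 13, 12, 15, 14],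
   [1, 2, 3, 8, 9, 10, 11, 14, 15, 12, 13, 6, 7, 4, 5],
   [1, 4, 5, 2, 3, 6, 7, 11, 10, 15, 14, 9, 8, 13, 12],
   [2, 1, 3, 4, 6, 5, 7, 8, 10, 9, 11, 12, 14, 13, 15],
   [1, 2, 3, 4, 5, 6, 7, 13, 12, 15, 14, 9, 8, 11, 10],
   [1, 4, 5, 2, 3, 6, 7, 8, 9, 12, 13, 10, 11, 14, 15],
   [1, 2, 3, 15, 14, 13, 12, 4, 5, 6, 7, 11, 10, 9, 8],
   [1, 3, 2, 4, 5, 7, 6, 8, 9, 11, 10, 12, 13, 15, 14],
   [1, 2, 3, 6, 7, 4, 5, 8, 9, 10, 11, 14, 15, 12, 13],
   [1, 2, 3, 5, 4, 7, 6, 10, 11, 8, 9, 15, 14, 13, 12],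
   [1, 2, 3, 7, 6, 5, 4, 8, 9, 10, 11, 15, 14, 13, 12],
   [3, 6, 5, 9, 10, 15, 12, 2, 1, 4, 7, 11, 8, 13, 14],
   [3, 1, 2, 5, 6, 4, 7, 8, 11, 9, 10, 13, 14, 12, 15],
   [14, 2, 12, 10, 4, 8, 6, 1, 15, 3, 13, 11, 5, 9, 7],
   [1, 6, 7, 2, 3, 4, 5, 11, 10, 13, 12, 9, 8, 15, 14]]

def lfPR : List (ℕ × ℕ × ℕ × ℕ) :=
  [(2, 4, 15, 12), (1, 3, 10, 14), (1, 5, 2, 8), (1, 2, 7, 13), (1, 2, 4, 9), (1, 2, 8, 14),
   (1, 4, 2, 11), (2, 1, 4, 8), (1, 2, 4, 13), (1, 4, 2, 8), (1, 2, 15, 4), (1, 3, 4, 8),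
   (1, 2, 6, 8), (1, 2, 5, 10), (1, 2, 7, 8), (3, 6, 9, 2), (3, 1, 5, 8), (14, 2, 10, 1),
   (1, 6, 2, 11)]

theorem lf_tabs_eq : lfTabs = lfPR.map (fun h => (List.range' 1 15).map (lin h)) := by
  decide +kernel

theorem lf_PR_bases : ∀ h ∈ lfPR, h ∈ bases := by
  simp only [lf_mem_bases]
  decide +kernel

/-- The search with `k` positions left, the prefix being `N`. -/
def lfChk : ℕ → ℕ → Bool
  | 0, N => leaves.any (fun M => Nat.beq M N)
  | k + 1, N => [2, 1, 0].all (fun l =>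
      lfBad (15 - k) (N + l * 4 ^ (15 - k)) ||
      (lfTabs.any (lfLarger (15 - k) (N + l * 4 ^ (15 - k)) 1) ||
      lfChk k (N + l * 4 ^ (15 - k))))

theorem lf_chk : lfChk 15 0 = true := by
  decide +kernel

/-! Completeness of the search. -/

theorem lf_bad_false (c : ℕ → ℕ) (h2 : ∀ x < 16, c x ≤ 2)
    (hbad : ∀ x < 16, ∀ y < 16, c x = 2 → 1 ≤ c y → c (x ^^^ y) = 0) (x : ℕ) (hx : x < 16) :
    lfBad x (lfPk c x) = false := by
  rw [Bool.eq_false_iff]
  intro h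
  unfold lfBad at h
  rw [List.any_eq_true] at h
  obtain ⟨w, hw, h⟩ := h
  rw [List.mem_range] at hw
  simp only [Bool.and_eq_true, Bool.or_eq_true, Nat.blt_eq] at h
  have hc : ∀ j ≤ x, c j ≤ 2 := fun j hj => h2 j (by omega)
  obtain ⟨hu, hrest⟩ := h
  rw [lf_dig_pk c x hc x le_rfl, lf_dig_pk c x hc w hw.le, lf_dig_pk c x hc (x ^^^ w) hu.le] at hrest
  obtain ⟨hx0, hw0, hu0, hor⟩ := hrest
  rcases hor with (h | h) | h
  · have := hbad x hx w (by omega) (Nat.eq_of_beq_eq_true h) hw0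
    omega
  · have := hbad w (by omega) x hx (Nat.eq_of_beq_eq_true h) hx0
    rw [Nat.xor_comm] at this
    omega
  · have := hbad (x ^^^ w) (by omega) x hx (Nat.eq_of_beq_eq_true h) hx0
    rw [Nat.xor_comm (x ^^^ w) x, ← Nat.xor_assoc, Nat.xor_self, Nat.zero_xor] at this
    omega

theorem lf_larger_spec (c : ℕ → ℕ) (h : ℕ × ℕ × ℕ × ℕ) (x : ℕ) (hx : x < 16)
    (h2 : ∀ x < 16, c x ≤ 2) (n : ℕ) : ∀ i, 1 ≤ i →
    lfLarger x (lfPk c x) i ((List.range' i n).map (lin h)) = true →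
    (∀ j, 1 ≤ j → j < i → c (lin h j) = c j) →
    ∃ j, 1 ≤ j ∧ j < i + n ∧ (∀ j', 1 ≤ j' → j' < j → c (lin h j') = c j') ∧ c j < c (lin h j) := by
  have hc : ∀ j ≤ x, c j ≤ 2 := fun j hj => h2 j (by omega)
  induction n with
  | zero =>
    intro i _ hl _
    simp [lfLarger] at hl
  | succ n ih =>
    intro i hi hl hprev
    rw [List.range'_succ, List.map_cons] at hl
    unfold lfLarger at hl
    split_ifs at hl with g1 g2 g3 g4
    · rw [Nat.blt_eq] at g1 g2 g3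
      rw [lf_dig_pk c x hc _ (by omega), lf_dig_pk c x hc _ (by omega)] at g3
      exact ⟨i, hi, by omega, hprev, g3⟩
    · rw [Nat.blt_eq] at g1 g2 g3 g4
      rw [lf_dig_pk c x hc _ (by omega), lf_dig_pk c x hc _ (by omega)] at g3 g4
      obtain ⟨j, hj1, hj2, hj3, hj4⟩ := ih (i + 1) (by omega) hl (by
        intro j hj1 hj2
        rcases Nat.lt_or_ge j i with hji | hji
        · exact hprev j hj1 hji
        · obtain rfl : j = i := by omega
          omega)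
      exact ⟨j, hj1, by omega, hj3, hj4⟩

theorem lf_chk_complete (c : ℕ → ℕ) (h2 : ∀ x < 16, c x ≤ 2)
    (hbad : ∀ x < 16, ∀ y < 16, c x = 2 → 1 ≤ c y → c (x ^^^ y) = 0)
    (hmax : ∀ h ∈ bases, lfScore (fun j => c (lin h j)) ≤ lfScore c) (k : ℕ) :
    k ≤ 15 → lfChk k (lfPk c (15 - k)) = true → lfPk c 15 ∈ leaves := by
  induction k with
  | zero =>
    intro _ h
    unfold lfChk at h
    rw [List.any_eq_true] at h
    obtain ⟨M, hM, h⟩ := h
    have h' := Nat.eq_of_beq_eq_true h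
    simp only [Nat.sub_zero] at h'
    rw [← h']
    exact hM
  | succ k ih =>
    intro hk h
    unfold lfChk at h
    rw [List.all_eq_true] at h
    have hx : 15 - k < 16 := by omega
    have hx2 := h2 (15 - k) hx
    have hmem : c (15 - k) ∈ [2, 1, 0] := by
      simp only [List.mem_cons, List.not_mem_nil, or_false]
      omega
    have h1 := h _ hmem
    have hpk : lfPk c (15 - (k + 1)) + c (15 - k) * 4 ^ (15 - k) = lfPk c (15 - k) := by
      have : 15 - k = (15 - (k + 1)) + 1 := by omega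
      rw [this]
      rfl
    rw [hpk, lf_bad_false c h2 hbad _ hx, Bool.false_or, Bool.or_eq_true] at h1
    rcases h1 with h1 | h1
    · exfalso
      rw [List.any_eq_true] at h1
      obtain ⟨t, ht, hl⟩ := h1
      rw [lf_tabs_eq, List.mem_map] at ht
      obtain ⟨b, hb, rfl⟩ := ht
      have hbb := lf_PR_bases b hb
      obtain ⟨j, hj1, hj2, hj3, hj4⟩ := lf_larger_spec c b (15 - k) hx h2 15 1 le_rfl hl
        (fun j h1 h2 => by omega)
      have := lf_score_lt (fun j => c (lin b j)) c h2 j hj1 (by omega) hj3 hj4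
      have := hmax b hbb
      omega
    · exact ih (by omega) h1

/-- Every admissible code is equivalent to one of the `115` leaves. -/
theorem exists_leaf (c : ℕ → ℕ) (h0 : c 0 = 0) (h2 : ∀ x < 16, c x ≤ 2)
    (hbad : ∀ x < 16, ∀ y < 16, c x = 2 → 1 ≤ c y → c (x ^^^ y) = 0) :
    ∃ g ∈ bases, ∃ N ∈ leaves, ∀ j < 16, c (lin g j) = dig N j := by
  have hne : bases.Nonempty := ⟨_, lf_PR_bases (1, 2, 6, 8) (by decide)⟩
  obtain ⟨g, hg, hmax⟩ := Finset.exists_max_image bases (fun g => lfScore (fun j => c (lin g j))) hne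
  refine ⟨g, hg, lfPk (fun j => c (lin g j)) 15, ?_, ?_⟩
  · refine lf_chk_complete (fun j => c (lin g j)) (fun x _ => h2 _ (lf_lin_lt hg x)) ?_ ?_ 15 le_rfl ?_
    · intro x _ y _ hx hy
      have := hbad _ (lf_lin_lt hg x) _ (lf_lin_lt hg y) hx hy
      rw [lf_lin_xor]
      exact this
    · intro h hh
      have := hmax _ (lf_comp_mem hg hh)
      simpa only [lf_lin_comp] using this
    · have : lfPk (fun j => c (lin g j)) (15 - 15) = 0 := by
        simp only [Nat.sub_self, lfPk]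
        rw [lf_lin_zero, h0]
      rw [this]
      exact lf_chk
  · intro j hj
    rw [lf_dig_pk (fun j => c (lin g j)) 15 (fun j _ => h2 _ (lf_lin_lt hg j)) j (by omega)]

end Pool.Agent.Lib.MP36
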