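import Pool.Agent.Lib.MP_36bd7d_h28.Defs2

/-!
MP_36bd7d_co, module SND1: the matrix part of the certificate functional has a nonnegative sum over
all quadruples of vectors, and the independence part has sum zero.
-/
set_option autoImplicit false

open Finset

namespace Pool.Agent.Lib.MP36

/-! ### Values of `vlin` -/

lemma s1_code_eq {n : ℕ} (lab : Finset (Fin n) → ℕ) (v1 v2 v3 v4 : Finset (Fin n)) :
    code lab (v1, v2, v3, v4) 1 = lab v1 ∧ code lab (v1, v2, v3, v4) 2 = lab v2 ∧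
    code lab (v1, v2, v3, v4) 3 = lab (symmDiff v1 v2) ∧
    code lab (v1, v2, v3, v4) 4 = lab v3 ∧
    code lab (v1, v2, v3, v4) 5 = lab (symmDiff v1 v3) ∧
    code lab (v1, v2, v3, v4) 6 = lab (symmDiff v2 v3) ∧
    code lab (v1, v2, v3, v4) 7 = lab (symmDiff (symmDiff v1 v2) v3) ∧
    code lab (v1, v2, v3, v4) 8 = lab v4 ∧
    code lab (v1, v2, v3, v4) 9 = lab (symmDiff v1 v4) ∧
    code lab (v1, v2, v3, v4) 10 = lab (symmDiff v2 v4) ∧
    code lab (v1, v2, v3, v4) 11 = lab (symmDiff (symmDiff v1 v2) v4) := by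
  have e : ∀ A : Finset (Fin n), symmDiff A ∅ = A := fun A => symmDiff_bot A
  have e' : ∀ A : Finset (Fin n), symmDiff ∅ A = A := fun A => bot_symmDiff A
  have t : ∀ j b : ℕ, Nat.testBit j b = decide (j / 2 ^ b % 2 = 1) := by
    intro j b
    rw [Nat.testBit_eq_decide_div_mod_eq]
  unfold code vlin
  simp only [t]
  norm_num [e, e']

/-- The class of the coset of `u`. -/
def s1K {n : ℕ} (lab : Finset (Fin n) → ℕ) (v1 v2 u : Finset (Fin n)) : ℕ :=
  kap (lab u) (lab (symmDiff v1 u)) (lab (symmDiff v2 u)) (lab (symmDiff (symmDiff v1 v2) u))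

lemma s1_kap_lt {a b c d : ℕ} (ha : a ≤ 2) (hb : b ≤ 2) (hc : c ≤ 2) (hd : d ≤ 2) :
    kap a b c d < 81 := by
  have h : kap a b c d ≤ code4 a b c d := (min_le_left _ _).trans (min_le_left _ _)
  unfold code4 at h
  omega

lemma s1_quad {α : Type*} [Fintype α] (M : ℕ → ℕ → ℝ) (κ : α → ℕ) (hκ : ∀ u, κ u < 81) :
    ∑ u, ∑ v, M (κ u) (κ v) = ∑ k ∈ range 81, ∑ l ∈ range 81,
      M k l * ((∑ u, if κ u = k then (1 : ℝ) else 0) * (∑ u, if κ u = l then (1 : ℝ) else 0)) := by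
  have h1 : ∀ u v : α, M (κ u) (κ v) = ∑ k ∈ range 81, ∑ l ∈ range 81,
      M k l * ((if κ u = k then (1 : ℝ) else 0) * (if κ v = l then (1 : ℝ) else 0)) := by
    intro u v
    rw [Finset.sum_eq_single (κ u)]
    · rw [Finset.sum_eq_single (κ v)]
      · simp
      · intro l _ hl
        rw [if_neg (show ¬ κ v = l from fun h => hl h.symm)]
        simp
      · intro h
        exact absurd (Finset.mem_range.2 (hκ v)) h
    · intro k _ hk
      refine Finset.sum_eq_zero (fun l _ => ?_)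
      rw [if_neg (show ¬ κ u = k from fun h => hk h.symm)]
      simp
    · intro h
      exact absurd (Finset.mem_range.2 (hκ u)) h
  calc ∑ u, ∑ v, M (κ u) (κ v)
      = ∑ u, ∑ v, ∑ k ∈ range 81, ∑ l ∈ range 81,
          M k l * ((if κ u = k then (1 : ℝ) else 0) * (if κ v = l then (1 : ℝ) else 0)) :=
        Finset.sum_congr rfl (fun u _ => Finset.sum_congr rfl (fun v _ => h1 u v))
    _ = ∑ k ∈ range 81, ∑ l ∈ range 81, ∑ u, ∑ v,
          M k l * ((if κ u = k then (1 : ℝ) else 0) * (if κ v = l then (1 : ℝ) else 0)) := by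
        have h2 : ∀ u : α, ∑ v, ∑ k ∈ range 81, ∑ l ∈ range 81,
            M k l * ((if κ u = k then (1 : ℝ) else 0) * (if κ v = l then (1 : ℝ) else 0))
            = ∑ k ∈ range 81, ∑ l ∈ range 81, ∑ v,
            M k l * ((if κ u = k then (1 : ℝ) else 0) * (if κ v = l then (1 : ℝ) else 0)) := by
          intro u
          rw [Finset.sum_comm]
          refine Finset.sum_congr rfl (fun k _ => ?_)
          rw [Finset.sum_comm]
        rw [Finset.sum_congr rfl (fun u _ => h2 u), Finset.sum_comm]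
        refine Finset.sum_congr rfl (fun k _ => ?_)
        rw [Finset.sum_comm]
    _ = _ := by
        refine Finset.sum_congr rfl (fun k _ => Finset.sum_congr rfl (fun l _ => ?_))
        rw [Finset.sum_mul_sum, Finset.mul_sum]
        refine Finset.sum_congr rfl (fun u _ => ?_)
        rw [Finset.mul_sum]

theorem sum_PsiM_nonneg {n : ℕ} (MM : ℕ → ℕ → ℕ → ℝ)
    (hM : ∀ σ (w : ℕ → ℝ), 0 ≤ ∑ k ∈ range 81, ∑ l ∈ range 81, MM σ k l * (w k * w l))
    (lab : Finset (Fin n) → ℕ) (hlab : ∀ A, lab A ≤ 2) :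
    0 ≤ ∑ v : Finset (Fin n) × Finset (Fin n) × Finset (Fin n) × Finset (Fin n),
      PsiM MM (code lab v) := by
  rw [Fintype.sum_prod_type]
  refine Finset.sum_nonneg (fun v1 _ => ?_)
  rw [Fintype.sum_prod_type]
  refine Finset.sum_nonneg (fun v2 _ => ?_)
  rw [Fintype.sum_prod_type]
  have h : ∀ v3 v4 : Finset (Fin n), PsiM MM (code lab (v1, v2, v3, v4)) =
      MM (lab v1 + 3 * lab v2 + 9 * lab (symmDiff v1 v2)) (s1K lab v1 v2 v3)
        (s1K lab v1 v2 v4) := by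
    intro v3 v4
    obtain ⟨h1, h2, h3, h4, h5, h6, h7, h8, h9, h10, h11⟩ := s1_code_eq lab v1 v2 v3 v4
    unfold PsiM s1K
    rw [h1, h2, h3, h4, h5, h6, h7, h8, h9, h10, h11]
  rw [Finset.sum_congr rfl (fun v3 _ => Finset.sum_congr rfl (fun v4 _ => h v3 v4)),
    s1_quad (MM (lab v1 + 3 * lab v2 + 9 * lab (symmDiff v1 v2))) (s1K lab v1 v2)
      (fun u => s1_kap_lt (hlab _) (hlab _) (hlab _) (hlab _))]
  exact hM _ _

/-! ### The independence part -/

lemma s1_om_congr {c c' : ℕ → ℕ} (h : ∀ j < 8, c j = c' j) : om c = om c' := by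
  have h1 : ∀ l, cnt8 c l = cnt8 c' l := by
    intro l
    unfold cnt8
    refine Finset.sum_congr rfl (fun j hj => ?_)
    rw [h j (Finset.mem_range.1 hj)]
  have h2 : lin8 c = lin8 c' := by
    unfold lin8
    refine Finset.sum_congr rfl (fun i hi => Finset.sum_congr rfl (fun j hj => ?_))
    have hi' := Finset.mem_range.1 hi
    have hj' := Finset.mem_range.1 hj
    have hx : i ^^^ j < 8 := Nat.xor_lt_two_pow (n := 3) hi' hj'
    rw [h i hi', h j hj', h _ hx]
  unfold om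
  rw [h1, h1, h2]

lemma s1_om_code {n : ℕ} (lab : Finset (Fin n) → ℕ) (v1 v2 v3 v4 : Finset (Fin n)) :
    om (code lab (v1, v2, v3, v4)) = om (code lab (v1, v2, v3, ∅)) := by
  refine s1_om_congr (fun j hj => ?_)
  have h : Nat.testBit j 3 = false := Nat.testBit_lt_two_pow (i := 3) hj
  unfold code vlin
  simp [h]

lemma s1_EE (w0 w1 w2 : ℝ) (h0 : w0 = 0) (f : ℕ → ℝ) (hf0 : f 0 = w0) (hf1 : f 1 = w1)
    (hf2 : f 2 = w2) {l : ℕ} (hl : l ≤ 2) :
    f l = (if l = 2 then (1 : ℝ) else 0) * w2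
      + ((if 1 ≤ l then (1 : ℝ) else 0) - (if l = 2 then (1 : ℝ) else 0)) * w1 := by
  interval_cases l
  · simp [hf0, h0]
  · simp [hf1]
  · simp [hf2]

theorem sum_PsiE_eq {n : ℕ} (EE : ℕ → ℕ → ℝ) (q : ℝ) (lab : Finset (Fin n) → ℕ)
    (hlab : ∀ A, lab A ≤ 2) (hE : ∀ w, EE w 0 = 0)
    (hp : avg (fun A => if lab A = 2 then (1 : ℝ) else 0) = 1 / 8)
    (hq : avg (fun A => if 1 ≤ lab A then (1 : ℝ) else 0) = q) :
    ∑ v : Finset (Fin n) × Finset (Fin n) × Finset (Fin n) × Finset (Fin n),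
      PsiE EE q (code lab v) = 0 := by
  have h2n : (2 : ℝ) ^ n ≠ 0 := by positivity
  have hp' : ∑ A : Finset (Fin n), (if lab A = 2 then (1 : ℝ) else 0) = 1 / 8 * 2 ^ n := by
    unfold avg at hp
    rwa [div_eq_iff h2n] at hp
  have hq' : ∑ A : Finset (Fin n), (if 1 ≤ lab A then (1 : ℝ) else 0) = q * 2 ^ n := by
    unfold avg at hq
    rwa [div_eq_iff h2n] at hq
  have hc : ∀ a : ℝ, ∑ _A : Finset (Fin n), a = 2 ^ n * a := by
    intro a
    rw [Finset.sum_const, nsmul_eq_mul, Finset.card_univ, Fintype.card_finset, Fintype.card_fin]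
    push_cast
    ring
  rw [Fintype.sum_prod_type]
  refine Finset.sum_eq_zero (fun v1 _ => ?_)
  rw [Fintype.sum_prod_type]
  refine Finset.sum_eq_zero (fun v2 _ => ?_)
  rw [Fintype.sum_prod_type]
  refine Finset.sum_eq_zero (fun v3 _ => ?_)
  have h : ∀ v4 : Finset (Fin n), PsiE EE q (code lab (v1, v2, v3, v4)) =
      (if lab v4 = 2 then (1 : ℝ) else 0) * EE (om (code lab (v1, v2, v3, ∅))) 2
      + ((if 1 ≤ lab v4 then (1 : ℝ) else 0) - (if lab v4 = 2 then (1 : ℝ) else 0))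
        * EE (om (code lab (v1, v2, v3, ∅))) 1
      - ((q - 1 / 8) * EE (om (code lab (v1, v2, v3, ∅))) 1
        + 1 / 8 * EE (om (code lab (v1, v2, v3, ∅))) 2) := by
    intro v4
    obtain ⟨-, -, -, -, -, -, -, h8, -, -, -⟩ := s1_code_eq lab v1 v2 v3 v4
    unfold PsiE
    rw [h8, s1_om_code, s1_EE 0 _ _ rfl (EE (om (code lab (v1, v2, v3, ∅)))) (hE _) rfl rfl
      (hlab v4)]
    ring
  rw [Finset.sum_congr rfl (fun v4 _ => h v4), Finset.sum_sub_distrib, Finset.sum_add_distrib,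
    ← Finset.sum_mul, ← Finset.sum_mul, Finset.sum_sub_distrib, hp', hq', hc]
  ring

end Pool.Agent.Lib.MP36
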