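import Pool.Agent.Lib.MP_36bd7d_h28.Defs

set_option autoImplicit false

open Finset

namespace Pool.Agent.Lib.MP36

variable {n : ℕ}

/-- Convolution on subsets. -/
noncomputable def fiConv (u v : Finset (Fin n) → ℝ) (x : Finset (Fin n)) : ℝ :=
  (∑ y : Finset (Fin n), u y * v (symmDiff x y)) / 2 ^ n

lemma fi_sum_symmDiff' (u : Finset (Fin n) → ℝ) (T : Finset (Fin n)) :
    ∑ A : Finset (Fin n), u (symmDiff T A) = ∑ A : Finset (Fin n), u A := by
  rw [← sum_symmDiff u T]
  refine Finset.sum_congr rfl fun A _ => ?_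
  rw [symmDiff_comm]

lemma fi_hat_conv (u v : Finset (Fin n) → ℝ) (S : Finset (Fin n)) :
    hat (fiConv u v) S = hat u S * hat v S := by
  have h2 : (2 : ℝ) ^ n ≠ 0 := by positivity
  have key : ∑ x : Finset (Fin n), (∑ y : Finset (Fin n), u y * v (symmDiff x y)) * chi S x
      = (∑ y : Finset (Fin n), u y * chi S y) * (∑ z : Finset (Fin n), v z * chi S z) := by
    calc ∑ x : Finset (Fin n), (∑ y : Finset (Fin n), u y * v (symmDiff x y)) * chi S x
        = ∑ x : Finset (Fin n), ∑ y : Finset (Fin n), (u y * v (symmDiff x y)) * chi S x := by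
          refine Finset.sum_congr rfl fun x _ => ?_
          rw [Finset.sum_mul]
      _ = ∑ y : Finset (Fin n), ∑ x : Finset (Fin n), (u y * v (symmDiff x y)) * chi S x :=
          Finset.sum_comm
      _ = ∑ y : Finset (Fin n), ∑ x : Finset (Fin n), (u y * chi S y) * (v x * chi S x) := by
          refine Finset.sum_congr rfl fun y _ => ?_
          rw [← sum_symmDiff (fun x => (u y * chi S y) * (v x * chi S x)) y]
          refine Finset.sum_congr rfl fun x _ => ?_
          rw [chi_symmDiff]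
          have h : chi S y * chi S y = 1 := by
            rw [← chi_symmDiff, symmDiff_self]
            exact chi_empty_right S
          calc u y * v (symmDiff x y) * chi S x
              = u y * v (symmDiff x y) * chi S x * (chi S y * chi S y) := by rw [h, mul_one]
            _ = _ := by ring
      _ = _ := by
          rw [Finset.sum_mul_sum]
  unfold hat fiConv
  have h3 : ∑ A : Finset (Fin n), (∑ y : Finset (Fin n), u y * v (symmDiff A y)) / 2 ^ n * chi S A
      = (∑ x : Finset (Fin n), (∑ y : Finset (Fin n), u y * v (symmDiff x y)) * chi S x) / 2 ^ n := by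
    rw [Finset.sum_div]
    refine Finset.sum_congr rfl fun A _ => ?_
    ring
  rw [h3, key]
  field_simp

lemma fi_sum3 (u v r : Finset (Fin n) → ℝ) :
    ∑ S : Finset (Fin n), hat u S * hat v S * hat r S
      = (∑ x : Finset (Fin n), ∑ y : Finset (Fin n), u x * v y * r (symmDiff x y))
        / (2 ^ n) ^ 2 := by
  have h : ∑ S : Finset (Fin n), hat u S * hat v S * hat r S
      = ∑ S : Finset (Fin n), hat u S * hat (fiConv v r) S := by
    refine Finset.sum_congr rfl fun S _ => ?_
    rw [fi_hat_conv]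
    ring
  rw [h, parseval]
  unfold avg fiConv
  have h3 : ∀ x : Finset (Fin n), u x * ((∑ y : Finset (Fin n), v y * r (symmDiff x y)) / 2 ^ n)
      = (∑ y : Finset (Fin n), u x * v y * r (symmDiff x y)) / 2 ^ n := by
    intro x
    rw [← mul_div_assoc, Finset.mul_sum]
    congr 1
    refine Finset.sum_congr rfl fun y _ => ?_
    ring
  simp only [h3]
  rw [← Finset.sum_div, sq, div_div]

lemma fi_avg4_add (f g : Finset (Fin n) → Finset (Fin n) → Finset (Fin n) → Finset (Fin n) → ℝ) :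
    avg4 (fun a b c d => f a b c d + g a b c d) = avg4 f + avg4 g := by
  unfold avg4
  simp only [Finset.sum_add_distrib, add_div]

lemma fi_avg4_sub (f g : Finset (Fin n) → Finset (Fin n) → Finset (Fin n) → Finset (Fin n) → ℝ) :
    avg4 (fun a b c d => f a b c d - g a b c d) = avg4 f - avg4 g := by
  unfold avg4
  simp only [Finset.sum_sub_distrib, sub_div]

lemma fi_avg4_mul (r : ℝ)
    (f : Finset (Fin n) → Finset (Fin n) → Finset (Fin n) → Finset (Fin n) → ℝ) :
    avg4 (fun a b c d => r * f a b c d) = r * avg4 f := by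
  unfold avg4
  simp only [← Finset.mul_sum, mul_div_assoc]

lemma fi_avg4_sum {ι : Type*} (s : Finset ι)
    (f : ι → Finset (Fin n) → Finset (Fin n) → Finset (Fin n) → Finset (Fin n) → ℝ) :
    avg4 (fun a b c d => ∑ i ∈ s, f i a b c d) = ∑ i ∈ s, avg4 (f i) := by
  unfold avg4
  rw [← Finset.sum_div]
  congr 1
  have h4 : ∀ a b c, ∑ d : Finset (Fin n), ∑ i ∈ s, f i a b c d
      = ∑ i ∈ s, ∑ d : Finset (Fin n), f i a b c d := fun _ _ _ => Finset.sum_comm
  have h3 : ∀ a b, ∑ c : Finset (Fin n), ∑ i ∈ s, ∑ d : Finset (Fin n), f i a b c d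
      = ∑ i ∈ s, ∑ c : Finset (Fin n), ∑ d : Finset (Fin n), f i a b c d :=
    fun _ _ => Finset.sum_comm
  have h2 : ∀ a, ∑ b : Finset (Fin n), ∑ i ∈ s, ∑ c : Finset (Fin n), ∑ d : Finset (Fin n),
      f i a b c d = ∑ i ∈ s, ∑ b : Finset (Fin n), ∑ c : Finset (Fin n), ∑ d : Finset (Fin n),
      f i a b c d := fun _ => Finset.sum_comm
  simp only [h4, h3, h2]
  exact Finset.sum_comm

/-- First marginal of a feature. -/
noncomputable def fiH (P Q : Finset (Fin n) → ℝ) (a : Fin 6) (u : Finset (Fin n)) : ℝ :=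
  (∑ v : Finset (Fin n), feat P Q a u v) / 2 ^ n

lemma fi_card : ∑ _v : Finset (Fin n), (1 : ℝ) = 2 ^ n := by
  simp [Finset.card_univ]

lemma fi_M (P Q : Finset (Fin n) → ℝ) (a b : Fin 6) :
    avg4 (fun v1 v2 v3 _v4 => feat P Q a v1 v2 * feat P Q b v1 v3)
      = ∑ S : Finset (Fin n), hat (fiH P Q a) S * hat (fiH P Q b) S := by
  rw [parseval]
  unfold avg4 avg fiH
  have h2 : (2 : ℝ) ^ n ≠ 0 := by positivity
  have h : ∀ v1 : Finset (Fin n), ∑ v2 : Finset (Fin n), ∑ v3 : Finset (Fin n),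
      ∑ _v4 : Finset (Fin n), feat P Q a v1 v2 * feat P Q b v1 v3
      = 2 ^ n * ((∑ v2 : Finset (Fin n), feat P Q a v1 v2)
        * (∑ v3 : Finset (Fin n), feat P Q b v1 v3)) := by
    intro v1
    rw [Finset.sum_mul_sum, Finset.mul_sum]
    refine Finset.sum_congr rfl fun v2 _ => ?_
    rw [Finset.mul_sum]
    refine Finset.sum_congr rfl fun v3 _ => ?_
    rw [Finset.sum_const, nsmul_eq_mul, Finset.card_univ, Fintype.card_finset, Fintype.card_fin]
    push_cast
    ring
  simp only [h]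
  have h3 : ∀ A : Finset (Fin n), (∑ v : Finset (Fin n), feat P Q a A v) / 2 ^ n
      * ((∑ v : Finset (Fin n), feat P Q b A v) / 2 ^ n)
      = (2 ^ n * ((∑ v : Finset (Fin n), feat P Q a A v)
        * (∑ v : Finset (Fin n), feat P Q b A v))) / (2 ^ n) ^ 3 := by
    intro A
    field_simp
  simp only [h3]
  rw [← Finset.sum_div, div_div, ← pow_succ]

lemma fi_Z (P Q : Finset (Fin n) → ℝ) (a b : Fin 6) :
    avg4 (fun v1 v2 v3 v4 => feat P Q a v1 v2 * feat P Q b v3 v4)
      = hat (fiH P Q a) ∅ * hat (fiH P Q b) ∅ := by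
  rw [hat_empty, hat_empty]
  unfold avg4 avg fiH
  have h2 : (2 : ℝ) ^ n ≠ 0 := by positivity
  have h : ∑ v1 : Finset (Fin n), ∑ v2 : Finset (Fin n), ∑ v3 : Finset (Fin n),
      ∑ v4 : Finset (Fin n), feat P Q a v1 v2 * feat P Q b v3 v4
      = (∑ v1 : Finset (Fin n), ∑ v2 : Finset (Fin n), feat P Q a v1 v2)
        * (∑ v3 : Finset (Fin n), ∑ v4 : Finset (Fin n), feat P Q b v3 v4) := by
    rw [Finset.sum_mul]
    refine Finset.sum_congr rfl fun v1 _ => ?_
    rw [Finset.sum_mul]
    refine Finset.sum_congr rfl fun v2 _ => ?_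
    rw [Finset.mul_sum]
    refine Finset.sum_congr rfl fun v3 _ => ?_
    rw [Finset.mul_sum]
  rw [h, ← Finset.sum_div, ← Finset.sum_div]
  field_simp

lemma fi_T (P Q R : Finset (Fin n) → ℝ) (a b : Fin 6) :
    avg4 (fun v1 v2 v3 v4 => feat P Q a v1 v2 * feat P Q b v3 v4 * R (symmDiff v1 v3))
      = ∑ S : Finset (Fin n), hat (fiH P Q a) S * hat (fiH P Q b) S * hat R S := by
  rw [fi_sum3]
  unfold avg4 fiH
  have h2 : (2 : ℝ) ^ n ≠ 0 := by positivity
  have h : ∀ v1 : Finset (Fin n), ∑ v2 : Finset (Fin n), ∑ v3 : Finset (Fin n),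
      ∑ v4 : Finset (Fin n), feat P Q a v1 v2 * feat P Q b v3 v4 * R (symmDiff v1 v3)
      = ∑ v3 : Finset (Fin n), (∑ v2 : Finset (Fin n), feat P Q a v1 v2)
        * (∑ v4 : Finset (Fin n), feat P Q b v3 v4) * R (symmDiff v1 v3) := by
    intro v1
    rw [Finset.sum_comm]
    refine Finset.sum_congr rfl fun v3 _ => ?_
    rw [Finset.sum_mul_sum, Finset.sum_mul]
    refine Finset.sum_congr rfl fun v2 _ => ?_
    rw [Finset.sum_mul]
  simp only [h]
  have h3 : ∀ x y : Finset (Fin n), (∑ v : Finset (Fin n), feat P Q a x v) / 2 ^ n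
      * ((∑ v : Finset (Fin n), feat P Q b y v) / 2 ^ n) * R (symmDiff x y)
      = ((∑ v : Finset (Fin n), feat P Q a x v)
        * (∑ v : Finset (Fin n), feat P Q b y v) * R (symmDiff x y)) / (2 ^ n) ^ 2 := by
    intro x y
    field_simp
  simp only [h3, ← Finset.sum_div]
  rw [div_div, ← pow_add]

lemma fi_hat_add (u v : Finset (Fin n) → ℝ) (S : Finset (Fin n)) :
    hat (fun x => u x + v x) S = hat u S + hat v S := by
  unfold hat
  simp only [add_mul, Finset.sum_add_distrib, add_div]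

/-- The Fourier coefficients of the marginals. -/
lemma fi_coef (P Q : Finset (Fin n) → ℝ) (S : Finset (Fin n)) (a : Fin 6) :
    hat (fiH P Q a) S = hv (hat P S) (hat Q S) (hat (fiH P Q 5) S) a := by
  have h2 : (2 : ℝ) ^ n ≠ 0 := by positivity
  have hc : ∀ r : ℝ, (∑ _v : Finset (Fin n), r) / 2 ^ n = r := by
    intro r
    rw [Finset.sum_const, nsmul_eq_mul, Finset.card_univ, Fintype.card_finset, Fintype.card_fin]
    push_cast
    field_simp
  fin_cases a
  · have h : fiH P Q 0 = P := by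
      funext u
      exact hc (P u)
    change hat (fiH P Q 0) S = hat P S
    rw [h]
  · have h : fiH P Q 1 = Q := by
      funext u
      exact hc (Q u)
    change hat (fiH P Q 1) S = hat Q S
    rw [h]
  · have h : fiH P Q 2 = fiConv P P := by
      funext u
      rfl
    change hat (fiH P Q 2) S = hat P S ^ 2
    rw [h, fi_hat_conv]
    ring
  · have h : fiH P Q 3 = fun u => fiConv P Q u + fiConv Q P u := by
      funext u
      unfold fiConv
      rw [← add_div, ← Finset.sum_add_distrib]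
      rfl
    change hat (fiH P Q 3) S = 2 * hat P S * hat Q S
    rw [h, fi_hat_add, fi_hat_conv, fi_hat_conv]
    ring
  · have h : fiH P Q 4 = fiConv Q Q := by
      funext u
      rfl
    change hat (fiH P Q 4) S = hat Q S ^ 2
    rw [h, fi_hat_conv]
    ring
  · rfl

/-- The contribution of one coefficient. -/
noncomputable def fiW (P Q : Finset (Fin n) → ℝ) (YH YD : Fin 6 → Fin 6 → ℝ) (D ρ : ℝ)
    (S : Finset (Fin n)) : ℝ :=
  (ρ * D + hat P S + hat Q S) * quad YH (fun a => hat (fiH P Q a) S)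
    + quad YD (fun a => hat (fiH P Q a) S)

lemma fi_total (P Q : Finset (Fin n) → ℝ) (YH YD : Fin 6 → Fin 6 → ℝ) (D ρ : ℝ) :
    avg4 (fun v1 v2 v3 v4 : Finset (Fin n) =>
      ∑ a, ∑ b, (YH a b * (ρ * D * (feat P Q a v1 v2 * feat P Q b v1 v3
            - feat P Q a v1 v2 * feat P Q b v3 v4)
          + feat P Q a v1 v2 * feat P Q b v3 v4
            * (P (symmDiff v1 v3) + Q (symmDiff v1 v3) - (avg P + avg Q)))
        + YD a b * (feat P Q a v1 v2 * feat P Q b v1 v3
            - feat P Q a v1 v2 * feat P Q b v3 v4)))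
      = ∑ S : Finset (Fin n), fiW P Q YH YD D ρ S - fiW P Q YH YD D ρ ∅ := by
  have hab : ∀ a b : Fin 6, avg4 (fun v1 v2 v3 v4 : Finset (Fin n) =>
      (YH a b * (ρ * D * (feat P Q a v1 v2 * feat P Q b v1 v3
            - feat P Q a v1 v2 * feat P Q b v3 v4)
          + feat P Q a v1 v2 * feat P Q b v3 v4
            * (P (symmDiff v1 v3) + Q (symmDiff v1 v3) - (avg P + avg Q)))
        + YD a b * (feat P Q a v1 v2 * feat P Q b v1 v3
            - feat P Q a v1 v2 * feat P Q b v3 v4)))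
      = ∑ S : Finset (Fin n), ((ρ * D + hat P S + hat Q S)
          * (YH a b * (hat (fiH P Q a) S * hat (fiH P Q b) S))
          + YD a b * (hat (fiH P Q a) S * hat (fiH P Q b) S))
        - ((ρ * D + hat P ∅ + hat Q ∅)
          * (YH a b * (hat (fiH P Q a) ∅ * hat (fiH P Q b) ∅))
          + YD a b * (hat (fiH P Q a) ∅ * hat (fiH P Q b) ∅)) := by
    intro a b
    have hfun : (fun v1 v2 v3 v4 : Finset (Fin n) =>
        (YH a b * (ρ * D * (feat P Q a v1 v2 * feat P Q b v1 v3
            - feat P Q a v1 v2 * feat P Q b v3 v4)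
          + feat P Q a v1 v2 * feat P Q b v3 v4
            * (P (symmDiff v1 v3) + Q (symmDiff v1 v3) - (avg P + avg Q)))
        + YD a b * (feat P Q a v1 v2 * feat P Q b v1 v3
            - feat P Q a v1 v2 * feat P Q b v3 v4)))
        = fun v1 v2 v3 v4 : Finset (Fin n) =>
          ((YH a b * (ρ * D) + YD a b) * (feat P Q a v1 v2 * feat P Q b v1 v3)
            + YH a b * (feat P Q a v1 v2 * feat P Q b v3 v4 * P (symmDiff v1 v3)))
          + (YH a b * (feat P Q a v1 v2 * feat P Q b v3 v4 * Q (symmDiff v1 v3))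
            + (-(YH a b * (ρ * D) + YD a b) - YH a b * (avg P + avg Q))
              * (feat P Q a v1 v2 * feat P Q b v3 v4)) := by
      funext v1 v2 v3 v4
      ring
    rw [hfun, fi_avg4_add, fi_avg4_add, fi_avg4_add, fi_avg4_mul, fi_avg4_mul, fi_avg4_mul,
      fi_avg4_mul, fi_M, fi_Z, fi_T, fi_T, hat_empty P, hat_empty Q]
    have hs : ∑ S : Finset (Fin n), ((ρ * D + hat P S + hat Q S)
          * (YH a b * (hat (fiH P Q a) S * hat (fiH P Q b) S))
          + YD a b * (hat (fiH P Q a) S * hat (fiH P Q b) S))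
        = (YH a b * (ρ * D) + YD a b)
            * ∑ S : Finset (Fin n), hat (fiH P Q a) S * hat (fiH P Q b) S
          + YH a b * ∑ S : Finset (Fin n), hat (fiH P Q a) S * hat (fiH P Q b) S * hat P S
          + YH a b * ∑ S : Finset (Fin n), hat (fiH P Q a) S * hat (fiH P Q b) S * hat Q S := by
      rw [Finset.mul_sum, Finset.mul_sum, Finset.mul_sum, ← Finset.sum_add_distrib,
        ← Finset.sum_add_distrib]
      refine Finset.sum_congr rfl fun S _ => ?_
      ring
    rw [hs]
    ring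
  rw [fi_avg4_sum]
  have h1 : ∀ a : Fin 6, avg4 (fun v1 v2 v3 v4 : Finset (Fin n) =>
      ∑ b, (YH a b * (ρ * D * (feat P Q a v1 v2 * feat P Q b v1 v3
            - feat P Q a v1 v2 * feat P Q b v3 v4)
          + feat P Q a v1 v2 * feat P Q b v3 v4
            * (P (symmDiff v1 v3) + Q (symmDiff v1 v3) - (avg P + avg Q)))
        + YD a b * (feat P Q a v1 v2 * feat P Q b v1 v3
            - feat P Q a v1 v2 * feat P Q b v3 v4)))
      = ∑ b, (∑ S : Finset (Fin n), ((ρ * D + hat P S + hat Q S)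
          * (YH a b * (hat (fiH P Q a) S * hat (fiH P Q b) S))
          + YD a b * (hat (fiH P Q a) S * hat (fiH P Q b) S))
        - ((ρ * D + hat P ∅ + hat Q ∅)
          * (YH a b * (hat (fiH P Q a) ∅ * hat (fiH P Q b) ∅))
          + YD a b * (hat (fiH P Q a) ∅ * hat (fiH P Q b) ∅))) := by
    intro a
    rw [fi_avg4_sum]
    exact Finset.sum_congr rfl fun b _ => hab a b
  rw [Finset.sum_congr rfl fun a _ => h1 a]
  simp only [Finset.sum_sub_distrib]
  have hW : ∀ S : Finset (Fin n), fiW P Q YH YD D ρ S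
      = ∑ a, ∑ b, ((ρ * D + hat P S + hat Q S)
          * (YH a b * (hat (fiH P Q a) S * hat (fiH P Q b) S))
          + YD a b * (hat (fiH P Q a) S * hat (fiH P Q b) S)) := by
    intro S
    unfold fiW quad
    simp only [Finset.sum_add_distrib, ← Finset.mul_sum]
  rw [hW ∅]
  congr 1
  simp only [hW]
  rw [Finset.sum_comm]
  have h5 : ∀ b : Fin 6, ∑ a, ∑ S : Finset (Fin n), ((ρ * D + hat P S + hat Q S)
          * (YH a b * (hat (fiH P Q a) S * hat (fiH P Q b) S))
          + YD a b * (hat (fiH P Q a) S * hat (fiH P Q b) S))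
      = ∑ S : Finset (Fin n), ∑ a, ((ρ * D + hat P S + hat Q S)
          * (YH a b * (hat (fiH P Q a) S * hat (fiH P Q b) S))
          + YD a b * (hat (fiH P Q a) S * hat (fiH P Q b) S)) := fun b => Finset.sum_comm
  rw [Finset.sum_congr rfl fun b _ => h5 b, Finset.sum_comm]
  refine Finset.sum_congr rfl fun S _ => ?_
  exact Finset.sum_comm

theorem fourier_ineq {n : ℕ} (P Q : Finset (Fin n) → ℝ) (YH YD : Fin 6 → Fin 6 → ℝ)
    (hH : ∀ x, 0 ≤ quad YH x) (hD : ∀ x, 0 ≤ quad YD x) (D D1 D2 ρ lam : ℝ) (k : ℕ)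
    (hbound : ∀ S : Finset (Fin n), S ≠ ∅ → |hat P S| + |hat Q S| ≤ D)
    (hD1 : D1 ≤ D) (hD2 : D ≤ D2) (hρ0 : 0 ≤ ρ) (hρ1 : ρ ≤ 1) (hlam : 0 ≤ lam)
    (htop : ∀ x y t : ℝ, 0 ≤ D2 + x + y → x + y ≤ -(ρ * D1) →
      0 ≤ lam + quad YD (hv x y t) - (1 - ρ) * D2 * quad YH (hv x y t))
    (hk : ((Finset.univ : Finset (Finset (Fin n))).filter
      (fun S => S ≠ ∅ ∧ hat P S + hat Q S < -(ρ * D))).card ≤ k) :
    -(lam * k) ≤ avg4 (fun v1 v2 v3 v4 : Finset (Fin n) =>
      ∑ a, ∑ b, (YH a b * (ρ * D * (feat P Q a v1 v2 * feat P Q b v1 v3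
            - feat P Q a v1 v2 * feat P Q b v3 v4)
          + feat P Q a v1 v2 * feat P Q b v3 v4
            * (P (symmDiff v1 v3) + Q (symmDiff v1 v3) - (avg P + avg Q)))
        + YD a b * (feat P Q a v1 v2 * feat P Q b v1 v3
            - feat P Q a v1 v2 * feat P Q b v3 v4))) := by
  classical
  rw [fi_total]
  have hx : ∀ S : Finset (Fin n), (fun a => hat (fiH P Q a) S)
      = hv (hat P S) (hat Q S) (hat (fiH P Q 5) S) := fun S => funext fun a => fi_coef P Q S a
  have hterm : ∀ S : Finset (Fin n), S ≠ ∅ →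
      (if S ≠ ∅ ∧ hat P S + hat Q S < -(ρ * D) then -lam else 0) ≤ fiW P Q YH YD D ρ S := by
    intro S hS
    have hb := hbound S hS
    have h0 : 0 ≤ D + hat P S + hat Q S := by
      have h1 := neg_abs_le (hat P S)
      have h2 := neg_abs_le (hat Q S)
      linarith
    unfold fiW
    rw [hx S]
    have hHx := hH (hv (hat P S) (hat Q S) (hat (fiH P Q 5) S))
    have hDx := hD (hv (hat P S) (hat Q S) (hat (fiH P Q 5) S))
    split_ifs with hc
    · have h1 := htop (hat P S) (hat Q S) (hat (fiH P Q 5) S) (by linarith) (by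
        have : ρ * D1 ≤ ρ * D := mul_le_mul_of_nonneg_left hD1 hρ0
        linarith [hc.2])
      have h2 : 0 ≤ (ρ * D + hat P S + hat Q S + (1 - ρ) * D2)
          * quad YH (hv (hat P S) (hat Q S) (hat (fiH P Q 5) S)) := by
        refine mul_nonneg ?_ hHx
        have : (1 - ρ) * D ≤ (1 - ρ) * D2 := mul_le_mul_of_nonneg_left hD2 (by linarith)
        nlinarith
      nlinarith
    · have h3 : 0 ≤ ρ * D + hat P S + hat Q S := by
        by_contra hneg
        push Not at hneg
        exact hc ⟨hS, by linarith⟩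
      have := mul_nonneg h3 hHx
      linarith
  have hsum : ∑ S : Finset (Fin n), fiW P Q YH YD D ρ S - fiW P Q YH YD D ρ ∅
      = ∑ S ∈ (Finset.univ : Finset (Finset (Fin n))).erase ∅, fiW P Q YH YD D ρ S := by
    rw [← Finset.add_sum_erase Finset.univ _ (Finset.mem_univ (∅ : Finset (Fin n)))]
    ring
  rw [hsum]
  have h1 : ∑ S ∈ (Finset.univ : Finset (Finset (Fin n))).erase ∅,
      (if S ≠ ∅ ∧ hat P S + hat Q S < -(ρ * D) then -lam else 0)
      ≤ ∑ S ∈ (Finset.univ : Finset (Finset (Fin n))).erase ∅, fiW P Q YH YD D ρ S :=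
    Finset.sum_le_sum fun S hS => hterm S (Finset.ne_of_mem_erase hS)
  have h2 : ∑ S ∈ (Finset.univ : Finset (Finset (Fin n))).erase ∅,
      (if S ≠ ∅ ∧ hat P S + hat Q S < -(ρ * D) then -lam else 0)
      = ∑ S : Finset (Fin n),
      (if S ≠ ∅ ∧ hat P S + hat Q S < -(ρ * D) then -lam else 0) := by
    refine Finset.sum_erase _ ?_
    simp
  have h3 : ∑ S : Finset (Fin n), (if S ≠ ∅ ∧ hat P S + hat Q S < -(ρ * D) then -lam else 0)
      = -(lam * (((Finset.univ : Finset (Finset (Fin n))).filter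
        (fun S => S ≠ ∅ ∧ hat P S + hat Q S < -(ρ * D))).card : ℝ)) := by
    rw [← Finset.sum_filter, Finset.sum_const, nsmul_eq_mul]
    ring
  have h4 : lam * (((Finset.univ : Finset (Finset (Fin n))).filter
        (fun S => S ≠ ∅ ∧ hat P S + hat Q S < -(ρ * D))).card : ℝ) ≤ lam * k := by
    refine mul_le_mul_of_nonneg_left ?_ hlam
    exact_mod_cast hk
  linarith

end Pool.Agent.Lib.MP36
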