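import Pool.Agent.Lib.MP_36bd7d_h28.Defs2
import Pool.Agent.Lib.MP_36bd7d_h28.FourierIneq

set_option autoImplicit false

open Finset

namespace Pool.Agent.Lib.MP36

/-- The lower function `A ↦ g (A \ {i})`. -/
noncomputable def s2P {n : ℕ} (g : Finset (Fin n) → ℝ) (i : Fin n) (A : Finset (Fin n)) : ℝ :=
  g (A.erase i)

/-- The upper function `A ↦ g (A ∪ {i})`. -/
noncomputable def s2Q {n : ℕ} (g : Finset (Fin n) → ℝ) (i : Fin n) (A : Finset (Fin n)) : ℝ :=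
  g (insert i A)

lemma s2_iP {n : ℕ} (g : Finset (Fin n) → ℝ) (i : Fin n)
    (h01 : ∀ A, g A = 0 ∨ g A = 1) (A : Finset (Fin n)) :
    iP (labg g i A) = s2P g i A := by
  unfold iP labg s2P
  rcases h01 (A.erase i) with h | h
  · rw [h]
    by_cases h1 : g (insert i A) = 1 <;> simp [h1]
  · rw [h]
    simp

lemma s2_iQ {n : ℕ} (g : Finset (Fin n) → ℝ) (i : Fin n)
    (h01 : ∀ A, g A = 0 ∨ g A = 1) (hmono : ∀ A B, A ⊆ B → g A ≤ g B) (A : Finset (Fin n)) :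
    iQ (labg g i A) = s2Q g i A := by
  unfold iQ labg s2Q
  have hm : g (A.erase i) ≤ g (insert i A) :=
    hmono _ _ ((Finset.erase_subset i A).trans (Finset.subset_insert i A))
  rcases h01 (A.erase i) with h | h
  · rcases h01 (insert i A) with h1 | h1 <;> simp [h, h1]
  · rcases h01 (insert i A) with h1 | h1
    · exfalso
      rw [h, h1] at hm
      linarith
    · simp [h, h1]

lemma s2_cast {n : ℕ} (g : Finset (Fin n) → ℝ) (i : Fin n)
    (h01 : ∀ A, g A = 0 ∨ g A = 1) (hmono : ∀ A B, A ⊆ B → g A ≤ g B) (A : Finset (Fin n)) :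
    ((labg g i A : ℕ) : ℝ) = s2P g i A + s2Q g i A := by
  unfold labg s2P s2Q
  have hm : g (A.erase i) ≤ g (insert i A) :=
    hmono _ _ ((Finset.erase_subset i A).trans (Finset.subset_insert i A))
  rcases h01 (A.erase i) with h | h
  · rcases h01 (insert i A) with h1 | h1 <;> simp [h, h1]
  · rcases h01 (insert i A) with h1 | h1
    · exfalso
      rw [h, h1] at hm
      linarith
    · simp [h, h1]
      norm_num

lemma s2_fc {n : ℕ} (g : Finset (Fin n) → ℝ) (i : Fin n)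
    (h01 : ∀ A, g A = 0 ∨ g A = 1) (hmono : ∀ A B, A ⊆ B → g A ≤ g B) (a : Fin 6)
    (u v : Finset (Fin n)) :
    fc a (labg g i u) (labg g i v) (labg g i (symmDiff u v))
      = feat (s2P g i) (s2Q g i) a u v := by
  unfold fc feat
  simp only [s2_iP g i h01, s2_iQ g i h01 hmono]

lemma s2_re {n : ℕ} (A : Finset (Fin n)) : symmDiff A ∅ = A := symmDiff_bot A

lemma s2_le {n : ℕ} (A : Finset (Fin n)) : symmDiff ∅ A = A := bot_symmDiff A

section vl

variable {n : ℕ} (v : Finset (Fin n) × Finset (Fin n) × Finset (Fin n) × Finset (Fin n))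

lemma s2_v1 : vlin v 1 = v.1 := by
  simp [vlin, Nat.testBit, s2_re, s2_le]

lemma s2_v2 : vlin v 2 = v.2.1 := by
  simp [vlin, Nat.testBit, s2_re, s2_le]

lemma s2_v3 : vlin v 3 = symmDiff v.1 v.2.1 := by
  simp [vlin, Nat.testBit, s2_re, s2_le]

lemma s2_v4 : vlin v 4 = v.2.2.1 := by
  simp [vlin, Nat.testBit, s2_re, s2_le]

lemma s2_v5 : vlin v 5 = symmDiff v.1 v.2.2.1 := by
  simp [vlin, Nat.testBit, s2_re, s2_le]

lemma s2_v8 : vlin v 8 = v.2.2.2 := by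
  simp [vlin, Nat.testBit, s2_re, s2_le]

lemma s2_v12 : vlin v 12 = symmDiff v.2.2.1 v.2.2.2 := by
  simp [vlin, Nat.testBit, s2_re, s2_le]

end vl

theorem sum_PsiH_ge {n : ℕ} (YH YD : Fin 6 → Fin 6 → ℝ)
    (hH : ∀ x, 0 ≤ quad YH x) (hD : ∀ x, 0 ≤ quad YD x) (D1 D2 ρ lam q : ℝ) (k : ℕ)
    (g : Finset (Fin n) → ℝ) (i : Fin n)
    (h01 : ∀ A, g A = 0 ∨ g A = 1) (hmono : ∀ A B, A ⊆ B → g A ≤ g B)
    (hp : avg (fun A => g (A.erase i)) = 1 / 8) (hq : avg (fun A => g (insert i A)) = q)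
    (hW : ∀ W : Finset (Fin n), W ≠ ∅ →
      |hat (fun A => g (A.erase i)) W| + |hat (fun A => g (insert i A)) W| ≤ q - 1 / 8)
    (hD1 : D1 ≤ q - 1 / 8) (hD2 : q - 1 / 8 ≤ D2) (hρ0 : 0 ≤ ρ) (hρ1 : ρ ≤ 1) (hlam : 0 ≤ lam)
    (htop : ∀ x y t : ℝ, 0 ≤ D2 + x + y → x + y ≤ -(ρ * D1) →
      0 ≤ lam + quad YD (hv x y t) - (1 - ρ) * D2 * quad YH (hv x y t))
    (hk : ((Finset.univ : Finset (Finset (Fin n))).filter
      (fun S => S ≠ ∅ ∧ hat (fun A => g (A.erase i)) S + hat (fun A => g (insert i A)) S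
        < -(ρ * (q - 1 / 8)))).card ≤ k) :
    -(lam * k) * (2 ^ n) ^ 4 ≤
      ∑ v : Finset (Fin n) × Finset (Fin n) × Finset (Fin n) × Finset (Fin n),
        PsiH YH YD (ρ * (q - 1 / 8)) (1 / 8 + q) (code (labg g i) v) := by
  have hF := fourier_ineq (s2P g i) (s2Q g i) YH YD hH hD (q - 1 / 8) D1 D2 ρ lam k hW hD1 hD2
    hρ0 hρ1 hlam htop hk
  have hPa : avg (s2P g i) = 1 / 8 := hp
  have hQa : avg (s2Q g i) = q := hq
  rw [hPa, hQa] at hF
  have h2 : (0 : ℝ) < (2 ^ n) ^ 4 := by positivity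
  unfold avg4 at hF
  rw [le_div_iff₀ h2] at hF
  refine hF.trans (le_of_eq ?_)
  rw [Fintype.sum_prod_type]
  refine Finset.sum_congr rfl fun v1 _ => ?_
  rw [Fintype.sum_prod_type]
  refine Finset.sum_congr rfl fun v2 _ => ?_
  rw [Fintype.sum_prod_type]
  refine Finset.sum_congr rfl fun v3 _ => ?_
  refine Finset.sum_congr rfl fun v4 _ => ?_
  unfold PsiH code
  simp only [s2_v1, s2_v2, s2_v3, s2_v4, s2_v5, s2_v8, s2_v12, s2_fc g i h01 hmono,
    s2_cast g i h01 hmono]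

end Pool.Agent.Lib.MP36
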