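import Pool.Agent.Lib.MP_36bd7d_h28.Defs

set_option autoImplicit false

open Finset

namespace Pool.Agent.Lib.MP36

/-- Index of the coset of `u`. -/
def smCos (x y u : ℕ) : ℕ :=
  if out2 x y u then (if out2 x y (u ^^^ rp1 x y) then
    (if out2 x y (u ^^^ rp2 x y) then 3 else 2) else 1) else 0

/-- Representatives of the four cosets. -/
def smRep (x y i : ℕ) : ℕ :=
  if i = 0 then 0 else if i = 1 then rp1 x y else if i = 2 then rp2 x y
    else rp1 x y ^^^ rp2 x y

/-- Two distinct nonzero positions. -/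
def smGood (x y : ℕ) : Bool := x != 0 && y != 0 && y != x

lemma sm_check1 : (List.range 16).all (fun x => (List.range 16).all (fun y =>
    !smGood x y || (List.range 16).all (fun u =>
      !(out2 x y (u ^^^ smRep x y (smCos x y u))) && decide (smCos x y u < 4)))) = true := by
  decide +kernel

lemma sm_check2 : (List.range 16).all (fun x => (List.range 16).all (fun y =>
    !smGood x y || (List.range 4).all (fun i => (List.range 4).all (fun j =>
      out2 x y (smRep x y i ^^^ smRep x y j) == decide (i ≠ j))))) = true := by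
  decide +kernel

lemma sm_check3 : (List.range 16).all (fun x => (List.range 16).all (fun y =>
    !smGood x y || (List.range 4).all (fun i =>
      ((List.range 16).filter (fun u => smCos x y u == i)).length == 4))) = true := by
  decide +kernel

lemma sm1 {x y : ℕ} (hx : x < 16) (hy : y < 16) (hg : smGood x y = true) {u : ℕ}
    (hu : u < 16) : out2 x y (u ^^^ smRep x y (smCos x y u)) = false ∧ smCos x y u < 4 := by
  have h := sm_check1
  rw [List.all_eq_true] at h
  have h1 := h x (List.mem_range.2 hx)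
  rw [List.all_eq_true] at h1
  have h2 := h1 y (List.mem_range.2 hy)
  rw [hg, Bool.not_true, Bool.false_or, List.all_eq_true] at h2
  have h3 := h2 u (List.mem_range.2 hu)
  rw [Bool.and_eq_true, Bool.not_eq_true', decide_eq_true_iff] at h3
  exact h3

lemma sm2 {x y : ℕ} (hx : x < 16) (hy : y < 16) (hg : smGood x y = true) {i j : ℕ}
    (hi : i < 4) (hj : j < 4) :
    out2 x y (smRep x y i ^^^ smRep x y j) = decide (i ≠ j) := by
  have h := sm_check2
  rw [List.all_eq_true] at h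
  have h1 := h x (List.mem_range.2 hx)
  rw [List.all_eq_true] at h1
  have h2 := h1 y (List.mem_range.2 hy)
  rw [hg, Bool.not_true, Bool.false_or, List.all_eq_true] at h2
  have h3 := h2 i (List.mem_range.2 hi)
  rw [List.all_eq_true] at h3
  have h4 := h3 j (List.mem_range.2 hj)
  rwa [beq_iff_eq] at h4

lemma sm3 {x y : ℕ} (hx : x < 16) (hy : y < 16) (hg : smGood x y = true) {i : ℕ}
    (hi : i < 4) : ((range 16).filter (fun u => smCos x y u = i)).card = 4 := by
  have h := sm_check3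
  rw [List.all_eq_true] at h
  have h1 := h x (List.mem_range.2 hx)
  rw [List.all_eq_true] at h1
  have h2 := h1 y (List.mem_range.2 hy)
  rw [hg, Bool.not_true, Bool.false_or, List.all_eq_true] at h2
  have h3 := h2 i (List.mem_range.2 hi)
  rw [beq_iff_eq] at h3
  have h5 : ((range 16).filter (fun u => smCos x y u = i)).card =
      ((List.range 16).filter (fun u => decide (smCos x y u = i))).length := rfl
  rw [h5, ← h3]
  congr 1

lemma sm_inv {α : Type*} (g : ℕ → α) (x y : ℕ) (hx : ∀ z, g (z ^^^ x) = g z)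
    (hy : ∀ z, g (z ^^^ y) = g z) {z r : ℕ} (h : out2 x y (z ^^^ r) = false) : g z = g r := by
  have hz : z = r ^^^ (z ^^^ r) := by
    rw [Nat.xor_comm z r, ← Nat.xor_assoc, Nat.xor_self, Nat.zero_xor]
  unfold out2 at h
  rw [Bool.and_eq_false_iff, Bool.and_eq_false_iff, Bool.and_eq_false_iff, bne_eq_false_iff_eq,
    bne_eq_false_iff_eq, bne_eq_false_iff_eq, bne_eq_false_iff_eq] at h
  rcases h with ((h | h) | h) | h
  · rw [hz, h, Nat.xor_zero]
  · rw [hz, h, hx]
  · rw [hz, h, hy]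
  · rw [hz, h, ← Nat.xor_assoc, hy, hx]

lemma sm_out_x (x y z : ℕ) : out2 x y (z ^^^ x) = out2 x y z := by
  unfold out2
  rw [Bool.eq_iff_iff]
  simp only [Bool.and_eq_true, bne_iff_ne, ne_eq]
  have e1 : z ^^^ x = 0 ↔ z = x := Nat.xor_eq_zero_iff
  have e2 : z ^^^ x = x ↔ z = 0 := by
    constructor
    · intro h
      have := congrArg (· ^^^ x) h
      simpa [Nat.xor_assoc] using this
    · rintro rfl; simp
  have e3 : z ^^^ x = y ↔ z = x ^^^ y := by
    constructor
    · intro h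
      rw [← h, Nat.xor_comm z x, ← Nat.xor_assoc, Nat.xor_self, Nat.zero_xor]
    · rintro rfl
      rw [Nat.xor_comm x y, Nat.xor_assoc, Nat.xor_self, Nat.xor_zero]
  have e4 : z ^^^ x = x ^^^ y ↔ z = y := by
    constructor
    · intro h
      rw [Nat.xor_comm x y] at h
      have := congrArg (· ^^^ x) h
      simpa [Nat.xor_assoc] using this
    · rintro rfl; rw [Nat.xor_comm]
  rw [e1, e2, e3, e4]
  tauto

lemma sm_out_y (x y z : ℕ) : out2 x y (z ^^^ y) = out2 x y z := by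
  have h1 : ∀ u, out2 x y u = out2 y x u := by
    intro u
    unfold out2
    rw [Nat.xor_comm x y, Bool.and_right_comm (u != 0)]
  rw [h1, h1, sm_out_x]

lemma sm_lin_iff (x y z w : ℕ) : (∀ j ∈ Finset.Icc (1 : ℕ) 15, lin (x, y, z, w) j ≠ 0) ↔
    ((x ≠ 0 ∧ y ≠ 0 ∧ y ≠ x) ∧ out2 x y z = true ∧ out2 x y w = true ∧
      out2 x y (z ^^^ w) = true) := by
  simp only [out2, Bool.and_eq_true, bne_iff_ne]
  constructor
  · intro h
    have e1 := h 1 (by decide)
    have e2 := h 2 (by decide)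
    have e3 := h 3 (by decide)
    have e4 := h 4 (by decide)
    have e5 := h 5 (by decide)
    have e6 := h 6 (by decide)
    have e7 := h 7 (by decide)
    have e8 := h 8 (by decide)
    have e9 := h 9 (by decide)
    have e10 := h 10 (by decide)
    have e11 := h 11 (by decide)
    have e12 := h 12 (by decide)
    have e13 := h 13 (by decide)
    have e14 := h 14 (by decide)
    have e15 := h 15 (by decide)
    simp [lin, Nat.testBit] at e1 e2 e3 e4 e5 e6 e7 e8 e9 e10 e11 e12 e13 e14 e15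
    refine ⟨⟨e1, e2, fun h => e3 h.symm⟩, ⟨⟨⟨e4, fun h => e5 h.symm⟩, fun h => e6 h.symm⟩,
      fun h => e7 h.symm⟩, ⟨⟨⟨e8, fun h => e9 h.symm⟩, fun h => e10 h.symm⟩,
      fun h => e11 h.symm⟩, ⟨⟨⟨?_, fun h => e13 h.symm⟩, fun h => e14 h.symm⟩,
      fun h => e15 h.symm⟩⟩
    rw [Ne, Nat.xor_eq_zero_iff]
    exact e12
  · rintro ⟨⟨a1, a2, a3⟩, ⟨⟨⟨b1, b2⟩, b3⟩, b4⟩, ⟨⟨⟨c1, c2⟩, c3⟩, c4⟩, ⟨⟨⟨d1, d2⟩, d3⟩, d4⟩⟩ j hj
    rw [Ne, Nat.xor_eq_zero_iff] at d1
    rw [Finset.mem_Icc] at hj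
    obtain ⟨hj1, hj2⟩ := hj
    interval_cases j <;> simp [lin, Nat.testBit]
    · exact a1
    · exact a2
    · exact fun h => a3 h.symm
    · exact b1
    · exact fun h => b2 h.symm
    · exact fun h => b3 h.symm
    · exact fun h => b4 h.symm
    · exact c1
    · exact fun h => c2 h.symm
    · exact fun h => c3 h.symm
    · exact fun h => c4 h.symm
    · exact d1
    · exact fun h => d2 h.symm
    · exact fun h => d3 h.symm
    · exact fun h => d4 h.symm

lemma smGood_iff (x y : ℕ) : smGood x y = true ↔ (x ≠ 0 ∧ y ≠ 0 ∧ y ≠ x) := by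
  unfold smGood
  rw [Bool.and_eq_true, Bool.and_eq_true, bne_iff_ne, bne_iff_ne, bne_iff_ne, and_assoc]

lemma smCos_ne_zero (x y u : ℕ) : smCos x y u ≠ 0 ↔ out2 x y u = true := by
  unfold smCos
  by_cases h : out2 x y u = true
  · rw [if_pos h]
    split_ifs <;> simp [h]
  · rw [if_neg h]
    simp [h]

lemma sm_mem {x y z w : ℕ} (hx : x < 16) (hy : y < 16) (hz : z < 16) (hw : w < 16) :
    (∀ j ∈ Finset.Icc (1 : ℕ) 15, lin (x, y, z, w) j ≠ 0) ↔
    (x ≠ 0 ∧ y ≠ 0 ∧ y ≠ x) ∧ (smCos x y z ≠ 0 ∧ smCos x y w ≠ 0 ∧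
      smCos x y z ≠ smCos x y w) := by
  rw [sm_lin_iff, smCos_ne_zero, smCos_ne_zero]
  refine and_congr_right fun hg => and_congr_right fun _ => and_congr_right fun _ => ?_
  rw [← smGood_iff] at hg
  obtain ⟨z1, z2⟩ := sm1 hx hy hg hz
  obtain ⟨w1, w2⟩ := sm1 hx hy hg hw
  have e1 : out2 x y (z ^^^ w) = out2 x y (smRep x y (smCos x y z) ^^^ w) := by
    refine sm_inv (fun z => out2 x y (z ^^^ w)) x y ?_ ?_ z1
    · intro z
      show out2 x y (z ^^^ x ^^^ w) = out2 x y (z ^^^ w)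
      rw [Nat.xor_assoc, Nat.xor_comm x w, ← Nat.xor_assoc, sm_out_x]
    · intro z
      show out2 x y (z ^^^ y ^^^ w) = out2 x y (z ^^^ w)
      rw [Nat.xor_assoc, Nat.xor_comm y w, ← Nat.xor_assoc, sm_out_y]
  have e2 : out2 x y (smRep x y (smCos x y z) ^^^ w) =
      out2 x y (smRep x y (smCos x y z) ^^^ smRep x y (smCos x y w)) := by
    refine sm_inv (fun w => out2 x y (smRep x y (smCos x y z) ^^^ w)) x y ?_ ?_ w1
    · intro w
      show out2 x y (_ ^^^ (w ^^^ x)) = out2 x y (_ ^^^ w)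
      rw [← Nat.xor_assoc, sm_out_x]
    · intro w
      show out2 x y (_ ^^^ (w ^^^ y)) = out2 x y (_ ^^^ w)
      rw [← Nat.xor_assoc, sm_out_y]
  rw [e1, e2, sm2 hx hy hg z2 w2, decide_eq_true_iff]

/-- Sum over positions of a function of the coset. -/
lemma sm_sum {R : Type*} [CommRing R] {x y : ℕ} (hx : x < 16) (hy : y < 16)
    (hg : smGood x y = true) (F : ℕ → R) :
    ∑ u ∈ range 16, F (smCos x y u) = 4 * ∑ i ∈ range 4, F i := by
  have hmaps : ∀ u ∈ range 16, smCos x y u ∈ range 4 := fun u hu =>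
    mem_range.2 (sm1 hx hy hg (mem_range.1 hu)).2
  rw [← Finset.sum_fiberwise_of_maps_to hmaps, Finset.mul_sum]
  refine Finset.sum_congr rfl fun i hi => ?_
  rw [Finset.sum_congr rfl (g := fun _ => F i) (fun u hu => by
    rw [(Finset.mem_filter.1 hu).2]), Finset.sum_const, sm3 hx hy hg (mem_range.1 hi),
    nsmul_eq_mul]
  norm_num

theorem sum_bases_M {R : Type*} [CommRing R] (G : ℕ → ℕ → ℕ → ℕ → R)
    (h1 : ∀ x y z w, G x y (z ^^^ x) w = G x y z w) (h2 : ∀ x y z w, G x y (z ^^^ y) w = G x y z w)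
    (h3 : ∀ x y z w, G x y z (w ^^^ x) = G x y z w)
    (h4 : ∀ x y z w, G x y z (w ^^^ y) = G x y z w) :
    ∑ b ∈ bases, G b.1 b.2.1 b.2.2.1 b.2.2.2
      = 16 * ∑ x ∈ range 16, ∑ y ∈ range 16, if x ≠ 0 ∧ y ≠ 0 ∧ y ≠ x then
          (G x y (rp1 x y) (rp2 x y) + G x y (rp1 x y) (rp1 x y ^^^ rp2 x y)
          + G x y (rp2 x y) (rp1 x y) + G x y (rp2 x y) (rp1 x y ^^^ rp2 x y)
          + G x y (rp1 x y ^^^ rp2 x y) (rp1 x y) + G x y (rp1 x y ^^^ rp2 x y) (rp2 x y)) else 0 := by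
  unfold bases
  rw [Finset.sum_filter, Finset.sum_product, Finset.mul_sum]
  refine Finset.sum_congr rfl fun x hx => ?_
  rw [Finset.sum_product, Finset.mul_sum]
  refine Finset.sum_congr rfl fun y hy => ?_
  rw [Finset.sum_product]
  rw [mem_range] at hx hy
  have step : ∀ z ∈ range 16, ∀ w ∈ range 16,
      (if (∀ j ∈ Finset.Icc (1 : ℕ) 15, lin (x, y, z, w) j ≠ 0) then G x y z w else 0) =
      if (x ≠ 0 ∧ y ≠ 0 ∧ y ≠ x) then (if (smCos x y z ≠ 0 ∧ smCos x y w ≠ 0 ∧
      smCos x y z ≠ smCos x y w) then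
        G x y (smRep x y (smCos x y z)) (smRep x y (smCos x y w)) else 0) else 0 := by
    intro z hz w hw
    rw [mem_range] at hz hw
    rw [← ite_and]
    by_cases hc : (x ≠ 0 ∧ y ≠ 0 ∧ y ≠ x) ∧ (smCos x y z ≠ 0 ∧ smCos x y w ≠ 0 ∧
      smCos x y z ≠ smCos x y w)
    · rw [if_pos hc, if_pos ((sm_mem hx hy hz hw).2 hc)]
      have hg := (smGood_iff x y).2 hc.1
      rw [sm_inv (fun z => G x y z w) x y (fun z => h1 x y z w) (fun z => h2 x y z w)
        (sm1 hx hy hg hz).1]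
      exact sm_inv (fun w => G x y _ w) x y (fun w => h3 x y _ w) (fun w => h4 x y _ w)
        (sm1 hx hy hg hw).1
    · rw [if_neg hc, if_neg (fun h => hc ((sm_mem hx hy hz hw).1 h))]
  rw [Finset.sum_congr rfl fun z hz => Finset.sum_congr rfl fun w hw => step z hz w hw]
  by_cases hg' : x ≠ 0 ∧ y ≠ 0 ∧ y ≠ x
  · have hg := (smGood_iff x y).2 hg'
    simp only [if_pos hg']
    rw [Finset.sum_congr rfl fun z _ => sm_sum hx hy hg (fun j => if (smCos x y z ≠ 0 ∧ j ≠ 0 ∧
      smCos x y z ≠ j) then G x y (smRep x y (smCos x y z)) (smRep x y j) else 0)]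
    rw [sm_sum hx hy hg (fun i => 4 * ∑ j ∈ range 4, if (i ≠ 0 ∧ j ≠ 0 ∧
      i ≠ j) then G x y (smRep x y i) (smRep x y j) else 0)]
    simp only [Finset.sum_range_succ, Finset.sum_range_zero, smRep]
    norm_num
    ring
  · simp only [if_neg hg', Finset.sum_const_zero, mul_zero]

theorem bases_card : bases.card = 20160 := by
  have h := sum_bases_M (R := ℤ) (fun _ _ _ _ => 1) (fun _ _ _ _ => rfl) (fun _ _ _ _ => rfl)
    (fun _ _ _ _ => rfl) (fun _ _ _ _ => rfl)
  rw [Finset.sum_const, nsmul_eq_mul, mul_one] at h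
  have h2 : (16 : ℤ) * ∑ x ∈ range 16, ∑ y ∈ range 16, (if x ≠ 0 ∧ y ≠ 0 ∧ y ≠ x then
      (1 + 1 + 1 + 1 + 1 + 1 : ℤ) else 0) = 20160 := by
    decide +kernel
  rw [h2] at h
  exact_mod_cast h

end Pool.Agent.Lib.MP36
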