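import Pool.Agent.Lib.MP_36bd7d_h28.Lin
import Pool.Agent.Lib.MP_36bd7d_h28.Leaf
import Pool.Agent.Lib.MP_36bd7d_h28.SumM
import Pool.Agent.Lib.MP_36bd7d_h28.Sound1
import Pool.Agent.Lib.MP_36bd7d_h28.Sound2

set_option autoImplicit false

open Finset

namespace Pool.Agent.Lib.MP36

variable {n : ℕ}

lemma eng_labg_le (g : Finset (Fin n) → ℝ) (i : Fin n) (A : Finset (Fin n)) :
    labg g i A ≤ 2 := by
  unfold labg
  split_ifs <;> omega

lemma eng_labg_two {g : Finset (Fin n) → ℝ} {i : Fin n} {A : Finset (Fin n)}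
    (h : labg g i A = 2) : g (A.erase i) = 1 := by
  unfold labg at h
  split_ifs at h with h1 h2 <;> first | exact h1 | omega

lemma eng_labg_pos {g : Finset (Fin n) → ℝ} {i : Fin n} (h01 : ∀ A, g A = 0 ∨ g A = 1)
    (hmono : ∀ A B, A ⊆ B → g A ≤ g B) {A : Finset (Fin n)}
    (h : 1 ≤ labg g i A) : g (insert i A) = 1 := by
  unfold labg at h
  split_ifs at h with h1 h2
  · have h3 := hmono (A.erase i) (insert i A)
      ((Finset.erase_subset i A).trans (Finset.subset_insert i A))
    rcases h01 (insert i A) with h4 | h4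
    · rw [h1, h4] at h3
      norm_num at h3
    · exact h4
  · exact h2
  · omega

lemma eng_forbid {g : Finset (Fin n) → ℝ} {i : Fin n} (h01 : ∀ A, g A = 0 ∨ g A = 1)
    (hmono : ∀ A B, A ⊆ B → g A ≤ g B)
    (h3 : ∀ A B C, A ∩ B ∩ C = ∅ → g A * g B * g C = 0) {A B : Finset (Fin n)}
    (hA : labg g i A = 2) (hB : 1 ≤ labg g i B) : labg g i (symmDiff A B) = 0 := by
  by_contra hne
  have h1 := eng_labg_two hA
  have h2 := eng_labg_pos h01 hmono hB
  have h4 : g (insert i (symmDiff A B)) = 1 := eng_labg_pos h01 hmono (by omega)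
  have h5 := h3 (A.erase i) (insert i B) (insert i (symmDiff A B)) (by
    ext x
    simp only [Finset.mem_inter, Finset.mem_erase, Finset.mem_insert, Finset.mem_symmDiff,
      Finset.notMem_empty, iff_false]
    rintro ⟨⟨⟨hx, hxA⟩, hxB⟩, hxC⟩
    rcases hxB with hxB | hxB
    · exact hx hxB
    · rcases hxC with hxC | hxC
      · exact hx hxC
      · rcases hxC with hxC | hxC
        · exact hxC.2 hxB
        · exact hxC.2 hxA)
  rw [h1, h2, h4] at h5
  norm_num at h5

lemma eng_lab_empty {g : Finset (Fin n) → ℝ} {i : Fin n} (h01 : ∀ A, g A = 0 ∨ g A = 1)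
    (hmono : ∀ A B, A ⊆ B → g A ≤ g B)
    (h3 : ∀ A B C, A ∩ B ∩ C = ∅ → g A * g B * g C = 0)
    (hp : avg (fun A => g (A.erase i)) = 1 / 8) : labg g i ∅ = 0 := by
  have hex : ∃ A : Finset (Fin n), g (A.erase i) = 1 := by
    by_contra hcon
    push Not at hcon
    have h0 : ∀ A : Finset (Fin n), g (A.erase i) = 0 := by
      intro A
      rcases h01 (A.erase i) with h | h
      · exact h
      · exact absurd h (hcon A)
    unfold avg at hp
    simp only [h0, Finset.sum_const_zero, zero_div] at hp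
    norm_num at hp
  obtain ⟨A, hA⟩ := hex
  have hA2 : labg g i A = 2 := by
    unfold labg
    rw [if_pos hA]
  have := eng_forbid h01 hmono h3 hA2 (by omega : 1 ≤ labg g i A)
  rwa [symmDiff_self] at this

lemma eng_vlin_zero (v : Finset (Fin n) × Finset (Fin n) × Finset (Fin n) × Finset (Fin n)) :
    vlin v 0 = ∅ := by
  simp [vlin]

/-- The abstract engine. -/
theorem engine (g : Finset (Fin n) → ℝ) (i : Fin n) (q : ℝ)
    (h01 : ∀ A, g A = 0 ∨ g A = 1) (hmono : ∀ A B, A ⊆ B → g A ≤ g B)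
    (h3 : ∀ A B C, A ∩ B ∩ C = ∅ → g A * g B * g C = 0)
    (hp : avg (fun A => g (A.erase i)) = 1 / 8) (hq : avg (fun A => g (insert i A)) = q)
    (hW : ∀ W : Finset (Fin n), W ≠ ∅ →
      |hat (fun A => g (A.erase i)) W| + |hat (fun A => g (insert i A)) W| ≤ q - 1 / 8)
    (MM : ℕ → ℕ → ℕ → ℝ) (YH YD : Fin 6 → Fin 6 → ℝ) (EE : ℕ → ℕ → ℝ)
    (hM : ∀ σ (w : ℕ → ℝ), 0 ≤ ∑ k ∈ range 81, ∑ l ∈ range 81, MM σ k l * (w k * w l))
    (hH : ∀ x, 0 ≤ quad YH x) (hD : ∀ x, 0 ≤ quad YD x) (hE : ∀ w, EE w 0 = 0)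
    (D1 D2 ρ lam : ℝ) (k : ℕ)
    (hD1 : D1 ≤ q - 1 / 8) (hD2 : q - 1 / 8 ≤ D2) (hρ0 : 0 ≤ ρ) (hρ1 : ρ ≤ 1) (hlam : 0 ≤ lam)
    (htop : ∀ x y t : ℝ, 0 ≤ D2 + x + y → x + y ≤ -(ρ * D1) →
      0 ≤ lam + quad YD (hv x y t) - (1 - ρ) * D2 * quad YH (hv x y t))
    (hk : ((Finset.univ : Finset (Finset (Fin n))).filter
      (fun S => S ≠ ∅ ∧ hat (fun A => g (A.erase i)) S + hat (fun A => g (insert i A)) S
        < -(ρ * (q - 1 / 8)))).card ≤ k)
    (hleaf : ∀ N ∈ leaves, tot (PsiM MM) (dig N)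
      + tot (PsiH YH YD (ρ * (q - 1 / 8)) (1 / 8 + q)) (dig N) + tot (PsiE EE q) (dig N)
      + 20160 * (lam * k) < 0) : False := by
  obtain ⟨Ψ, hΨ⟩ : ∃ Ψ : (ℕ → ℕ) → ℝ, Ψ = fun c => PsiM MM c
      + PsiH YH YD (ρ * (q - 1 / 8)) (1 / 8 + q) c + PsiE EE q c := ⟨_, rfl⟩
  have hΨc : ∀ c, Ψ c = PsiM MM c + PsiH YH YD (ρ * (q - 1 / 8)) (1 / 8 + q) c
      + PsiE EE q c := by intro c; rw [hΨ]
  have htot : ∀ c, tot Ψ c = tot (PsiM MM) c
      + tot (PsiH YH YD (ρ * (q - 1 / 8)) (1 / 8 + q)) c + tot (PsiE EE q) c := by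
    intro c
    unfold tot
    rw [← Finset.sum_add_distrib, ← Finset.sum_add_distrib]
    exact Finset.sum_congr rfl (fun b _ => hΨc _)
  have hlab2 : ∀ A, labg g i A ≤ 2 := eng_labg_le g i
  -- every quadruple has a total below the bound
  have hpoint : ∀ v : Finset (Fin n) × Finset (Fin n) × Finset (Fin n) × Finset (Fin n),
      tot Ψ (code (labg g i) v) < -(20160 * (lam * k)) := by
    intro v
    obtain ⟨b0, hb0, N, hN, hNj⟩ := exists_leaf (code (labg g i) v)
      (by
        unfold code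
        rw [eng_vlin_zero]
        exact eng_lab_empty h01 hmono h3 hp)
      (fun x _ => hlab2 _)
      (by
        intro x _ y _ hx hy
        unfold code at hx hy ⊢
        rw [vlin_xor]
        exact eng_forbid h01 hmono h3 hx hy)
    have h1 : tot Ψ (code (labg g i) v) = tot Ψ (dig N) := by
      rw [← tot_comp Ψ (code (labg g i) v) hb0]
      unfold tot
      refine Finset.sum_congr rfl (fun b hb => ?_)
      congr 1
      funext j
      exact hNj _ (lin_lt hb j)
    rw [h1, htot]
    have := hleaf N hN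
    linarith
  have hsum := sum_tot Ψ (labg g i)
  rw [bases_card] at hsum
  have hlow : -(lam * k) * (2 ^ n) ^ 4
      ≤ ∑ v : Finset (Fin n) × Finset (Fin n) × Finset (Fin n) × Finset (Fin n),
        Ψ (code (labg g i) v) := by
    simp_rw [hΨc]
    rw [Finset.sum_add_distrib, Finset.sum_add_distrib]
    have e1 := sum_PsiM_nonneg MM hM (labg g i) hlab2
    have e2 := sum_PsiH_ge YH YD hH hD D1 D2 ρ lam q k g i h01 hmono hp hq hW hD1 hD2 hρ0 hρ1
      hlam htop hk
    have e3 : ∑ v : Finset (Fin n) × Finset (Fin n) × Finset (Fin n) × Finset (Fin n),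
        PsiE EE q (code (labg g i) v) = 0 := by
      apply sum_PsiE_eq EE q (labg g i) hlab2 hE
      · rw [← hp]
        congr 1
        funext A
        by_cases h : labg g i A = 2
        · rw [if_pos h, eng_labg_two h]
        · rw [if_neg h]
          rcases h01 (A.erase i) with h5 | h5
          · rw [h5]
          · exfalso
            apply h
            unfold labg
            rw [if_pos h5]
      · rw [← hq]
        congr 1
        funext A
        by_cases h : 1 ≤ labg g i A
        · rw [if_pos h, eng_labg_pos h01 hmono h]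
        · rw [if_neg h]
          rcases h01 (insert i A) with h5 | h5
          · rw [h5]
          · exfalso
            apply h
            unfold labg
            split_ifs <;> omega
    linarith
  have hup : ∑ v : Finset (Fin n) × Finset (Fin n) × Finset (Fin n) × Finset (Fin n),
      tot Ψ (code (labg g i) v) < (2 ^ n) ^ 4 * -(20160 * (lam * k)) := by
    have hcard : (Finset.univ : Finset (Finset (Fin n) × Finset (Fin n) × Finset (Fin n)
        × Finset (Fin n))).card = (2 ^ n) ^ 4 := by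
      simp only [Finset.card_univ, Fintype.card_prod, Fintype.card_finset, Fintype.card_fin]
      ring
    calc ∑ v : Finset (Fin n) × Finset (Fin n) × Finset (Fin n) × Finset (Fin n),
          tot Ψ (code (labg g i) v)
        < ∑ _v : Finset (Fin n) × Finset (Fin n) × Finset (Fin n) × Finset (Fin n),
          -(20160 * (lam * k)) := by
          apply Finset.sum_lt_sum_of_nonempty
          · exact ⟨(∅, ∅, ∅, ∅), Finset.mem_univ _⟩
          · intro v _
            exact hpoint v
      _ = (2 ^ n) ^ 4 * -(20160 * (lam * k)) := by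
          rw [Finset.sum_const, hcard, nsmul_eq_mul]
          push_cast
          ring
  rw [hsum] at hup
  push_cast at hup
  nlinarith

end Pool.Agent.Lib.MP36
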