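import Pool.Agent.Lib.MP_36bd7d_h28.Defs

set_option autoImplicit false

open Finset

namespace Pool.Agent.Lib.MP36

variable {n : ℕ}

/-- Code of four labels. -/
def code4 (a b c d : ℕ) : ℕ := a + 3 * b + 9 * c + 27 * d

/-- Class of four labels modulo the four translations. -/
def kap (a b c d : ℕ) : ℕ :=
  min (min (code4 a b c d) (code4 b a d c)) (min (code4 c d a b) (code4 d c b a))

/-- Real indicators of a label: `P` is label `2`, `Q` is label at least `1`. -/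
noncomputable def iP (l : ℕ) : ℝ := if l = 2 then 1 else 0

noncomputable def iQ (l : ℕ) : ℝ := if 1 ≤ l then 1 else 0

/-- The six features at the level of labels (`l1` of `u`, `l2` of `v`, `l3` of `u + v`). -/
noncomputable def fc (a : Fin 6) (l1 l2 l3 : ℕ) : ℝ :=
  ![iP l1, iQ l1, iP l2 * iP l3, iP l2 * iQ l3 + iQ l2 * iP l3, iQ l2 * iQ l3,
    iQ l1 * (iQ l2 * iQ l3)] a

/-- Matrix part of the certificate functional. -/
noncomputable def PsiM (MM : ℕ → ℕ → ℕ → ℝ) (c : ℕ → ℕ) : ℝ :=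
  MM (c 1 + 3 * c 2 + 9 * c 3) (kap (c 4) (c 5) (c 6) (c 7)) (kap (c 8) (c 9) (c 10) (c 11))

/-- Fourier part of the certificate functional (`s = ρ D`, `m = p + q`). -/
noncomputable def PsiH (YH YD : Fin 6 → Fin 6 → ℝ) (s m : ℝ) (c : ℕ → ℕ) : ℝ :=
  ∑ a, ∑ b, (YH a b * (s * (fc a (c 1) (c 2) (c 3) * fc b (c 1) (c 4) (c 5)
        - fc a (c 1) (c 2) (c 3) * fc b (c 4) (c 8) (c 12))
      + fc a (c 1) (c 2) (c 3) * fc b (c 4) (c 8) (c 12) * ((c 5 : ℝ) - m))
    + YD a b * (fc a (c 1) (c 2) (c 3) * fc b (c 1) (c 4) (c 5)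
        - fc a (c 1) (c 2) (c 3) * fc b (c 4) (c 8) (c 12)))

/-- Number of positions `j < 8` with label `l`. -/
def cnt8 (c : ℕ → ℕ) (l : ℕ) : ℕ := ∑ j ∈ range 8, if c j = l then 1 else 0

/-- Number of pairs `i, j < 8` with `c i, c j, c (i ^^^ j) ≥ 1`. -/
def lin8 (c : ℕ → ℕ) : ℕ :=
  ∑ i ∈ range 8, ∑ j ∈ range 8, if 1 ≤ c i ∧ 1 ≤ c j ∧ 1 ≤ c (i ^^^ j) then 1 else 0

/-- Type of the restriction of a code to the positions `0, …, 7`. -/
def om (c : ℕ → ℕ) : ℕ := 16 * cnt8 c 2 + 2 * cnt8 c 1 + (if lin8 c = 0 then 0 else 1)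

/-- Independence part of the certificate functional. -/
noncomputable def PsiE (EE : ℕ → ℕ → ℝ) (q : ℝ) (c : ℕ → ℕ) : ℝ :=
  EE (om c) (c 8) - (q - 1 / 8) * EE (om c) 1 - 1 / 8 * EE (om c) 2

/-- The number of points of label `l` outside the hyperplane `f`. -/
def outCnt (c : ℕ → ℕ) (f l : ℕ) : ℕ :=
  ∑ z ∈ range 16, if pr f z = true ∧ c z = l then 1 else 0

/-- Type of the restriction of a code to the hyperplane `f`. -/
def omf (c : ℕ → ℕ) (f : ℕ) : ℕ :=
  16 * (∑ x ∈ range 16, if pr f x = false ∧ c x = 2 then 1 else 0)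
    + 2 * (∑ x ∈ range 16, if pr f x = false ∧ c x = 1 then 1 else 0)
    + (if (∑ x ∈ range 16, ∑ y ∈ range 16, if (pr f x = false ∧ pr f y = false) ∧
        1 ≤ c x ∧ 1 ≤ c y ∧ 1 ≤ c (x ^^^ y) then 1 else 0) = 0 then 0 else 1)

/-- The label of a subset, from the monotone function `g` and the distinguished element `i`. -/
noncomputable def labg (g : Finset (Fin n) → ℝ) (i : Fin n) (A : Finset (Fin n)) : ℕ :=
  open Classical in if g (A.erase i) = 1 then 2 else if g (insert i A) = 1 then 1 else 0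

end Pool.Agent.Lib.MP36
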