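import Pool.Agent.Lib.MP_36bd7d_h28.ChkTable
import Pool.Agent.Lib.MP_36bd7d_h28.Defs2

set_option autoImplicit false

open Finset

namespace Pool.Agent.Lib.MP36

/-! ### Fast versions -/

/-- Packed parity table: bit `16 f + x` is the parity of `f &&& x`. -/
def fe_PR : ℕ := 0x6996c33ca55a0ff0996633cc55aaff0096963c3c5a5af0f06666ccccaaaa0000

/-- Fast parity. -/
def fe_pr (f x : ℕ) : Bool :=
  Nat.beq (Nat.land (Nat.shiftRight fe_PR (Nat.add (Nat.mul 16 f) x)) 1) 1

theorem fe_pr_eq : ∀ f < 16, ∀ x < 16, fe_pr f x = pr f x := by decide +kernel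

/-- Fast digit. -/
def fe_dig (N x : ℕ) : ℕ := Nat.mod (Nat.shiftRight N (Nat.mul 2 x)) 4

theorem fe_dig_eq (N x : ℕ) : fe_dig N x = dig N x := rfl

/-- Number of points of label `l` outside the hyperplane `f`. -/
def fe_out (N f l : ℕ) : ℕ :=
  rsum 16 (fun x => cnd (fe_pr f x) (cnd (Nat.beq (fe_dig N x) l) 1 0) 0)

/-- Number of points of label `l` inside the hyperplane `f`. -/
def fe_in (N f l : ℕ) : ℕ :=
  rsum 16 (fun x => cnd (fe_pr f x) 0 (cnd (Nat.beq (fe_dig N x) l) 1 0))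

/-- Is there `k < n` with `p k`? -/
def fe_or (n : ℕ) (p : ℕ → Bool) : Bool :=
  Nat.rec (motive := fun _ => Bool) false (fun k ih => cnd (p k) true ih) n

/-- Active points: in the hyperplane and of positive label. -/
def fe_act (N f x : ℕ) : Bool := cnd (fe_pr f x) false (Nat.ble 1 (fe_dig N x))

/-- Is there a line of positive labels in the hyperplane? -/
def fe_flag (N f : ℕ) : Bool :=
  fe_or 16 (fun x => cnd (fe_act N f x)
    (fe_or 16 (fun y => cnd (fe_act N f y) (Nat.ble 1 (fe_dig N (Nat.xor x y))) false)) false)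

/-- Fast type. -/
def fe_om (N f : ℕ) : ℕ :=
  Nat.add (Nat.add (Nat.mul 16 (fe_in N f 2)) (Nat.mul 2 (fe_in N f 1))) (cnd (fe_flag N f) 1 0)

theorem fe_or_iff (n : ℕ) (p : ℕ → Bool) : fe_or n p = true ↔ ∃ k < n, p k = true := by
  induction n with
  | zero => simp [fe_or]
  | succ n ih =>
    have h : fe_or (n + 1) p = cnd (p n) true (fe_or n p) := rfl
    rw [h, cnd_eq]
    by_cases hp : p n = true
    · simp only [hp, if_true, true_iff]
      exact ⟨n, by omega, hp⟩
    · rw [if_neg hp, ih]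
      constructor
      · rintro ⟨k, hk, hpk⟩
        exact ⟨k, by omega, hpk⟩
      · rintro ⟨k, hk, hpk⟩
        refine ⟨k, ?_, hpk⟩
        rcases Nat.lt_succ_iff_lt_or_eq.mp hk with h' | h'
        · exact h'
        · exact absurd (h' ▸ hpk) hp

theorem fe_out_eq (N f l : ℕ) (hf : f < 16) : fe_out N f l = outCnt (dig N) f l := by
  unfold fe_out outCnt
  rw [rsum_eq]
  refine Finset.sum_congr rfl (fun x hx => ?_)
  rw [Finset.mem_range] at hx
  rw [fe_pr_eq f hf x hx, fe_dig_eq, cnd_eq, cnd_eq]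
  by_cases hp : pr f x = true
  · by_cases hd : dig N x = l
    · have hb : Nat.beq (dig N x) l = true := by rw [Nat.beq_eq]; exact hd
      rw [if_pos hp, if_pos hb, if_pos ⟨hp, hd⟩]
    · have hb : ¬ Nat.beq (dig N x) l = true := by rw [Nat.beq_eq]; exact hd
      rw [if_pos hp, if_neg hb, if_neg (fun h => hd h.2)]
  · rw [if_neg hp, if_neg (fun h => hp h.1)]

theorem fe_in_eq (N f l : ℕ) (hf : f < 16) : fe_in N f l =
    ∑ x ∈ range 16, if pr f x = false ∧ dig N x = l then 1 else 0 := by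
  unfold fe_in
  rw [rsum_eq]
  refine Finset.sum_congr rfl (fun x hx => ?_)
  rw [Finset.mem_range] at hx
  rw [fe_pr_eq f hf x hx, fe_dig_eq, cnd_eq, cnd_eq]
  by_cases hp : pr f x = true
  · rw [if_pos hp, if_neg (fun h => by rw [hp] at h; exact Bool.noConfusion h.1)]
  · have hp' : pr f x = false := by simpa using hp
    by_cases hd : dig N x = l
    · have hb : Nat.beq (dig N x) l = true := by rw [Nat.beq_eq]; exact hd
      rw [if_neg hp, if_pos hb, if_pos ⟨hp', hd⟩]
    · have hb : ¬ Nat.beq (dig N x) l = true := by rw [Nat.beq_eq]; exact hd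
      rw [if_neg hp, if_neg hb, if_neg (fun h => hd h.2)]

theorem fe_act_iff (N f x : ℕ) (hf : f < 16) (hx : x < 16) :
    fe_act N f x = true ↔ pr f x = false ∧ 1 ≤ dig N x := by
  unfold fe_act
  rw [fe_pr_eq f hf x hx, fe_dig_eq, cnd_eq]
  by_cases hp : pr f x = true
  · simp [hp]
  · have hp' : pr f x = false := by simpa using hp
    rw [if_neg hp, Nat.ble_eq]
    simp [hp']

theorem fe_flag_iff (N f : ℕ) (hf : f < 16) : fe_flag N f = true ↔
    ∃ x < 16, ∃ y < 16, (pr f x = false ∧ pr f y = false) ∧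
        1 ≤ dig N x ∧ 1 ≤ dig N y ∧ 1 ≤ dig N (x ^^^ y) := by
  unfold fe_flag
  rw [fe_or_iff]
  constructor
  · rintro ⟨x, hx, h⟩
    rw [cnd_eq] at h
    by_cases ha : fe_act N f x = true
    · rw [if_pos ha, fe_or_iff] at h
      obtain ⟨y, hy, h⟩ := h
      rw [cnd_eq] at h
      by_cases hb : fe_act N f y = true
      · rw [if_pos hb, Nat.ble_eq] at h
        have ha' := (fe_act_iff N f x hf hx).mp ha
        have hb' := (fe_act_iff N f y hf hy).mp hb
        exact ⟨x, hx, y, hy, ⟨ha'.1, hb'.1⟩, ha'.2, hb'.2, h⟩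
      · rw [if_neg hb] at h
        exact Bool.noConfusion h
    · rw [if_neg ha] at h
      exact Bool.noConfusion h
  · rintro ⟨x, hx, y, hy, ⟨h1, h2⟩, h3, h4, h5⟩
    refine ⟨x, hx, ?_⟩
    rw [cnd_eq, if_pos ((fe_act_iff N f x hf hx).mpr ⟨h1, h3⟩), fe_or_iff]
    refine ⟨y, hy, ?_⟩
    rw [cnd_eq, if_pos ((fe_act_iff N f y hf hy).mpr ⟨h2, h4⟩), Nat.ble_eq]
    exact h5

theorem fe_flag_eq (N f : ℕ) (hf : f < 16) : cnd (fe_flag N f) 1 0 =
    (if (∑ x ∈ range 16, ∑ y ∈ range 16, if (pr f x = false ∧ pr f y = false) ∧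
        1 ≤ dig N x ∧ 1 ≤ dig N y ∧ 1 ≤ dig N (x ^^^ y) then 1 else 0) = 0 then 0 else 1) := by
  rw [cnd_eq]
  by_cases hflag : fe_flag N f = true
  · rw [if_pos hflag]
    rw [fe_flag_iff N f hf] at hflag
    obtain ⟨x, hx, y, hy, hh⟩ := hflag
    rw [if_neg]
    intro h0
    rw [Finset.sum_eq_zero_iff] at h0
    have h1 := h0 x (Finset.mem_range.mpr hx)
    rw [Finset.sum_eq_zero_iff] at h1
    have h2 := h1 y (Finset.mem_range.mpr hy)
    rw [if_pos hh] at h2
    exact one_ne_zero h2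
  · rw [if_neg hflag]
    rw [fe_flag_iff N f hf] at hflag
    rw [if_pos]
    refine Finset.sum_eq_zero (fun x hx => Finset.sum_eq_zero (fun y hy => ?_))
    rw [Finset.mem_range] at hx hy
    exact if_neg (fun hh => hflag ⟨x, hx, y, hy, hh⟩)

theorem fe_om_unf (N f : ℕ) :
    fe_om N f = 16 * fe_in N f 2 + 2 * fe_in N f 1 + cnd (fe_flag N f) 1 0 := rfl

theorem fe_om_eq (N f : ℕ) (hf : f < 16) : fe_om N f = omf (dig N) f := by
  rw [fe_om_unf, fe_in_eq N f 2 hf, fe_in_eq N f 1 hf, fe_flag_eq N f hf]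
  unfold omf
  rfl

/-! ### The check -/

/-- Check the entries `f, f + 1, …` of a list. -/
def fe_chkl (N : ℕ) (l : List ℕ) : ℕ → Bool :=
  List.rec (motive := fun _ => ℕ → Bool) (fun _ => true)
    (fun v _ ih f => cnd (Nat.beq (fe_om N f) (Nat.mod v 256))
      (cnd (Nat.beq (fe_out N f 1) (Nat.mod (Nat.div v 256) 16))
        (cnd (Nat.beq (fe_out N f 2) (Nat.div v 4096)) (force (Nat.succ f) ih) false)
        false) false) l

theorem fe_chkl_cons (N v f : ℕ) (l : List ℕ) (h : fe_chkl N (v :: l) f = true) :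
    fe_om N f = v % 256 ∧ fe_out N f 1 = v / 256 % 16 ∧ fe_out N f 2 = v / 4096 ∧
      fe_chkl N l (f + 1) = true := by
  have h' : cnd (Nat.beq (fe_om N f) (Nat.mod v 256))
      (cnd (Nat.beq (fe_out N f 1) (Nat.mod (Nat.div v 256) 16))
        (cnd (Nat.beq (fe_out N f 2) (Nat.div v 4096)) (force (Nat.succ f) (fe_chkl N l)) false)
        false) false = true := h
  rw [cnd_eq] at h'
  by_cases h1 : Nat.beq (fe_om N f) (Nat.mod v 256) = true
  · rw [if_pos h1, cnd_eq] at h'
    by_cases h2 : Nat.beq (fe_out N f 1) (Nat.mod (Nat.div v 256) 16) = true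
    · rw [if_pos h2, cnd_eq] at h'
      by_cases h3 : Nat.beq (fe_out N f 2) (Nat.div v 4096) = true
      · rw [if_pos h3, force_eq] at h'
        rw [Nat.beq_eq] at h1 h2 h3
        exact ⟨h1, h2, h3, h'⟩
      · rw [if_neg h3] at h'
        exact Bool.noConfusion h'
    · rw [if_neg h2] at h'
      exact Bool.noConfusion h'
  · rw [if_neg h1] at h'
    exact Bool.noConfusion h'

theorem fe_chkl_sum (N : ℕ) (EE : ℕ → ℕ → ℝ) (a b : ℝ) : ∀ (l : List ℕ) (f : ℕ),
    f + l.length ≤ 16 → fe_chkl N l f = true →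
    ∑ k ∈ Finset.Ico f (f + l.length),
      ((outCnt (dig N) k 1 : ℝ) * EE (omf (dig N) k) 1
        + (outCnt (dig N) k 2 : ℝ) * EE (omf (dig N) k) 2
        - a * EE (omf (dig N) k) 1 - b * EE (omf (dig N) k) 2)
    = (l.map (fun v => ((v / 256 % 16 : ℕ) : ℝ) * EE (v % 256) 1
        + ((v / 4096 : ℕ) : ℝ) * EE (v % 256) 2
        - a * EE (v % 256) 1 - b * EE (v % 256) 2)).sum := by
  intro l
  induction l with
  | nil =>
    intro f _ _
    rw [List.length_nil, Nat.add_zero, Finset.Ico_self, Finset.sum_empty, List.map_nil,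
      List.sum_nil]
  | cons v l ih =>
    intro f hf h
    obtain ⟨h1, h2, h3, h4⟩ := fe_chkl_cons N v f l h
    rw [List.length_cons] at hf
    have hf16 : f < 16 := by omega
    rw [List.map_cons, List.sum_cons, List.length_cons,
      Finset.sum_eq_sum_Ico_succ_bot (by omega : f < f + (l.length + 1))]
    rw [← ih (f + 1) (by omega) h4]
    rw [show f + (l.length + 1) = f + 1 + l.length by ring]
    rw [← fe_out_eq N f 1 hf16, ← fe_out_eq N f 2 hf16, ← fe_om_eq N f hf16, h1, h2, h3]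

theorem fe_unpk_length (w : ℕ) : ∀ n N : ℕ, (unpk w n N).length = n := by
  intro n
  induction n with
  | zero => intro N; rfl
  | succ n ih =>
    intro N
    have h : unpk w (n + 1) N = force (Nat.land N (Nat.sub (Nat.shiftLeft 1 w) 1)) fun c =>
      c :: unpk w n (Nat.shiftRight N w) := rfl
    rw [h, force_eq, List.length_cons, ih]

/-- Digits at most `2`. -/
def fe_two (N : ℕ) : Bool :=
  cnd (fe_or 16 (fun j => Nat.beq (fe_dig N j) 3)) false (Nat.ble N 4294967295)

theorem fe_two_spec (N : ℕ) (h : fe_two N = true) (j : ℕ) : dig N j ≤ 2 := by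
  unfold fe_two at h
  rw [cnd_eq] at h
  by_cases h1 : fe_or 16 (fun j => Nat.beq (fe_dig N j) 3) = true
  · rw [if_pos h1] at h
    exact Bool.noConfusion h
  · rw [if_neg h1, Nat.ble_eq] at h
    rw [fe_or_iff] at h1
    have hlt : dig N j < 4 := Nat.mod_lt _ (by norm_num)
    rcases Nat.lt_or_ge j 16 with hj | hj
    · have h2 : dig N j ≠ 3 := by
        intro h3
        exact h1 ⟨j, hj, by rw [fe_dig_eq, Nat.beq_eq]; exact h3⟩
      omega
    · have h3 : N >>> (2 * j) = 0 := by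
        rw [Nat.shiftRight_eq_div_pow]
        apply Nat.div_eq_of_lt
        calc N < 2 ^ 32 := by norm_num; omega
          _ ≤ 2 ^ (2 * j) := Nat.pow_le_pow_right (by norm_num) (by omega)
      unfold dig
      rw [h3]
      norm_num

/-- Check of one leaf. -/
def fe_chk (t : Feat) : Bool := cnd (fe_two t.N) (fe_chkl t.N (unpk 16 15 t.ep) 1) false

/-- Check of a list of leaves. -/
def fe_all (l : List Feat) : Bool :=
  List.rec (motive := fun _ => Bool) true (fun t _ ih => cnd (fe_chk t) ih false) l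

theorem fe_all_spec : ∀ l : List Feat, fe_all l = true → ∀ t ∈ l, fe_chk t = true := by
  intro l
  induction l with
  | nil => intro _ t ht; exact absurd ht (List.not_mem_nil)
  | cons s l ih =>
    intro h t ht
    have h' : cnd (fe_chk s) (fe_all l) false = true := h
    rw [cnd_eq] at h'
    by_cases h1 : fe_chk s = true
    · rw [if_pos h1] at h'
      rcases List.mem_cons.mp ht with rfl | ht
      · exact h1
      · exact ih h' t ht
    · rw [if_neg h1] at h'
      exact Bool.noConfusion h'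

theorem fe_check : fe_all ltab = true := by decide +kernel

theorem dig_le_two : ∀ t ∈ ltab, ∀ j, dig t.N j ≤ 2 := by
  intro t ht j
  have h := fe_all_spec ltab fe_check t ht
  unfold fe_chk at h
  rw [cnd_eq] at h
  by_cases h1 : fe_two t.N = true
  · exact fe_two_spec t.N h1 j
  · rw [if_neg h1] at h
    exact Bool.noConfusion h

theorem featE : ∀ t ∈ ltab, ∀ (EE : ℕ → ℕ → ℝ) (a b : ℝ),
    ∑ f ∈ Finset.Icc (1 : ℕ) 15,
      ((outCnt (dig t.N) f 1 : ℝ) * EE (omf (dig t.N) f) 1
        + (outCnt (dig t.N) f 2 : ℝ) * EE (omf (dig t.N) f) 2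
        - a * EE (omf (dig t.N) f) 1 - b * EE (omf (dig t.N) f) 2)
    = (t.e.map (fun v => ((v / 256 % 16 : ℕ) : ℝ) * EE (v % 256) 1
        + ((v / 4096 : ℕ) : ℝ) * EE (v % 256) 2
        - a * EE (v % 256) 1 - b * EE (v % 256) 2)).sum := by
  intro t ht EE a b
  have h := fe_all_spec ltab fe_check t ht
  unfold fe_chk at h
  rw [cnd_eq] at h
  by_cases h1 : fe_two t.N = true
  · rw [if_pos h1] at h
    have hlen : (unpk 16 15 t.ep).length = 15 := fe_unpk_length 16 15 t.ep
    have h2 := fe_chkl_sum t.N EE a b (unpk 16 15 t.ep) 1 (by rw [hlen]) h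
    rw [hlen] at h2
    have hI : Finset.Ico (1 : ℕ) (1 + 15) = Finset.Icc (1 : ℕ) 15 := by decide
    rw [hI] at h2
    exact h2
  · rw [if_neg h1] at h
    exact Bool.noConfusion h

end Pool.Agent.Lib.MP36
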