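import Pool.Agent.Lib.MP_36bd7d_h28.Defs2
import Pool.Agent.Lib.MP_36bd7d_h28.SumM

/-! The total of the matrix part over all ordered bases. -/

set_option autoImplicit false

open Finset

namespace Pool.Agent.Lib.MP36

lemma totM_kap1 (a b c d : ℕ) : kap b a d c = kap a b c d := by
  unfold kap
  rw [min_comm (code4 b a d c), min_comm (code4 d c b a)]

lemma totM_kap2 (a b c d : ℕ) : kap c d a b = kap a b c d := by
  unfold kap
  rw [min_comm (min (code4 c d a b) _)]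

lemma totM_inv1 (c : ℕ → ℕ) (x y z : ℕ) :
    kap (c (z ^^^ x)) (c (z ^^^ x ^^^ x)) (c (z ^^^ x ^^^ y)) (c (z ^^^ x ^^^ x ^^^ y))
      = kap (c z) (c (z ^^^ x)) (c (z ^^^ y)) (c (z ^^^ x ^^^ y)) := by
  rw [Nat.xor_xor_cancel_right, totM_kap1]

lemma totM_inv2 (c : ℕ → ℕ) (x y z : ℕ) :
    kap (c (z ^^^ y)) (c (z ^^^ y ^^^ x)) (c (z ^^^ y ^^^ y)) (c (z ^^^ y ^^^ x ^^^ y))
      = kap (c z) (c (z ^^^ x)) (c (z ^^^ y)) (c (z ^^^ x ^^^ y)) := by
  rw [Nat.xor_xor_cancel_right, Nat.xor_right_comm z y x, Nat.xor_xor_cancel_right, totM_kap2]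

theorem tot_PsiM (MM : ℕ → ℕ → ℕ → ℝ) (c : ℕ → ℕ) :
    tot (PsiM MM) c = 16 * ∑ x ∈ range 16, ∑ y ∈ range 16, if x ≠ 0 ∧ y ≠ 0 ∧ y ≠ x then
      (let σ := c x + 3 * c y + 9 * c (x ^^^ y)
       let κ := fun u => kap (c u) (c (u ^^^ x)) (c (u ^^^ y)) (c (u ^^^ x ^^^ y))
       let r1 := rp1 x y
       let r2 := rp2 x y
       let r3 := rp1 x y ^^^ rp2 x y
       MM σ (κ r1) (κ r2) + MM σ (κ r1) (κ r3) + MM σ (κ r2) (κ r1) + MM σ (κ r2) (κ r3)
        + MM σ (κ r3) (κ r1) + MM σ (κ r3) (κ r2)) else 0 := by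
  have h := sum_bases_M (R := ℝ) (fun x y z w =>
    MM (c x + 3 * c y + 9 * c (x ^^^ y))
      (kap (c z) (c (z ^^^ x)) (c (z ^^^ y)) (c (z ^^^ x ^^^ y)))
      (kap (c w) (c (w ^^^ x)) (c (w ^^^ y)) (c (w ^^^ x ^^^ y))))
    (fun x y z w => by simp only [totM_inv1])
    (fun x y z w => by simp only [totM_inv2])
    (fun x y z w => by simp only [totM_inv1])
    (fun x y z w => by simp only [totM_inv2])
  refine Eq.trans ?_ h
  unfold tot
  refine Finset.sum_congr rfl fun b _ => ?_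
  obtain ⟨x, y, z, w⟩ := b
  have e1 : lin (x, y, z, w) 1 = x := by simp [lin, Nat.testBit]
  have e2 : lin (x, y, z, w) 2 = y := by simp [lin, Nat.testBit]
  have e3 : lin (x, y, z, w) 3 = x ^^^ y := by simp [lin, Nat.testBit]
  have e4 : lin (x, y, z, w) 4 = z := by simp [lin, Nat.testBit]
  have e5 : lin (x, y, z, w) 5 = z ^^^ x := by
    rw [Nat.xor_comm z x]; simp [lin, Nat.testBit]
  have e6 : lin (x, y, z, w) 6 = z ^^^ y := by
    rw [Nat.xor_comm z y]; simp [lin, Nat.testBit]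
  have e7 : lin (x, y, z, w) 7 = z ^^^ x ^^^ y := by
    rw [Nat.xor_assoc, Nat.xor_comm z]; simp [lin, Nat.testBit]
  have e8 : lin (x, y, z, w) 8 = w := by simp [lin, Nat.testBit]
  have e9 : lin (x, y, z, w) 9 = w ^^^ x := by
    rw [Nat.xor_comm w x]; simp [lin, Nat.testBit]
  have e10 : lin (x, y, z, w) 10 = w ^^^ y := by
    rw [Nat.xor_comm w y]; simp [lin, Nat.testBit]
  have e11 : lin (x, y, z, w) 11 = w ^^^ x ^^^ y := by
    rw [Nat.xor_assoc, Nat.xor_comm w]; simp [lin, Nat.testBit]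
  simp only [PsiM, e1, e2, e3, e4, e5, e6, e7, e8, e9, e10, e11]

end Pool.Agent.Lib.MP36
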