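import Pool.Agent.Lib.MP_36bd7d_h28.ChkTable
import Pool.Agent.Lib.MP_36bd7d_h28.TotM

/-! Module FM: the matrix features of the leaves. -/

set_option autoImplicit false

open Finset

namespace Pool.Agent.Lib.MP36

/-! ### kernel friendly functions -/

def fm_d (N j : ℕ) : ℕ := Nat.mod (Nat.shiftRight N (Nat.mul 2 j)) 4

def fm_w (N x y u : ℕ) : ℕ :=
  Nat.add (Nat.add (Nat.add (fm_d N u) (Nat.mul 3 (fm_d N (Nat.xor u x))))
    (Nat.mul 9 (fm_d N (Nat.xor u y)))) (Nat.mul 27 (fm_d N (Nat.xor (Nat.xor u x) y)))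

def fm_i (T w : ℕ) : ℕ := Nat.land (Nat.shiftRight T (Nat.mul 5 w)) 31

def fm_tri (i j : ℕ) : ℕ :=
  cnd (Nat.ble j i) (Nat.add (Nat.div (Nat.mul i (Nat.add i 1)) 2) j)
    (Nat.add (Nat.div (Nat.mul j (Nat.add j 1)) 2) i)

def fm_k (off i j : ℕ) : ℕ :=
  cnd (Nat.beq i 31) 0 (cnd (Nat.beq j 31) 0
    (Nat.shiftLeft 1 (Nat.mul 10 (Nat.add off (fm_tri i j)))))

def fm_R : ℕ :=
  0x21424141212121212121212141414221422141412121212121212121414142214141214221212121212121214141422141414221212121212121212141414221212121212142414121212121414142212121212142214141212121214141422121212121414121422121212141414221212121214141422121212121414142212121212121212121218281818181822121212121212121218221818181818221212121212121212181812182818182212121212121212121818182218181822141414141414141418181818141848441414141414141414181818181844184414242424242424242828282828484424221212121212121212121212141414221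

def fm_r (x y : ℕ) : ℕ := Nat.land (Nat.shiftRight fm_R (Nat.mul 8 (Nat.add (Nat.mul 16 x) y))) 255

def fm_T0 : ℕ :=
  0x1accf366cda5cde18aaa4c24e0e93cf158b3895eac82896abeb44bd236a8ec499680ce5183d6e389ac5a928398252088308820
def fm_T9 : ℕ :=
  0x1fffffffffe5ffffffabff27febffcfff8bffffffffa89ffffec4fd23fa8ff49be80fffffffeb38bfffa928398252088308820
def fm_T18 : ℕ :=
  0x1fffffffffe5ffffffffff27fe8ffcfff8bfffffffffc9fffffffffe3ffcfff9bff0fffffffe838bfffffff398252088308820
def fm_T12 : ℕ :=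
  0x1fffffffffe5ffffffffff27fffffffff8bfffffffffc9ffffe947d03fffff41be70ffffffffff8bffffd07f98252088308820
def fm_T21 : ℕ :=
  0x1fffffffffe5ffffffffff27fffffffff8bfffffffffc9fffffffffe3ffffff9bff0ffffffffff8bffffffff98252088308820

def fm_core (N x y T off : ℕ) : ℕ :=
  force (fm_r x y) fun r => force (Nat.land r 15) fun r1 => force (Nat.shiftRight r 4) fun r2 =>
    force (fm_i T (fm_w N x y r1)) fun i1 => force (fm_i T (fm_w N x y r2)) fun i2 =>
      force (fm_i T (fm_w N x y (Nat.xor r1 r2))) fun i3 =>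
        Nat.add (Nat.add (fm_k off i1 i2) (fm_k off i1 i3)) (fm_k off i2 i3)

def fm_pair (N x y : ℕ) : ℕ :=
  force (Nat.add (Nat.add (fm_d N x) (Nat.mul 3 (fm_d N y))) (Nat.mul 9 (fm_d N (Nat.xor x y))))
    fun s => cnd (Nat.beq s 0) (fm_core N x y fm_T0 0)
      (cnd (Nat.beq s 9) (fm_core N x y fm_T9 378)
      (cnd (Nat.beq s 18) (fm_core N x y fm_T18 469)
      (cnd (Nat.beq s 12) (fm_core N x y fm_T12 514)
      (cnd (Nat.beq s 21) (fm_core N x y fm_T21 569) 0))))

def fm_S (N : ℕ) : ℕ :=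
  rsum 16 fun x => cnd (Nat.beq x 0) 0 (rsum 16 fun y => cnd (Nat.beq y 0) 0
    (cnd (Nat.beq y x) 0 (fm_pair N x y)))

def fm_E (l : List ℕ) : ℕ → ℕ :=
  List.rec (motive := fun _ => ℕ → ℕ) (fun _ => 0)
    (fun e _ ih pos => force (Nat.add pos (Nat.div e 1024)) fun p =>
      Nat.add (Nat.shiftLeft (Nat.mod e 1024) (Nat.mul 10 p)) (ih (Nat.add p 1))) l

def fm_ok (N : ℕ) : ℕ := rsum 16 fun j => cnd (Nat.beq (fm_d N j) 3) 1 0

def fm_chk (t : Feat) : Bool :=
  force t.N fun N => cnd (Nat.beq (fm_ok N) 0) (Nat.beq (fm_S N) (fm_E t.m 0)) false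



theorem fm_chk_all : ∀ t ∈ ltab, fm_chk t = true := by decide +kernel

/-! ### tables -/

def fm_idx (s k : ℕ) : ℕ := if k ∈ cls s then (cls s).idxOf k else 31

theorem fm_tab0 : ∀ a < 3, ∀ b < 3, ∀ c < 3, ∀ d < 3,
    fm_i fm_T0 (code4 a b c d) = fm_idx 0 (kap a b c d) := by decide +kernel
theorem fm_tab9 : ∀ a < 3, ∀ b < 3, ∀ c < 3, ∀ d < 3,
    fm_i fm_T9 (code4 a b c d) = fm_idx 9 (kap a b c d) := by decide +kernel
theorem fm_tab18 : ∀ a < 3, ∀ b < 3, ∀ c < 3, ∀ d < 3,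
    fm_i fm_T18 (code4 a b c d) = fm_idx 18 (kap a b c d) := by decide +kernel
theorem fm_tab12 : ∀ a < 3, ∀ b < 3, ∀ c < 3, ∀ d < 3,
    fm_i fm_T12 (code4 a b c d) = fm_idx 12 (kap a b c d) := by decide +kernel
theorem fm_tab21 : ∀ a < 3, ∀ b < 3, ∀ c < 3, ∀ d < 3,
    fm_i fm_T21 (code4 a b c d) = fm_idx 21 (kap a b c d) := by decide +kernel

theorem fm_r_eq : ∀ x < 16, ∀ y < 16, Nat.land (fm_r x y) 15 = rp1 x y ∧
    Nat.shiftRight (fm_r x y) 4 = rp2 x y ∧ rp1 x y < 16 ∧ rp2 x y < 16 := by decide +kernel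

theorem fm_tri_eq (i j : ℕ) : fm_tri i j = tri i j := by
  unfold fm_tri tri
  rw [cnd_eq]
  by_cases h : j ≤ i
  · rw [if_pos (Nat.ble_eq_true_of_le h), if_pos h]
    rfl
  · rw [if_neg (fun h' => h (Nat.le_of_ble_eq_true h')), if_neg h]
    rfl

/-- weights of the keys -/
def fm_B (k : ℕ) : ℕ := if k = 600 then 0 else 2 ^ (10 * k)

theorem fm_bound : ∀ s ∈ [0, 9, 18, 12, 21], (cls s).length ≤ 27 ∧ ∀ i < (cls s).length,
    ∀ j < (cls s).length, offs s + tri i j < 600 := by decide +kernel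

theorem fm_k_eq {s : ℕ} (hs : s ∈ [0, 9, 18, 12, 21]) (k l : ℕ) :
    fm_k (offs s) (fm_idx s k) (fm_idx s l) = fm_B (keyM s k l) := by
  obtain ⟨h1, h2⟩ := fm_bound s hs
  by_cases hk : k ∈ cls s
  · by_cases hl : l ∈ cls s
    · have h3 : (cls s).idxOf k < (cls s).length := List.idxOf_lt_length_iff.2 hk
      have h4 : (cls s).idxOf l < (cls s).length := List.idxOf_lt_length_iff.2 hl
      have h5 := h2 _ h3 _ h4
      have e : keyM s k l = offs s + tri ((cls s).idxOf k) ((cls s).idxOf l) := if_pos ⟨hk, hl⟩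
      have e1 : fm_idx s k = (cls s).idxOf k := if_pos hk
      have e2 : fm_idx s l = (cls s).idxOf l := if_pos hl
      unfold fm_k fm_B
      rw [e, e1, e2, cnd_eq, cnd_eq, fm_tri_eq]
      simp only [Nat.beq_eq]
      rw [if_neg (by omega), if_neg (by omega), if_neg (by omega)]
      exact Nat.one_shiftLeft _
    · have h3 : (cls s).idxOf k < (cls s).length := List.idxOf_lt_length_iff.2 hk
      have e : keyM s k l = 600 := if_neg (fun h => hl h.2)
      have e1 : fm_idx s k = (cls s).idxOf k := if_pos hk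
      have e2 : fm_idx s l = 31 := if_neg hl
      unfold fm_k fm_B
      rw [e, e1, e2, cnd_eq, cnd_eq]
      simp only [Nat.beq_eq]
      rw [if_neg (by omega)]
      simp
  · have e : keyM s k l = 600 := if_neg (fun h => hk h.1)
    have e1 : fm_idx s k = 31 := if_neg hk
    unfold fm_k fm_B
    rw [e, e1, cnd_eq]
    simp

/-! ### the keys of a leaf -/

def fm_kap (N x y u : ℕ) : ℕ :=
  kap (dig N u) (dig N (u ^^^ x)) (dig N (u ^^^ y)) (dig N (u ^^^ x ^^^ y))

def fm_sig (N x y : ℕ) : ℕ := dig N x + 3 * dig N y + 9 * dig N (x ^^^ y)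

def fm_key (N x y u v : ℕ) : ℕ := keyM (fm_sig N x y) (fm_kap N x y u) (fm_kap N x y v)

def fm_tm {M : Type} [AddCommMonoid M] (N : ℕ) (F : ℕ → M) (x y : ℕ) : M :=
  F (fm_key N x y (rp1 x y) (rp2 x y)) + F (fm_key N x y (rp1 x y) (rp1 x y ^^^ rp2 x y)) +
    F (fm_key N x y (rp2 x y) (rp1 x y ^^^ rp2 x y))

def fm_phi {M : Type} [AddCommMonoid M] (N : ℕ) (F : ℕ → M) : M :=
  ∑ x ∈ range 16, ∑ y ∈ range 16, if x ≠ 0 ∧ y ≠ 0 ∧ y ≠ x then fm_tm N F x y else 0

theorem fm_i_eq {N x y u T s : ℕ} (hN : ∀ j < 16, dig N j < 3)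
    (hT : ∀ a < 3, ∀ b < 3, ∀ c < 3, ∀ d < 3, fm_i T (code4 a b c d) = fm_idx s (kap a b c d))
    (hx : x < 16) (hy : y < 16) (hu : u < 16) :
    fm_i T (fm_w N x y u) = fm_idx s (fm_kap N x y u) := by
  have h16 : (16 : ℕ) = 2 ^ 4 := by norm_num
  have h1 : u ^^^ x < 16 := by
    rw [h16] at *
    exact Nat.xor_lt_two_pow hu hx
  have h2 : u ^^^ y < 16 := by
    rw [h16] at *
    exact Nat.xor_lt_two_pow hu hy
  have h3 : u ^^^ x ^^^ y < 16 := by
    rw [h16] at *
    exact Nat.xor_lt_two_pow h1 hy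
  exact hT _ (hN u hu) _ (hN _ h1) _ (hN _ h2) _ (hN _ h3)

theorem fm_core_eq {N x y T s : ℕ} (hN : ∀ j < 16, dig N j < 3) (hs : s ∈ [0, 9, 18, 12, 21])
    (hT : ∀ a < 3, ∀ b < 3, ∀ c < 3, ∀ d < 3, fm_i T (code4 a b c d) = fm_idx s (kap a b c d))
    (hx : x < 16) (hy : y < 16) (hσ : fm_sig N x y = s) :
    fm_core N x y T (offs s) = fm_tm N fm_B x y := by
  obtain ⟨e1, e2, l1, l2⟩ := fm_r_eq x hx y hy
  have l3 : rp1 x y ^^^ rp2 x y < 16 := by
    have h16 : (16 : ℕ) = 2 ^ 4 := by norm_num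
    rw [h16] at *
    exact Nat.xor_lt_two_pow l1 l2
  unfold fm_core
  simp only [force_eq]
  rw [e1, e2]
  have e3 : Nat.xor (rp1 x y) (rp2 x y) = rp1 x y ^^^ rp2 x y := rfl
  rw [e3, fm_i_eq hN hT hx hy l1, fm_i_eq hN hT hx hy l2, fm_i_eq hN hT hx hy l3, fm_k_eq hs,
    fm_k_eq hs, fm_k_eq hs]
  unfold fm_tm fm_key
  rw [hσ]
  rfl

theorem fm_pair_eq {N x y : ℕ} (hN : ∀ j < 16, dig N j < 3) (hx : x < 16) (hy : y < 16) :
    fm_pair N x y = fm_tm N fm_B x y := by
  unfold fm_pair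
  rw [force_eq]
  have e : Nat.add (Nat.add (fm_d N x) (Nat.mul 3 (fm_d N y))) (Nat.mul 9 (fm_d N (Nat.xor x y))) =
    fm_sig N x y := rfl
  rw [e]
  simp only [cnd_eq, Nat.beq_eq]
  by_cases h0 : fm_sig N x y = 0
  · rw [if_pos h0]
    exact fm_core_eq (s := 0) hN (by decide) fm_tab0 hx hy h0
  rw [if_neg h0]
  by_cases h9 : fm_sig N x y = 9
  · rw [if_pos h9]
    exact fm_core_eq (s := 9) hN (by decide) fm_tab9 hx hy h9
  rw [if_neg h9]
  by_cases h18 : fm_sig N x y = 18
  · rw [if_pos h18]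
    exact fm_core_eq (s := 18) hN (by decide) fm_tab18 hx hy h18
  rw [if_neg h18]
  by_cases h12 : fm_sig N x y = 12
  · rw [if_pos h12]
    exact fm_core_eq (s := 12) hN (by decide) fm_tab12 hx hy h12
  rw [if_neg h12]
  by_cases h21 : fm_sig N x y = 21
  · rw [if_pos h21]
    exact fm_core_eq (s := 21) hN (by decide) fm_tab21 hx hy h21
  rw [if_neg h21]
  have hc : cls (fm_sig N x y) = [] := by
    unfold cls
    rw [if_neg h0, if_neg h9, if_neg h18, if_neg h12, if_neg h21]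
  have hk : ∀ k l, keyM (fm_sig N x y) k l = 600 := by
    intro k l
    unfold keyM
    rw [hc, if_neg (fun h => absurd h.1 List.not_mem_nil)]
  unfold fm_tm fm_key
  rw [hk, hk, hk]
  rfl

theorem fm_S_eq {N : ℕ} (hN : ∀ j < 16, dig N j < 3) : fm_S N = fm_phi N fm_B := by
  unfold fm_S fm_phi
  rw [rsum_eq]
  refine sum_congr rfl fun x hx => ?_
  rw [mem_range] at hx
  simp only [cnd_eq, Nat.beq_eq]
  by_cases h0 : x = 0
  · rw [if_pos h0, sum_eq_zero]
    intro y _
    rw [if_neg (fun h => h.1 h0)]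
  rw [if_neg h0, rsum_eq]
  refine sum_congr rfl fun y hy => ?_
  rw [mem_range] at hy
  by_cases h1 : y = 0
  · rw [if_pos h1, if_neg (fun h => h.2.1 h1)]
  rw [if_neg h1]
  by_cases h2 : y = x
  · rw [if_pos h2, if_neg (fun h => h.2.2 h2)]
  rw [if_neg h2, if_pos ⟨h0, h1, h2⟩]
  exact fm_pair_eq hN hx hy

theorem fm_tri_comm (i j : ℕ) : tri i j = tri j i := by
  unfold tri
  split_ifs with h1 h2 h2
  · have : i = j := by omega
    rw [this]
  · rfl
  · rfl
  · omega

theorem fm_keyM_comm (s k l : ℕ) : keyM s k l = keyM s l k := by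
  unfold keyM
  by_cases h : k ∈ cls s ∧ l ∈ cls s
  · rw [if_pos h, if_pos h.symm, fm_tri_comm]
  · rw [if_neg h, if_neg (fun h' => h h'.symm)]

theorem fm_tot (N : ℕ) (F : ℕ → ℝ) :
    tot (PsiM (fun σ k l => F (keyM σ k l))) (dig N) = 32 * fm_phi N F := by
  rw [tot_PsiM, show (32 : ℝ) = 16 * 2 by norm_num, mul_assoc]
  congr 1
  unfold fm_phi
  rw [mul_sum]
  refine sum_congr rfl fun x _ => ?_
  rw [mul_sum]
  refine sum_congr rfl fun y _ => ?_
  split_ifs with h
  · simp only []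
    rw [fm_keyM_comm _ (kap (dig N (rp2 x y)) _ _ _) (kap (dig N (rp1 x y)) _ _ _),
      fm_keyM_comm _ (kap (dig N (rp1 x y ^^^ rp2 x y)) _ _ _) (kap (dig N (rp1 x y)) _ _ _),
      fm_keyM_comm _ (kap (dig N (rp1 x y ^^^ rp2 x y)) _ _ _) (kap (dig N (rp2 x y)) _ _ _)]
    unfold fm_tm fm_key fm_sig fm_kap
    ring
  · rw [mul_zero]

/-! ### counting functions -/

def fm_u (N k : ℕ) : ℕ := fm_phi N (fun j => if j = k then 1 else 0)

theorem fm_key_le (s k l : ℕ) : keyM s k l ≤ 600 := by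
  unfold keyM
  split_ifs with h
  · have hs : s ∈ [0, 9, 18, 12, 21] := by
      by_contra hs
      simp only [List.mem_cons, List.not_mem_nil, or_false, not_or] at hs
      have : cls s = [] := by
        unfold cls
        rw [if_neg hs.1, if_neg hs.2.1, if_neg hs.2.2.1, if_neg hs.2.2.2.1, if_neg hs.2.2.2.2]
      rw [this] at h
      exact absurd h.1 List.not_mem_nil
    exact ((fm_bound s hs).2 _ (List.idxOf_lt_length_iff.2 h.1) _
      (List.idxOf_lt_length_iff.2 h.2)).le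
  · exact le_rfl

theorem fm_expand {M : Type} [AddCommMonoid M] (N K : ℕ) (hK : 600 < K) (F : ℕ → M) :
    fm_phi N F = ∑ k ∈ range K, fm_u N k • F k := by
  have key : ∀ j ≤ 600, F j = ∑ k ∈ range K, (if j = k then 1 else 0) • F k := by
    intro j hj
    rw [sum_eq_single j]
    · rw [if_pos rfl, one_smul]
    · intro k _ hk
      rw [if_neg (Ne.symm hk), zero_smul]
    · intro h
      exact absurd (mem_range.2 (by omega)) h
  have e : ∀ x y, (if x ≠ 0 ∧ y ≠ 0 ∧ y ≠ x then fm_tm N F x y else 0) =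
      ∑ k ∈ range K, (if x ≠ 0 ∧ y ≠ 0 ∧ y ≠ x then
        fm_tm N (fun j => if j = k then 1 else 0) x y else 0) • F k := by
    intro x y
    split_ifs with h
    · unfold fm_tm
      rw [key (fm_key N x y (rp1 x y) (rp2 x y)) (fm_key_le _ _ _),
        key (fm_key N x y (rp1 x y) (rp1 x y ^^^ rp2 x y))
        (fm_key_le _ _ _), key (fm_key N x y (rp2 x y) (rp1 x y ^^^ rp2 x y)) (fm_key_le _ _ _),
        ← sum_add_distrib, ← sum_add_distrib]
      refine sum_congr rfl fun k _ => ?_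
      rw [add_smul, add_smul]
    · rw [sum_eq_zero]
      intro k _
      rw [zero_smul]
  unfold fm_phi
  simp only [e]
  have e2 : ∀ x, ∑ y ∈ range 16, ∑ k ∈ range K, (if x ≠ 0 ∧ y ≠ 0 ∧ y ≠ x then
        fm_tm N (fun j => if j = k then 1 else 0) x y else 0) • F k =
      ∑ k ∈ range K, (∑ y ∈ range 16, (if x ≠ 0 ∧ y ≠ 0 ∧ y ≠ x then
        fm_tm N (fun j => if j = k then 1 else 0) x y else 0)) • F k := by
    intro x
    rw [sum_comm]
    refine sum_congr rfl fun k _ => ?_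
    rw [sum_smul]
  simp only [e2]
  rw [sum_comm]
  refine sum_congr rfl fun k _ => ?_
  rw [← sum_smul]
  rfl

theorem fm_u_lt (N k : ℕ) : fm_u N k < 1024 := by
  have h : fm_u N k ≤ ∑ x ∈ range 16, ∑ y ∈ range 16, 3 := by
    unfold fm_u fm_phi
    refine sum_le_sum fun x _ => sum_le_sum fun y _ => ?_
    split_ifs
    · unfold fm_tm
      simp only []
      split_ifs <;> omega
    · omega
  simp only [sum_const, card_range, smul_eq_mul] at h
  omega

/-! ### the list side -/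

noncomputable def fm_ev {M : Type} [AddCommMonoid M] (F : ℕ → M) : List ℕ → ℕ → M
  | [], _ => 0
  | e :: l, pos => (e % 1024) • F (pos + e / 1024) + fm_ev F l (pos + e / 1024 + 1)

theorem fm_evalG (F : ℕ → ℝ) (l : List ℕ) : ∀ pos, evalG F l pos = fm_ev F l pos := by
  induction l with
  | nil => intro pos; rfl
  | cons e l ih =>
    intro pos
    unfold evalG fm_ev
    rw [ih, nsmul_eq_mul]

theorem fm_E_eq (l : List ℕ) : ∀ pos, fm_E l pos = fm_ev (fun k => 2 ^ (10 * k)) l pos := by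
  induction l with
  | nil => intro pos; rfl
  | cons e l ih =>
    intro pos
    unfold fm_ev
    rw [← ih]
    have : fm_E (e :: l) pos = force (Nat.add pos (Nat.div e 1024)) (fun p =>
      Nat.add (Nat.shiftLeft (Nat.mod e 1024) (Nat.mul 10 p)) (fm_E l (Nat.add p 1))) := rfl
    rw [this, force_eq]
    have h2 : Nat.shiftLeft (Nat.mod e 1024) (Nat.mul 10 (Nat.add pos (Nat.div e 1024))) =
      (e % 1024) • 2 ^ (10 * (pos + e / 1024)) := by
      rw [smul_eq_mul]
      exact Nat.shiftLeft_eq _ _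
    rw [h2]
    rfl

noncomputable def fm_n (l : List ℕ) (pos k : ℕ) : ℕ := fm_ev (fun j => if j = k then 1 else 0) l pos

theorem fm_n_zero (l : List ℕ) : ∀ pos k, k < pos → fm_n l pos k = 0 := by
  induction l with
  | nil => intro pos k _; rfl
  | cons e l ih =>
    intro pos k hk
    unfold fm_n fm_ev
    have := ih (pos + e / 1024 + 1) k (by omega)
    unfold fm_n at this
    rw [this, if_neg (by omega), smul_zero]

theorem fm_n_lt (l : List ℕ) : ∀ pos k, fm_n l pos k < 1024 := by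
  induction l with
  | nil => intro pos k; exact Nat.zero_lt_succ _
  | cons e l ih =>
    intro pos k
    have h1 : fm_n (e :: l) pos k = (e % 1024) • (if pos + e / 1024 = k then 1 else 0) +
      fm_n l (pos + e / 1024 + 1) k := rfl
    rw [h1]
    by_cases h : pos + e / 1024 = k
    · rw [if_pos h, fm_n_zero l _ k (by omega), smul_eq_mul, mul_one, add_zero]
      exact Nat.mod_lt _ (by norm_num)
    · rw [if_neg h, smul_zero, zero_add]
      exact ih _ _

theorem fm_ev_expand (l : List ℕ) : ∀ pos, ∃ K₀, ∀ K, K₀ ≤ K → ∀ (M : Type) [AddCommMonoid M]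
    (F : ℕ → M), fm_ev F l pos = ∑ k ∈ range K, fm_n l pos k • F k := by
  induction l with
  | nil =>
    intro pos
    refine ⟨0, fun K _ M _ F => ?_⟩
    rw [sum_eq_zero]
    · rfl
    · intro k _
      exact zero_smul ℕ _
  | cons e l ih =>
    intro pos
    obtain ⟨K₁, hK₁⟩ := ih (pos + e / 1024 + 1)
    refine ⟨max K₁ (pos + e / 1024 + 1), fun K hK M _ F => ?_⟩
    have h1 : ∀ k, fm_n (e :: l) pos k = (e % 1024) * (if pos + e / 1024 = k then 1 else 0) +
      fm_n l (pos + e / 1024 + 1) k := fun k => rfl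
    have h2 : fm_ev F (e :: l) pos = (e % 1024) • F (pos + e / 1024) +
      fm_ev F l (pos + e / 1024 + 1) := rfl
    simp only [h1, add_smul]
    rw [sum_add_distrib, h2, hK₁ K (by omega) M F]
    congr 1
    rw [sum_eq_single (pos + e / 1024)]
    · rw [if_pos rfl, mul_one]
    · intro k _ hk
      rw [if_neg (Ne.symm hk), mul_zero, zero_smul]
    · intro h
      exact absurd (mem_range.2 (by omega)) h

theorem fm_digits (K : ℕ) : ∀ u n : ℕ → ℕ, (∀ k < K, u k < 1024) → (∀ k < K, n k < 1024) →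
    ∑ k ∈ range K, u k * 1024 ^ k = ∑ k ∈ range K, n k * 1024 ^ k → ∀ k < K, u k = n k := by
  induction K with
  | zero => intro u n _ _ _ k hk; omega
  | succ K ih =>
    intro u n hu hn h
    rw [sum_range_succ', sum_range_succ'] at h
    simp only [pow_succ, ← mul_assoc, ← sum_mul, pow_zero, mul_one] at h
    have hu0 := hu 0 (by omega)
    have hn0 := hn 0 (by omega)
    have h0 : u 0 = n 0 := by omega
    have h1 : ∑ k ∈ range K, u (k + 1) * 1024 ^ k = ∑ k ∈ range K, n (k + 1) * 1024 ^ k := by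
      omega
    have h2 := ih (fun k => u (k + 1)) (fun k => n (k + 1)) (fun k hk => hu _ (by omega))
      (fun k hk => hn _ (by omega)) h1
    intro k hk
    cases k with
    | zero => exact h0
    | succ k => exact h2 k (by omega)

theorem fm_dig_lt {N : ℕ} (h : fm_ok N = 0) : ∀ j < 16, dig N j < 3 := by
  intro j hj
  unfold fm_ok at h
  rw [rsum_eq] at h
  have h1 := (sum_eq_zero_iff.1 h) j (mem_range.2 hj)
  rw [cnd_eq] at h1
  have h2 : ¬ (fm_d N j).beq 3 = true := by
    intro h3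
    rw [if_pos h3] at h1
    exact absurd h1 one_ne_zero
  rw [Nat.beq_eq] at h2
  have h3 : fm_d N j = dig N j := rfl
  have h4 : dig N j < 4 := Nat.mod_lt _ (by norm_num)
  omega

theorem featM (F : ℕ → ℝ) (hF : F 600 = 0) : ∀ t ∈ ltab,
    tot (PsiM (fun σ k l => F (keyM σ k l))) (dig t.N) = 32 * evalG F t.m 0 := by
  intro t ht
  have h := fm_chk_all t ht
  unfold fm_chk at h
  rw [force_eq, cnd_eq] at h
  by_cases h0 : (fm_ok t.N).beq 0 = true
  · rw [if_pos h0, Nat.beq_eq] at h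
    rw [Nat.beq_eq] at h0
    have hN := fm_dig_lt h0
    rw [fm_tot, fm_evalG]
    congr 1
    obtain ⟨K₀, hK₀⟩ := fm_ev_expand t.m 0
    have hK := hK₀ (max K₀ 601) (le_max_left _ _)
    have hK' : 600 < max K₀ 601 := by omega
    set K := max K₀ 601 with hKdef
    rw [fm_S_eq hN, fm_E_eq, fm_expand t.N K hK', hK] at h
    have e1 : ∀ k, fm_u t.N k • fm_B k = (if k = 600 then 0 else fm_u t.N k) * 1024 ^ k := by
      intro k
      unfold fm_B
      split_ifs with hk
      · simp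
      · rw [smul_eq_mul, pow_mul]
        norm_num
    have e2 : ∀ k, fm_n t.m 0 k • 2 ^ (10 * k) = fm_n t.m 0 k * 1024 ^ k := by
      intro k
      rw [smul_eq_mul, pow_mul]
      norm_num
    simp only [e1, e2] at h
    have h5 := fm_digits K _ _ (fun k _ => by
      split_ifs
      · norm_num
      · exact fm_u_lt _ _) (fun k _ => fm_n_lt _ _ _) h
    rw [fm_expand t.N K hK', hK]
    refine sum_congr rfl fun k hk => ?_
    have h6 := h5 k (mem_range.1 hk)
    by_cases h7 : k = 600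
    · rw [h7, hF, smul_zero, smul_zero]
    · rw [if_neg h7] at h6
      rw [h6]
  · rw [if_neg h0] at h
    exact absurd h Bool.false_ne_true

end Pool.Agent.Lib.MP36
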