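import Pool.Agent.Lib.MP_36bd7d_h28.FeatX

/-! The `N` statistics of the leaves, by one packed kernel evaluation per leaf. -/

set_option autoImplicit false

open Finset

namespace Pool.Agent.Lib.MP36

/-- inner loop -/
def fn_in (N x z xz lx lz : ℕ) (K : ℕ → ℕ → ℕ → Bool) (n : ℕ) : ℕ → ℕ → ℕ → Bool :=
  Nat.rec (motive := fun _ => ℕ → ℕ → ℕ → Bool) K
    (fun m ih a b s => force (Nat.succ m) fun y =>
      cnd (Nat.beq y x) (ih a b s) (cnd (Nat.beq y z) (ih a b s) (cnd (Nat.beq y xz) (ih a b s)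
        (force (fx_lb N y) fun ly => force (fx_lb N (Nat.xor x y)) fun lxy =>
        force (fx_lb N (Nat.xor z y)) fun lzy => force (fx_lb N (Nat.xor xz y)) fun lxzy =>
        force (fx_tA (fx_ix lx ly lxy)) fun pa => force (fx_tB (fx_ix lz ly lzy)) fun pb =>
        force (fx_tB (fx_ix lz lxy lxzy)) fun pc =>
        force (Nat.add a pa) fun a => force (Nat.add b pb) fun b =>
        force (Nat.add s (Nat.mul pa (Nat.add pb pc))) fun s => ih a b s)))) n

/-- middle loop -/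
def fn_mid (N x lx : ℕ) (K : ℕ → ℕ → Bool) (n : ℕ) : ℕ → ℕ → Bool :=
  Nat.rec (motive := fun _ => ℕ → ℕ → Bool) K
    (fun m ih p q => force (Nat.succ m) fun z =>
      cnd (Nat.beq z x) (ih p q) (force (Nat.xor x z) fun xz => force (fx_lb N xz) fun w =>
        cnd (Nat.beq w 0) (ih p q) (force (fx_lb N z) fun lz =>
          fn_in N x z xz lx lz (fun a b s => force (Nat.add p (Nat.mul w (Nat.mul a b))) fun p =>
            force (Nat.add q (Nat.mul w s)) fun q => ih p q) 15 0 0 0))) n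

/-- outer loop -/
def fn_out (N : ℕ) (K : ℕ → ℕ → Bool) (n : ℕ) : ℕ → ℕ → Bool :=
  Nat.rec (motive := fun _ => ℕ → ℕ → Bool) K
    (fun m ih p q => force (Nat.succ m) fun x => force (fx_lb N x) fun lx =>
      fn_mid N x lx (fun p q => ih p q) 15 p q) n

/-- the test for one leaf -/
def fn_chk (N T : ℕ) : Bool :=
  fn_out N (fun p q => Nat.beq (Nat.add T (Nat.mul 2 q)) p) 15 0 0

/-- summand selector -/
def fn_sel (x z : ℕ) (F : ℕ → ℕ) (y : ℕ) : ℕ :=
  if y = x then 0 else if y = z then 0 else if y = x ^^^ z then 0 else F y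

/-- the three inner sums -/
def fn_A (N x z : ℕ) : ℕ := ∑ m ∈ range 15, fn_sel x z (fun y => fx_a N x y) (m + 1)
def fn_B (N x z : ℕ) : ℕ := ∑ m ∈ range 15, fn_sel x z (fun y => fx_b N z y) (m + 1)
def fn_C (N x z : ℕ) : ℕ := ∑ m ∈ range 15,
  fn_sel x z (fun y => fx_a N x y * (fx_b N z y + fx_b N z (y ^^^ x))) (m + 1)

attribute [local irreducible] fx_a fx_b fx_lb fx_PA fx_PB fx_tA fx_tB fx_ix

lemma fn_in_succ (N x z : ℕ) (K : ℕ → ℕ → ℕ → Bool) (n a b s : ℕ) :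
    fn_in N x z (x ^^^ z) (fx_lb N x) (fx_lb N z) K (n + 1) a b s =
      fn_in N x z (x ^^^ z) (fx_lb N x) (fx_lb N z) K n
        (a + fn_sel x z (fun y => fx_a N x y) (n + 1))
        (b + fn_sel x z (fun y => fx_b N z y) (n + 1))
        (s + fn_sel x z (fun y => fx_a N x y * (fx_b N z y + fx_b N z (y ^^^ x))) (n + 1)) := by
  have h : fn_in N x z (x ^^^ z) (fx_lb N x) (fx_lb N z) K (n + 1) a b s =
      (force (Nat.succ n) fun y =>
      cnd (Nat.beq y x) (fn_in N x z (x ^^^ z) (fx_lb N x) (fx_lb N z) K n a b s)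
        (cnd (Nat.beq y z) (fn_in N x z (x ^^^ z) (fx_lb N x) (fx_lb N z) K n a b s)
        (cnd (Nat.beq y (x ^^^ z)) (fn_in N x z (x ^^^ z) (fx_lb N x) (fx_lb N z) K n a b s)
        (force (fx_lb N y) fun ly => force (fx_lb N (Nat.xor x y)) fun lxy =>
        force (fx_lb N (Nat.xor z y)) fun lzy => force (fx_lb N (Nat.xor (x ^^^ z) y)) fun lxzy =>
        force (fx_tA (fx_ix (fx_lb N x) ly lxy)) fun pa =>
        force (fx_tB (fx_ix (fx_lb N z) ly lzy)) fun pb =>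
        force (fx_tB (fx_ix (fx_lb N z) lxy lxzy)) fun pc =>
        force (Nat.add a pa) fun a => force (Nat.add b pb) fun b =>
        force (Nat.add s (Nat.mul pa (Nat.add pb pc))) fun s =>
          fn_in N x z (x ^^^ z) (fx_lb N x) (fx_lb N z) K n a b s)))) := rfl
  have e1 : Nat.xor x (n + 1) = x ^^^ (n + 1) := rfl
  have e2 : Nat.xor z (n + 1) = z ^^^ (n + 1) := rfl
  have e3 : Nat.xor (x ^^^ z) (n + 1) = z ^^^ ((n + 1) ^^^ x) := by
    show (x ^^^ z) ^^^ (n + 1) = _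
    rw [Nat.xor_comm x z, Nat.xor_assoc, Nat.xor_comm x (n + 1)]
  have e4 : (n + 1) ^^^ x = x ^^^ (n + 1) := Nat.xor_comm _ _
  rw [h, force_eq]
  simp only [force_eq, cnd_eq, Nat.succ_eq_add_one, Nat.add_eq, Nat.mul_eq, e1, e2, e3, fx_tA_eq,
    fx_tB_eq, Nat.beq_eq]
  simp only [fn_sel, fx_a_def, fx_b_def, e4]
  by_cases h1 : n + 1 = x
  · simp only [if_pos h1, add_zero]
  by_cases h2 : n + 1 = z
  · simp only [if_neg h1, if_pos h2, add_zero]
  by_cases h3 : n + 1 = x ^^^ z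
  · simp only [if_neg h1, if_neg h2, if_pos h3, add_zero]
  · simp only [if_neg h1, if_neg h2, if_neg h3]

lemma fn_in_eq (N x z : ℕ) (K : ℕ → ℕ → ℕ → Bool) (n : ℕ) : ∀ a b s : ℕ,
    fn_in N x z (x ^^^ z) (fx_lb N x) (fx_lb N z) K n a b s =
      K (a + ∑ m ∈ range n, fn_sel x z (fun y => fx_a N x y) (m + 1))
        (b + ∑ m ∈ range n, fn_sel x z (fun y => fx_b N z y) (m + 1))
        (s + ∑ m ∈ range n,
          fn_sel x z (fun y => fx_a N x y * (fx_b N z y + fx_b N z (y ^^^ x))) (m + 1)) := by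
  induction n with
  | zero =>
    intro a b s
    simp only [Finset.range_zero, Finset.sum_empty, add_zero]
    rfl
  | succ n ih =>
    intro a b s
    rw [fn_in_succ, ih]
    simp only [Finset.sum_range_succ]
    congr 1 <;> ring

lemma fn_mid_succ (N x : ℕ) (K : ℕ → ℕ → Bool) (n p q : ℕ) :
    fn_mid N x (fx_lb N x) K (n + 1) p q =
      fn_mid N x (fx_lb N x) K n
        (p + if n + 1 = x then 0 else
          fx_lb N (x ^^^ (n + 1)) * (fn_A N x (n + 1) * fn_B N x (n + 1)))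
        (q + if n + 1 = x then 0 else fx_lb N (x ^^^ (n + 1)) * fn_C N x (n + 1)) := by
  have h : fn_mid N x (fx_lb N x) K (n + 1) p q =
      (force (Nat.succ n) fun z =>
      cnd (Nat.beq z x) (fn_mid N x (fx_lb N x) K n p q) (force (Nat.xor x z) fun xz =>
        force (fx_lb N xz) fun w =>
        cnd (Nat.beq w 0) (fn_mid N x (fx_lb N x) K n p q) (force (fx_lb N z) fun lz =>
          fn_in N x z xz (fx_lb N x) lz
            (fun a b s => force (Nat.add p (Nat.mul w (Nat.mul a b))) fun p =>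
            force (Nat.add q (Nat.mul w s)) fun q => fn_mid N x (fx_lb N x) K n p q) 15 0 0 0))) :=
    rfl
  have e1 : Nat.xor x (n + 1) = x ^^^ (n + 1) := rfl
  rw [h, force_eq]
  simp only [force_eq, cnd_eq, Nat.succ_eq_add_one, Nat.add_eq, Nat.mul_eq, e1, fn_in_eq,
    Nat.beq_eq, Nat.zero_add]
  by_cases hx : n + 1 = x
  · simp only [if_pos hx, add_zero]
  · simp only [if_neg hx]
    by_cases hw : fx_lb N (x ^^^ (n + 1)) = 0
    · rw [if_pos hw, hw, Nat.zero_mul, Nat.zero_mul, Nat.add_zero, Nat.add_zero]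
    · simp only [if_neg hw]
      rfl

lemma fn_mid_eq (N x : ℕ) (K : ℕ → ℕ → Bool) (n : ℕ) : ∀ p q : ℕ,
    fn_mid N x (fx_lb N x) K n p q =
      K (p + ∑ m ∈ range n, if m + 1 = x then 0 else
          fx_lb N (x ^^^ (m + 1)) * (fn_A N x (m + 1) * fn_B N x (m + 1)))
        (q + ∑ m ∈ range n, if m + 1 = x then 0 else
          fx_lb N (x ^^^ (m + 1)) * fn_C N x (m + 1)) := by
  induction n with
  | zero =>
    intro p q
    simp only [Finset.range_zero, Finset.sum_empty, add_zero]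
    rfl
  | succ n ih =>
    intro p q
    rw [fn_mid_succ, ih]
    simp only [Finset.sum_range_succ]
    congr 1 <;> ring

lemma fn_out_eq (N : ℕ) (K : ℕ → ℕ → Bool) (n : ℕ) : ∀ p q : ℕ,
    fn_out N K n p q =
      K (p + ∑ x ∈ range n, ∑ m ∈ range 15, if m + 1 = x + 1 then 0 else
          fx_lb N ((x + 1) ^^^ (m + 1)) * (fn_A N (x + 1) (m + 1) * fn_B N (x + 1) (m + 1)))
        (q + ∑ x ∈ range n, ∑ m ∈ range 15, if m + 1 = x + 1 then 0 else
          fx_lb N ((x + 1) ^^^ (m + 1)) * fn_C N (x + 1) (m + 1)) := by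
  induction n with
  | zero =>
    intro p q
    simp only [Finset.range_zero, Finset.sum_empty, add_zero]
    rfl
  | succ n ih =>
    intro p q
    have h : fn_out N K (n + 1) p q = (force (Nat.succ n) fun x => force (fx_lb N x) fun lx =>
      fn_mid N x lx (fun p q => fn_out N K n p q) 15 p q) := rfl
    rw [h, force_eq, force_eq, fn_mid_eq, ih, Finset.sum_range_succ _ n,
      Finset.sum_range_succ _ n]
    have e : ∀ a b c : ℕ, a + b + c = a + (c + b) := by intro a b c; omega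
    exact congrArg₂ K (e _ _ _) (e _ _ _)

lemma fn_sumxz {R : Type} [AddCommMonoid R] (F : ℕ → ℕ → R) :
    (∑ x ∈ range 16, ∑ y ∈ range 16, if x ≠ 0 ∧ y ≠ 0 ∧ x ≠ y then F x y else 0) =
      ∑ m ∈ range 15, ∑ k ∈ range 15, if k + 1 = m + 1 then 0 else F (m + 1) (k + 1) := by
  rw [← fx_sumxy]
  refine Finset.sum_congr rfl fun x _ => Finset.sum_congr rfl fun y _ => ?_
  have : (x ≠ 0 ∧ y ≠ 0 ∧ x ≠ y) ↔ (x ≠ 0 ∧ y ≠ 0 ∧ y ≠ x) := by
    constructor
    · rintro ⟨h1, h2, h3⟩; exact ⟨h1, h2, Ne.symm h3⟩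
    · rintro ⟨h1, h2, h3⟩; exact ⟨h1, h2, Ne.symm h3⟩
  simp only [this]

lemma fn_sumout (x z : ℕ) (F : ℕ → ℕ) :
    (∑ y ∈ range 16, if out2 x z y then (F y : ℤ) else 0) =
      ((∑ m ∈ range 15, fn_sel x z F (m + 1) : ℕ) : ℤ) := by
  rw [Finset.sum_range_succ', Nat.cast_sum]
  have h0 : (if out2 x z 0 then (F 0 : ℤ) else 0) = 0 := by simp [out2]
  rw [h0, add_zero]
  refine Finset.sum_congr rfl fun m _ => ?_
  unfold fn_sel out2
  by_cases h1 : m + 1 = x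
  · simp [h1]
  by_cases h2 : m + 1 = z
  · simp [h2]
  by_cases h3 : m + 1 = x ^^^ z
  · simp [h3]
  · simp [h1, h2, h3]

/-- the packed total for `N` -/
lemma fn_tot {N T : ℕ} (h : fn_chk N T = true) :
    ∑ v ∈ bases, fx_a N v.1 v.2.1 * (fx_b N v.2.2.1 v.2.2.2 * fx_lb N (v.1 ^^^ v.2.2.1)) = T := by
  unfold fn_chk at h
  rw [fn_out_eq] at h
  simp only [Nat.zero_add, Nat.add_eq, Nat.mul_eq, Nat.beq_eq] at h
  have h2 := sum_bases_N (R := ℤ) (fun x y => (fx_a N x y : ℤ)) (fun x y => (fx_b N x y : ℤ))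
    (fun t => (fx_lb N t : ℤ))
    (fun x y => by rw [fx_a_symm]) (fun x y => by rw [fx_b_symm])
  rw [fn_sumxz] at h2
  have h3 : (∑ v ∈ bases, (fx_a N v.1 v.2.1 : ℤ) * (fx_b N v.2.2.1 v.2.2.2 : ℤ)
      * (fx_lb N (v.1 ^^^ v.2.2.1) : ℤ)) = (T : ℤ) := by
    rw [h2]
    have h4 := congrArg (Nat.cast : ℕ → ℤ) h
    push_cast at h4
    have h5 : ∀ m k : ℕ, (∑ y ∈ range 16, if out2 (m + 1) (k + 1) y then
        ((fx_a N (m + 1) y : ℤ) * ((fx_b N (k + 1) y : ℤ) + (fx_b N (k + 1) (y ^^^ (m + 1)) : ℤ)))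
        else 0) = (fn_C N (m + 1) (k + 1) : ℤ) := by
      intro m k
      have := fn_sumout (m + 1) (k + 1)
        (fun y => fx_a N (m + 1) y * (fx_b N (k + 1) y + fx_b N (k + 1) (y ^^^ (m + 1))))
      push_cast at this
      rw [this]
      unfold fn_C
      push_cast
      rfl
    have h6 : ∀ m k : ℕ, (∑ y ∈ range 16, if out2 (m + 1) (k + 1) y then
        (fx_a N (m + 1) y : ℤ) else 0) = (fn_A N (m + 1) (k + 1) : ℤ) := by
      intro m k
      exact fn_sumout (m + 1) (k + 1) (fun y => fx_a N (m + 1) y)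
    have h7 : ∀ m k : ℕ, (∑ y ∈ range 16, if out2 (m + 1) (k + 1) y then
        (fx_b N (k + 1) y : ℤ) else 0) = (fn_B N (m + 1) (k + 1) : ℤ) := by
      intro m k
      exact fn_sumout (m + 1) (k + 1) (fun y => fx_b N (k + 1) y)
    have h8 : ∀ m k : ℕ, (if k + 1 = m + 1 then (0 : ℤ) else
        (fx_lb N ((m + 1) ^^^ (k + 1)) : ℤ) *
          ((∑ y ∈ range 16, if out2 (m + 1) (k + 1) y then (fx_a N (m + 1) y : ℤ) else 0) *
          (∑ y ∈ range 16, if out2 (m + 1) (k + 1) y then (fx_b N (k + 1) y : ℤ) else 0) -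
          2 * ∑ y ∈ range 16, if out2 (m + 1) (k + 1) y then
            ((fx_a N (m + 1) y : ℤ) * ((fx_b N (k + 1) y : ℤ) +
              (fx_b N (k + 1) (y ^^^ (m + 1)) : ℤ))) else 0)) =
        (if k + 1 = m + 1 then (0 : ℤ) else (fx_lb N ((m + 1) ^^^ (k + 1)) : ℤ) *
          ((fn_A N (m + 1) (k + 1) : ℤ) * (fn_B N (m + 1) (k + 1) : ℤ)))
        - 2 * (if k + 1 = m + 1 then (0 : ℤ) else (fx_lb N ((m + 1) ^^^ (k + 1)) : ℤ) *
          (fn_C N (m + 1) (k + 1) : ℤ)) := by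
      intro m k
      rw [h5, h6, h7]
      split_ifs <;> ring
    simp only [h8, Finset.sum_sub_distrib, ← Finset.mul_sum]
    simp only [add_left_inj] at h4 ⊢
    linarith
  have h9 : ((∑ v ∈ bases, fx_a N v.1 v.2.1 *
      (fx_b N v.2.2.1 v.2.2.2 * fx_lb N (v.1 ^^^ v.2.2.1)) : ℕ) : ℤ) = (T : ℤ) := by
    rw [← h3]
    push_cast
    exact Finset.sum_congr rfl fun v _ => by ring
  exact_mod_cast h9

lemma fn_pack (f g : ℕ × ℕ × ℕ × ℕ → Fin 6 → ℕ) (hf : ∀ v a, f v a ≤ 2) (hg : ∀ v a, g v a ≤ 6)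
    (a b : Fin 6) : d18 (∑ v ∈ bases, (∑ a : Fin 6, f v a * 2 ^ (108 * (a : ℕ))) *
      (∑ b : Fin 6, g v b * 2 ^ (18 * (b : ℕ)))) (6 * a + b) = ∑ v ∈ bases, f v a * g v b := by
  have h1 : ∑ v ∈ bases, (∑ a : Fin 6, f v a * 2 ^ (108 * (a : ℕ))) *
      (∑ b : Fin 6, g v b * 2 ^ (18 * (b : ℕ))) =
      ∑ a : Fin 6, ∑ b : Fin 6, (∑ v ∈ bases, f v a * g v b) *
        (2 ^ (108 * (a : ℕ)) * 2 ^ (18 * (b : ℕ))) := by
    simp only [Finset.sum_mul_sum]
    rw [Finset.sum_comm]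
    refine Finset.sum_congr rfl fun a _ => ?_
    rw [Finset.sum_comm]
    refine Finset.sum_congr rfl fun b _ => ?_
    rw [Finset.sum_mul]
    refine Finset.sum_congr rfl fun v _ => ?_
    ring
  rw [h1]
  refine fx_d18 (fun a b => ∑ v ∈ bases, f v a * g v b) (fun a b => ?_) a b
  have h2 : ∑ v ∈ bases, f v a * g v b ≤ ∑ _v ∈ bases, 12 :=
    Finset.sum_le_sum fun v _ => Nat.mul_le_mul (hf v a) (hg v b)
  rw [Finset.sum_const, bases_card] at h2
  refine h2.trans_lt ?_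
  norm_num

theorem fn_N {N T : ℕ} (h : fn_chk N T = true) (a b : Fin 6) :
    NN (dig N) a b = (d18 T (6 * a + b) : ℝ) := by
  have h1 := fn_pack
    (fun v a => fx_c a (fx_lb N v.1) (fx_lb N v.2.1) (fx_lb N (v.1 ^^^ v.2.1)))
    (fun v b => fx_c b (fx_lb N v.2.2.1) (fx_lb N v.2.2.2) (fx_lb N (v.2.2.1 ^^^ v.2.2.2))
      * fx_lb N (v.1 ^^^ v.2.2.1))
    (fun v a => fx_c_le _ _ _ _)
    (fun v a => by
      have e1 := fx_c_le a (fx_lb N v.2.2.1) (fx_lb N v.2.2.2) (fx_lb N (v.2.2.1 ^^^ v.2.2.2))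
      have e2 := fx_lb_lt N (v.1 ^^^ v.2.2.1)
      calc _ ≤ 2 * 3 := Nat.mul_le_mul e1 (by omega)
        _ = 6 := by norm_num) a b
  have h2 : ∑ v ∈ bases, (∑ a : Fin 6, fx_c a (fx_lb N v.1) (fx_lb N v.2.1)
        (fx_lb N (v.1 ^^^ v.2.1)) * 2 ^ (108 * (a : ℕ))) *
      (∑ b : Fin 6, (fx_c b (fx_lb N v.2.2.1) (fx_lb N v.2.2.2) (fx_lb N (v.2.2.1 ^^^ v.2.2.2))
      * fx_lb N (v.1 ^^^ v.2.2.1)) * 2 ^ (18 * (b : ℕ))) = T := by
    rw [← fn_tot h]
    refine Finset.sum_congr rfl fun v _ => ?_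
    rw [fx_a_eq, fx_b_eq, Finset.sum_mul (s := univ) (a := fx_lb N (v.1 ^^^ v.2.2.1))]
    congr 1
    exact Finset.sum_congr rfl fun b _ => by ring
  rw [h2] at h1
  rw [h1, ← totH_N, Nat.cast_sum]
  refine Finset.sum_congr rfl fun v _ => ?_
  rw [← fx_A_cast, ← fx_A_cast, ← fx_lb_eq]
  push_cast
  ring

lemma fn_chk_ltab : (ltab.all fun t => fn_chk t.N t.T) = true := by
  decide +kernel

theorem featN : ∀ t ∈ ltab, ∀ a b : Fin 6, NN (dig t.N) a b = (d18 t.T (6 * a + b) : ℝ) :=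
  fun t ht a b => fn_N (List.all_eq_true.1 fn_chk_ltab t ht) a b

end Pool.Agent.Lib.MP36
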