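import Pool.Agent.Lib.MP_36bd7d_h28.Defs

set_option autoImplicit false

open Finset

namespace Pool.Agent.Lib.MP36

/-! ### Membership in the set of bases -/

theorem rh_cond (x y z w : ℕ) :
    (∀ j ∈ Finset.Icc (1 : ℕ) 15, lin (x, y, z, w) j ≠ 0) ↔
      (x ≠ 0 ∧ y ≠ 0 ∧ x ^^^ y ≠ 0) ∧ (z ≠ 0 ∧ x ^^^ z ≠ 0 ∧ y ^^^ z ≠ 0 ∧ x ^^^ y ^^^ z ≠ 0) ∧
      (w ≠ 0 ∧ x ^^^ w ≠ 0 ∧ y ^^^ w ≠ 0 ∧ x ^^^ y ^^^ w ≠ 0) ∧
      (z ^^^ w ≠ 0 ∧ x ^^^ (z ^^^ w) ≠ 0 ∧ y ^^^ (z ^^^ w) ≠ 0 ∧ x ^^^ y ^^^ (z ^^^ w) ≠ 0) := by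
  have hI : Finset.Icc (1 : ℕ) 15 = {1, 2, 3, 4, 5, 6, 7, 8, 9, 10, 11, 12, 13, 14, 15} := by
    decide
  rw [hI]
  simp only [Finset.forall_mem_insert, Finset.mem_singleton, forall_eq]
  simp [lin, Nat.testBit]
  tauto

theorem rh_eq (a b : ℕ) : a = b ↔ b ^^^ a = 0 := by
  rw [Nat.xor_eq_zero_iff]
  exact eq_comm

theorem rh_out2 (x y u : ℕ) :
    out2 x y u = true ↔ u ≠ 0 ∧ x ^^^ u ≠ 0 ∧ y ^^^ u ≠ 0 ∧ x ^^^ y ^^^ u ≠ 0 := by
  unfold out2
  simp only [Bool.and_eq_true, bne_iff_ne, ne_eq]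
  rw [rh_eq u x, rh_eq u y, rh_eq u (x ^^^ y)]
  tauto

theorem rh_out2' (x y u : ℕ) :
    out2 x y u = true ↔ u ≠ 0 ∧ u ≠ x ∧ u ≠ y ∧ u ≠ x ^^^ y := by
  unfold out2
  simp only [Bool.and_eq_true, bne_iff_ne, ne_eq]
  tauto

/-- membership, first form -/
theorem rh_condX (x y z w : ℕ) :
    (∀ j ∈ Finset.Icc (1 : ℕ) 15, lin (x, y, z, w) j ≠ 0) ↔
      (x ≠ 0 ∧ y ≠ 0 ∧ y ≠ x) ∧ out2 x y z = true ∧ (out2 x y w = true ∧
        out2 x y (z ^^^ w) = true) := by
  rw [rh_cond, rh_out2, rh_out2, rh_out2, ne_eq, ne_eq, ne_eq y x, rh_eq y x]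

/-- membership, second form -/
theorem rh_condN (x y z w : ℕ) :
    (∀ j ∈ Finset.Icc (1 : ℕ) 15, lin (x, y, z, w) j ≠ 0) ↔
      (x ≠ 0 ∧ z ≠ 0 ∧ z ≠ x) ∧ out2 x z y = true ∧ (out2 x z w = true ∧
        out2 x z (y ^^^ w) = true) := by
  rw [rh_cond, rh_out2, rh_out2, rh_out2, ne_eq, ne_eq, ne_eq z x, rh_eq z x]
  simp only [Nat.xor_comm, Nat.xor_left_comm, Nat.xor_assoc]
  tauto

/-- membership in the plane spanned by `z` and `w` (nonzero points) -/
def inZ (z w u : ℕ) : Prop := u = z ∨ u = w ∨ u = z ^^^ w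

instance (z w u : ℕ) : Decidable (inZ z w u) := by unfold inZ; infer_instance

/-- membership, third form -/
theorem rh_condZ (x y z w : ℕ) :
    (∀ j ∈ Finset.Icc (1 : ℕ) 15, lin (x, y, z, w) j ≠ 0) ↔
      (x ≠ 0 ∧ y ≠ 0 ∧ y ≠ x) ∧ (z ≠ 0 ∧ w ≠ 0 ∧ w ≠ z) ∧
        ¬ inZ z w x ∧ ¬ inZ z w y ∧ ¬ inZ z w (x ^^^ y) := by
  rw [rh_cond]
  unfold inZ
  rw [ne_eq, ne_eq, ne_eq y x, rh_eq y x, ne_eq z, ne_eq w, ne_eq w z, rh_eq w z, rh_eq x z,
    rh_eq x w, rh_eq x (z ^^^ w), rh_eq y z, rh_eq y w, rh_eq y (z ^^^ w), rh_eq (x ^^^ y) z,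
    rh_eq (x ^^^ y) w, rh_eq (x ^^^ y) (z ^^^ w)]
  simp only [Nat.xor_comm, Nat.xor_left_comm, Nat.xor_assoc]
  tauto

theorem rh_lt {x y : ℕ} (hx : x < 16) (hy : y < 16) : x ^^^ y < 16 := by
  have : (16 : ℕ) = 2 ^ 4 := by norm_num
  rw [this] at hx hy ⊢
  exact Nat.xor_lt_two_pow hx hy

/-! ### The nested form of the sum -/

theorem rh_sum {R : Type*} [AddCommMonoid R] (f : ℕ × ℕ × ℕ × ℕ → R) :
    ∑ b ∈ bases, f b = ∑ x ∈ range 16, ∑ y ∈ range 16, ∑ z ∈ range 16, ∑ w ∈ range 16,
      if (∀ j ∈ Finset.Icc (1 : ℕ) 15, lin (x, y, z, w) j ≠ 0) then f (x, y, z, w) else 0 := by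
  unfold bases
  rw [Finset.sum_filter, Finset.sum_product]
  refine Finset.sum_congr rfl (fun x _ => ?_)
  rw [Finset.sum_product]
  refine Finset.sum_congr rfl (fun y _ => ?_)
  rw [Finset.sum_product]

theorem rh_pick {R : Type*} [AddCommMonoid R] {u : ℕ} (hu : u < 16) (g : ℕ → R) :
    (∑ v ∈ range 16, if v = u then g v else 0) = g u := by
  rw [Finset.sum_ite_eq', if_pos (Finset.mem_range.mpr hu)]

theorem rh_two {R : Type*} [CommRing R] {x : ℕ} (hx : x < 16) (hx0 : x ≠ 0) (g : ℕ → R) :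
    (∑ u ∈ range 16, if u ≠ 0 ∧ u ≠ x then g u else 0)
      = (∑ u ∈ range 16, g u) - g 0 - g x := by
  have h : ∀ u : ℕ, (if u ≠ 0 ∧ u ≠ x then g u else 0)
      = g u - (if u = 0 then g u else 0) - (if u = x then g u else 0) := by
    intro u
    by_cases h1 : u = 0
    · subst h1
      simp [hx0.symm]
    · by_cases h2 : u = x <;> simp [h1, h2, hx0]
  simp_rw [h]
  rw [Finset.sum_sub_distrib, Finset.sum_sub_distrib, rh_pick (by norm_num) g, rh_pick hx g]

theorem rh_four {R : Type*} [CommRing R] {x y : ℕ} (hx : x < 16) (hy : y < 16) (hx0 : x ≠ 0)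
    (hy0 : y ≠ 0) (hyx : y ≠ x) (g : ℕ → R) :
    (∑ u ∈ range 16, if out2 x y u then g u else 0)
      = (∑ u ∈ range 16, g u) - (g 0 + g x + g y + g (x ^^^ y)) := by
  have hxy0 : x ^^^ y ≠ 0 := fun h => hyx ((Nat.xor_eq_zero_iff.mp h).symm)
  have hxyx : x ^^^ y ≠ x := by
    intro h
    apply hy0
    have := congrArg (fun t => x ^^^ t) h
    simpa [Nat.xor_xor_cancel_left] using this
  have hxyy : x ^^^ y ≠ y := by
    intro h
    apply hx0
    have := congrArg (fun t => t ^^^ y) h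
    simpa [Nat.xor_xor_cancel_right] using this
  have h : ∀ u : ℕ, (if out2 x y u = true then g u else 0)
      = g u - ((if u = 0 then g u else 0) + (if u = x then g u else 0)
        + (if u = y then g u else 0) + (if u = x ^^^ y then g u else 0)) := by
    intro u
    by_cases h0 : u = 0
    · subst h0
      simp [rh_out2', hx0.symm, hy0.symm, hxy0.symm]
    · by_cases h1 : u = x
      · subst h1
        simp [rh_out2', hx0, hyx.symm, hxyx.symm]
      · by_cases h2 : u = y
        · subst h2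
          simp [rh_out2', hy0, hyx, hxyy.symm]
        · by_cases h3 : u = x ^^^ y
          · subst h3
            simp [rh_out2', hxy0, hxyx, hxyy]
          · simp [rh_out2', h0, h1, h2, h3]
  simp_rw [h]
  rw [Finset.sum_sub_distrib, Finset.sum_add_distrib, Finset.sum_add_distrib,
    Finset.sum_add_distrib, rh_pick (by norm_num) g, rh_pick hx g, rh_pick hy g,
    rh_pick (rh_lt hx hy) g]

/-- the sum over the complement of the three-dimensional space spanned by `x`, `y`, `z` -/
theorem rh_eight {R : Type*} [CommRing R] {x y z : ℕ} (hx : x < 16) (hy : y < 16) (hz : z < 16)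
    (hx0 : x ≠ 0) (hy0 : y ≠ 0) (hyx : y ≠ x) (hz0 : out2 x y z = true) (g : ℕ → R) :
    (∑ u ∈ range 16, if out2 x y u = true ∧ out2 x y (z ^^^ u) = true then g u else 0)
      = (∑ u ∈ range 16, if out2 x y u then g u else 0)
        - (g z + g (z ^^^ x) + g (z ^^^ y) + g (z ^^^ (x ^^^ y))) := by
  have hsub : (∑ u ∈ range 16, if out2 x y (z ^^^ u) then (if out2 x y u then g u else 0) else 0)
      = (∑ u ∈ range 16, if out2 x y u then g u else 0)
        - (g z + g (z ^^^ x) + g (z ^^^ y) + g (z ^^^ (x ^^^ y))) := by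
    have hre : ∀ F : ℕ → R, ∑ u ∈ range 16, F u = ∑ v ∈ range 16, F (z ^^^ v) := by
      intro F
      refine Finset.sum_bij' (fun a _ => z ^^^ a) (fun a _ => z ^^^ a) ?_ ?_ ?_ ?_ ?_
      · intro a ha
        exact Finset.mem_range.mpr (rh_lt hz (Finset.mem_range.mp ha))
      · intro a ha
        exact Finset.mem_range.mpr (rh_lt hz (Finset.mem_range.mp ha))
      · intro a _; exact Nat.xor_xor_cancel_left z a
      · intro a _; exact Nat.xor_xor_cancel_left z a
      · intro a _; simp [Nat.xor_xor_cancel_left]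
    rw [hre (fun u => if out2 x y (z ^^^ u) then (if out2 x y u then g u else 0) else 0)]
    have h4 := rh_four hx hy hx0 hy0 hyx (fun v => if out2 x y (z ^^^ v) then g (z ^^^ v) else 0)
    simp only [Nat.xor_xor_cancel_left]
    rw [h4, ← hre (fun u => if out2 x y u then g u else 0)]
    have e := (rh_out2 x y z).mp hz0
    have e1 : out2 x y (z ^^^ x) = true := by
      rw [rh_out2]
      refine ⟨?_, ?_, ?_, ?_⟩
      · rw [Nat.xor_comm]; exact e.2.1
      · rw [Nat.xor_comm z x, Nat.xor_xor_cancel_left]; exact e.1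
      · rw [show y ^^^ (z ^^^ x) = x ^^^ y ^^^ z by
          simp only [Nat.xor_comm, Nat.xor_left_comm]]
        exact e.2.2.2
      · rw [show x ^^^ y ^^^ (z ^^^ x) = x ^^^ (x ^^^ (y ^^^ z)) by
          simp only [Nat.xor_comm, Nat.xor_left_comm, Nat.xor_assoc], Nat.xor_xor_cancel_left]
        exact e.2.2.1
    have e2 : out2 x y (z ^^^ y) = true := by
      rw [rh_out2]
      refine ⟨?_, ?_, ?_, ?_⟩
      · rw [Nat.xor_comm]; exact e.2.2.1
      · rw [show x ^^^ (z ^^^ y) = x ^^^ y ^^^ z by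
          simp only [Nat.xor_comm, Nat.xor_left_comm, Nat.xor_assoc]]
        exact e.2.2.2
      · rw [Nat.xor_comm z y, Nat.xor_xor_cancel_left]; exact e.1
      · rw [show x ^^^ y ^^^ (z ^^^ y) = y ^^^ (y ^^^ (x ^^^ z)) by
          simp only [Nat.xor_comm, Nat.xor_left_comm, Nat.xor_assoc], Nat.xor_xor_cancel_left]
        exact e.2.1
    have e3 : out2 x y (z ^^^ (x ^^^ y)) = true := by
      rw [rh_out2]
      refine ⟨?_, ?_, ?_, ?_⟩
      · rw [show z ^^^ (x ^^^ y) = x ^^^ y ^^^ z by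
          simp only [Nat.xor_comm]]
        exact e.2.2.2
      · rw [show x ^^^ (z ^^^ (x ^^^ y)) = x ^^^ (x ^^^ (y ^^^ z)) by
          simp only [Nat.xor_comm, Nat.xor_left_comm], Nat.xor_xor_cancel_left]
        exact e.2.2.1
      · rw [show y ^^^ (z ^^^ (x ^^^ y)) = y ^^^ (y ^^^ (x ^^^ z)) by
          simp only [Nat.xor_comm, Nat.xor_left_comm], Nat.xor_xor_cancel_left]
        exact e.2.1
      · rw [Nat.xor_comm z (x ^^^ y), Nat.xor_xor_cancel_left]; exact e.1
    simp only [hz0, e1, e2, e3, if_true, Nat.xor_zero]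
  rw [← hsub]
  refine Finset.sum_congr rfl (fun u _ => ?_)
  by_cases h1 : out2 x y u = true <;> by_cases h2 : out2 x y (z ^^^ u) = true <;> simp [h1, h2]

theorem rh_one_eight {R : Type*} [CommRing R] {x y z : ℕ} (hx : x < 16) (hy : y < 16)
    (hz : z < 16) (hx0 : x ≠ 0) (hy0 : y ≠ 0) (hyx : y ≠ x) (hz0 : out2 x y z = true) (c : R) :
    (∑ u ∈ range 16, if out2 x y u = true ∧ out2 x y (z ^^^ u) = true then c else 0) = 8 * c := by
  rw [rh_eight hx hy hz hx0 hy0 hyx hz0 (fun _ => c), rh_four hx hy hx0 hy0 hyx (fun _ => c)]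
  simp only [Finset.sum_const, Finset.card_range, nsmul_eq_mul]
  push_cast
  ring

/-! ### The three sums -/

theorem sum_bases_X {R : Type*} [CommRing R] (A B : ℕ → ℕ → R)
    (hA : ∀ x y, A x (x ^^^ y) = A x y) (hB : ∀ x y, B x (x ^^^ y) = B x y) :
    ∑ b ∈ bases, A b.1 b.2.1 * B b.1 b.2.2.1
      = 8 * ∑ x ∈ range 16, if x ≠ 0 then
          ((∑ y ∈ range 16, if y ≠ 0 ∧ y ≠ x then A x y else 0)
            * (∑ y ∈ range 16, if y ≠ 0 ∧ y ≠ x then B x y else 0)
            - 2 * ∑ y ∈ range 16, if y ≠ 0 ∧ y ≠ x then A x y * B x y else 0) else 0 := by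
  rw [rh_sum, Finset.mul_sum]
  refine Finset.sum_congr rfl (fun x hx => ?_)
  have hx := Finset.mem_range.mp hx
  by_cases hx0 : x = 0
  · rw [if_neg (by simpa using hx0), mul_zero]
    refine Finset.sum_eq_zero (fun y _ => Finset.sum_eq_zero (fun z _ => Finset.sum_eq_zero
      (fun w _ => ?_)))
    rw [if_neg]
    rw [rh_condX]
    exact fun h => h.1.1 hx0
  rw [if_pos hx0]
  have hy : ∀ y ∈ range 16, (∑ z ∈ range 16, ∑ w ∈ range 16,
      if (∀ j ∈ Finset.Icc (1 : ℕ) 15, lin (x, y, z, w) j ≠ 0) then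
        A (x, y, z, w).1 (x, y, z, w).2.1 * B (x, y, z, w).1 (x, y, z, w).2.2.1 else 0)
      = 8 * ((if y ≠ 0 ∧ y ≠ x then A x y else 0)
          * (∑ y ∈ range 16, if y ≠ 0 ∧ y ≠ x then B x y else 0)
        - 2 * (if y ≠ 0 ∧ y ≠ x then A x y * B x y else 0)) := by
    intro y hy
    have hy := Finset.mem_range.mp hy
    by_cases hc : y ≠ 0 ∧ y ≠ x
    · rw [if_pos hc, if_pos hc]
      have hz : ∀ z ∈ range 16, (∑ w ∈ range 16,
          if (∀ j ∈ Finset.Icc (1 : ℕ) 15, lin (x, y, z, w) j ≠ 0) then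
            A (x, y, z, w).1 (x, y, z, w).2.1 * B (x, y, z, w).1 (x, y, z, w).2.2.1 else 0)
          = 8 * A x y * (if out2 x y z then B x z else 0) := by
        intro z hz
        have hz := Finset.mem_range.mp hz
        by_cases hz0 : out2 x y z = true
        · rw [if_pos hz0]
          have := rh_one_eight hx hy hz hx0 hc.1 hc.2 hz0 (A x y * B x z)
          rw [mul_assoc, ← this]
          refine Finset.sum_congr rfl (fun w _ => ?_)
          simp only [rh_condX]
          refine if_congr ?_ rfl rfl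
          constructor
          · intro h; exact h.2.2
          · intro h; exact ⟨⟨hx0, hc⟩, hz0, h⟩
        · rw [if_neg hz0, mul_zero]
          refine Finset.sum_eq_zero (fun w _ => ?_)
          rw [if_neg]
          rw [rh_condX]
          exact fun h => hz0 h.2.1
      rw [Finset.sum_congr rfl hz, ← Finset.mul_sum,
        rh_four hx hy hx0 hc.1 hc.2 (fun z => B x z), rh_two hx hx0 (fun z => B x z), hB x y]
      ring
    · rw [if_neg hc, if_neg hc]
      rw [zero_mul, mul_zero, sub_zero, mul_zero]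
      refine Finset.sum_eq_zero (fun z _ => Finset.sum_eq_zero (fun w _ => ?_))
      rw [if_neg]
      rw [rh_condX]
      exact fun h => hc h.1.2
  rw [Finset.sum_congr rfl hy, ← Finset.mul_sum, Finset.sum_sub_distrib, ← Finset.sum_mul,
    ← Finset.mul_sum]

theorem sum_bases_N {R : Type*} [CommRing R] (A B : ℕ → ℕ → R) (w : ℕ → R)
    (hA : ∀ x y, A x (x ^^^ y) = A x y) (hB : ∀ x y, B x (x ^^^ y) = B x y) :
    ∑ b ∈ bases, A b.1 b.2.1 * B b.2.2.1 b.2.2.2 * w (b.1 ^^^ b.2.2.1)
      = ∑ x ∈ range 16, ∑ z ∈ range 16, if x ≠ 0 ∧ z ≠ 0 ∧ x ≠ z then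
          w (x ^^^ z) * ((∑ y ∈ range 16, if out2 x z y then A x y else 0)
            * (∑ y ∈ range 16, if out2 x z y then B z y else 0)
            - 2 * ∑ y ∈ range 16, if out2 x z y then A x y * (B z y + B z (y ^^^ x)) else 0)
          else 0 := by
  rw [rh_sum]
  refine Finset.sum_congr rfl (fun x hx => ?_)
  rw [Finset.sum_comm]
  refine Finset.sum_congr rfl (fun z hz => ?_)
  have hx := Finset.mem_range.mp hx
  have hz := Finset.mem_range.mp hz
  by_cases hc : x ≠ 0 ∧ z ≠ 0 ∧ x ≠ z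
  · rw [if_pos hc]
    have hy : ∀ y ∈ range 16, (∑ u ∈ range 16,
        if (∀ j ∈ Finset.Icc (1 : ℕ) 15, lin (x, y, z, u) j ≠ 0) then
          A (x, y, z, u).1 (x, y, z, u).2.1 * B (x, y, z, u).2.2.1 (x, y, z, u).2.2.2
            * w ((x, y, z, u).1 ^^^ (x, y, z, u).2.2.1) else 0)
        = w (x ^^^ z) * ((if out2 x z y then A x y else 0)
            * (∑ y ∈ range 16, if out2 x z y then B z y else 0)
          - 2 * (if out2 x z y then A x y * (B z y + B z (y ^^^ x)) else 0)) := by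
      intro y hy
      have hy := Finset.mem_range.mp hy
      by_cases hy0 : out2 x z y = true
      · rw [if_pos hy0, if_pos hy0]
        have h8 := rh_eight hx hz hy hc.1 hc.2.1 (Ne.symm hc.2.2) hy0 (fun u => B z u)
        have e1 : B z (y ^^^ z) = B z y := by rw [Nat.xor_comm y z, hB]
        have e2 : B z (y ^^^ (x ^^^ z)) = B z (y ^^^ x) := by
          rw [show y ^^^ (x ^^^ z) = z ^^^ (y ^^^ x) by
            simp only [Nat.xor_comm, Nat.xor_left_comm], hB]
        have h9 : (∑ u ∈ range 16,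
            if (∀ j ∈ Finset.Icc (1 : ℕ) 15, lin (x, y, z, u) j ≠ 0) then
              A (x, y, z, u).1 (x, y, z, u).2.1 * B (x, y, z, u).2.2.1 (x, y, z, u).2.2.2
                * w ((x, y, z, u).1 ^^^ (x, y, z, u).2.2.1) else 0)
            = A x y * w (x ^^^ z) * (∑ u ∈ range 16,
              if out2 x z u = true ∧ out2 x z (y ^^^ u) = true then B z u else 0) := by
          rw [Finset.mul_sum]
          refine Finset.sum_congr rfl (fun u _ => ?_)
          by_cases hu : out2 x z u = true ∧ out2 x z (y ^^^ u) = true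
          · rw [if_pos hu, if_pos ((rh_condN x y z u).mpr
              ⟨⟨hc.1, hc.2.1, Ne.symm hc.2.2⟩, hy0, hu⟩)]
            ring
          · rw [if_neg hu, if_neg (fun h => hu ((rh_condN x y z u).mp h).2.2), mul_zero]
        rw [h9, h8, e1, e2]
        ring
      · rw [if_neg hy0, if_neg hy0]
        rw [zero_mul, mul_zero, sub_zero, mul_zero]
        refine Finset.sum_eq_zero (fun u _ => ?_)
        rw [if_neg]
        rw [rh_condN]
        exact fun h => hy0 h.2.1
    rw [Finset.sum_congr rfl hy, ← Finset.mul_sum, Finset.sum_sub_distrib, ← Finset.sum_mul,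
      ← Finset.mul_sum]
  · rw [if_neg hc]
    refine Finset.sum_eq_zero (fun y _ => Finset.sum_eq_zero (fun u _ => ?_))
    rw [if_neg]
    rw [rh_condN]
    exact fun h => hc ⟨h.1.1, h.1.2.1, Ne.symm h.1.2.2⟩

/-! ### The sum over two independent pairs -/

/-- sum over independent pairs `(z, w)` whose plane contains `u` -/
theorem rh_TB {R : Type*} [CommRing R] (B : ℕ → ℕ → R)
    (hB : ∀ x y, B x (x ^^^ y) = B x y) {u : ℕ} (hu : u < 16) (hu0 : u ≠ 0) :
    (∑ z ∈ range 16, ∑ w ∈ range 16,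
      if (z ≠ 0 ∧ w ≠ 0 ∧ w ≠ z) ∧ inZ z w u then B z w else 0)
      = ∑ y ∈ range 16, if y ≠ 0 ∧ y ≠ u then B u y + 2 * B y u else 0 := by
  have hpt : ∀ z ∈ range 16, ∀ w ∈ range 16,
      (if (z ≠ 0 ∧ w ≠ 0 ∧ w ≠ z) ∧ inZ z w u then B z w else 0)
      = (if z = u then (if w ≠ 0 ∧ w ≠ z then B z w else 0) else 0)
        + (if w = u then (if z ≠ 0 ∧ z ≠ w then B z w else 0) else 0)
        + (if w = z ^^^ u then (if z ≠ 0 ∧ z ≠ u then B z w else 0) else 0) := by
    intro z _ w _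
    by_cases hz : z = u
    · subst hz
      have : (w = z ^^^ z) ↔ w = 0 := by rw [Nat.xor_self]
      by_cases hw : w = z
      · subst hw
        simp [hu0]
      · by_cases hw0 : w = 0
        · subst hw0; simp [hw]
        · simp [inZ, hu0, hw, hw0, this]
    · by_cases hw : w = u
      · subst hw
        have h3 : ¬ (w = z ^^^ w ∧ z ≠ 0) := by
          rintro ⟨h, h'⟩
          apply h'
          have := congrArg (fun t => t ^^^ w) h
          simpa [Nat.xor_xor_cancel_right] using this.symm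
        by_cases hz0 : z = 0
        · subst hz0; simp [hz]
        · have h4 : ¬ (w = z ^^^ w) := fun h => h3 ⟨h, hz0⟩
          simp [inZ, hu0, hz, hz0, h4, Ne.symm hz]
      · have hzw : (u = z ^^^ w) ↔ (w = z ^^^ u) := by
          constructor
          · rintro rfl; exact (Nat.xor_xor_cancel_left z w).symm
          · intro h; rw [h]; exact (Nat.xor_xor_cancel_left z u).symm
        by_cases h3 : w = z ^^^ u
        · have hw0 : w ≠ 0 := by
            intro h
            rw [h] at h3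
            exact hz (Nat.xor_eq_zero_iff.mp h3.symm)
          have hwz : w ≠ z := by
            intro h
            rw [h] at h3
            apply hu0
            have := congrArg (fun t => z ^^^ t) h3
            simpa [Nat.xor_xor_cancel_left] using this.symm
          have h5 : u = z ^^^ w := hzw.mpr h3
          by_cases hz0 : z = 0
          · simp [hz0, hw, Ne.symm hu0]
          · have hin : inZ z w u := Or.inr (Or.inr h5)
            rw [if_pos ⟨⟨hz0, hw0, hwz⟩, hin⟩, if_neg hz, if_neg hw, if_pos h3,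
              if_pos ⟨hz0, hz⟩]
            ring
        · have hin : ¬ inZ z w u := by
            rintro (h | h | h)
            · exact hz h.symm
            · exact hw h.symm
            · exact h3 (hzw.mp h)
          rw [if_neg (fun h => hin h.2), if_neg hz, if_neg hw, if_neg h3]
          ring
  rw [Finset.sum_congr rfl (fun z hz => Finset.sum_congr rfl (fun w hw => hpt z hz w hw))]
  simp only [Finset.sum_add_distrib]
  have s1 : (∑ z ∈ range 16, ∑ w ∈ range 16,
      if z = u then (if w ≠ 0 ∧ w ≠ z then B z w else 0) else 0)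
      = ∑ w ∈ range 16, if w ≠ 0 ∧ w ≠ u then B u w else 0 := by
    rw [Finset.sum_comm]
    refine Finset.sum_congr rfl (fun w _ => ?_)
    exact rh_pick hu (fun z => if w ≠ 0 ∧ w ≠ z then B z w else 0)
  have s2 : (∑ z ∈ range 16, ∑ w ∈ range 16,
      if w = u then (if z ≠ 0 ∧ z ≠ w then B z w else 0) else 0)
      = ∑ z ∈ range 16, if z ≠ 0 ∧ z ≠ u then B z u else 0 := by
    refine Finset.sum_congr rfl (fun z _ => ?_)
    exact rh_pick hu (fun w => if z ≠ 0 ∧ z ≠ w then B z w else 0)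
  have s3 : (∑ z ∈ range 16, ∑ w ∈ range 16,
      if w = z ^^^ u then (if z ≠ 0 ∧ z ≠ u then B z w else 0) else 0)
      = ∑ z ∈ range 16, if z ≠ 0 ∧ z ≠ u then B z u else 0 := by
    refine Finset.sum_congr rfl (fun z hz => ?_)
    rw [rh_pick (rh_lt (Finset.mem_range.mp hz) hu) (fun w => if z ≠ 0 ∧ z ≠ u then B z w else 0),
      hB]
  rw [s1, s2, s3, ← Finset.sum_add_distrib, ← Finset.sum_add_distrib]
  refine Finset.sum_congr rfl (fun y _ => ?_)
  by_cases hy : y ≠ 0 ∧ y ≠ u
  · simp only [if_pos hy]; ring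
  · simp only [if_neg hy]; ring

/-- sum over pairs `(z, w)` spanning the plane of `x` and `y` -/
theorem rh_PB {R : Type*} [CommRing R] (B : ℕ → ℕ → R)
    (hB : ∀ x y, B x (x ^^^ y) = B x y) {x y : ℕ} (hx : x < 16) (hy : y < 16) (hx0 : x ≠ 0)
    (hy0 : y ≠ 0) (hyx : y ≠ x) :
    (∑ z ∈ range 16, ∑ w ∈ range 16,
      if (z ≠ 0 ∧ w ≠ 0 ∧ w ≠ z) ∧ inZ z w x ∧ inZ z w y then B z w else 0)
      = 2 * (B x y + B y x + B (x ^^^ y) x) := by
  have hxy0 : x ^^^ y ≠ 0 := fun h => hyx ((Nat.xor_eq_zero_iff.mp h).symm)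
  have hxyx : x ^^^ y ≠ x := by
    intro h
    apply hy0
    have := congrArg (fun t => x ^^^ t) h
    simpa [Nat.xor_xor_cancel_left] using this
  have hxyy : x ^^^ y ≠ y := by
    intro h
    apply hx0
    have := congrArg (fun t => t ^^^ y) h
    simpa [Nat.xor_xor_cancel_right] using this
  have hpt : ∀ z ∈ range 16, ∀ w ∈ range 16,
      (if (z ≠ 0 ∧ w ≠ 0 ∧ w ≠ z) ∧ inZ z w x ∧ inZ z w y then B z w else 0)
      = (if z = x then (if w = y then B z w else 0) + (if w = x ^^^ y then B z w else 0) else 0)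
        + (if z = y then (if w = x then B z w else 0) + (if w = x ^^^ y then B z w else 0) else 0)
        + (if z = x ^^^ y then (if w = x then B z w else 0) + (if w = y then B z w else 0)
            else 0) := by
    intro z _ w _
    by_cases h : (z ≠ 0 ∧ w ≠ 0 ∧ w ≠ z) ∧ inZ z w x ∧ inZ z w y
    · rw [if_pos h]
      obtain ⟨⟨hz0, hw0, hwz⟩, h1, h2⟩ := h
      rcases h1 with h1 | h1 | h1 <;> rcases h2 with h2 | h2 | h2
      · exact absurd (h2.trans h1.symm) hyx
      · subst h1; subst h2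
        simp [hyx, Ne.symm hyx, hxyx.symm, hxyy.symm]
      · subst h1
        have : w = x ^^^ y := by rw [h2]; exact (Nat.xor_xor_cancel_left x w).symm
        subst this
        simp [hxyx, hxyy, hyx, Ne.symm hyx, hxyx.symm]
      · subst h1; subst h2
        simp [hyx, Ne.symm hyx, hxyx.symm, hxyy.symm]
      · exact absurd (h2.trans h1.symm) hyx
      · subst h1
        have : z = x ^^^ y := by
          rw [h2, Nat.xor_comm z x]; exact (Nat.xor_xor_cancel_left x z).symm
        subst this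
        simp [hxyx, hxyy, hyx, Ne.symm hyx]
      · subst h2
        have : w = x ^^^ y := by
          rw [h1, Nat.xor_comm y w]; exact (Nat.xor_xor_cancel_right w y).symm
        subst this
        simp [hxyx, hxyy, hyx, Ne.symm hyx, hxyy.symm]
      · subst h2
        have : z = x ^^^ y := by
          rw [h1]; exact (Nat.xor_xor_cancel_right z y).symm
        subst this
        simp [hxyx, hxyy, hyx, Ne.symm hyx]
      · exact absurd (h2.trans h1.symm) hyx
    · rw [if_neg h]
      have a1 : ¬ (z = x ∧ w = y) := by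
        rintro ⟨rfl, rfl⟩
        exact h ⟨⟨hx0, hy0, hyx⟩, Or.inl rfl, Or.inr (Or.inl rfl)⟩
      have a2 : ¬ (z = x ∧ w = x ^^^ y) := by
        rintro ⟨rfl, rfl⟩
        exact h ⟨⟨hx0, hxy0, hxyx⟩, Or.inl rfl,
          Or.inr (Or.inr (Nat.xor_xor_cancel_left z y).symm)⟩
      have a3 : ¬ (z = y ∧ w = x) := by
        rintro ⟨rfl, rfl⟩
        exact h ⟨⟨hy0, hx0, Ne.symm hyx⟩, Or.inr (Or.inl rfl), Or.inl rfl⟩
      have a4 : ¬ (z = y ∧ w = x ^^^ y) := by
        rintro ⟨rfl, rfl⟩
        refine h ⟨⟨hy0, hxy0, hxyy⟩, Or.inr (Or.inr ?_), Or.inl rfl⟩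
        rw [Nat.xor_comm x z]; exact (Nat.xor_xor_cancel_left z x).symm
      have a5 : ¬ (z = x ^^^ y ∧ w = x) := by
        rintro ⟨rfl, rfl⟩
        refine h ⟨⟨hxy0, hx0, hxyx.symm⟩, Or.inr (Or.inl rfl), Or.inr (Or.inr ?_)⟩
        rw [Nat.xor_comm w y]; exact (Nat.xor_xor_cancel_right y w).symm
      have a6 : ¬ (z = x ^^^ y ∧ w = y) := by
        rintro ⟨rfl, rfl⟩
        exact h ⟨⟨hxy0, hy0, hxyy.symm⟩, Or.inr (Or.inr (Nat.xor_xor_cancel_right x w).symm),
          Or.inr (Or.inl rfl)⟩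
      by_cases b1 : z = x
      · have c1 : w ≠ y := fun e => a1 ⟨b1, e⟩
        have c2 : w ≠ x ^^^ y := fun e => a2 ⟨b1, e⟩
        have b2 : z ≠ y := by rw [b1]; exact Ne.symm hyx
        have b3 : z ≠ x ^^^ y := by rw [b1]; exact hxyx.symm
        rw [if_pos b1, if_neg c1, if_neg c2, if_neg b2, if_neg b3]; ring
      · by_cases b2 : z = y
        · have c1 : w ≠ x := fun e => a3 ⟨b2, e⟩
          have c2 : w ≠ x ^^^ y := fun e => a4 ⟨b2, e⟩
          have b3 : z ≠ x ^^^ y := by rw [b2]; exact hxyy.symm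
          rw [if_neg b1, if_pos b2, if_neg c1, if_neg c2, if_neg b3]; ring
        · by_cases b3 : z = x ^^^ y
          · have c1 : w ≠ x := fun e => a5 ⟨b3, e⟩
            have c2 : w ≠ y := fun e => a6 ⟨b3, e⟩
            rw [if_neg b1, if_neg b2, if_pos b3, if_neg c1, if_neg c2]; ring
          · rw [if_neg b1, if_neg b2, if_neg b3]; ring
  rw [Finset.sum_congr rfl (fun z hz => Finset.sum_congr rfl (fun w hw => hpt z hz w hw))]
  have hxy := rh_lt hx hy
  have inner : ∀ z a b : ℕ, ∀ c : ℕ, a < 16 → b < 16 → (∑ w ∈ range 16,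
      if z = c then (if w = a then B z w else 0) + (if w = b then B z w else 0) else 0)
      = if z = c then B z a + B z b else 0 := by
    intro z a b c ha hb
    by_cases h : z = c
    · simp only [if_pos h]
      rw [Finset.sum_add_distrib, rh_pick ha (fun w => B z w), rh_pick hb (fun w => B z w)]
    · simp only [if_neg h, Finset.sum_const_zero]
  have hz : ∀ z ∈ range 16, (∑ w ∈ range 16,
      ((if z = x then (if w = y then B z w else 0) + (if w = x ^^^ y then B z w else 0) else 0)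
        + (if z = y then (if w = x then B z w else 0) + (if w = x ^^^ y then B z w else 0) else 0)
        + (if z = x ^^^ y then (if w = x then B z w else 0) + (if w = y then B z w else 0)
            else 0)))
      = (if z = x then B z y + B z (x ^^^ y) else 0) + (if z = y then B z x + B z (x ^^^ y) else 0)
        + (if z = x ^^^ y then B z x + B z y else 0) := by
    intro z _
    rw [Finset.sum_add_distrib, Finset.sum_add_distrib, inner z y (x ^^^ y) x hy hxy,
      inner z x (x ^^^ y) y hx hxy, inner z x y (x ^^^ y) hx hy]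
  rw [Finset.sum_congr rfl hz, Finset.sum_add_distrib, Finset.sum_add_distrib,
    rh_pick hx (fun z => B z y + B z (x ^^^ y)), rh_pick hy (fun z => B z x + B z (x ^^^ y)),
    rh_pick hxy (fun z => B z x + B z y), hB x y]
  have e1 : B y (x ^^^ y) = B y x := by rw [Nat.xor_comm x y, hB]
  have e2 : B (x ^^^ y) y = B (x ^^^ y) x := by
    have := hB (x ^^^ y) x
    rwa [show x ^^^ y ^^^ x = y by rw [Nat.xor_comm x y]; exact Nat.xor_xor_cancel_right y x]
      at this
  rw [e1, e2]
  ring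

/-- the pointwise identity behind the inclusion-exclusion -/
theorem rh_incl {R : Type*} [CommRing R] {x y z w : ℕ} (hx0 : x ≠ 0) (hy0 : y ≠ 0) (hyx : y ≠ x)
    (hw0 : w ≠ 0) (hz0 : z ≠ 0) (hwz : w ≠ z) (c : R) :
    (if ¬ inZ z w x ∧ ¬ inZ z w y ∧ ¬ inZ z w (x ^^^ y) then c else 0)
      = c - (if inZ z w x then c else 0) - (if inZ z w y then c else 0)
        - (if inZ z w (x ^^^ y) then c else 0)
        + 2 * (if inZ z w x ∧ inZ z w y then c else 0) := by
  have key : ∀ a b : ℕ, a ≠ b → inZ z w a → inZ z w b → inZ z w (a ^^^ b) := by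
    intro a b hab h1 h2
    rcases h1 with h1 | h1 | h1 <;> rcases h2 with h2 | h2 | h2
    · exact absurd (h1.trans h2.symm) hab
    · subst h1; subst h2; exact Or.inr (Or.inr rfl)
    · subst h1; subst h2; exact Or.inr (Or.inl (Nat.xor_xor_cancel_left a w))
    · subst h1; subst h2; exact Or.inr (Or.inr (Nat.xor_comm _ _))
    · exact absurd (h1.trans h2.symm) hab
    · subst h1; subst h2
      refine Or.inl ?_
      rw [Nat.xor_comm z a]; exact Nat.xor_xor_cancel_left a z
    · subst h1; subst h2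
      refine Or.inr (Or.inl ?_)
      rw [Nat.xor_comm b w]; exact Nat.xor_xor_cancel_right w b
    · subst h1; subst h2
      exact Or.inl (Nat.xor_xor_cancel_right z b)
    · exact absurd (h1.trans h2.symm) hab
  have hxyx : x ^^^ y ≠ x := by
    intro h
    apply hy0
    have := congrArg (fun t => x ^^^ t) h
    simpa [Nat.xor_xor_cancel_left] using this
  have hxyy : x ^^^ y ≠ y := by
    intro h
    apply hx0
    have := congrArg (fun t => t ^^^ y) h
    simpa [Nat.xor_xor_cancel_right] using this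
  by_cases h1 : inZ z w x
  · by_cases h2 : inZ z w y
    · have h3 := key x y (Ne.symm hyx) h1 h2
      simp only [h1, h2, h3, not_true, false_and, if_true, if_false, and_self]
      ring
    · have h3 : ¬ inZ z w (x ^^^ y) := by
        intro h3
        apply h2
        have := key x (x ^^^ y) hxyx.symm h1 h3
        rwa [Nat.xor_xor_cancel_left] at this
      simp only [h1, h2, h3, not_true, false_and, if_true, if_false, and_false]
      ring
  · by_cases h2 : inZ z w y
    · have h3 : ¬ inZ z w (x ^^^ y) := by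
        intro h3
        apply h1
        have := key (x ^^^ y) y hxyy h3 h2
        rwa [Nat.xor_xor_cancel_right] at this
      simp only [h1, h2, h3, not_true, false_and, if_true, if_false, and_false]
      ring
    · by_cases h3 : inZ z w (x ^^^ y)
      · simp only [h1, h2, h3, not_true, false_and, if_true, if_false, and_false]
        ring
      · simp only [h1, h2, h3, not_false_iff, false_and, if_true, if_false, and_self]
        ring

theorem sum_bases_Z {R : Type*} [CommRing R] (A B : ℕ → ℕ → R)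
    (hA : ∀ x y, A x (x ^^^ y) = A x y) (hB : ∀ x y, B x (x ^^^ y) = B x y) :
    ∑ b ∈ bases, A b.1 b.2.1 * B b.2.2.1 b.2.2.2
      = (∑ x ∈ range 16, ∑ y ∈ range 16, if x ≠ 0 ∧ y ≠ 0 ∧ y ≠ x then A x y else 0)
          * (∑ x ∈ range 16, ∑ y ∈ range 16, if x ≠ 0 ∧ y ≠ 0 ∧ y ≠ x then B x y else 0)
        - (∑ s ∈ range 16, if s ≠ 0 then
            (∑ y ∈ range 16, if y ≠ 0 ∧ y ≠ s then A s y + 2 * A y s else 0)
            * (∑ y ∈ range 16, if y ≠ 0 ∧ y ≠ s then B s y + 2 * B y s else 0) else 0)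
        + 4 * ∑ x ∈ range 16, ∑ y ∈ range 16, if x ≠ 0 ∧ y ≠ 0 ∧ y ≠ x then
            A x y * (B x y + B y x + B (x ^^^ y) x) else 0 := by
  -- abbreviations
  set SB : R := ∑ x ∈ range 16, ∑ y ∈ range 16, if x ≠ 0 ∧ y ≠ 0 ∧ y ≠ x then B x y else 0
    with hSB
  set TB : ℕ → R := fun s => ∑ y ∈ range 16, if y ≠ 0 ∧ y ≠ s then B s y + 2 * B y s else 0
    with hTB
  rw [rh_sum]
  -- the sum over `z`, `w` for a fixed independent pair `(x, y)`
  have hin : ∀ x ∈ range 16, ∀ y ∈ range 16, (∑ z ∈ range 16, ∑ w ∈ range 16,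
      if (∀ j ∈ Finset.Icc (1 : ℕ) 15, lin (x, y, z, w) j ≠ 0) then
        A (x, y, z, w).1 (x, y, z, w).2.1 * B (x, y, z, w).2.2.1 (x, y, z, w).2.2.2 else 0)
      = (if x ≠ 0 ∧ y ≠ 0 ∧ y ≠ x then A x y * SB else 0)
        - (if x ≠ 0 ∧ y ≠ 0 ∧ y ≠ x then A x y * (TB x + TB y + TB (x ^^^ y)) else 0)
        + 4 * (if x ≠ 0 ∧ y ≠ 0 ∧ y ≠ x then A x y * (B x y + B y x + B (x ^^^ y) x) else 0) := by
    intro x hx y hy
    have hx := Finset.mem_range.mp hx
    have hy := Finset.mem_range.mp hy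
    by_cases hc : x ≠ 0 ∧ y ≠ 0 ∧ y ≠ x
    · simp only [if_pos hc]
      have hxy0 : x ^^^ y ≠ 0 := fun h => hc.2.2 ((Nat.xor_eq_zero_iff.mp h).symm)
      have hpt : ∀ z ∈ range 16, ∀ w ∈ range 16,
          (if (∀ j ∈ Finset.Icc (1 : ℕ) 15, lin (x, y, z, w) j ≠ 0) then
            A (x, y, z, w).1 (x, y, z, w).2.1 * B (x, y, z, w).2.2.1 (x, y, z, w).2.2.2 else 0)
          = A x y * ((if z ≠ 0 ∧ w ≠ 0 ∧ w ≠ z then B z w else 0)
            - (if (z ≠ 0 ∧ w ≠ 0 ∧ w ≠ z) ∧ inZ z w x then B z w else 0)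
            - (if (z ≠ 0 ∧ w ≠ 0 ∧ w ≠ z) ∧ inZ z w y then B z w else 0)
            - (if (z ≠ 0 ∧ w ≠ 0 ∧ w ≠ z) ∧ inZ z w (x ^^^ y) then B z w else 0)
            + 2 * (if (z ≠ 0 ∧ w ≠ 0 ∧ w ≠ z) ∧ inZ z w x ∧ inZ z w y then B z w else 0)) := by
        intro z _ w _
        by_cases hzw : z ≠ 0 ∧ w ≠ 0 ∧ w ≠ z
        · have := rh_incl hc.1 hc.2.1 hc.2.2 hzw.2.1 hzw.1 hzw.2.2 (B z w)
          simp only [hzw, true_and, if_true, ne_eq, not_false_iff] at this ⊢
          rw [← this]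
          by_cases hd : ¬ inZ z w x ∧ ¬ inZ z w y ∧ ¬ inZ z w (x ^^^ y)
          · rw [if_pos hd, if_pos ((rh_condZ x y z w).mpr ⟨hc, hzw, hd⟩)]
          · rw [if_neg hd, if_neg (fun h => hd ((rh_condZ x y z w).mp h).2.2), mul_zero]
        · rw [if_neg (fun h => hzw ((rh_condZ x y z w).mp h).2.1), if_neg hzw,
            if_neg (fun h => hzw h.1), if_neg (fun h => hzw h.1), if_neg (fun h => hzw h.1),
            if_neg (fun h => hzw h.1)]
          ring
      rw [Finset.sum_congr rfl (fun z hz => Finset.sum_congr rfl (fun w hw => hpt z hz w hw))]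
      simp only [← Finset.mul_sum, Finset.sum_add_distrib, Finset.sum_sub_distrib]
      rw [rh_TB B hB hx hc.1, rh_TB B hB hy hc.2.1, rh_TB B hB (rh_lt hx hy) hxy0,
        rh_PB B hB hx hy hc.1 hc.2.1 hc.2.2]
      simp only [hSB, hTB]
      ring
    · simp only [if_neg hc]
      rw [sub_zero, mul_zero, add_zero]
      refine Finset.sum_eq_zero (fun z _ => Finset.sum_eq_zero (fun w _ => ?_))
      rw [if_neg]
      rw [rh_condZ]
      exact fun h => hc h.1
  rw [Finset.sum_congr rfl (fun x hx => Finset.sum_congr rfl (fun y hy => hin x hx y hy))]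
  simp only [Finset.sum_add_distrib, Finset.sum_sub_distrib, ← Finset.mul_sum]
  -- first term
  have t1 : (∑ x ∈ range 16, ∑ y ∈ range 16, if x ≠ 0 ∧ y ≠ 0 ∧ y ≠ x then A x y * SB else 0)
      = (∑ x ∈ range 16, ∑ y ∈ range 16, if x ≠ 0 ∧ y ≠ 0 ∧ y ≠ x then A x y else 0) * SB := by
    rw [Finset.sum_mul]
    refine Finset.sum_congr rfl (fun x _ => ?_)
    rw [Finset.sum_mul]
    refine Finset.sum_congr rfl (fun y _ => ?_)
    rw [ite_mul, zero_mul]
  -- second term
  have t2 : (∑ s ∈ range 16, if s ≠ 0 then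
            (∑ y ∈ range 16, if y ≠ 0 ∧ y ≠ s then A s y + 2 * A y s else 0) * TB s else 0)
      = ∑ x ∈ range 16, ∑ y ∈ range 16,
        if x ≠ 0 ∧ y ≠ 0 ∧ y ≠ x then A x y * (TB x + TB y + TB (x ^^^ y)) else 0 := by
    have hs : ∀ s ∈ range 16, (if s ≠ 0 then
            (∑ y ∈ range 16, if y ≠ 0 ∧ y ≠ s then A s y + 2 * A y s else 0) * TB s else 0)
        = ∑ x ∈ range 16, ∑ y ∈ range 16,
          if x ≠ 0 ∧ y ≠ 0 ∧ y ≠ x then A x y * (if s ≠ 0 ∧ inZ x y s then TB s else 0)
            else 0 := by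
      intro s hs
      have hs := Finset.mem_range.mp hs
      by_cases hs0 : s = 0
      · subst hs0
        simp
      · rw [if_pos hs0, ← rh_TB A hA hs hs0, Finset.sum_mul]
        refine Finset.sum_congr rfl (fun x _ => ?_)
        rw [Finset.sum_mul]
        refine Finset.sum_congr rfl (fun y _ => ?_)
        by_cases h1 : x ≠ 0 ∧ y ≠ 0 ∧ y ≠ x
        · by_cases h2 : inZ x y s
          · rw [if_pos ⟨h1, h2⟩, if_pos h1, if_pos ⟨hs0, h2⟩]
          · rw [if_neg (fun h => h2 h.2), if_pos h1, if_neg (fun h => h2 h.2)]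
            ring
        · rw [if_neg (fun h => h1 h.1), if_neg h1, zero_mul]
    rw [Finset.sum_congr rfl hs, Finset.sum_comm]
    refine Finset.sum_congr rfl (fun x hx => ?_)
    rw [Finset.sum_comm]
    refine Finset.sum_congr rfl (fun y hy => ?_)
    have hx := Finset.mem_range.mp hx
    have hy := Finset.mem_range.mp hy
    by_cases hc : x ≠ 0 ∧ y ≠ 0 ∧ y ≠ x
    · simp only [if_pos hc]
      rw [← Finset.mul_sum]
      congr 1
      have hxy0 : x ^^^ y ≠ 0 := fun h => hc.2.2 ((Nat.xor_eq_zero_iff.mp h).symm)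
      have hxyx : x ^^^ y ≠ x := by
        intro h
        apply hc.2.1
        have := congrArg (fun t => x ^^^ t) h
        simpa [Nat.xor_xor_cancel_left] using this
      have hxyy : x ^^^ y ≠ y := by
        intro h
        apply hc.1
        have := congrArg (fun t => t ^^^ y) h
        simpa [Nat.xor_xor_cancel_right] using this
      have hpt : ∀ s ∈ range 16, (if s ≠ 0 ∧ inZ x y s then TB s else 0)
          = (if s = x then TB s else 0) + (if s = y then TB s else 0)
            + (if s = x ^^^ y then TB s else 0) := by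
        intro s _
        by_cases h1 : s = x
        · subst h1
          rw [if_pos ⟨hc.1, Or.inl rfl⟩, if_pos rfl, if_neg (Ne.symm hc.2.2), if_neg hxyx.symm]
          ring
        · by_cases h2 : s = y
          · subst h2
            rw [if_pos ⟨hc.2.1, Or.inr (Or.inl rfl)⟩, if_neg h1, if_pos rfl, if_neg hxyy.symm]
            ring
          · by_cases h3 : s = x ^^^ y
            · subst h3
              rw [if_pos ⟨hxy0, Or.inr (Or.inr rfl)⟩, if_neg h1, if_neg h2, if_pos rfl]
              ring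
            · rw [if_neg, if_neg h1, if_neg h2, if_neg h3]
              · ring
              · rintro ⟨_, (h | h | h)⟩
                · exact h1 h
                · exact h2 h
                · exact h3 h
      rw [Finset.sum_congr rfl hpt, Finset.sum_add_distrib, Finset.sum_add_distrib,
        rh_pick hx TB, rh_pick hy TB, rh_pick (rh_lt hx hy) TB]
    · simp only [if_neg hc, Finset.sum_const_zero]
  rw [t1, ← t2]

end Pool.Agent.Lib.MP36
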