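import Pool.Agent.Lib.MP_36bd7d_h28.Defs2
import Pool.Agent.Lib.MP_36bd7d_h28.SumH

/-! The total of the Fourier part over all ordered bases. -/

set_option autoImplicit false

open Finset

namespace Pool.Agent.Lib.MP36

/-- the `X` statistics -/
noncomputable def XX (c : ℕ → ℕ) (a b : Fin 6) : ℝ :=
  8 * ∑ x ∈ range 16, if x ≠ 0 then
    ((∑ y ∈ range 16, if y ≠ 0 ∧ y ≠ x then fc a (c x) (c y) (c (x ^^^ y)) else 0)
      * (∑ y ∈ range 16, if y ≠ 0 ∧ y ≠ x then fc b (c x) (c y) (c (x ^^^ y)) else 0)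
      - 2 * ∑ y ∈ range 16, if y ≠ 0 ∧ y ≠ x then
          fc a (c x) (c y) (c (x ^^^ y)) * fc b (c x) (c y) (c (x ^^^ y)) else 0) else 0

/-- the `N` statistics -/
noncomputable def NN (c : ℕ → ℕ) (a b : Fin 6) : ℝ :=
  ∑ x ∈ range 16, ∑ z ∈ range 16, if x ≠ 0 ∧ z ≠ 0 ∧ x ≠ z then
    (c (x ^^^ z) : ℝ) * ((∑ y ∈ range 16, if out2 x z y then fc a (c x) (c y) (c (x ^^^ y)) else 0)
      * (∑ y ∈ range 16, if out2 x z y then fc b (c z) (c y) (c (z ^^^ y)) else 0)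
      - 2 * ∑ y ∈ range 16, if out2 x z y then fc a (c x) (c y) (c (x ^^^ y))
          * (fc b (c z) (c y) (c (z ^^^ y)) + fc b (c z) (c (y ^^^ x)) (c (z ^^^ (y ^^^ x))))
          else 0)
    else 0

/-- the `Z` statistics -/
noncomputable def ZZ (c : ℕ → ℕ) (a b : Fin 6) : ℝ :=
  let A := fun (a : Fin 6) (x y : ℕ) => fc a (c x) (c y) (c (x ^^^ y))
  (∑ x ∈ range 16, ∑ y ∈ range 16, if x ≠ 0 ∧ y ≠ 0 ∧ y ≠ x then A a x y else 0)
      * (∑ x ∈ range 16, ∑ y ∈ range 16, if x ≠ 0 ∧ y ≠ 0 ∧ y ≠ x then A b x y else 0)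
    - (∑ s ∈ range 16, if s ≠ 0 then
        (∑ y ∈ range 16, if y ≠ 0 ∧ y ≠ s then A a s y + 2 * A a y s else 0)
        * (∑ y ∈ range 16, if y ≠ 0 ∧ y ≠ s then A b s y + 2 * A b y s else 0) else 0)
    + 4 * ∑ x ∈ range 16, ∑ y ∈ range 16, if x ≠ 0 ∧ y ≠ 0 ∧ y ≠ x then
        A a x y * (A b x y + A b y x + A b (x ^^^ y) x) else 0

lemma totH_fc_symm (a : Fin 6) (l1 l2 l3 : ℕ) : fc a l1 l3 l2 = fc a l1 l2 l3 := by
  fin_cases a
  · rfl
  · rfl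
  · exact mul_comm _ _
  · change iP l3 * iQ l2 + iQ l3 * iP l2 = iP l2 * iQ l3 + iQ l2 * iP l3
    ring
  · exact mul_comm _ _
  · change iQ l1 * (iQ l3 * iQ l2) = iQ l1 * (iQ l2 * iQ l3)
    ring

/-- the feature attached to an ordered pair of positions -/
noncomputable def totH_A (c : ℕ → ℕ) (a : Fin 6) (x y : ℕ) : ℝ := fc a (c x) (c y) (c (x ^^^ y))

lemma totH_A_symm (c : ℕ → ℕ) (a : Fin 6) (x y : ℕ) : totH_A c a x (x ^^^ y) = totH_A c a x y := by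
  unfold totH_A
  rw [Nat.xor_xor_cancel_left, totH_fc_symm]

lemma totH_X (c : ℕ → ℕ) (a b : Fin 6) :
    ∑ v ∈ bases, totH_A c a v.1 v.2.1 * totH_A c b v.1 v.2.2.1 = XX c a b :=
  sum_bases_X (totH_A c a) (totH_A c b) (totH_A_symm c a) (totH_A_symm c b)

lemma totH_N (c : ℕ → ℕ) (a b : Fin 6) :
    ∑ v ∈ bases, totH_A c a v.1 v.2.1 * totH_A c b v.2.2.1 v.2.2.2 * (c (v.1 ^^^ v.2.2.1) : ℝ)
      = NN c a b :=
  sum_bases_N (totH_A c a) (totH_A c b) (fun t => (c t : ℝ)) (totH_A_symm c a) (totH_A_symm c b)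

lemma totH_Z (c : ℕ → ℕ) (a b : Fin 6) :
    ∑ v ∈ bases, totH_A c a v.1 v.2.1 * totH_A c b v.2.2.1 v.2.2.2 = ZZ c a b :=
  sum_bases_Z (totH_A c a) (totH_A c b) (totH_A_symm c a) (totH_A_symm c b)

theorem tot_PsiH (YH YD : Fin 6 → Fin 6 → ℝ) (s m : ℝ) (c : ℕ → ℕ) :
    tot (PsiH YH YD s m) c = ∑ a, ∑ b, (YH a b * (s * (XX c a b - ZZ c a b) + NN c a b
        - m * ZZ c a b) + YD a b * (XX c a b - ZZ c a b)) := by
  have key : ∀ v ∈ bases, PsiH YH YD s m (fun j => c (lin v j)) = ∑ a, ∑ b,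
      (YH a b * (s * (totH_A c a v.1 v.2.1 * totH_A c b v.1 v.2.2.1
          - totH_A c a v.1 v.2.1 * totH_A c b v.2.2.1 v.2.2.2)
        + (totH_A c a v.1 v.2.1 * totH_A c b v.2.2.1 v.2.2.2 * (c (v.1 ^^^ v.2.2.1) : ℝ)
          - m * (totH_A c a v.1 v.2.1 * totH_A c b v.2.2.1 v.2.2.2)))
      + YD a b * (totH_A c a v.1 v.2.1 * totH_A c b v.1 v.2.2.1
          - totH_A c a v.1 v.2.1 * totH_A c b v.2.2.1 v.2.2.2)) := by
    intro v _
    obtain ⟨x, y, z, w⟩ := v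
    have e1 : lin (x, y, z, w) 1 = x := by simp [lin, Nat.testBit]
    have e2 : lin (x, y, z, w) 2 = y := by simp [lin, Nat.testBit]
    have e3 : lin (x, y, z, w) 3 = x ^^^ y := by simp [lin, Nat.testBit]
    have e4 : lin (x, y, z, w) 4 = z := by simp [lin, Nat.testBit]
    have e5 : lin (x, y, z, w) 5 = x ^^^ z := by simp [lin, Nat.testBit]
    have e8 : lin (x, y, z, w) 8 = w := by simp [lin, Nat.testBit]
    have e12 : lin (x, y, z, w) 12 = z ^^^ w := by simp [lin, Nat.testBit]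
    unfold PsiH
    refine Finset.sum_congr rfl fun a _ => Finset.sum_congr rfl fun b _ => ?_
    simp only [e1, e2, e3, e4, e5, e8, e12, totH_A]
    ring
  unfold tot
  rw [Finset.sum_congr rfl key, Finset.sum_comm]
  refine Finset.sum_congr rfl fun a _ => ?_
  rw [Finset.sum_comm]
  refine Finset.sum_congr rfl fun b _ => ?_
  rw [Finset.sum_add_distrib, ← Finset.mul_sum, ← Finset.mul_sum, Finset.sum_add_distrib,
    ← Finset.mul_sum, Finset.sum_sub_distrib, Finset.sum_sub_distrib, ← Finset.mul_sum,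
    totH_X, totH_Z, totH_N]
  ring

end Pool.Agent.Lib.MP36
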