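import Pool.Agent.Lib.MP_36bd7d_h28.ChkTable
import Pool.Agent.Lib.MP_36bd7d_h28.TotH
import Pool.Agent.Lib.MP_36bd7d_h28.SumM

/-! The `X` and `Z` statistics of the leaves, by one packed kernel evaluation per leaf. -/

set_option autoImplicit false

open Finset

namespace Pool.Agent.Lib.MP36

/-! ### Natural versions of the features -/

/-- label `2` -/
def fx_P (l : ℕ) : ℕ := if l = 2 then 1 else 0

/-- label at least `1` -/
def fx_Q (l : ℕ) : ℕ := if 1 ≤ l then 1 else 0

/-- the six features, as natural numbers -/
def fx_c (a : Fin 6) (l1 l2 l3 : ℕ) : ℕ :=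
  ![fx_P l1, fx_Q l1, fx_P l2 * fx_P l3, fx_P l2 * fx_Q l3 + fx_Q l2 * fx_P l3,
    fx_Q l2 * fx_Q l3, fx_Q l1 * (fx_Q l2 * fx_Q l3)] a

lemma fx_P_cast (l : ℕ) : (fx_P l : ℝ) = iP l := by
  unfold fx_P iP
  split_ifs <;> simp

lemma fx_Q_cast (l : ℕ) : (fx_Q l : ℝ) = iQ l := by
  unfold fx_Q iQ
  split_ifs <;> simp

lemma fx_P_le (l : ℕ) : fx_P l ≤ 1 := by
  unfold fx_P
  split_ifs <;> simp

lemma fx_Q_le (l : ℕ) : fx_Q l ≤ 1 := by
  unfold fx_Q
  split_ifs <;> simp

lemma fx_c_cast (a : Fin 6) (l1 l2 l3 : ℕ) : (fx_c a l1 l2 l3 : ℝ) = fc a l1 l2 l3 := by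
  fin_cases a <;> simp [fx_c, fc, fx_P_cast, fx_Q_cast]

lemma fx_c_symm (a : Fin 6) (l1 l2 l3 : ℕ) : fx_c a l1 l3 l2 = fx_c a l1 l2 l3 := by
  fin_cases a
  · rfl
  · rfl
  · exact mul_comm _ _
  · change fx_P l3 * fx_Q l2 + fx_Q l3 * fx_P l2 = fx_P l2 * fx_Q l3 + fx_Q l2 * fx_P l3
    ring
  · exact mul_comm _ _
  · change fx_Q l1 * (fx_Q l3 * fx_Q l2) = fx_Q l1 * (fx_Q l2 * fx_Q l3)
    ring

lemma fx_c_le (a : Fin 6) (l1 l2 l3 : ℕ) : fx_c a l1 l2 l3 ≤ 2 := by
  have p1 := fx_P_le l1
  have p2 := fx_P_le l2
  have p3 := fx_P_le l3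
  have q1 := fx_Q_le l1
  have q2 := fx_Q_le l2
  have q3 := fx_Q_le l3
  have m1 : fx_P l2 * fx_P l3 ≤ 1 * 1 := Nat.mul_le_mul p2 p3
  have m2 : fx_P l2 * fx_Q l3 ≤ 1 * 1 := Nat.mul_le_mul p2 q3
  have m3 : fx_Q l2 * fx_P l3 ≤ 1 * 1 := Nat.mul_le_mul q2 p3
  have m4 : fx_Q l2 * fx_Q l3 ≤ 1 * 1 := Nat.mul_le_mul q2 q3
  have m5 : fx_Q l1 * (fx_Q l2 * fx_Q l3) ≤ 1 * (1 * 1) := Nat.mul_le_mul q1 m4
  fin_cases a
  · change fx_P l1 ≤ 2
    omega
  · change fx_Q l1 ≤ 2
    omega
  · change fx_P l2 * fx_P l3 ≤ 2
    omega
  · change fx_P l2 * fx_Q l3 + fx_Q l2 * fx_P l3 ≤ 2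
    omega
  · change fx_Q l2 * fx_Q l3 ≤ 2
    omega
  · change fx_Q l1 * (fx_Q l2 * fx_Q l3) ≤ 2
    omega

/-! ### Packing -/

lemma fx_digits (B : ℕ) (hB : 0 < B) (n : ℕ) : ∀ (v : ℕ → ℕ) (_ : ∀ i < n, v i < B) (j : ℕ)
    (_ : j < n), (∑ i ∈ range n, v i * B ^ i) / B ^ j % B = v j := by
  induction n with
  | zero => intro v _ j hj; omega
  | succ n ih =>
    intro v hv j hj
    have h0 : v 0 < B := hv 0 (by omega)
    have hs : ∑ i ∈ range (n + 1), v i * B ^ i = B * (∑ i ∈ range n, v (i + 1) * B ^ i) + v 0 := by
      rw [Finset.sum_range_succ', pow_zero, mul_one, Finset.mul_sum]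
      congr 1
      refine Finset.sum_congr rfl fun i _ => ?_
      rw [pow_succ]
      ring
    rw [hs]
    cases j with
    | zero => rw [pow_zero, Nat.div_one, Nat.mul_add_mod, Nat.mod_eq_of_lt h0]
    | succ j =>
      rw [pow_succ', ← Nat.div_div_eq_div_mul, Nat.mul_add_div hB, Nat.div_eq_of_lt h0,
        Nat.add_zero]
      exact ih (fun i => v (i + 1)) (fun i hi => hv (i + 1) (by omega)) j (by omega)

lemma fx_sum36 (u : ℕ → ℕ → ℕ) (B : ℕ) : ∑ i ∈ range 36, u (i / 6) (i % 6) * B ^ i =
    ∑ a ∈ range 6, ∑ b ∈ range 6, u a b * (B ^ (6 * a) * B ^ b) := by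
  simp only [Finset.sum_range_succ, Finset.sum_range_zero, zero_add, ← pow_add]
  norm_num
  ring

lemma fx_d18 (u : Fin 6 → Fin 6 → ℕ) (hu : ∀ a b, u a b < 2 ^ 18) (a b : Fin 6) :
    d18 (∑ a : Fin 6, ∑ b : Fin 6, u a b * (2 ^ (108 * (a : ℕ)) * 2 ^ (18 * (b : ℕ))))
      (6 * a + b) = u a b := by
  let u' : ℕ → ℕ → ℕ := fun a b => if h : a < 6 ∧ b < 6 then u ⟨a, h.1⟩ ⟨b, h.2⟩ else 0
  have hu' : ∀ a b : Fin 6, u' a b = u a b := fun a b => by
    simp only [u']
    rw [dif_pos ⟨a.2, b.2⟩]
  have h1 : ∑ a : Fin 6, ∑ b : Fin 6, u a b * (2 ^ (108 * (a : ℕ)) * 2 ^ (18 * (b : ℕ))) =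
      ∑ i ∈ range 36, u' (i / 6) (i % 6) * (2 ^ 18) ^ i := by
    rw [fx_sum36, Finset.sum_range]
    refine Finset.sum_congr rfl fun a _ => ?_
    rw [Finset.sum_range]
    refine Finset.sum_congr rfl fun b _ => ?_
    have e : 18 * (6 * (a : ℕ)) = 108 * (a : ℕ) := by ring
    rw [hu', ← pow_mul, ← pow_mul, e]
  have ha := a.2
  have hb := b.2
  have h2 := fx_digits (2 ^ 18) (by norm_num) 36 (fun i => u' (i / 6) (i % 6)) (fun i hi => by
    simp only [u']
    split_ifs with h
    · exact hu _ _
    · norm_num) (6 * a + b) (by omega)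
  rw [← h1] at h2
  unfold d18
  rw [pow_mul, h2]
  have e1 : (6 * (a : ℕ) + b) / 6 = a := by omega
  have e2 : (6 * (a : ℕ) + b) % 6 = b := by omega
  rw [e1, e2, hu']

/-- packed features, `a` with large steps -/
def fx_PA (l1 l2 l3 : ℕ) : ℕ := ∑ a : Fin 6, fx_c a l1 l2 l3 * 2 ^ (108 * (a : ℕ))

/-- packed features, with small steps -/
def fx_PB (l1 l2 l3 : ℕ) : ℕ := ∑ b : Fin 6, fx_c b l1 l2 l3 * 2 ^ (18 * (b : ℕ))

lemma fx_PA_symm (l1 l2 l3 : ℕ) : fx_PA l1 l3 l2 = fx_PA l1 l2 l3 := by
  unfold fx_PA
  exact Finset.sum_congr rfl fun a _ => by rw [fx_c_symm]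

lemma fx_PB_symm (l1 l2 l3 : ℕ) : fx_PB l1 l3 l2 = fx_PB l1 l2 l3 := by
  unfold fx_PB
  exact Finset.sum_congr rfl fun a _ => by rw [fx_c_symm]

lemma fx_pack (f g : ℕ × ℕ × ℕ × ℕ → Fin 6 → ℕ) (hf : ∀ v a, f v a ≤ 2) (hg : ∀ v a, g v a ≤ 2)
    (a b : Fin 6) : d18 (∑ v ∈ bases, (∑ a : Fin 6, f v a * 2 ^ (108 * (a : ℕ))) *
      (∑ b : Fin 6, g v b * 2 ^ (18 * (b : ℕ)))) (6 * a + b) = ∑ v ∈ bases, f v a * g v b := by
  have h1 : ∑ v ∈ bases, (∑ a : Fin 6, f v a * 2 ^ (108 * (a : ℕ))) *
      (∑ b : Fin 6, g v b * 2 ^ (18 * (b : ℕ))) =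
      ∑ a : Fin 6, ∑ b : Fin 6, (∑ v ∈ bases, f v a * g v b) *
        (2 ^ (108 * (a : ℕ)) * 2 ^ (18 * (b : ℕ))) := by
    simp only [Finset.sum_mul_sum]
    rw [Finset.sum_comm]
    refine Finset.sum_congr rfl fun a _ => ?_
    rw [Finset.sum_comm]
    refine Finset.sum_congr rfl fun b _ => ?_
    rw [Finset.sum_mul]
    refine Finset.sum_congr rfl fun v _ => ?_
    ring
  rw [h1]
  refine fx_d18 (fun a b => ∑ v ∈ bases, f v a * g v b) (fun a b => ?_) a b
  have h2 : ∑ v ∈ bases, f v a * g v b ≤ ∑ _v ∈ bases, 4 :=
    Finset.sum_le_sum fun v _ => Nat.mul_le_mul (hf v a) (hg v b)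
  rw [Finset.sum_const, bases_card] at h2
  refine h2.trans_lt ?_
  norm_num

/-! ### Sums over the nonzero positions -/

lemma fx_sumy {R : Type} [AddCommMonoid R] (x : ℕ) (F : ℕ → R) :
    (∑ y ∈ range 16, if y ≠ 0 ∧ y ≠ x then F y else 0) =
      ∑ m ∈ range 15, if m + 1 = x then 0 else F (m + 1) := by
  rw [Finset.sum_range_succ', if_neg (by simp), add_zero]
  refine Finset.sum_congr rfl fun m _ => ?_
  by_cases h : m + 1 = x
  · rw [if_neg (fun h' => h'.2 h), if_pos h]
  · rw [if_pos ⟨Nat.succ_ne_zero m, h⟩, if_neg h]

lemma fx_sumx {R : Type} [AddCommMonoid R] (F : ℕ → R) :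
    (∑ x ∈ range 16, if x ≠ 0 then F x else 0) = ∑ m ∈ range 15, F (m + 1) := by
  rw [Finset.sum_range_succ', if_neg (by simp), add_zero]
  exact Finset.sum_congr rfl fun m _ => if_pos (Nat.succ_ne_zero m)

lemma fx_sumxy {R : Type} [AddCommMonoid R] (F : ℕ → ℕ → R) :
    (∑ x ∈ range 16, ∑ y ∈ range 16, if x ≠ 0 ∧ y ≠ 0 ∧ y ≠ x then F x y else 0) =
      ∑ m ∈ range 15, ∑ k ∈ range 15, if k + 1 = m + 1 then 0 else F (m + 1) (k + 1) := by
  rw [Finset.sum_range_succ']
  have h0 : (∑ y ∈ range 16, if (0 : ℕ) ≠ 0 ∧ y ≠ 0 ∧ y ≠ 0 then F 0 y else 0) = 0 :=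
    Finset.sum_eq_zero fun y _ => if_neg fun h => h.1 rfl
  rw [h0, add_zero]
  refine Finset.sum_congr rfl fun m _ => ?_
  rw [← fx_sumy]
  refine Finset.sum_congr rfl fun y _ => ?_
  have : (m + 1 ≠ 0 ∧ y ≠ 0 ∧ y ≠ m + 1) ↔ (y ≠ 0 ∧ y ≠ m + 1) :=
    and_iff_right (Nat.succ_ne_zero m)
  simp only [this]

/-! ### Kernel evaluation -/

/-- packed table of `fx_PA` -/
def fx_TA : ℕ := 0x10000000000000000000000000010000000000000000000000000000000000000000000000000000000000000000000000000000000010000000000000000000000000000000000010000000000000000000000000010000000000000000000000000000000000000000000000000000000000000000000000000000000010000000000000000000000000010000000010000000000000000000000000010000000000000000000000000000000000000000000000000000000000000000000000000000000010000000000000000000000000000000000000000000000000000000000000010000000000000000000000000000000000000000000000000000000000000000000000000000000000000000000000000000000000000000000010000000000000000000000000010000000000000000000000000010000000000000000000000000000000000000000000000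0000000100000000000000000000000000000000000100000000000000000000000000100000000000000000000000000100000000000000000000000000000000000000000000000000000100000000000000000000000000100000000100000000000000000000000000100000000000000000000000000100000000000000000000000000000000000000000000000000000100000000000000000000000000000000000000000000000000000000000000100000000000000000000000000100000000000000000000000000000000000000000000000000000000000000000000000000000000000000000100000000000000000000000000100000000000000000000000000000000000000000000000000000000000000000000000000000000100000000000000000000000000000000000100000000000000000000000000100000000000000000000000000000000000000000000000000000000000000000000000000000000100000000000000000000000000100000000100000000000000000000000000100000000000000000000000000000000000000000000000000000000000000000000000000000000100000000000000000000000000000000000000000000000000000000000000100000000000000000000000000000000000000000000000000000000000000000000000000000000000000000000000000000000000000000000000000000000000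0000000000000000000000000000000000000000000000000000000000000000000000000000000000000000000001000000000000000000000000000000000000000000000000000000000000000000000000000000000000000000000000000000000000000000000000000000000000000000000001000000000000000000000000001000000000000000000000000000000000000000000000000000000000000000000000000000000000000000000000000000000000000000000001000000000000000000000000000000000000000000000000000000000000000000000000000000000000000000000000000000000000000000000000000000000000000000000000000000000000000000000000000000000001000000000000000000000000001000000000000000000000000001000000000000000000000000000000000000000000000000000001000000000000000000000000000000000001000000000000000000000000001000000000000000000000000001000000000000000000000000000000000000000000000000000001000000000000000000000000001000000001000000000000000000000000001000000000000000000000000001000000000000000000000000000000000000000000000000000001000000000000000000000000000000000000000000000000000000000000001000000000000000000000000001000000000000000000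0000000000000000000000000000000000000000000000000000000000000000000000010000000000000000000000000010000000000000000000000000020000000000000000000000000010000000000000000000000000010000000000000000000000000000000000010000000000000000000000000010000000000000000000000000020000000000000000000000000010000000000000000000000000010000000000000000000000000010000000010000000000000000000000000010000000000000000000000000020000000000000000000000000010000000000000000000000000010000000000000000000000000000000000000000000000000000000000000010000000000000000000000000020000000000000000000000000010000000000000000000000000000000000000000000000000000000000000010000000000000000000000000010000000000000000000000000010000000000000000000000000000000000000000000000000000010000000000000000000000000000000000010000000000000000000000000010000000000000000000000000010000000000000000000000000000000000000000000000000000010000000000000000000000000010000000010000000000000000000000000010000000000000000000000000010000000000000000000000000000000000000000000000000000010000000000000000000000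0000000000000000000000000000000000000000100000000000000000000000000100000000000000000000000000000000000000000000000000000000000000000000000000000000000000000000000000000000000000000000000000000000000000000000000000000000000000000000000000000000000000000000000000000100000000000000000000000000000000000000000000000000000000000000000000000000000000000000000000000000000000000000000000000000000000000000000000000100000000000000000000000000100000000000000000000000000000000000000000000000000000000000000000000000000000000000000000000000000000000000000000000100000000000000000000000000000000000000000000000000000000000000000000000000000000000000000000000000000000000000000000000000000000000000000000000000000000000000000000000000000000000100000000000000000000000000100000000000000000000000000000000000000000000000000000000000000000000000000000000100000000000000000000000000000000000100000000000000000000000000100000000000000000000000000000000000000000000000000000000000000000000000000000000100000000000000000000000000100000000100000000000000000000000000100000000000000000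0000000000000000000000000000000000000000000000000000000000000001000000000000000000000000000000000000000000000000000000000000001000000000000000000000000000000000000000000000000000000000000000000000000000000000000000000000000000000000000000000001000000000000000000000000001000000000000000000000000001000000000000000000000000000000000000000000000000000001000000000000000000000000000000000001000000000000000000000000001000000000000000000000000001000000000000000000000000000000000000000000000000000001000000000000000000000000001000000001000000000000000000000000001000000000000000000000000001000000000000000000000000000000000000000000000000000001000000000000000000000000000000000000000000000000000000000000001000000000000000000000000001000000000000000000000000000000000000000000000000000000000000000000000000000000000000000001000000000000000000000000001000000000000000000000000000000000000000000000000000000000000000000000000000000001000000000000000000000000000000000001000000000000000000000000001000000000000000000000000000000000000000000000000000000000000000000000000000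0000010000000000000000000000000010000000010000000000000000000000000010000000000000000000000000000000000000000000000000000000000000000000000000000000010000000000000000000000000000000000000000000000000000000000000010000000000000000000000000000000000000000000000000000000000000000000000000000000000000000000000000000000000000000000000000000000000000000000000000000000000000000000000000000000000000000000000000000000000000000000000000000000010000000000000000000000000000000000000000000000000000000000000000000000000000000000000000000000000000000000000000000000000000000000000000000000010000000000000000000000000010000000000000000000000000000000000000000000000000000000000000000000000000000000000000000000000000000000000000000000010000000000000000000000000000000000000000000000000000000000000000000000000000000000000000000000000000000000000000000000000000000000000000000000000000000000000000000000000000000000000000000000000000000000000000000000000000000000000000000000000000000000000000000000000000000000000000000000010000000000000000000000000000000000000000000000000000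0000000000000000000000000000000000000000000000000000000000000000000000000000000000000000000100000000000000000000000000100000000000000000000000000000000000000000000000000000000000000000000000000000000000000000000000000000000000000000000100000000000000000000000000000000000000000000000000000000000000000000000000000000000000000000000000000000000000000000000000000000000000000000000000000000000000000000000000000000000000000000000000000000000000000000000000000000000000000000000000000000000000000000000000000000000000000000000100000000000000000000000000000000000000000000000000000000000000000000000000000000000000000000000000000000000000000000000000000000000000000000000100000000000000000000000000100000000000000000000000000000000000000000000000000000000000000000000000000000000000000000000000000000000000000000000100000000000000000000000000000000000000000000000000000000000000000000000000000000000000000000000000000000000000000000000000000000000000000000000000000000000000000000000000000000000000000000000000000000000000000000000000000000000000000000000000000000000000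0000000000000000000000000000000001000000000000000000000000000000000000000000000000000000000000000000000000000000000000000000000000000000000000000000000000000000000000000000000001000000000000000000000000001000000000000000000000000000000000000000000000000000000000000000000000000000000000000000000000000000000000000000000001000000000000000000000000000000000000000000000000000000000000000000000000000000000000000000000000000000000000000000000000000000000000000000000000000000000000000000000000000000000000000000000000000000000000000000000000000000000000000000000000000000000000000000000000000000000000000000000001000000000000000000000000000000000000000000000000000000000000000000000000000000000000000000000000000000000000000000000000000000000000000000000001000000000000000000000000001000000000000000000000000000000000000000000000000000000000000000000000000000000000000000000000000000000000000000000001000000000000000000000000000000000000000000000000000000000000000000000000000000000000000000000000000000000000000000000000000000000000000000000000000000000000000000000000000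

/-- packed table of `fx_PB` -/
def fx_TB : ℕ := 0x400010000000000000400000000040001000000000000040001000004000100000000000004000000000000010000000000000000000000040001000040000000040000000004000100004000000004000100000400010000400000000400000000000001000040000000000000000004000100000000000004000000000400010000000000000400010000040001000000000000040000000000000100000000000000000000000000000000000000000400000000000000000000000000040001000000000000000000000004000000000000000000000000000000000000040001000040000000040000000004000100004000000004000100000400010000400000000400000000000001000040000000000000000004000100008000100004000000000400010000800010000400010000040001000080001000040000000000000100008000100000000000000400010000400000000400000000040001000040000000040001000004000100004000000004000000000000010000400000000000000000000000000000000000040000000000000000000000000004000100000000000000000000000400000000000000000000000000000000000004000100000000000004000000000400010000000000000400010000040001000000000000040000000000000100000000000000000000000400010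00040000000040000000004000100004000000004000100000400010000400000000400000000000001000040000000000000000004000100000000000004000000000400010000000000000400010000040001000000000000040000000000000100000000000000000000000000000000000000000400000000000000000000000000040001000000000000000000000004000000000000000000000000000000000000000000000000000000040000000000000000000000000004000100000000000000000000000400000000000000000000000000000000000000000000000000000004000000000000000000000000000400010000000000000000000000040000000000000000000000000000000000000000000000000000000400000000000000000000000000040001000000000000000000000004000000000000000000000000000000000000000000000000000000040000000000000000000000000004000100000000000000000000000400000000000000000000000000000000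

/-- a label -/
def fx_lb (N j : ℕ) : ℕ := Nat.land (Nat.shiftRight N (Nat.mul 2 j)) 3

/-- index in the tables -/
def fx_ix (a b c : ℕ) : ℕ := Nat.add a (Nat.mul 4 (Nat.add b (Nat.mul 4 c)))

/-- look up `fx_PA` -/
def fx_tA (i : ℕ) : ℕ := Nat.land (Nat.shiftRight fx_TA (Nat.mul 576 i))
  0xffffffffffffffffffffffffffffffffffffffffffffffffffffffffffffffffffffffffffffffffffffffffffffffffffffffffffffffffffffffffffffffffffffffffffffffff

/-- look up `fx_PB` -/
def fx_tB (i : ℕ) : ℕ := Nat.land (Nat.shiftRight fx_TB (Nat.mul 112 i))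
  0xffffffffffffffffffffffffffff

lemma fx_table : ∀ a < 4, ∀ b < 4, ∀ c < 4, fx_tA (fx_ix a b c) = fx_PA a b c ∧
    fx_tB (fx_ix a b c) = fx_PB a b c := by
  decide +kernel

/-- a row of the sums -/
def fx_row (N x lx : ℕ) (K : ℕ → ℕ → ℕ → ℕ → ℕ → ℕ → Bool) (n : ℕ) :
    ℕ → ℕ → ℕ → ℕ → ℕ → ℕ → Bool :=
  Nat.rec (motive := fun _ => ℕ → ℕ → ℕ → ℕ → ℕ → ℕ → Bool) K
    (fun m ih a1 b1 a2 b2 q s => force (Nat.succ m) fun y =>
      cnd (Nat.beq y x) (ih a1 b1 a2 b2 q s)
        (force (fx_lb N y) fun ly => force (fx_lb N (Nat.xor x y)) fun lz =>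
          force (fx_tA (fx_ix lx ly lz)) fun pa =>
          force (fx_tB (fx_ix lx ly lz)) fun pb =>
          force (fx_tB (fx_ix ly lx lz)) fun pc =>
          force (Nat.add a1 pa) fun a1 => force (Nat.add b1 pb) fun b1 =>
          force (Nat.add a2 (fx_tA (fx_ix ly lx lz))) fun a2 => force (Nat.add b2 pc) fun b2 =>
          force (Nat.add q (Nat.mul pa (Nat.add pb (Nat.add pc (fx_tB (fx_ix lz lx ly)))))) fun q =>
          force (Nat.add s (Nat.mul pa pb)) fun s => ih a1 b1 a2 b2 q s)) n

/-- all rows -/
def fx_all (N : ℕ) (K : ℕ → ℕ → ℕ → ℕ → ℕ → ℕ → Bool) (n : ℕ) :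
    ℕ → ℕ → ℕ → ℕ → ℕ → ℕ → Bool :=
  Nat.rec (motive := fun _ => ℕ → ℕ → ℕ → ℕ → ℕ → ℕ → Bool) K
    (fun m ih ta tb g q s1 s2 => force (Nat.succ m) fun x => force (fx_lb N x) fun lx =>
      fx_row N x lx (fun a1 b1 a2 b2 q' s =>
        force (Nat.add ta a1) fun ta => force (Nat.add tb b1) fun tb =>
        force (Nat.add g (Nat.mul (Nat.add a1 (Nat.mul 2 a2)) (Nat.add b1 (Nat.mul 2 b2)))) fun g =>
        force (Nat.add q q') fun q => force (Nat.add s1 (Nat.mul a1 b1)) fun s1 =>
        force (Nat.add s2 s) fun s2 => ih ta tb g q s1 s2) 15 0 0 0 0 0 0) n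

/-- the test for one leaf -/
def fx_chk (N X Z : ℕ) : Bool :=
  fx_all N (fun ta tb g q s1 s2 =>
    cnd (Nat.beq (Nat.add X (Nat.mul 16 s2)) (Nat.mul 8 s1))
      (Nat.beq (Nat.add Z g) (Nat.add (Nat.mul ta tb) (Nat.mul 4 q))) false) 15 0 0 0 0 0 0

lemma fx_lb_eq (N j : ℕ) : fx_lb N j = dig N j := by
  unfold fx_lb dig
  exact Nat.and_two_pow_sub_one_eq_mod (N >>> (2 * j)) 2

lemma fx_lb_lt (N j : ℕ) : fx_lb N j < 4 := by
  rw [fx_lb_eq]
  exact Nat.mod_lt _ (by norm_num)

/-- `fx_PA` at two positions -/
def fx_a (N x y : ℕ) : ℕ := fx_PA (fx_lb N x) (fx_lb N y) (fx_lb N (x ^^^ y))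

/-- `fx_PB` at two positions -/
def fx_b (N x y : ℕ) : ℕ := fx_PB (fx_lb N x) (fx_lb N y) (fx_lb N (x ^^^ y))

lemma fx_a_def (N x y : ℕ) :
    fx_a N x y = fx_PA (fx_lb N x) (fx_lb N y) (fx_lb N (x ^^^ y)) := rfl

lemma fx_b_def (N x y : ℕ) :
    fx_b N x y = fx_PB (fx_lb N x) (fx_lb N y) (fx_lb N (x ^^^ y)) := rfl

lemma fx_a_symm (N x y : ℕ) : fx_a N x (x ^^^ y) = fx_a N x y := by
  unfold fx_a
  rw [Nat.xor_xor_cancel_left, fx_PA_symm]

lemma fx_b_symm (N x y : ℕ) : fx_b N x (x ^^^ y) = fx_b N x y := by
  unfold fx_b
  rw [Nat.xor_xor_cancel_left, fx_PB_symm]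

lemma fx_a_eq (N x y : ℕ) : fx_a N x y =
    ∑ a : Fin 6, fx_c a (fx_lb N x) (fx_lb N y) (fx_lb N (x ^^^ y)) * 2 ^ (108 * (a : ℕ)) := rfl

lemma fx_b_eq (N x y : ℕ) : fx_b N x y =
    ∑ b : Fin 6, fx_c b (fx_lb N x) (fx_lb N y) (fx_lb N (x ^^^ y)) * 2 ^ (18 * (b : ℕ)) := rfl

lemma fx_tA_eq (N x y z : ℕ) : fx_tA (fx_ix (fx_lb N x) (fx_lb N y) (fx_lb N z)) =
    fx_PA (fx_lb N x) (fx_lb N y) (fx_lb N z) :=
  (fx_table _ (fx_lb_lt N x) _ (fx_lb_lt N y) _ (fx_lb_lt N z)).1

lemma fx_tB_eq (N x y z : ℕ) : fx_tB (fx_ix (fx_lb N x) (fx_lb N y) (fx_lb N z)) =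
    fx_PB (fx_lb N x) (fx_lb N y) (fx_lb N z) :=
  (fx_table _ (fx_lb_lt N x) _ (fx_lb_lt N y) _ (fx_lb_lt N z)).2

attribute [local irreducible] fx_a fx_b fx_lb fx_PA fx_PB fx_tA fx_tB fx_ix

lemma fx_row_succ (N x : ℕ) (K : ℕ → ℕ → ℕ → ℕ → ℕ → ℕ → Bool) (n a1 b1 a2 b2 q s : ℕ) :
    fx_row N x (fx_lb N x) K (n + 1) a1 b1 a2 b2 q s =
      if n + 1 = x then fx_row N x (fx_lb N x) K n a1 b1 a2 b2 q s
      else fx_row N x (fx_lb N x) K n (a1 + fx_a N x (n + 1)) (b1 + fx_b N x (n + 1))
        (a2 + fx_a N (n + 1) x) (b2 + fx_b N (n + 1) x)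
        (q + fx_a N x (n + 1) * (fx_b N x (n + 1) + (fx_b N (n + 1) x +
          fx_b N (x ^^^ (n + 1)) x))) (s + fx_a N x (n + 1) * fx_b N x (n + 1)) := by
  have e1 : (n + 1) ^^^ x = x ^^^ (n + 1) := Nat.xor_comm _ _
  have e2 : (x ^^^ (n + 1)) ^^^ x = n + 1 := by
    rw [Nat.xor_comm, ← Nat.xor_assoc, Nat.xor_self, Nat.zero_xor]
  have e3 : Nat.xor x (n + 1) = x ^^^ (n + 1) := rfl
  have h : fx_row N x (fx_lb N x) K (n + 1) a1 b1 a2 b2 q s =
      (force (Nat.succ n) fun y =>
      cnd (Nat.beq y x) (fx_row N x (fx_lb N x) K n a1 b1 a2 b2 q s)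
        (force (fx_lb N y) fun ly => force (fx_lb N (Nat.xor x y)) fun lz =>
          force (fx_tA (fx_ix (fx_lb N x) ly lz)) fun pa =>
          force (fx_tB (fx_ix (fx_lb N x) ly lz)) fun pb =>
          force (fx_tB (fx_ix ly (fx_lb N x) lz)) fun pc =>
          force (Nat.add a1 pa) fun a1 => force (Nat.add b1 pb) fun b1 =>
          force (Nat.add a2 (fx_tA (fx_ix ly (fx_lb N x) lz))) fun a2 =>
          force (Nat.add b2 pc) fun b2 =>
          force (Nat.add q (Nat.mul pa (Nat.add pb (Nat.add pc
            (fx_tB (fx_ix lz (fx_lb N x) ly)))))) fun q =>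
          force (Nat.add s (Nat.mul pa pb)) fun s =>
            fx_row N x (fx_lb N x) K n a1 b1 a2 b2 q s)) := rfl
  rw [h, force_eq]
  simp only [force_eq, cnd_eq, Nat.succ_eq_add_one, Nat.add_eq, Nat.mul_eq, e3, fx_tA_eq,
    fx_tB_eq, Nat.beq_eq]
  rw [fx_a_def, fx_a_def, fx_b_def, fx_b_def, fx_b_def, e1, e2]

lemma fx_row_eq (N x : ℕ) (K : ℕ → ℕ → ℕ → ℕ → ℕ → ℕ → Bool) (n : ℕ) :
    ∀ a1 b1 a2 b2 q s : ℕ, fx_row N x (fx_lb N x) K n a1 b1 a2 b2 q s =
      K (a1 + ∑ m ∈ range n, if m + 1 = x then 0 else fx_a N x (m + 1))
        (b1 + ∑ m ∈ range n, if m + 1 = x then 0 else fx_b N x (m + 1))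
        (a2 + ∑ m ∈ range n, if m + 1 = x then 0 else fx_a N (m + 1) x)
        (b2 + ∑ m ∈ range n, if m + 1 = x then 0 else fx_b N (m + 1) x)
        (q + ∑ m ∈ range n, if m + 1 = x then 0 else fx_a N x (m + 1) * (fx_b N x (m + 1) +
          (fx_b N (m + 1) x + fx_b N (x ^^^ (m + 1)) x)))
        (s + ∑ m ∈ range n, if m + 1 = x then 0 else fx_a N x (m + 1) * fx_b N x (m + 1)) := by
  induction n with
  | zero =>
    intro a1 b1 a2 b2 q s
    simp only [Finset.range_zero, Finset.sum_empty, add_zero]
    rfl
  | succ n ih =>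
    intro a1 b1 a2 b2 q s
    rw [fx_row_succ]
    simp only [Finset.sum_range_succ]
    by_cases hx : n + 1 = x
    · rw [if_pos hx, ih]
      simp only [if_pos hx, add_zero]
    · rw [if_neg hx, ih]
      simp only [if_neg hx]
      congr 1 <;> ring

/-- row sums -/
def fx_S (F : ℕ → ℕ → ℕ) (x : ℕ) : ℕ := ∑ m ∈ range 15, if m + 1 = x then 0 else F x (m + 1)

lemma fx_all_succ (N : ℕ) (K : ℕ → ℕ → ℕ → ℕ → ℕ → ℕ → Bool) (n ta tb g q s1 s2 : ℕ) :
    fx_all N K (n + 1) ta tb g q s1 s2 = fx_all N K n (ta + fx_S (fx_a N) (n + 1))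
      (tb + fx_S (fx_b N) (n + 1))
      (g + (fx_S (fx_a N) (n + 1) + 2 * fx_S (fun x y => fx_a N y x) (n + 1)) *
        (fx_S (fx_b N) (n + 1) + 2 * fx_S (fun x y => fx_b N y x) (n + 1)))
      (q + fx_S (fun x y => fx_a N x y * (fx_b N x y + (fx_b N y x + fx_b N (x ^^^ y) x)))
        (n + 1))
      (s1 + fx_S (fx_a N) (n + 1) * fx_S (fx_b N) (n + 1))
      (s2 + fx_S (fun x y => fx_a N x y * fx_b N x y) (n + 1)) := by
  have h : fx_all N K (n + 1) ta tb g q s1 s2 =
      (force (Nat.succ n) fun x => force (fx_lb N x) fun lx =>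
      fx_row N x lx (fun a1 b1 a2 b2 q' s =>
        force (Nat.add ta a1) fun ta => force (Nat.add tb b1) fun tb =>
        force (Nat.add g (Nat.mul (Nat.add a1 (Nat.mul 2 a2)) (Nat.add b1 (Nat.mul 2 b2)))) fun g =>
        force (Nat.add q q') fun q => force (Nat.add s1 (Nat.mul a1 b1)) fun s1 =>
        force (Nat.add s2 s) fun s2 => fx_all N K n ta tb g q s1 s2) 15 0 0 0 0 0 0) := rfl
  rw [h]
  simp only [force_eq, Nat.succ_eq_add_one, Nat.add_eq, Nat.mul_eq, fx_row_eq, Nat.zero_add]
  rfl

attribute [local irreducible] fx_S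

lemma fx_all_eq (N : ℕ) (K : ℕ → ℕ → ℕ → ℕ → ℕ → ℕ → Bool) (n : ℕ) :
    ∀ ta tb g q s1 s2 : ℕ, fx_all N K n ta tb g q s1 s2 =
      K (ta + ∑ m ∈ range n, fx_S (fx_a N) (m + 1))
        (tb + ∑ m ∈ range n, fx_S (fx_b N) (m + 1))
        (g + ∑ m ∈ range n, (fx_S (fx_a N) (m + 1) + 2 * fx_S (fun x y => fx_a N y x) (m + 1)) *
          (fx_S (fx_b N) (m + 1) + 2 * fx_S (fun x y => fx_b N y x) (m + 1)))
        (q + ∑ m ∈ range n, fx_S (fun x y => fx_a N x y * (fx_b N x y + (fx_b N y x +
          fx_b N (x ^^^ y) x))) (m + 1))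
        (s1 + ∑ m ∈ range n, fx_S (fx_a N) (m + 1) * fx_S (fx_b N) (m + 1))
        (s2 + ∑ m ∈ range n, fx_S (fun x y => fx_a N x y * fx_b N x y) (m + 1)) := by
  induction n with
  | zero =>
    intro ta tb g q s1 s2
    simp only [Finset.range_zero, Finset.sum_empty, add_zero]
    rfl
  | succ n ih =>
    intro ta tb g q s1 s2
    rw [fx_all_succ, ih]
    simp only [Finset.sum_range_succ]
    congr 1 <;> ring

/-- what the test means -/
lemma fx_chk_spec {N X Z : ℕ} (h : fx_chk N X Z = true) :
    (X + 16 * ∑ m ∈ range 15, fx_S (fun x y => fx_a N x y * fx_b N x y) (m + 1) =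
      8 * ∑ m ∈ range 15, fx_S (fx_a N) (m + 1) * fx_S (fx_b N) (m + 1)) ∧
    (Z + ∑ m ∈ range 15, (fx_S (fx_a N) (m + 1) + 2 * fx_S (fun x y => fx_a N y x) (m + 1)) *
          (fx_S (fx_b N) (m + 1) + 2 * fx_S (fun x y => fx_b N y x) (m + 1)) =
      (∑ m ∈ range 15, fx_S (fx_a N) (m + 1)) * (∑ m ∈ range 15, fx_S (fx_b N) (m + 1)) +
      4 * ∑ m ∈ range 15, fx_S (fun x y => fx_a N x y * (fx_b N x y + (fx_b N y x +
          fx_b N (x ^^^ y) x))) (m + 1)) := by
  unfold fx_chk at h
  rw [fx_all_eq] at h
  simp only [cnd_eq, Nat.zero_add, Nat.add_eq, Nat.mul_eq, Bool.if_false_right,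
    Bool.and_eq_true, Nat.beq_eq, decide_eq_true_eq] at h
  exact h

/-- the packed total for `X` -/
lemma fx_totX {N X Z : ℕ} (h : fx_chk N X Z = true) :
    ∑ v ∈ bases, fx_a N v.1 v.2.1 * fx_b N v.1 v.2.2.1 = X := by
  have h1 := (fx_chk_spec h).1
  have h2 := sum_bases_X (R := ℤ) (fun x y => (fx_a N x y : ℤ)) (fun x y => (fx_b N x y : ℤ))
    (fun x y => by rw [fx_a_symm]) (fun x y => by rw [fx_b_symm])
  rw [fx_sumx] at h2
  simp only [fx_sumy, add_left_inj] at h2
  have h3 : (∑ v ∈ bases, (fx_a N v.1 v.2.1 : ℤ) * (fx_b N v.1 v.2.2.1 : ℤ)) = (X : ℤ) := by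
    rw [h2]
    have h4 := congrArg (Nat.cast : ℕ → ℤ) h1
    unfold fx_S at h4
    push_cast at h4
    rw [Finset.sum_sub_distrib, ← Finset.mul_sum]
    linarith
  exact_mod_cast h3

/-- the packed total for `Z` -/
lemma fx_totZ {N X Z : ℕ} (h : fx_chk N X Z = true) :
    ∑ v ∈ bases, fx_a N v.1 v.2.1 * fx_b N v.2.2.1 v.2.2.2 = Z := by
  have h1 := (fx_chk_spec h).2
  have h2 := sum_bases_Z (R := ℤ) (fun x y => (fx_a N x y : ℤ)) (fun x y => (fx_b N x y : ℤ))
    (fun x y => by rw [fx_a_symm]) (fun x y => by rw [fx_b_symm])
  rw [fx_sumxy, fx_sumxy, fx_sumxy, fx_sumx] at h2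
  simp only [fx_sumy, add_left_inj] at h2
  have h3 : (∑ v ∈ bases, (fx_a N v.1 v.2.1 : ℤ) * (fx_b N v.2.2.1 v.2.2.2 : ℤ)) = (Z : ℤ) := by
    rw [h2]
    have h4 := congrArg (Nat.cast : ℕ → ℤ) h1
    unfold fx_S at h4
    push_cast at h4
    have h5 : ∀ m, (∑ k ∈ range 15, if k = m then (0 : ℤ) else
        (fx_a N (m + 1) (k + 1) : ℤ) + 2 * (fx_a N (k + 1) (m + 1) : ℤ)) =
        (∑ k ∈ range 15, if k = m then (0 : ℤ) else (fx_a N (m + 1) (k + 1) : ℤ)) +
        2 * ∑ k ∈ range 15, if k = m then (0 : ℤ) else
          (fx_a N (k + 1) (m + 1) : ℤ) := by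
      intro m
      rw [Finset.mul_sum, ← Finset.sum_add_distrib]
      refine Finset.sum_congr rfl fun k _ => ?_
      split_ifs <;> ring
    have h6 : ∀ m, (∑ k ∈ range 15, if k = m then (0 : ℤ) else
        (fx_b N (m + 1) (k + 1) : ℤ) + 2 * (fx_b N (k + 1) (m + 1) : ℤ)) =
        (∑ k ∈ range 15, if k = m then (0 : ℤ) else (fx_b N (m + 1) (k + 1) : ℤ)) +
        2 * ∑ k ∈ range 15, if k = m then (0 : ℤ) else
          (fx_b N (k + 1) (m + 1) : ℤ) := by
      intro m
      rw [Finset.mul_sum, ← Finset.sum_add_distrib]
      refine Finset.sum_congr rfl fun k _ => ?_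
      split_ifs <;> ring
    simp only [h5, h6]
    simp only [add_assoc] at h4 ⊢
    linarith
  exact_mod_cast h3

lemma fx_pack2 (f g : ℕ × ℕ × ℕ × ℕ → Fin 6 → ℕ) (hf : ∀ v a, f v a ≤ 2)
    (hg : ∀ v a, g v a ≤ 2) (P Q : ℕ × ℕ × ℕ × ℕ → ℕ)
    (hP : ∀ v, P v = ∑ a : Fin 6, f v a * 2 ^ (108 * (a : ℕ)))
    (hQ : ∀ v, Q v = ∑ b : Fin 6, g v b * 2 ^ (18 * (b : ℕ))) (S : ℕ)
    (hS : ∑ v ∈ bases, P v * Q v = S) (a b : Fin 6) :
    (d18 S (6 * a + b) : ℝ) = ∑ v ∈ bases, (f v a : ℝ) * (g v b : ℝ) := by
  have h : d18 S (6 * a + b) = ∑ v ∈ bases, f v a * g v b := by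
    have e : ∑ v ∈ bases, P v * Q v = ∑ v ∈ bases, (∑ a : Fin 6, f v a * 2 ^ (108 * (a : ℕ))) *
        (∑ b : Fin 6, g v b * 2 ^ (18 * (b : ℕ))) :=
      Finset.sum_congr rfl fun v _ => by rw [hP, hQ]
    rw [← hS, e]
    exact fx_pack f g hf hg a b
  rw [h, Nat.cast_sum]
  exact Finset.sum_congr rfl fun v _ => Nat.cast_mul _ _

lemma fx_A_cast (N : ℕ) (a : Fin 6) (x y : ℕ) :
    (fx_c a (fx_lb N x) (fx_lb N y) (fx_lb N (x ^^^ y)) : ℝ) = totH_A (dig N) a x y := by
  rw [fx_c_cast, fx_lb_eq, fx_lb_eq, fx_lb_eq]
  rfl

theorem fx_X {N X Z : ℕ} (h : fx_chk N X Z = true) (a b : Fin 6) :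
    XX (dig N) a b = (d18 X (6 * a + b) : ℝ) := by
  rw [fx_pack2
    (fun v a => fx_c a (fx_lb N v.1) (fx_lb N v.2.1) (fx_lb N (v.1 ^^^ v.2.1)))
    (fun v b => fx_c b (fx_lb N v.1) (fx_lb N v.2.2.1) (fx_lb N (v.1 ^^^ v.2.2.1)))
    (fun v a => fx_c_le _ _ _ _) (fun v a => fx_c_le _ _ _ _)
    (fun v => fx_a N v.1 v.2.1) (fun v => fx_b N v.1 v.2.2.1)
    (fun v => fx_a_eq N v.1 v.2.1) (fun v => fx_b_eq N v.1 v.2.2.1) X (fx_totX h) a b, ← totH_X]
  exact Finset.sum_congr rfl fun v _ => by rw [fx_A_cast, fx_A_cast]

theorem fx_Z {N X Z : ℕ} (h : fx_chk N X Z = true) (a b : Fin 6) :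
    ZZ (dig N) a b = (d18 Z (6 * a + b) : ℝ) := by
  rw [fx_pack2
    (fun v a => fx_c a (fx_lb N v.1) (fx_lb N v.2.1) (fx_lb N (v.1 ^^^ v.2.1)))
    (fun v b => fx_c b (fx_lb N v.2.2.1) (fx_lb N v.2.2.2) (fx_lb N (v.2.2.1 ^^^ v.2.2.2)))
    (fun v a => fx_c_le _ _ _ _) (fun v a => fx_c_le _ _ _ _)
    (fun v => fx_a N v.1 v.2.1) (fun v => fx_b N v.2.2.1 v.2.2.2)
    (fun v => fx_a_eq N v.1 v.2.1) (fun v => fx_b_eq N v.2.2.1 v.2.2.2) Z (fx_totZ h) a b,
    ← totH_Z]
  exact Finset.sum_congr rfl fun v _ => by rw [fx_A_cast, fx_A_cast]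

lemma fx_chk_ltab : (ltab.all fun t => fx_chk t.N t.X t.Z) = true := by
  decide +kernel

theorem featX : ∀ t ∈ ltab, ∀ a b : Fin 6, XX (dig t.N) a b = (d18 t.X (6 * a + b) : ℝ) :=
  fun t ht a b => fx_X (List.all_eq_true.1 fx_chk_ltab t ht) a b

theorem featZ : ∀ t ∈ ltab, ∀ a b : Fin 6, ZZ (dig t.N) a b = (d18 t.Z (6 * a + b) : ℝ) :=
  fun t ht a b => fx_Z (List.all_eq_true.1 fx_chk_ltab t ht) a b

end Pool.Agent.Lib.MP36
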