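import Pool.Agent.Lib.MP_36bd7d_h28.Defs

set_option autoImplicit false

open Finset

namespace Pool.Agent.Lib.MP36

/-! ## Module RE: sums over bases, hyperplane part -/

theorem re_and_xor (f x y i : ℕ) :
    (f &&& (x ^^^ y)).testBit i = Bool.xor ((f &&& x).testBit i) ((f &&& y).testBit i) := by
  simp only [Nat.testBit_and, Nat.testBit_xor]
  cases f.testBit i <;> simp

theorem re_pr_xor (f x y : ℕ) : pr f (x ^^^ y) = Bool.xor (pr f x) (pr f y) := by
  unfold pr
  rw [re_and_xor, re_and_xor, re_and_xor, re_and_xor]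
  cases (f &&& x).testBit 0 <;> cases (f &&& x).testBit 1 <;> cases (f &&& x).testBit 2 <;>
    cases (f &&& x).testBit 3 <;> cases (f &&& y).testBit 0 <;> cases (f &&& y).testBit 1 <;>
    cases (f &&& y).testBit 2 <;> cases (f &&& y).testBit 3 <;> rfl

theorem re_pr_zero (f : ℕ) : pr f 0 = false := by
  unfold pr; simp

theorem re_ite_xor (p q : Bool) (v : ℕ) :
    (if Bool.xor p q = true then v else 0) = (if p = true then v else 0) ^^^ (if q = true then v else 0) := by
  cases p <;> cases q <;> simp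

theorem re_xor4 (a b c d a' b' c' d' : ℕ) :
    ((a ^^^ a') ^^^ (b ^^^ b')) ^^^ ((c ^^^ c') ^^^ (d ^^^ d'))
      = ((a ^^^ b) ^^^ (c ^^^ d)) ^^^ ((a' ^^^ b') ^^^ (c' ^^^ d')) := by
  ac_rfl

theorem re_lin_xor (b : ℕ × ℕ × ℕ × ℕ) (x y : ℕ) : lin b (x ^^^ y) = lin b x ^^^ lin b y := by
  unfold lin
  simp only [Nat.testBit_xor, re_ite_xor]
  exact re_xor4 _ _ _ _ _ _ _ _

theorem re_mem_bases {b : ℕ × ℕ × ℕ × ℕ} (hb : b ∈ bases) :
    (b.1 < 16 ∧ b.2.1 < 16 ∧ b.2.2.1 < 16 ∧ b.2.2.2 < 16) ∧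
      ∀ j ∈ Finset.Icc (1 : ℕ) 15, lin b j ≠ 0 := by
  unfold bases at hb
  rw [Finset.mem_filter, Finset.mem_product, Finset.mem_product, Finset.mem_product] at hb
  simp only [Finset.mem_range] at hb
  exact ⟨⟨hb.1.1, hb.1.2.1, hb.1.2.2.1, hb.1.2.2.2⟩, hb.2⟩

theorem re_lin_lt {b : ℕ × ℕ × ℕ × ℕ} (hb : b ∈ bases) (j : ℕ) : lin b j < 16 := by
  obtain ⟨⟨h1, h2, h3, h4⟩, -⟩ := re_mem_bases hb
  have key : ∀ (p : Bool) (v : ℕ), v < 2 ^ 4 → (if p = true then v else 0) < 2 ^ 4 := by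
    intro p v hv
    cases p
    · simp
    · simpa using hv
  have : lin b j < 2 ^ 4 := by
    unfold lin
    exact Nat.xor_lt_two_pow (Nat.xor_lt_two_pow (key _ _ h1) (key _ _ h2))
      (Nat.xor_lt_two_pow (key _ _ h3) (key _ _ h4))
  simpa using this

theorem re_lin_inj {b : ℕ × ℕ × ℕ × ℕ} (hb : b ∈ bases) {i j : ℕ} (hi : i < 16) (hj : j < 16)
    (h : lin b i = lin b j) : i = j := by
  by_contra hne
  have h0 : lin b (i ^^^ j) = 0 := by
    rw [re_lin_xor, h, Nat.xor_self]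
  have hlt : i ^^^ j < 2 ^ 4 := Nat.xor_lt_two_pow hi hj
  have hpos : i ^^^ j ≠ 0 := by
    intro h'
    exact hne (Nat.xor_eq_zero_iff.mp h')
  refine (re_mem_bases hb).2 (i ^^^ j) ?_ h0
  rw [Finset.mem_Icc]
  omega

theorem re_pr_lin {b : ℕ × ℕ × ℕ × ℕ} {f : ℕ} (h1 : pr f b.1 = false) (h2 : pr f b.2.1 = false)
    (h3 : pr f b.2.2.1 = false) (j : ℕ) :
    pr f (lin b j) = (j.testBit 3 && pr f b.2.2.2) := by
  unfold lin
  rw [re_pr_xor, re_pr_xor, re_pr_xor]
  cases j.testBit 0 <;> cases j.testBit 1 <;> cases j.testBit 2 <;> cases j.testBit 3 <;>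
    simp [h1, h2, h3, re_pr_zero]

theorem re_testBit3_lt : ∀ j < 8, j.testBit 3 = false := by
  intro j hj
  exact Nat.testBit_lt_two_pow (by simpa using hj)

theorem re_card : ∀ f ∈ Finset.Icc (1 : ℕ) 15,
    ((range 16).filter (fun x => pr f x = false)).card = 8 := by
  decide +kernel

theorem re_image {b : ℕ × ℕ × ℕ × ℕ} (hb : b ∈ bases) {f : ℕ}
    (hf : f ∈ Finset.Icc (1 : ℕ) 15) (h1 : pr f b.1 = false) (h2 : pr f b.2.1 = false)
    (h3 : pr f b.2.2.1 = false) :
    (range 8).image (lin b) = (range 16).filter (fun x => pr f x = false) := by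
  apply Finset.eq_of_subset_of_card_le
  · intro x hx
    rw [Finset.mem_image] at hx
    obtain ⟨j, hj, rfl⟩ := hx
    rw [Finset.mem_range] at hj
    rw [Finset.mem_filter, Finset.mem_range]
    refine ⟨re_lin_lt hb j, ?_⟩
    rw [re_pr_lin h1 h2 h3, re_testBit3_lt j hj]
    simp
  · rw [re_card f hf, Finset.card_image_of_injOn]
    · simp
    · intro i hi j hj hij
      simp only [Finset.coe_range, Set.mem_Iio] at hi hj
      exact re_lin_inj hb (by omega) (by omega) hij

theorem plane_sum {R : Type*} [CommRing R] {b : ℕ × ℕ × ℕ × ℕ} (hb : b ∈ bases) {f : ℕ}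
    (hf : f ∈ Finset.Icc (1 : ℕ) 15) (h1 : pr f b.1 = false) (h2 : pr f b.2.1 = false)
    (h3 : pr f b.2.2.1 = false) (g : ℕ → R) :
    ∑ j ∈ range 8, g (lin b j) = ∑ x ∈ range 16, if pr f x = false then g x else 0 := by
  rw [← Finset.sum_filter, ← re_image hb hf h1 h2 h3, Finset.sum_image]
  intro i hi j hj hij
  simp only [Finset.coe_range, Set.mem_Iio] at hi hj
  exact re_lin_inj hb (by omega) (by omega) hij

theorem plane_sum2 {R : Type*} [CommRing R] {b : ℕ × ℕ × ℕ × ℕ} (hb : b ∈ bases) {f : ℕ}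
    (hf : f ∈ Finset.Icc (1 : ℕ) 15) (h1 : pr f b.1 = false) (h2 : pr f b.2.1 = false)
    (h3 : pr f b.2.2.1 = false) (g : ℕ → ℕ → ℕ → R) :
    ∑ i ∈ range 8, ∑ j ∈ range 8, g (lin b i) (lin b j) (lin b (i ^^^ j))
      = ∑ x ∈ range 16, ∑ y ∈ range 16,
          if pr f x = false ∧ pr f y = false then g x y (x ^^^ y) else 0 := by
  have e1 : ∀ i ∈ range 8, ∑ j ∈ range 8, g (lin b i) (lin b j) (lin b (i ^^^ j))
      = (fun x => ∑ y ∈ range 16, if pr f y = false then g x y (x ^^^ y) else 0) (lin b i) := by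
    intro i _
    have := plane_sum hb hf h1 h2 h3 (fun y => g (lin b i) y (lin b i ^^^ y))
    refine Eq.trans ?_ this
    refine Finset.sum_congr rfl fun j _ => ?_
    rw [re_lin_xor]
  rw [Finset.sum_congr rfl e1, plane_sum hb hf h1 h2 h3
    (fun x => ∑ y ∈ range 16, if pr f y = false then g x y (x ^^^ y) else 0)]
  refine Finset.sum_congr rfl fun x _ => ?_
  by_cases hx : pr f x = false
  · rw [if_pos hx]
    refine Finset.sum_congr rfl fun y _ => ?_
    by_cases hy : pr f y = false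
    · rw [if_pos hy, if_pos ⟨hx, hy⟩]
    · rw [if_neg hy, if_neg (fun h => hy h.2)]
  · rw [if_neg hx]
    symm
    refine Finset.sum_eq_zero fun y _ => ?_
    rw [if_neg (fun h => hx h.1)]

/-- Existence and uniqueness of the hyperplane of three independent vectors, as a Boolean check. -/
def reChk : Bool := (List.range 16).all fun x => (List.range 16).all fun y =>
  decide (x = 0) || decide (y = 0) || decide (y = x) || ((List.range 16).all fun z =>
    (decide (z = 0) || decide (z = x) || decide (z = y) || decide (z = x ^^^ y) ||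
      decide (((Finset.Icc (1 : ℕ) 15).filter
        (fun f => pr f z = false ∧ pr f x = false ∧ pr f y = false)).card = 1)))

theorem reChk_true : reChk = true := by
  decide +kernel

theorem re_unique {x y z : ℕ} (hx : x < 16) (hy : y < 16) (hz : z < 16) (hx0 : x ≠ 0)
    (hy0 : y ≠ 0) (hyx : y ≠ x) (hz0 : z ≠ 0) (hzx : z ≠ x) (hzy : z ≠ y) (hzxy : z ≠ x ^^^ y) :
    ((Finset.Icc (1 : ℕ) 15).filter
        (fun f => pr f z = false ∧ pr f x = false ∧ pr f y = false)).card = 1 := by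
  have h := reChk_true
  unfold reChk at h
  rw [List.all_eq_true] at h
  have h1 := h x (List.mem_range.mpr hx)
  rw [List.all_eq_true] at h1
  have h2 := h1 y (List.mem_range.mpr hy)
  simp only [hx0, hy0, hyx, decide_false, Bool.false_or] at h2
  rw [List.all_eq_true] at h2
  have h3 := h2 z (List.mem_range.mpr hz)
  simp only [hz0, hzx, hzy, hzxy, decide_false, Bool.false_or] at h3
  exact of_decide_eq_true h3

theorem re_count : ∀ f ∈ Finset.Icc (1 : ℕ) 15,
    (∑ x ∈ range 16, if (x ≠ 0 ∧ pr f x = false) then (∑ y ∈ range 16,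
      if (y ≠ 0 ∧ y ≠ x ∧ pr f y = false) then (∑ z ∈ range 16,
        if (z ≠ 0 ∧ z ≠ x ∧ z ≠ y ∧ z ≠ x ^^^ y ∧ pr f z = false) then 1 else 0)
        else 0) else 0) = 168 := by
  decide +kernel

theorem re_lin_list (x y z w : ℕ) : lin (x, y, z, w) 1 = x ∧ lin (x, y, z, w) 2 = y ∧
    lin (x, y, z, w) 3 = x ^^^ y ∧ lin (x, y, z, w) 4 = z ∧ lin (x, y, z, w) 5 = x ^^^ z ∧
    lin (x, y, z, w) 6 = y ^^^ z ∧ lin (x, y, z, w) 7 = (x ^^^ y) ^^^ z := by
  unfold lin
  simp [Nat.testBit]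

theorem re_iff {x y z w f : ℕ} (hx : x < 16) (hy : y < 16) (hz : z < 16) (hw : w < 16)
    (hf : f ∈ Finset.Icc (1 : ℕ) 15) :
    ((x, y, z, w) ∈ bases ∧ (pr f z = false ∧ pr f x = false ∧ pr f y = false)) ↔
      ((x ≠ 0 ∧ pr f x = false) ∧ (y ≠ 0 ∧ y ≠ x ∧ pr f y = false) ∧
        (z ≠ 0 ∧ z ≠ x ∧ z ≠ y ∧ z ≠ x ^^^ y ∧ pr f z = false) ∧ pr f w = true) := by
  obtain ⟨l1, l2, l3, l4, l5, l6, l7⟩ := re_lin_list x y z w
  constructor
  · rintro ⟨hb, hfz, hfx, hfy⟩
    have hne := (re_mem_bases hb).2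
    have n1 := hne 1 (by decide)
    have n2 := hne 2 (by decide)
    have n3 := hne 3 (by decide)
    have n4 := hne 4 (by decide)
    have n5 := hne 5 (by decide)
    have n6 := hne 6 (by decide)
    have n7 := hne 7 (by decide)
    rw [l1] at n1
    rw [l2] at n2
    rw [l3] at n3
    rw [l4] at n4
    rw [l5] at n5
    rw [l6] at n6
    rw [l7] at n7
    refine ⟨⟨n1, hfx⟩, ⟨n2, fun h => n3 ?_, hfy⟩,
      ⟨n4, fun h => n5 ?_, fun h => n6 ?_, fun h => n7 ?_, hfz⟩, ?_⟩
    · rw [h, Nat.xor_self]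
    · rw [h, Nat.xor_self]
    · rw [h, Nat.xor_self]
    · rw [h, Nat.xor_self]
    · by_contra hw'
      have hw'' : pr f w = false := by
        cases h : pr f w
        · rfl
        · exact absurd h hw'
      have hsub : (range 16).image (lin (x, y, z, w)) ⊆
          (range 16).filter (fun x => pr f x = false) := by
        intro t ht
        rw [Finset.mem_image] at ht
        obtain ⟨j, hj, rfl⟩ := ht
        rw [Finset.mem_filter, Finset.mem_range]
        refine ⟨re_lin_lt hb j, ?_⟩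
        rw [re_pr_lin (b := (x, y, z, w)) hfx hfy hfz j]
        simp [hw'']
      have hc := Finset.card_le_card hsub
      rw [re_card f hf, Finset.card_image_of_injOn] at hc
      · simp at hc
      · intro i hi j hj hij
        simp only [Finset.coe_range, Set.mem_Iio] at hi hj
        exact re_lin_inj hb (by omega) (by omega) hij
  · rintro ⟨⟨n1, hfx⟩, ⟨n2, n3, hfy⟩, ⟨n4, n5, n6, n7, hfz⟩, hfw⟩
    refine ⟨?_, hfz, hfx, hfy⟩
    unfold bases
    rw [Finset.mem_filter, Finset.mem_product, Finset.mem_product, Finset.mem_product]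
    simp only [Finset.mem_range]
    refine ⟨⟨hx, hy, hz, hw⟩, ?_⟩
    intro j hj
    rw [Finset.mem_Icc] at hj
    by_cases hj8 : j < 8
    · obtain ⟨hj1, -⟩ := hj
      interval_cases j
      · rw [l1]; exact n1
      · rw [l2]; exact n2
      · rw [l3]; intro h; exact n3 (Nat.xor_eq_zero_iff.mp h).symm
      · rw [l4]; exact n4
      · rw [l5]; intro h; exact n5 (Nat.xor_eq_zero_iff.mp h).symm
      · rw [l6]; intro h; exact n6 (Nat.xor_eq_zero_iff.mp h).symm
      · rw [l7]; intro h; exact n7 (Nat.xor_eq_zero_iff.mp h).symm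
    · intro h0
      have h := re_pr_lin (b := (x, y, z, w)) hfx hfy hfz j
      rw [h0, re_pr_zero] at h
      have hb3 : j.testBit 3 = true := by
        obtain ⟨hj1, hj2⟩ := hj
        have hj8' : 8 ≤ j := by omega
        interval_cases j <;> decide
      rw [hb3] at h
      simp [hfw] at h

theorem sum_bases_E {R : Type*} [CommRing R] (H : ℕ × ℕ × ℕ × ℕ → R) (G : ℕ → ℕ → R)
    (hHG : ∀ b ∈ bases, ∀ f ∈ Finset.Icc (1 : ℕ) 15, pr f b.1 = false → pr f b.2.1 = false →
      pr f b.2.2.1 = false → H b = G f b.2.2.2) :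
    ∑ b ∈ bases, H b = 168 * ∑ f ∈ Finset.Icc (1 : ℕ) 15, ∑ z ∈ range 16,
      if pr f z = true then G f z else 0 := by
  have stepA : ∀ b ∈ bases, H b = ∑ f ∈ Finset.Icc (1 : ℕ) 15,
      if (pr f b.2.2.1 = false ∧ pr f b.1 = false ∧ pr f b.2.1 = false) then G f b.2.2.2 else 0 := by
    rintro ⟨x, y, z, w⟩ hb
    obtain ⟨⟨h1, h2, h3, h4⟩, hne⟩ := re_mem_bases hb
    obtain ⟨l1, l2, l3, l4, l5, l6, l7⟩ := re_lin_list x y z w
    have n1 := hne 1 (by decide)
    have n2 := hne 2 (by decide)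
    have n3 := hne 3 (by decide)
    have n4 := hne 4 (by decide)
    have n5 := hne 5 (by decide)
    have n6 := hne 6 (by decide)
    have n7 := hne 7 (by decide)
    rw [l1] at n1
    rw [l2] at n2
    rw [l3] at n3
    rw [l4] at n4
    rw [l5] at n5
    rw [l6] at n6
    rw [l7] at n7
    simp only at h1 h2 h3 h4
    have hu := re_unique h1 h2 h3 n1 n2 (fun h => n3 (by rw [h, Nat.xor_self])) n4
      (fun h => n5 (by rw [h, Nat.xor_self])) (fun h => n6 (by rw [h, Nat.xor_self]))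
      (fun h => n7 (by rw [h, Nat.xor_self]))
    rw [← Finset.sum_filter]
    have hc : ∀ f ∈ (Finset.Icc (1 : ℕ) 15).filter
        (fun f => pr f z = false ∧ pr f x = false ∧ pr f y = false),
        G f w = H (x, y, z, w) := by
      intro f hf
      rw [Finset.mem_filter] at hf
      exact (hHG (x, y, z, w) hb f hf.1 hf.2.2.1 hf.2.2.2 hf.2.1).symm
    show H (x, y, z, w) = ∑ f ∈ (Finset.Icc (1 : ℕ) 15).filter
        (fun f => pr f z = false ∧ pr f x = false ∧ pr f y = false), G f w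
    rw [Finset.sum_congr rfl hc, Finset.sum_const, hu, one_smul]
  rw [Finset.sum_congr rfl stepA, Finset.sum_comm, Finset.mul_sum]
  refine Finset.sum_congr rfl fun f hf => ?_
  -- reduce to a sum over the whole box
  have hbox : ∑ b ∈ bases,
      (if (pr f b.2.2.1 = false ∧ pr f b.1 = false ∧ pr f b.2.1 = false) then G f b.2.2.2 else 0)
      = ∑ b ∈ range 16 ×ˢ range 16 ×ˢ range 16 ×ˢ range 16,
        (if b ∈ bases ∧ (pr f b.2.2.1 = false ∧ pr f b.1 = false ∧ pr f b.2.1 = false) then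
          G f b.2.2.2 else 0) := by
    have hsub : bases ⊆ range 16 ×ˢ range 16 ×ˢ range 16 ×ˢ range 16 := by
      unfold bases
      exact Finset.filter_subset _ _
    rw [← Finset.sum_subset hsub]
    · refine Finset.sum_congr rfl fun b hb => ?_
      by_cases h : pr f b.2.2.1 = false ∧ pr f b.1 = false ∧ pr f b.2.1 = false
      · rw [if_pos h, if_pos ⟨hb, h⟩]
      · rw [if_neg h, if_neg (fun h' => h h'.2)]
    · intro b _ hb
      rw [if_neg (fun h' => hb h'.1)]
  rw [hbox]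
  have hterm : ∀ b ∈ range 16 ×ˢ range 16 ×ˢ range 16 ×ˢ range 16,
      (if b ∈ bases ∧ (pr f b.2.2.1 = false ∧ pr f b.1 = false ∧ pr f b.2.1 = false) then
          G f b.2.2.2 else 0)
      = (if (b.1 ≠ 0 ∧ pr f b.1 = false) then
          (if (b.2.1 ≠ 0 ∧ b.2.1 ≠ b.1 ∧ pr f b.2.1 = false) then
            (if (b.2.2.1 ≠ 0 ∧ b.2.2.1 ≠ b.1 ∧ b.2.2.1 ≠ b.2.1 ∧ b.2.2.1 ≠ b.1 ^^^ b.2.1 ∧
              pr f b.2.2.1 = false) then (1 : R) else 0) else 0) else 0)
        * (if pr f b.2.2.2 = true then G f b.2.2.2 else 0) := by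
    rintro ⟨x, y, z, w⟩ hb
    rw [Finset.mem_product, Finset.mem_product, Finset.mem_product] at hb
    simp only [Finset.mem_range] at hb
    obtain ⟨h1, h2, h3, h4⟩ := hb
    have hi := re_iff h1 h2 h3 h4 hf
    simp only
    by_cases hc : (x, y, z, w) ∈ bases ∧ (pr f z = false ∧ pr f x = false ∧ pr f y = false)
    · obtain ⟨c1, c2, c3, c4⟩ := hi.mp hc
      rw [if_pos hc, if_pos c1, if_pos c2, if_pos c3, if_pos c4, one_mul]
    · rw [if_neg hc]
      by_cases c1 : (x ≠ 0 ∧ pr f x = false)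
      · by_cases c2 : (y ≠ 0 ∧ y ≠ x ∧ pr f y = false)
        · by_cases c3 : (z ≠ 0 ∧ z ≠ x ∧ z ≠ y ∧ z ≠ x ^^^ y ∧ pr f z = false)
          · by_cases c4 : pr f w = true
            · exact absurd (hi.mpr ⟨c1, c2, c3, c4⟩) hc
            · rw [if_neg c4, mul_zero]
          · rw [if_pos c1, if_pos c2, if_neg c3, zero_mul]
        · rw [if_pos c1, if_neg c2, zero_mul]
      · rw [if_neg c1, zero_mul]
  rw [Finset.sum_congr rfl hterm, Finset.sum_product]
  simp only [Finset.sum_product]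
  have hcount : (∑ x ∈ range 16, ∑ y ∈ range 16, ∑ z ∈ range 16,
      (if (x ≠ 0 ∧ pr f x = false) then
          (if (y ≠ 0 ∧ y ≠ x ∧ pr f y = false) then
            (if (z ≠ 0 ∧ z ≠ x ∧ z ≠ y ∧ z ≠ x ^^^ y ∧
              pr f z = false) then (1 : R) else 0) else 0) else 0)) = 168 := by
    have h := congrArg (Nat.cast : ℕ → R) (re_count f hf)
    push_cast at h
    rw [← h]
    refine Finset.sum_congr rfl fun x _ => ?_
    by_cases c1 : (x ≠ 0 ∧ pr f x = false)
    · simp only [if_pos c1]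
      refine Finset.sum_congr rfl fun y _ => ?_
      by_cases c2 : (y ≠ 0 ∧ y ≠ x ∧ pr f y = false)
      · simp only [if_pos c2]
      · simp only [if_neg c2, Finset.sum_const_zero]
    · simp only [if_neg c1, Finset.sum_const_zero]
  rw [← hcount, Finset.sum_mul]
  refine Finset.sum_congr rfl fun x _ => ?_
  rw [Finset.sum_mul]
  refine Finset.sum_congr rfl fun y _ => ?_
  rw [Finset.sum_mul]
  refine Finset.sum_congr rfl fun z _ => ?_
  rw [Finset.mul_sum]

end Pool.Agent.Lib.MP36
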