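import Pool.Agent.Lib.MP_36bd7d_h28.Defs2
import Pool.Agent.Lib.MP_36bd7d_h28.SumE

set_option autoImplicit false

open Finset

namespace Pool.Agent.Lib.MP36

private lemma te_cnt (c : ℕ → ℕ) {b : ℕ × ℕ × ℕ × ℕ} (hb : b ∈ bases) {f : ℕ}
    (hf : f ∈ Finset.Icc (1 : ℕ) 15) (h1 : pr f b.1 = false) (h2 : pr f b.2.1 = false)
    (h3 : pr f b.2.2.1 = false) (l : ℕ) :
    cnt8 (fun j => c (lin b j)) l
      = ∑ x ∈ range 16, if pr f x = false ∧ c x = l then 1 else 0 := by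
  have h := plane_sum (R := ℤ) hb hf h1 h2 h3 (fun x => if c x = l then 1 else 0)
  have h' : ((cnt8 (fun j => c (lin b j)) l : ℕ) : ℤ)
      = ((∑ x ∈ range 16, if pr f x = false ∧ c x = l then 1 else 0 : ℕ) : ℤ) := by
    unfold cnt8
    push_cast
    rw [h]
    refine Finset.sum_congr rfl (fun x _ => ?_)
    by_cases hx : pr f x = false <;> simp [hx]
  exact_mod_cast h'

private lemma te_lin8 (c : ℕ → ℕ) {b : ℕ × ℕ × ℕ × ℕ} (hb : b ∈ bases) {f : ℕ}
    (hf : f ∈ Finset.Icc (1 : ℕ) 15) (h1 : pr f b.1 = false) (h2 : pr f b.2.1 = false)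
    (h3 : pr f b.2.2.1 = false) :
    lin8 (fun j => c (lin b j))
      = ∑ x ∈ range 16, ∑ y ∈ range 16, if (pr f x = false ∧ pr f y = false) ∧
        1 ≤ c x ∧ 1 ≤ c y ∧ 1 ≤ c (x ^^^ y) then 1 else 0 := by
  have h := plane_sum2 (R := ℤ) hb hf h1 h2 h3
    (fun x y z => if 1 ≤ c x ∧ 1 ≤ c y ∧ 1 ≤ c z then 1 else 0)
  have h' : ((lin8 (fun j => c (lin b j)) : ℕ) : ℤ)
      = ((∑ x ∈ range 16, ∑ y ∈ range 16, if (pr f x = false ∧ pr f y = false) ∧
        1 ≤ c x ∧ 1 ≤ c y ∧ 1 ≤ c (x ^^^ y) then 1 else 0 : ℕ) : ℤ) := by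
    unfold lin8
    push_cast
    rw [h]
    refine Finset.sum_congr rfl (fun x _ => Finset.sum_congr rfl (fun y _ => ?_))
    by_cases hx : pr f x = false ∧ pr f y = false
    · rw [if_pos hx]
      exact if_congr (by simp [hx]) rfl rfl
    · rw [if_neg hx, if_neg (fun h => hx h.1)]
  exact_mod_cast h'

private lemma te_om (c : ℕ → ℕ) {b : ℕ × ℕ × ℕ × ℕ} (hb : b ∈ bases) {f : ℕ}
    (hf : f ∈ Finset.Icc (1 : ℕ) 15) (h1 : pr f b.1 = false) (h2 : pr f b.2.1 = false)
    (h3 : pr f b.2.2.1 = false) :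
    om (fun j => c (lin b j)) = omf c f := by
  unfold om omf
  rw [te_cnt c hb hf h1 h2 h3, te_cnt c hb hf h1 h2 h3, te_lin8 c hb hf h1 h2 h3]

private lemma te_card : ∀ f ∈ Finset.Icc (1 : ℕ) 15,
    (∑ z ∈ range 16, if pr f z = true then 1 else 0) = 8 := by
  decide

private lemma te_lin_eight (b : ℕ × ℕ × ℕ × ℕ) : lin b 8 = b.2.2.2 := by
  have h0 : Nat.testBit 8 0 = false := by decide
  have h1 : Nat.testBit 8 1 = false := by decide
  have h2 : Nat.testBit 8 2 = false := by decide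
  have h3 : Nat.testBit 8 3 = true := by decide
  simp [lin, h0, h1, h2, h3]

theorem tot_PsiE (EE : ℕ → ℕ → ℝ) (q : ℝ) (c : ℕ → ℕ) (h2 : ∀ x < 16, c x ≤ 2)
    (hE : ∀ w, EE w 0 = 0) :
    tot (PsiE EE q) c = 168 * ∑ f ∈ Finset.Icc (1 : ℕ) 15,
      ((outCnt c f 1 : ℝ) * EE (omf c f) 1 + (outCnt c f 2 : ℝ) * EE (omf c f) 2
        - 8 * (q - 1 / 8) * EE (omf c f) 1 - 8 * (1 / 8) * EE (omf c f) 2) := by
  unfold tot
  rw [sum_bases_E (fun b => PsiE EE q (fun j => c (lin b j)))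
    (fun f w => EE (omf c f) (c w) - (q - 1 / 8) * EE (omf c f) 1 - 1 / 8 * EE (omf c f) 2)]
  · congr 1
    refine Finset.sum_congr rfl (fun f hf => ?_)
    have hcard := te_card f hf
    have hc : (∑ z ∈ range 16, if pr f z = true then (1 : ℝ) else 0) = 8 := by
      exact_mod_cast hcard
    have hpt : ∀ z ∈ range 16, (if pr f z = true then (EE (omf c f) (c z)
        - (q - 1 / 8) * EE (omf c f) 1 - 1 / 8 * EE (omf c f) 2) else 0)
        = (if pr f z = true ∧ c z = 1 then (1 : ℝ) else 0) * EE (omf c f) 1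
          + (if pr f z = true ∧ c z = 2 then (1 : ℝ) else 0) * EE (omf c f) 2
          - (if pr f z = true then (1 : ℝ) else 0)
            * ((q - 1 / 8) * EE (omf c f) 1 + 1 / 8 * EE (omf c f) 2) := by
      intro z hz
      have hz2 := h2 z (Finset.mem_range.mp hz)
      by_cases hp : pr f z = true
      · simp only [hp, true_and, if_true]
        have h3 : c z = 0 ∨ c z = 1 ∨ c z = 2 := by omega
        rcases h3 with h3 | h3 | h3
        · rw [h3, hE]; norm_num; ring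
        · rw [h3]; norm_num; ring
        · rw [h3]; norm_num; ring
      · rw [if_neg hp, if_neg (fun h => hp h.1), if_neg (fun h => hp h.1), if_neg hp]
        ring
    rw [Finset.sum_congr rfl hpt, Finset.sum_sub_distrib, Finset.sum_add_distrib,
      ← Finset.sum_mul, ← Finset.sum_mul, ← Finset.sum_mul, hc]
    unfold outCnt
    push_cast
    ring
  · intro b hb f hf h1 h2' h3
    simp only [PsiE]
    rw [te_om c hb hf h1 h2' h3, te_lin_eight]

end Pool.Agent.Lib.MP36
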