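import Pool.Agent.Lib.MP_36bd7d_h28.Checker
import Pool.Agent.Lib.MP_36bd7d_h28.Engine
import Pool.Agent.Lib.MP_36bd7d_h28.TotE
import Pool.Agent.Lib.MP_36bd7d_h28.FeatM
import Pool.Agent.Lib.MP_36bd7d_h28.FeatX
import Pool.Agent.Lib.MP_36bd7d_h28.FeatN
import Pool.Agent.Lib.MP_36bd7d_h28.FeatE

set_option autoImplicit false

open Finset

namespace Pool.Agent.Lib.MP36

/-- Final comparison, in real numbers. -/
theorem finOK_spec (rho lam k mp mn xp xn zp zn tp tn up un vp vn ap an bp bn cp cn qn : ℕ)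
    (hq : 12500 ≤ qn)
    (h : finOK rho lam k mp mn xp xn zp zn tp tn up un vp vn ap an bp bn cp cn qn = true) :
    32 * ((mp : ℝ) - mn)
      + ((rho : ℝ) / 1000 * ((qn : ℝ) / 100000 - 1 / 8) * (((xp : ℝ) - xn) - ((zp : ℝ) - zn))
        + ((tp : ℝ) - tn) - (1 / 8 + (qn : ℝ) / 100000) * ((zp : ℝ) - zn)
        + (((up : ℝ) - un) - ((vp : ℝ) - vn)))
      + 168 * (((ap : ℝ) - an) - 8 * ((qn : ℝ) / 100000 - 1 / 8) * ((bp : ℝ) - bn)
        - 1 * ((cp : ℝ) - cn))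
      + 20160 * ((lam : ℝ) * k) < 0 := by
  unfold finOK at h
  rw [force_eq, force_eq] at h
  have h1 := Nat.le_of_ble_eq_true h
  have f3 : ∀ x y : ℕ, Nat.add x y = x + y := fun _ _ => rfl
  have f4 : ∀ x y : ℕ, Nat.mul x y = x * y := fun _ _ => rfl
  have f5 : ∀ x y : ℕ, Nat.sub x y = x - y := fun _ _ => rfl
  have f6 : ∀ x : ℕ, Nat.succ x = x + 1 := fun _ => rfl
  simp only [f3, f4, f5, f6] at h1
  obtain ⟨D, hD⟩ : ∃ D, 8 * qn = D + 100000 := ⟨8 * qn - 100000, by omega⟩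
  have hD' : 8 * qn - 100000 = D := by omega
  rw [hD'] at h1
  have h2 : (((8 * qn : ℕ)) : ℝ) = ((D + 100000 : ℕ) : ℝ) := by rw [hD]
  push_cast at h2
  have h3 : (qn : ℝ) = ((D : ℝ) + 100000) / 8 := by linarith
  have h4 : ((_ : ℕ) : ℝ) ≤ ((_ : ℕ) : ℝ) := Nat.cast_le.mpr h1
  push_cast at h4
  rw [h3] at h4 ⊢
  have h5 : (800000000 : ℝ) * (32 * ((mp : ℝ) - mn)
      + ((rho : ℝ) / 1000 * ((((D : ℝ) + 100000) / 8) / 100000 - 1 / 8)
          * (((xp : ℝ) - xn) - ((zp : ℝ) - zn))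
        + ((tp : ℝ) - tn) - (1 / 8 + (((D : ℝ) + 100000) / 8) / 100000) * ((zp : ℝ) - zn)
        + (((up : ℝ) - un) - ((vp : ℝ) - vn)))
      + 168 * (((ap : ℝ) - an) - 8 * ((((D : ℝ) + 100000) / 8) / 100000 - 1 / 8) * ((bp : ℝ) - bn)
        - 1 * ((cp : ℝ) - cn))
      + 20160 * ((lam : ℝ) * k)) + 1 ≤ 0 := by
    linarith
  linarith

theorem affine_neg (q α β a b : ℝ) (ha : α + β * a < 0) (hb : α + β * b < 0) (haq : a ≤ q)
    (hqb : q ≤ b) : α + β * q < 0 := by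
  rcases le_total 0 β with hβ | hβ
  · have := mul_le_mul_of_nonneg_left hqb hβ
    linarith
  · have := mul_le_mul_of_nonpos_left haq hβ
    linarith

/-- A leaf passing the test at both end points. -/
theorem leafOK_spec (C : Cert) (hqa : 12500 ≤ C.qa) (hab : C.qa ≤ C.qb) (Y HL DL : SL) (L : EL)
    (hY : Y = yOf (C.rows 0) (C.rows 9) (C.rows 18) (C.rows 12) (C.rows 21))
    (hH : HL = sqL (rowsS 32 6 C.lh) (rowsS 32 6 C.lh))
    (hD : DL = sqL (rowsS 32 6 C.ld) (rowsS 32 6 C.ld))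
    (t : Feat) (ht : t ∈ ltab)
    (h : leafOK C.rho C.lam C.k C.qa C.qb Y HL DL L t = true)
    (q : ℝ) (h1 : (C.qa : ℝ) / 100000 ≤ q) (h2 : q ≤ (C.qb : ℝ) / 100000) :
    tot (PsiM (fun σ k l => C.F (keyM σ k l))) (dig t.N)
      + tot (PsiH (gmat ((rowsS 32 6 C.lh).map SL.toL)) (gmat ((rowsS 32 6 C.ld).map SL.toL))
          ((C.rho : ℝ) / 1000 * (q - 1 / 8)) (1 / 8 + q)) (dig t.N)
      + tot (PsiE (EEof L) q) (dig t.N) + 20160 * ((C.lam : ℝ) * C.k) < 0 := by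
  unfold leafOK at h
  obtain ⟨mp, mn, h, hM⟩ := evM_spec C.F t.m Y 0 0 _
    (yOf (C.rows 0) (C.rows 9) (C.rows 18) (C.rows 12) (C.rows 21)).toL 0
    (fun m => rfl) (by rw [hY]; rfl) h
  rw [hH, hD] at h
  obtain ⟨xp, xn, h, hX⟩ := evSq_spec _ (rowsS_length _ _ _) _ _ _ _ h
  obtain ⟨zp, zn, h, hZ⟩ := evSq_spec _ (rowsS_length _ _ _) _ _ _ _ h
  obtain ⟨tp, tn, h, hT⟩ := evSq_spec _ (rowsS_length _ _ _) _ _ _ _ h
  obtain ⟨up, un, h, hU⟩ := evSq_spec _ (rowsS_length _ _ _) _ _ _ _ h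
  obtain ⟨vp, vn, h, hV⟩ := evSq_spec _ (rowsS_length _ _ _) _ _ _ _ h
  obtain ⟨ap, an, bp, bn, cp, cn, h, hE⟩ := evE_spec _ _ _ _ _ _ _ _ _ h
  rw [cnd_eq] at h
  have hfa : finOK C.rho C.lam C.k mp mn xp xn zp zn tp tn up un vp vn ap an bp bn cp cn C.qa
      = true := by
    by_contra hc
    simp [hc] at h
  rw [hfa] at h
  have hfb : finOK C.rho C.lam C.k mp mn xp xn zp zn tp tn up un vp vn ap an bp bn cp cn C.qb
      = true := by simpa using h
  have ga := finOK_spec _ _ _ _ _ _ _ _ _ _ _ _ _ _ _ _ _ _ _ _ _ _ hqa hfa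
  have gb := finOK_spec _ _ _ _ _ _ _ _ _ _ _ _ _ _ _ _ _ _ _ _ _ _ (le_trans hqa hab) hfb
  -- the totals
  have tM := featM C.F C.F_600 t ht
  have tE : tot (PsiE (EEof L) q) (dig t.N) = 168 * (((ap : ℝ) - an)
      - 8 * (q - 1 / 8) * ((bp : ℝ) - bn) - 1 * ((cp : ℝ) - cn)) := by
    rw [tot_PsiE (EEof L) q (dig t.N) (fun x _ => dig_le_two t ht x)
      (by intro w; simp [EEof])]
    have e1 := featE t ht (EEof L) (8 * (q - 1 / 8)) 1
    have e2 := hE (8 * (q - 1 / 8)) 1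
    have e3 : (8 : ℝ) * (1 / 8) = 1 := by norm_num
    rw [e3, e1, e2]
    simp
  have tH : tot (PsiH (gmat ((rowsS 32 6 C.lh).map SL.toL)) (gmat ((rowsS 32 6 C.ld).map SL.toL))
          ((C.rho : ℝ) / 1000 * (q - 1 / 8)) (1 / 8 + q)) (dig t.N)
      = (C.rho : ℝ) / 1000 * (q - 1 / 8) * (((xp : ℝ) - xn) - ((zp : ℝ) - zn))
        + ((tp : ℝ) - tn) - (1 / 8 + q) * ((zp : ℝ) - zn)
        + (((up : ℝ) - un) - ((vp : ℝ) - vn)) := by
    rw [tot_PsiH, hX, hZ, hT, hU, hV]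
    simp only [featX t ht, featN t ht, featZ t ht]
    simp only [Nat.cast_zero, sub_self, zero_add]
    simp only [Finset.mul_sum, ← Finset.sum_sub_distrib, ← Finset.sum_add_distrib]
    refine Finset.sum_congr rfl (fun a _ => Finset.sum_congr rfl (fun b _ => ?_))
    ring
  have tM' : tot (PsiM (fun σ k l => C.F (keyM σ k l))) (dig t.N) = 32 * ((mp : ℝ) - mn) := by
    rw [tM, hM]
    simp
  rw [tM', tH, tE]
  -- affine in `q`
  have key := affine_neg q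
    (32 * ((mp : ℝ) - mn)
      + ((C.rho : ℝ) / 1000 * (- 1 / 8) * (((xp : ℝ) - xn) - ((zp : ℝ) - zn))
        + ((tp : ℝ) - tn) - (1 / 8) * ((zp : ℝ) - zn)
        + (((up : ℝ) - un) - ((vp : ℝ) - vn)))
      + 168 * (((ap : ℝ) - an) - 8 * (- 1 / 8) * ((bp : ℝ) - bn)
        - 1 * ((cp : ℝ) - cn))
      + 20160 * ((C.lam : ℝ) * C.k))
    ((C.rho : ℝ) / 1000 * (((xp : ℝ) - xn) - ((zp : ℝ) - zn)) - ((zp : ℝ) - zn)
      - 168 * (8 * ((bp : ℝ) - bn)))
    ((C.qa : ℝ) / 100000) ((C.qb : ℝ) / 100000)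
    (lt_of_eq_of_lt (by ring) ga) (lt_of_eq_of_lt (by ring) gb) h1 h2
  exact lt_of_eq_of_lt (by ring) key

/-- Soundness of the certificates. -/
theorem Cert.sound (C : Cert) (hC : C.check = true) {n : ℕ} (g : Finset (Fin n) → ℝ) (i : Fin n)
    (q : ℝ)
    (h01 : ∀ A, g A = 0 ∨ g A = 1) (hmono : ∀ A B, A ⊆ B → g A ≤ g B)
    (h3 : ∀ A B C, A ∩ B ∩ C = ∅ → g A * g B * g C = 0)
    (hp : avg (fun A => g (A.erase i)) = 1 / 8) (hq : avg (fun A => g (insert i A)) = q)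
    (hW : ∀ W : Finset (Fin n), W ≠ ∅ →
      |hat (fun A => g (A.erase i)) W| + |hat (fun A => g (insert i A)) W| ≤ q - 1 / 8)
    (hqa : (C.qa : ℝ) / 100000 ≤ q) (hqb : q ≤ (C.qb : ℝ) / 100000)
    (hk : ((Finset.univ : Finset (Finset (Fin n))).filter
      (fun S => S ≠ ∅ ∧ hat (fun A => g (A.erase i)) S + hat (fun A => g (insert i A)) S
        < -((C.rho : ℝ) / 1000 * (q - 1 / 8)))).card ≤ C.k) : False := by
  unfold Cert.check at hC
  rw [cnd_eq] at hC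
  have hl : C.leafCheck = true := by
    by_contra hc
    simp [hc] at hC
  rw [hl] at hC
  have ht : C.topOK = true := by simpa using hC
  unfold Cert.leafCheck at hl
  simp only [deepR_eq, deepS_eq, deepE_eq, cnd_eq] at hl
  by_cases b1 : Nat.ble 12500 C.qa = true
  swap
  · simp [b1] at hl
  by_cases b2 : Nat.ble C.qa C.qb = true
  swap
  · simp [b1, b2] at hl
  by_cases b3 : Nat.ble C.rho 1000 = true
  swap
  · simp [b1, b2, b3] at hl
  rw [if_pos b1, if_pos b2, if_pos b3] at hl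
  have c1 := Nat.le_of_ble_eq_true b1
  have c2 := Nat.le_of_ble_eq_true b2
  have c3 := Nat.le_of_ble_eq_true b3
  have hall := allF_spec _ _ hl
  set L := elOf omKeys C.e with hL
  refine engine g i q h01 hmono h3 hp hq hW (fun σ k l => C.F (keyM σ k l))
    (gmat ((rowsS 32 6 C.lh).map SL.toL)) (gmat ((rowsS 32 6 C.ld).map SL.toL)) (EEof L)
    ?_ (quad_gmat_nonneg _) (quad_gmat_nonneg _) (by intro w; simp [EEof])
    ((C.qa : ℝ) / 100000 - 1 / 8) ((C.qb : ℝ) / 100000 - 1 / 8) ((C.rho : ℝ) / 1000) (C.lam : ℝ)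
    C.k (by linarith) (by linarith) (by positivity) ?_ (by positivity) ?_ hk ?_
  · intro σ w
    have := gram_nonneg (range 81) (fun k => C.row σ k) w
    refine le_trans this (le_of_eq ?_)
    refine Finset.sum_congr rfl (fun k _ => Finset.sum_congr rfl (fun l _ => ?_))
    rw [C.F_key]
  · have : (C.rho : ℝ) ≤ 1000 := by exact_mod_cast c3
    linarith
  · intro x y t hx hy
    unfold Cert.topOK at ht
    rw [cnd_eq] at ht
    by_cases hr : Nat.beq C.rho 1000 = true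
    · have hr' : C.rho = 1000 := Nat.eq_of_beq_eq_true hr
      rw [hr']
      have := htop_trivial C.qb (C.lam : ℤ) (by positivity) ((rowsS 32 6 C.lh).map SL.toL)
        ((rowsS 32 6 C.ld).map SL.toL) x y t
      simpa using this
    · rw [if_neg hr] at ht
      have := htop_of_check C.qa C.qb C.rho (C.lam : ℤ) _ _ _ _ _ _ ht x y t hx hy
      simpa using this
  · intro N hN
    rw [ltab_leaves] at hN
    obtain ⟨t, htl, rfl⟩ := List.mem_map.1 hN
    exact leafOK_spec C c1 c2 _ _ _ L (by simp [Cert.rows]) rfl rfl t htl (hall t htl) q hqa hqb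

end Pool.Agent.Lib.MP36
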