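import Pool.Agent.Lib.MP_36bd7d_h28.Defs

set_option autoImplicit false

open Finset

namespace Pool.Agent.Lib.MP36

/-- The averaging operator `φ ↦ (φ(x+1) + φ(x-1))/2`. -/
noncomputable def n2T : Module.End ℝ (ℝ → ℝ) where
  toFun φ := fun x => (φ (x + 1) + φ (x - 1)) / 2
  map_add' φ ψ := by funext x; simp; ring
  map_smul' c φ := by funext x; simp; ring

/-- The difference operator `φ ↦ (φ(x+1) - φ(x-1))/2`. -/
noncomputable def n2D : Module.End ℝ (ℝ → ℝ) where
  toFun φ := fun x => (φ (x + 1) - φ (x - 1)) / 2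
  map_add' φ ψ := by funext x; simp; ring
  map_smul' c φ := by funext x; simp; ring

lemma n2T_apply (φ : ℝ → ℝ) (x : ℝ) : n2T φ x = (φ (x + 1) + φ (x - 1)) / 2 := rfl

lemma n2D_apply (φ : ℝ → ℝ) (x : ℝ) : n2D φ x = (φ (x + 1) - φ (x - 1)) / 2 := rfl

lemma n2_comm : Commute n2T n2D := by
  apply LinearMap.ext
  intro φ
  funext x
  simp only [Module.End.mul_apply, n2T_apply, n2D_apply]
  ring_nf

variable {n : ℕ}

/-- The sign variable attached to `l`. -/
noncomputable def n2y (l : Fin n) (A : Finset (Fin n)) : ℝ := - chi {l} A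

lemma n2y_eq (l : Fin n) (A : Finset (Fin n)) : n2y l A = if l ∈ A then 1 else -1 := by
  unfold n2y chi
  rw [Finset.prod_singleton]
  split_ifs <;> simp

lemma n2y_flip_self (l : Fin n) (A : Finset (Fin n)) : n2y l (symmDiff A {l}) = - n2y l A := by
  rw [n2y_eq, n2y_eq]
  by_cases h : l ∈ A <;> simp [Finset.mem_symmDiff, h]

lemma n2y_flip_ne {l j : Fin n} (h : l ≠ j) (A : Finset (Fin n)) :
    n2y l (symmDiff A {j}) = n2y l A := by
  rw [n2y_eq, n2y_eq]
  by_cases hA : l ∈ A <;> simp [Finset.mem_symmDiff, hA, h]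

lemma n2y_cases (l : Fin n) (A : Finset (Fin n)) : n2y l A = 1 ∨ n2y l A = -1 := by
  rw [n2y_eq]; split_ifs <;> simp

lemma n2_chi (S A : Finset (Fin n)) : - chi S A = (-(-1) ^ S.card) * ∏ l ∈ S, n2y l A := by
  have h : ∀ l ∈ S, (if l ∈ A then (-1 : ℝ) else 1) = (-1) * n2y l A := by
    intro l _
    rw [n2y_eq]
    split_ifs <;> simp
  unfold chi
  rw [Finset.prod_congr rfl h, Finset.prod_mul_distrib, Finset.prod_const]
  ring

lemma n2_avg_flip (f : Finset (Fin n) → ℝ) (l : Fin n) :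
    avg f = avg (fun A => (f A + f (symmDiff A {l})) / 2) := by
  unfold avg
  congr 1
  rw [← Finset.sum_div, Finset.sum_add_distrib, sum_symmDiff]
  ring

/-- `X` does not depend on the coordinates in `S`. -/
def n2Inv (S : Finset (Fin n)) (X : Finset (Fin n) → ℝ) : Prop :=
  ∀ l ∈ S, ∀ A, X (symmDiff A {l}) = X A

lemma n2Inv_sum {S T : Finset (Fin n)} (h : Disjoint S T) : n2Inv S (fun A => ∑ l ∈ T, n2y l A) := by
  intro l hl A
  refine Finset.sum_congr rfl (fun j hj => n2y_flip_ne ?_ A)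
  rintro rfl
  exact Finset.disjoint_left.1 h hl hj

lemma n2Inv_prod {S T : Finset (Fin n)} (h : Disjoint S T) :
    n2Inv S (fun A => ∏ l ∈ T, n2y l A) := by
  intro l hl A
  refine Finset.prod_congr rfl (fun j hj => n2y_flip_ne ?_ A)
  rintro rfl
  exact Finset.disjoint_left.1 h hl hj

lemma n2_one_T {l : Fin n} {X H : Finset (Fin n) → ℝ} (hX : n2Inv {l} X) (hH : n2Inv {l} H)
    (a : ℝ → ℝ) : avg (fun A => H A * a (X A + n2y l A)) = avg (fun A => H A * n2T a (X A)) := by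
  rw [n2_avg_flip _ l]
  congr 1
  funext A
  rw [hX l (by simp), hH l (by simp), n2y_flip_self, n2T_apply]
  rcases n2y_cases l A with h | h
  · rw [h, sub_eq_add_neg]; ring
  · rw [h, neg_neg, sub_eq_add_neg]; ring

lemma n2_one_D {l : Fin n} {X H : Finset (Fin n) → ℝ} (hX : n2Inv {l} X) (hH : n2Inv {l} H)
    (a : ℝ → ℝ) : avg (fun A => H A * (n2y l A * a (X A + n2y l A))) =
      avg (fun A => H A * n2D a (X A)) := by
  rw [n2_avg_flip _ l]
  congr 1
  funext A
  rw [hX l (by simp), hH l (by simp), n2y_flip_self, n2D_apply]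
  rcases n2y_cases l A with h | h
  · rw [h, sub_eq_add_neg (X A) 1]; ring
  · rw [h, neg_neg, sub_eq_add_neg (X A) 1]; ring

lemma n2Inv_mono {S T : Finset (Fin n)} {X : Finset (Fin n) → ℝ} (h : S ⊆ T) (hX : n2Inv T X) :
    n2Inv S X := fun l hl A => hX l (h hl) A

lemma n2_set_T (S : Finset (Fin n)) : ∀ (X H : Finset (Fin n) → ℝ), n2Inv S X → n2Inv S H →
    ∀ a : ℝ → ℝ, avg (fun A => H A * a (X A + ∑ l ∈ S, n2y l A)) =
      avg (fun A => H A * (n2T ^ S.card) a (X A)) := by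
  induction S using Finset.induction_on with
  | empty => intro X H _ _ a; simp
  | insert j S hj ih =>
    intro X H hX hH a
    have hjS : Disjoint ({j} : Finset (Fin n)) S := Finset.disjoint_singleton_left.2 hj
    have h1 : avg (fun A => H A * a (X A + ∑ l ∈ insert j S, n2y l A)) =
        avg (fun A => H A * a ((X A + ∑ l ∈ S, n2y l A) + n2y j A)) := by
      congr 1; funext A; rw [Finset.sum_insert hj]; congr 2; ring
    have h2 : n2Inv {j} (fun A => X A + ∑ l ∈ S, n2y l A) := by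
      intro l hl A
      have := n2Inv_mono (Finset.singleton_subset_iff.2 (Finset.mem_insert_self j S)) hX l hl A
      have h3 := n2Inv_sum hjS l hl A
      simp only at h3 ⊢
      rw [this, h3]
    rw [h1, n2_one_T h2 (n2Inv_mono (Finset.singleton_subset_iff.2 (Finset.mem_insert_self j S)) hH)
      a, ih X H (n2Inv_mono (Finset.subset_insert j S) hX)
      (n2Inv_mono (Finset.subset_insert j S) hH) (n2T a), Finset.card_insert_of_notMem hj, pow_succ]
    rfl

lemma n2_set_D (S : Finset (Fin n)) : ∀ (X : Finset (Fin n) → ℝ), n2Inv S X →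
    ∀ a : ℝ → ℝ, avg (fun A => (∏ l ∈ S, n2y l A) * a (X A + ∑ l ∈ S, n2y l A)) =
      avg (fun A => (n2D ^ S.card) a (X A)) := by
  induction S using Finset.induction_on with
  | empty => intro X _ a; simp
  | insert j S hj ih =>
    intro X hX a
    have hjS : Disjoint ({j} : Finset (Fin n)) S := Finset.disjoint_singleton_left.2 hj
    have h1 : avg (fun A => (∏ l ∈ insert j S, n2y l A) * a (X A + ∑ l ∈ insert j S, n2y l A)) =
        avg (fun A => (∏ l ∈ S, n2y l A) * (n2y j A * a ((X A + ∑ l ∈ S, n2y l A) + n2y j A))) := by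
      congr 1; funext A; rw [Finset.sum_insert hj, Finset.prod_insert hj]
      have : X A + (n2y j A + ∑ l ∈ S, n2y l A) = (X A + ∑ l ∈ S, n2y l A) + n2y j A := by ring
      rw [this]; ring
    have h2 : n2Inv {j} (fun A => X A + ∑ l ∈ S, n2y l A) := by
      intro l hl A
      have := n2Inv_mono (Finset.singleton_subset_iff.2 (Finset.mem_insert_self j S)) hX l hl A
      have h3 := n2Inv_sum hjS l hl A
      simp only at h3 ⊢
      rw [this, h3]
    rw [h1, n2_one_D h2 (n2Inv_prod hjS) a, ih X (n2Inv_mono (Finset.subset_insert j S) hX) (n2D a),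
      Finset.card_insert_of_notMem hj, pow_succ]
    rfl

lemma n2_avg_add (f g : Finset (Fin n) → ℝ) : avg (fun A => f A + g A) = avg f + avg g := by
  unfold avg
  rw [Finset.sum_add_distrib, add_div]

lemma n2_avg_mul (c : ℝ) (f : Finset (Fin n) → ℝ) : avg (fun A => c * f A) = c * avg f := by
  unfold avg
  rw [← Finset.mul_sum, mul_div_assoc]

lemma n2_avg_const (c : ℝ) : avg (fun _ : Finset (Fin n) => c) = c := by
  unfold avg
  rw [Finset.sum_const, nsmul_eq_mul, Finset.card_univ, Fintype.card_finset, Fintype.card_fin]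
  push_cast
  field_simp

lemma n2_prod_cases (S A : Finset (Fin n)) :
    (∏ l ∈ S, n2y l A) = 1 ∨ (∏ l ∈ S, n2y l A) = -1 := by
  induction S using Finset.induction_on with
  | empty => simp
  | insert j S hj ih =>
    rw [Finset.prod_insert hj]
    rcases n2y_cases j A with h | h <;> rcases ih with h' | h' <;> rw [h, h'] <;> simp

lemma n2_block (S : Finset (Fin n)) (X : Finset (Fin n) → ℝ) (hX : n2Inv S X) (φ : ℝ → ℝ) :
    avg (fun A => φ (X A + ((∑ l ∈ S, n2y l A) + (- chi S A)))) =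
      avg (fun A => (n2T ^ (S.card + 1)) φ (X A)) +
      (-(-1) ^ S.card) * avg (fun A => (n2D ^ (S.card + 1)) φ (X A)) := by
  have hc : (-(-1 : ℝ) ^ S.card) = 1 ∨ (-(-1 : ℝ) ^ S.card) = -1 := by
    rcases neg_one_pow_eq_or ℝ S.card with h | h
    · right; rw [h]
    · left; rw [h]; norm_num
  have h1 : ∀ A, φ (X A + ((∑ l ∈ S, n2y l A) + (- chi S A))) =
      1 * n2T φ (X A + ∑ l ∈ S, n2y l A) +
      (-(-1 : ℝ) ^ S.card) * ((∏ l ∈ S, n2y l A) * n2D φ (X A + ∑ l ∈ S, n2y l A)) := by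
    intro A
    rw [n2_chi, n2T_apply, n2D_apply, ← add_assoc]
    set x := X A + ∑ l ∈ S, n2y l A
    rcases hc with h | h <;> rcases n2_prod_cases S A with h' | h' <;> rw [h, h']
    · simp; ring
    · simp [sub_eq_add_neg]; ring
    · simp [sub_eq_add_neg]; ring
    · simp; ring
  rw [show (fun A => φ (X A + ((∑ l ∈ S, n2y l A) + (- chi S A)))) = _ from funext h1,
    n2_avg_add, n2_avg_mul (-(-1 : ℝ) ^ S.card)]
  rw [n2_set_T S X (fun _ => 1) hX (fun _ _ _ => rfl) (n2T φ), n2_set_D S X hX (n2D φ)]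
  simp only [one_mul, pow_succ]
  rfl

lemma n2_expand (L : Finset (Fin n)) (C : Finset (Finset (Fin n))) :
    (∀ S ∈ C, Disjoint L S) → (∀ S ∈ C, ∀ T ∈ C, S ≠ T → Disjoint S T) → ∀ φ : ℝ → ℝ,
    avg (fun A => φ ((∑ l ∈ L, n2y l A) + ∑ S ∈ C, ((∑ l ∈ S, n2y l A) + (- chi S A)))) =
      ∑ E ∈ C.powerset, (∏ S ∈ E, (-(-1 : ℝ) ^ S.card)) *
        (n2T ^ (L.card + ∑ S ∈ C \ E, (S.card + 1))) ((n2D ^ (∑ S ∈ E, (S.card + 1))) φ) 0 := by
  induction C using Finset.induction_on with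
  | empty =>
    intro _ _ φ
    have := n2_set_T L (fun _ => 0) (fun _ => 1) (fun _ _ _ => rfl) (fun _ _ _ => rfl) φ
    simp only [one_mul, zero_add] at this
    simp [this, n2_avg_const]
  | insert S C hS ih =>
    intro hL hC φ
    have hL' : ∀ T ∈ C, Disjoint L T := fun T hT => hL T (Finset.mem_insert_of_mem hT)
    have hC' : ∀ T ∈ C, ∀ T' ∈ C, T ≠ T' → Disjoint T T' := fun T hT T' hT' =>
      hC T (Finset.mem_insert_of_mem hT) T' (Finset.mem_insert_of_mem hT')
    have hSC : ∀ T ∈ C, Disjoint S T := fun T hT =>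
      hC S (Finset.mem_insert_self S C) T (Finset.mem_insert_of_mem hT) (fun h => hS (h ▸ hT))
    have hX : n2Inv S (fun A => (∑ l ∈ L, n2y l A) +
        ∑ T ∈ C, ((∑ l ∈ T, n2y l A) + (- chi T A))) := by
      intro j hj A
      have h1 := n2Inv_sum (hL S (Finset.mem_insert_self S C)).symm j hj A
      simp only at h1 ⊢
      rw [h1]
      congr 1
      refine Finset.sum_congr rfl (fun T hT => ?_)
      have h2 := n2Inv_sum (hSC T hT) j hj A
      have h3 := n2Inv_prod (hSC T hT) j hj A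
      simp only at h2 h3
      rw [n2_chi, n2_chi, h2, h3]
    have h1 : avg (fun A => φ ((∑ l ∈ L, n2y l A) +
        ∑ T ∈ insert S C, ((∑ l ∈ T, n2y l A) + (- chi T A)))) =
        avg (fun A => φ (((∑ l ∈ L, n2y l A) + ∑ T ∈ C, ((∑ l ∈ T, n2y l A) + (- chi T A))) +
          ((∑ l ∈ S, n2y l A) + (- chi S A)))) := by
      congr 1; funext A; rw [Finset.sum_insert hS]; congr 1; ring
    rw [h1, n2_block S _ hX φ, ih hL' hC' ((n2T ^ (S.card + 1)) φ),
      ih hL' hC' ((n2D ^ (S.card + 1)) φ), Finset.sum_powerset_insert hS]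
    congr 1
    · refine Finset.sum_congr rfl (fun E hE => ?_)
      have hSE : S ∉ E := fun h => hS (Finset.mem_powerset.1 hE h)
      congr 1
      rw [Finset.insert_sdiff_of_notMem _ hSE, Finset.sum_insert (by simp [hS])]
      have hcomm : (n2D ^ (∑ S ∈ E, (S.card + 1))) ((n2T ^ (S.card + 1)) φ) =
          (n2T ^ (S.card + 1)) ((n2D ^ (∑ S ∈ E, (S.card + 1))) φ) := by
        have := (n2_comm.pow_pow (S.card + 1) (∑ S ∈ E, (S.card + 1))).symm
        exact congrArg (fun F : Module.End ℝ (ℝ → ℝ) => F φ) this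
      have hadd : L.card + (S.card + 1 + ∑ S ∈ C \ E, (S.card + 1)) =
          L.card + ∑ S ∈ C \ E, (S.card + 1) + (S.card + 1) := by ring
      rw [hcomm, ← Module.End.mul_apply, ← pow_add, hadd]
    · rw [Finset.mul_sum]
      refine Finset.sum_congr rfl (fun E hE => ?_)
      have hSE : S ∉ E := fun h => hS (Finset.mem_powerset.1 hE h)
      have hd : insert S C \ insert S E = C \ E := by
        ext T
        simp only [Finset.mem_sdiff, Finset.mem_insert, not_or]
        constructor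
        · rintro ⟨h1 | h1, h2, h3⟩
          · exact absurd h1 h2
          · exact ⟨h1, h3⟩
        · rintro ⟨h1, h2⟩
          exact ⟨Or.inr h1, fun h => hS (h ▸ h1), h2⟩
      rw [hd, Finset.prod_insert hSE, Finset.sum_insert hSE, ← Module.End.mul_apply (n2D ^ _),
        ← pow_add, mul_assoc, add_comm (∑ S ∈ E, (S.card + 1)) (S.card + 1)]

/-- Coefficients of `(1-x)^b`. -/
def n2coefD : ℕ → List ℤ
  | 0 => [1]
  | (b + 1) => List.zipWith (· - ·) (n2coefD b ++ [0]) (0 :: n2coefD b)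

/-- Coefficients of `(1+x)^a (1-x)^b`. -/
def n2coef (a b : ℕ) : List ℤ :=
  match a with
  | 0 => n2coefD b
  | (a + 1) => List.zipWith (· + ·) (n2coef a b ++ [0]) (0 :: n2coef a b)

/-- Evaluation of a coefficient list on a function. -/
noncomputable def n2ev : List ℤ → (ℝ → ℝ) → ℝ → ℝ
  | [], _, _ => 0
  | (c :: l), φ, x => c * φ x + n2ev l φ (x - 2)

lemma n2ev_append (l : List ℤ) (φ : ℝ → ℝ) : ∀ x : ℝ, n2ev (l ++ [0]) φ x = n2ev l φ x := by
  induction l with
  | nil => intro x; simp [n2ev]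
  | cons c l ih => intro x; simp [n2ev, ih]

lemma n2ev_add (φ : ℝ → ℝ) : ∀ (l l' : List ℤ), l.length = l'.length → ∀ x : ℝ,
    n2ev (List.zipWith (· + ·) l l') φ x = n2ev l φ x + n2ev l' φ x := by
  intro l
  induction l with
  | nil => intro l' h x; cases l' with
    | nil => simp [n2ev]
    | cons c l' => simp at h
  | cons c l ih => intro l' h x; cases l' with
    | nil => simp at h
    | cons c' l' =>
      simp only [List.zipWith_cons_cons, n2ev]
      rw [ih l' (by simpa using h)]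
      push_cast; ring

lemma n2ev_sub (φ : ℝ → ℝ) : ∀ (l l' : List ℤ), l.length = l'.length → ∀ x : ℝ,
    n2ev (List.zipWith (· - ·) l l') φ x = n2ev l φ x - n2ev l' φ x := by
  intro l
  induction l with
  | nil => intro l' h x; cases l' with
    | nil => simp [n2ev]
    | cons c l' => simp at h
  | cons c l ih => intro l' h x; cases l' with
    | nil => simp at h
    | cons c' l' =>
      simp only [List.zipWith_cons_cons, n2ev]
      rw [ih l' (by simpa using h)]
      push_cast; ring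

lemma n2ev_T (l : List ℤ) (φ : ℝ → ℝ) : ∀ x : ℝ,
    n2T (n2ev l φ) x = (n2ev (List.zipWith (· + ·) (l ++ [0]) (0 :: l)) φ (x + 1)) / 2 := by
  intro x
  rw [n2ev_add φ _ _ (by simp), n2ev_append, n2T_apply]
  simp only [n2ev]
  have : x + 1 - 2 = x - 1 := by ring
  rw [this]; simp

lemma n2ev_D (l : List ℤ) (φ : ℝ → ℝ) : ∀ x : ℝ,
    n2D (n2ev l φ) x = (n2ev (List.zipWith (· - ·) (l ++ [0]) (0 :: l)) φ (x + 1)) / 2 := by
  intro x
  rw [n2ev_sub φ _ _ (by simp), n2ev_append, n2D_apply]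
  simp only [n2ev]
  have : x + 1 - 2 = x - 1 := by ring
  rw [this]; simp

lemma n2_shift_T (φ : ℝ → ℝ) (c d : ℝ) : n2T (fun x => φ (x + c) / d) = fun x => n2T φ (x + c) / d := by
  funext x
  simp only [n2T_apply]
  have h1 : x + 1 + c = x + c + 1 := by ring
  have h2 : x - 1 + c = x + c - 1 := by ring
  rw [h1, h2]; ring

lemma n2_shift_D (φ : ℝ → ℝ) (c d : ℝ) : n2D (fun x => φ (x + c) / d) = fun x => n2D φ (x + c) / d := by
  funext x
  simp only [n2D_apply]
  have h1 : x + 1 + c = x + c + 1 := by ring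
  have h2 : x - 1 + c = x + c - 1 := by ring
  rw [h1, h2]; ring

lemma n2_TD (φ : ℝ → ℝ) : ∀ a b : ℕ,
    (n2T ^ a) ((n2D ^ b) φ) = fun x => n2ev (n2coef a b) φ (x + ((a + b : ℕ) : ℝ)) / 2 ^ (a + b) := by
  intro a
  induction a with
  | zero =>
    intro b
    induction b with
    | zero => funext x; simp [n2coef, n2coefD, n2ev]
    | succ b ih =>
      have h1 : (n2T ^ 0) ((n2D ^ (b + 1)) φ) = n2D ((n2T ^ 0) ((n2D ^ b) φ)) := by
        rw [pow_succ']; simp
      rw [h1, ih, n2_shift_D]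
      funext x
      simp only [n2coef] at *
      rw [n2ev_D]
      simp only [n2coefD, zero_add]
      push_cast
      rw [pow_succ, ← add_assoc]
      field_simp
  | succ a iha =>
    intro b
    have h1 : (n2T ^ (a + 1)) ((n2D ^ b) φ) = n2T ((n2T ^ a) ((n2D ^ b) φ)) := by
      rw [pow_succ']; rfl
    rw [h1, iha, n2_shift_T]
    funext x
    rw [n2ev_T]
    simp only [n2coef]
    have h2 : (2 : ℝ) ^ (a + 1 + b) = 2 ^ (a + b) * 2 := by rw [← pow_succ]; congr 1; ring
    have h3 : x + ((a + b : ℕ) : ℝ) + 1 = x + ((a + 1 + b : ℕ) : ℝ) := by push_cast; ring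
    rw [h2, h3, div_div, mul_comm (2 ^ (a + b)) 2]

/-- Evaluation on the positive part, in integers. -/
def n2evZ : List ℤ → ℤ → ℤ
  | [], _ => 0
  | (c :: l), z => c * max z 0 + n2evZ l (z - 2)

lemma n2ev_eq (t : ℤ) (l : List ℤ) : ∀ z : ℤ,
    n2ev l (fun x => max (x - t) 0) (z : ℝ) = ((n2evZ l (z - t) : ℤ) : ℝ) := by
  induction l with
  | nil => intro z; simp [n2ev, n2evZ]
  | cons c l ih =>
    intro z
    simp only [n2ev, n2evZ]
    have h := ih (z - 2)
    have h2 : z - t - 2 = z - 2 - t := by ring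
    rw [h2]
    push_cast at h ⊢
    rw [h]

/-- The numbers `2^m w_j`. -/
def n2w (m t : ℕ) (j : ℕ) : ℤ := n2evZ (n2coef (m - j) j) ((m : ℤ) - t)

lemma n2w_eq (m t j : ℕ) (hj : j ≤ m) :
    (n2T ^ (m - j)) ((n2D ^ j) (fun x : ℝ => max (x - t) 0)) 0 = (n2w m t j : ℝ) / 2 ^ m := by
  rw [n2_TD]
  simp only [zero_add, Nat.sub_add_cancel hj]
  have := n2ev_eq (t : ℤ) (n2coef (m - j) j) (m : ℤ)
  push_cast at this
  rw [this]
  rfl

theorem n2_main (m t r : ℕ) (W0 M1 M2 : ℤ) (hM : 0 ≤ M1) (hM12 : M1 ≤ M2)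
    (hr : m < 4 * (r + 1) + 1) (h5 : 5 ≤ m)
    (hW0 : n2w m t 0 ≤ W0)
    (hM1 : ∀ j ∈ Finset.Icc 4 (m - 5), |n2w m t j| ≤ M1)
    (hM2 : ∀ j ∈ Finset.Icc 4 (m - 1), |n2w m t j| ≤ M2)
    (i : Fin n) (K : Finset (Fin n)) (C : Finset (Finset (Fin n)))
    (hi : i ∈ K) (hC1 : ∀ S ∈ C, S ⊆ K.erase i) (hC3 : ∀ S ∈ C, 3 ≤ S.card)
    (hCd : ∀ S ∈ C, ∀ T ∈ C, S ≠ T → Disjoint S T) (hm : K.card + C.card = m) :
    avg (fun A => max ((∑ l ∈ K, -chi {l} A) + (∑ S ∈ C, -chi S A) - t) 0) ≤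
      ((W0 + (2 ^ r - 2) * M1 + M2 : ℤ) : ℝ) / 2 ^ m := by
  classical
  set L : Finset (Fin n) := K \ C.biUnion id with hLdef
  have hCK : C.biUnion id ⊆ K.erase i := by
    intro x hx
    obtain ⟨S, hS, hxS⟩ := Finset.mem_biUnion.1 hx
    exact hC1 S hS hxS
  have hpd : (C : Set (Finset (Fin n))).PairwiseDisjoint id := by
    intro S hS T hT h
    exact hCd S hS T hT h
  have hL : ∀ S ∈ C, Disjoint L S := by
    intro S hS
    rw [Finset.disjoint_left]
    intro x hx hxS
    exact (Finset.mem_sdiff.1 hx).2 (Finset.mem_biUnion.2 ⟨S, hS, hxS⟩)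
  have hsub : C.biUnion id ⊆ K := hCK.trans (Finset.erase_subset _ _)
  have hiL : i ∈ L := by
    refine Finset.mem_sdiff.2 ⟨hi, fun h => ?_⟩
    exact (Finset.mem_erase.1 (hCK h)).1 rfl
  have hL1 : 1 ≤ L.card := Finset.card_pos.2 ⟨i, hiL⟩
  have hcardU : (C.biUnion id).card = ∑ S ∈ C, S.card := by
    rw [Finset.card_biUnion]
    · rfl
    · intro S hS T hT h; exact hCd S hS T hT h
  have hcard : L.card + ∑ S ∈ C, (S.card + 1) = m := by
    have h1 : L.card + (C.biUnion id).card = K.card := by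
      rw [hLdef]; exact Finset.card_sdiff_add_card_eq_card hsub
    rw [Finset.sum_add_distrib, Finset.sum_const, smul_eq_mul, mul_one, ← hcardU]
    omega
  have hsum : ∀ A, (∑ l ∈ K, -chi {l} A) + (∑ S ∈ C, -chi S A) =
      (∑ l ∈ L, n2y l A) + ∑ S ∈ C, ((∑ l ∈ S, n2y l A) + (- chi S A)) := by
    intro A
    rw [Finset.sum_add_distrib, ← add_assoc]
    congr 1
    have h1 : ∑ S ∈ C, ∑ l ∈ S, n2y l A = ∑ l ∈ C.biUnion id, n2y l A := by
      rw [Finset.sum_biUnion hpd]; rfl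
    rw [h1, hLdef, Finset.sum_sdiff hsub]
    rfl
  have h1 : avg (fun A => max ((∑ l ∈ K, -chi {l} A) + (∑ S ∈ C, -chi S A) - t) 0) =
      avg (fun A => (fun x : ℝ => max (x - t) 0) ((∑ l ∈ L, n2y l A) +
        ∑ S ∈ C, ((∑ l ∈ S, n2y l A) + (- chi S A)))) := by
    congr 1; funext A; simp only; rw [hsum A]
  rw [h1, n2_expand L C hL hCd (fun x : ℝ => max (x - t) 0)]
  have hsplit : ∀ E ∈ C.powerset, (∑ S ∈ C \ E, (S.card + 1)) + ∑ S ∈ E, (S.card + 1) =
      ∑ S ∈ C, (S.card + 1) := by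
    intro E hE
    exact Finset.sum_sdiff (Finset.mem_powerset.1 hE)
  have hterm : ∀ E ∈ C.powerset, (∏ S ∈ E, (-(-1 : ℝ) ^ S.card)) *
        (n2T ^ (L.card + ∑ S ∈ C \ E, (S.card + 1)))
          ((n2D ^ (∑ S ∈ E, (S.card + 1))) (fun x : ℝ => max (x - t) 0)) 0 ≤
        ((M1 + (if E = ∅ then W0 - M1 else 0) + (if E = C then M2 - M1 else 0) : ℤ) : ℝ) / 2 ^ m := by
    intro E hE
    have h2 := hsplit E hE
    have h3 : L.card + ∑ S ∈ C \ E, (S.card + 1) = m - ∑ S ∈ E, (S.card + 1) := by omega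
    rw [h3, n2w_eq m t _ (by omega)]
    have hsg : |∏ S ∈ E, (-(-1 : ℝ) ^ S.card)| = 1 := by
      rw [Finset.abs_prod]
      refine Finset.prod_eq_one (fun S _ => ?_)
      rw [abs_neg, abs_pow, abs_neg, abs_one, one_pow]
    have hpos : (0 : ℝ) < 2 ^ m := by positivity
    rw [← mul_div_assoc]
    refine div_le_div_of_nonneg_right ?_ hpos.le
    by_cases hE0 : E = ∅
    · subst hE0
      simp only [Finset.prod_empty, Finset.sum_empty, one_mul, if_true]
      have : n2w m t 0 ≤ M1 + (W0 - M1) + (if ∅ = C then M2 - M1 else 0) := by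
        split_ifs
        · linarith
        · linarith
      exact_mod_cast this
    · have hj4 : 4 ≤ ∑ S ∈ E, (S.card + 1) := by
        obtain ⟨S, hS⟩ := Finset.nonempty_iff_ne_empty.2 hE0
        have h4 : S.card + 1 ≤ ∑ S ∈ E, (S.card + 1) :=
          Finset.single_le_sum (f := fun S : Finset (Fin n) => S.card + 1) (fun _ _ => Nat.zero_le _) hS
        have := hC3 S (Finset.mem_powerset.1 hE hS)
        omega
      have habs : (∏ S ∈ E, (-(-1 : ℝ) ^ S.card)) * (n2w m t (∑ S ∈ E, (S.card + 1)) : ℝ) ≤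
          ((|n2w m t (∑ S ∈ E, (S.card + 1))| : ℤ) : ℝ) := by
        refine (le_abs_self _).trans ?_
        rw [abs_mul, hsg, one_mul]
        push_cast
        exact le_rfl
      refine habs.trans ?_
      rw [if_neg hE0]
      by_cases hEC : E = C
      · subst hEC
        simp only [if_true]
        have := hM2 (∑ S ∈ E, (S.card + 1)) (Finset.mem_Icc.2 ⟨hj4, by omega⟩)
        have h5 : |n2w m t (∑ S ∈ E, (S.card + 1))| ≤ M1 + 0 + (M2 - M1) := by linarith
        exact_mod_cast h5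
      · rw [if_neg hEC]
        have hex : ∃ S ∈ C, S ∉ E := by
          by_contra hcon
          push Not at hcon
          exact hEC (Finset.Subset.antisymm (Finset.mem_powerset.1 hE) hcon)
        obtain ⟨S, hS, hSE⟩ := hex
        have h4 : S.card + 1 ≤ ∑ S ∈ C \ E, (S.card + 1) :=
          Finset.single_le_sum (f := fun S : Finset (Fin n) => S.card + 1) (fun _ _ => Nat.zero_le _)
            (Finset.mem_sdiff.2 ⟨hS, hSE⟩)
        have h6 := hC3 S hS
        have := hM1 (∑ S ∈ E, (S.card + 1)) (Finset.mem_Icc.2 ⟨hj4, by omega⟩)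
        have h5 : |n2w m t (∑ S ∈ E, (S.card + 1))| ≤ M1 + 0 + 0 := by linarith
        exact_mod_cast h5
  refine (Finset.sum_le_sum hterm).trans ?_
  rw [← Finset.sum_div]
  refine div_le_div_of_nonneg_right ?_ (by positivity)
  have hrC : C.card ≤ r := by
    have h7 : ∑ S ∈ C, 4 ≤ ∑ S ∈ C, (S.card + 1) :=
      Finset.sum_le_sum (fun S hS => by have := hC3 S hS; omega)
    rw [Finset.sum_const, smul_eq_mul] at h7
    omega
  have hpow : (2 : ℤ) ^ C.card ≤ 2 ^ r := pow_le_pow_right₀ (by norm_num) hrC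
  have hfin : ∑ E ∈ C.powerset, (M1 + (if E = ∅ then W0 - M1 else 0) +
      (if E = C then M2 - M1 else 0) : ℤ) ≤ W0 + (2 ^ r - 2) * M1 + M2 := by
    rw [Finset.sum_add_distrib, Finset.sum_add_distrib, Finset.sum_const, Finset.card_powerset,
      Finset.sum_ite_eq', Finset.sum_ite_eq']
    rw [if_pos (Finset.empty_mem_powerset C), if_pos (Finset.mem_powerset_self C), nsmul_eq_mul]
    push_cast
    nlinarith
  exact_mod_cast hfin

theorem plus_bound_16 {n : ℕ} (i : Fin n) (K : Finset (Fin n)) (C : Finset (Finset (Fin n)))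
    (hi : i ∈ K) (hC1 : ∀ S ∈ C, S ⊆ K.erase i) (hC3 : ∀ S ∈ C, 3 ≤ S.card)
    (hCd : ∀ S ∈ C, ∀ T ∈ C, S ≠ T → Disjoint S T) (hm : K.card + C.card = 16) :
    avg (fun A => max ((∑ l ∈ K, -chi {l} A) + (∑ S ∈ C, -chi S A) - 4) 0) ≤ 3465 / 10000 := by
  have h := n2_main 16 4 3 20508 176 1144 (by norm_num) (by norm_num) (by norm_num) (by norm_num)
    (by decide +kernel) (by decide +kernel) (by decide +kernel) i K C hi hC1 hC3 hCd hm
  refine le_trans (le_of_eq ?_) (h.trans ?_)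
  · norm_cast
  · norm_num

theorem plus_bound_18 {n : ℕ} (i : Fin n) (K : Finset (Fin n)) (C : Finset (Finset (Fin n)))
    (hi : i ∈ K) (hC1 : ∀ S ∈ C, S ⊆ K.erase i) (hC3 : ∀ S ∈ C, 3 ≤ S.card)
    (hCd : ∀ S ∈ C, ∀ T ∈ C, S ≠ T → Disjoint S T) (hm : K.card + C.card = 18) :
    avg (fun A => max ((∑ l ∈ K, -chi {l} A) + (∑ S ∈ C, -chi S A) - 4) 0) ≤ 42 / 100 := by
  have h := n2_main 18 4 4 98048 572 4004 (by norm_num) (by norm_num) (by norm_num) (by norm_num)
    (by decide +kernel) (by decide +kernel) (by decide +kernel) i K C hi hC1 hC3 hCd hm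
  refine le_trans (le_of_eq ?_) (h.trans ?_)
  · norm_cast
  · norm_num

theorem plus_bound_15 {n : ℕ} (i : Fin n) (K : Finset (Fin n)) (C : Finset (Finset (Fin n)))
    (hi : i ∈ K) (hC1 : ∀ S ∈ C, S ⊆ K.erase i) (hC3 : ∀ S ∈ C, 3 ≤ S.card)
    (hCd : ∀ S ∈ C, ∀ T ∈ C, S ≠ T → Disjoint S T) (hm : K.card + C.card = 15) :
    avg (fun A => max ((∑ l ∈ K, -chi {l} A) + (∑ S ∈ C, -chi S A) - 3) 0) ≤ 5051 / 10000 := by
  have h := n2_main 15 3 3 15198 126 594 (by norm_num) (by norm_num) (by norm_num) (by norm_num)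
    (by decide +kernel) (by decide +kernel) (by decide +kernel) i K C hi hC1 hC3 hCd hm
  refine le_trans (le_of_eq ?_) (h.trans ?_)
  · norm_cast
  · norm_num

end Pool.Agent.Lib.MP36
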