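import Pool.Agent.Lib.MP_36bd7d_h28.Near1
import Pool.Agent.Lib.MP_36bd7d_h28.Near2

set_option autoImplicit false

open Finset

namespace Pool.Agent.Lib.MP36

lemma near3_hat_single {n : ℕ} (g : Finset (Fin n) → ℝ) (l : Fin n) :
    -hat g {l} = (avg (fun A => g (insert l A)) - avg (fun A => g (A.erase l))) / 2 := by
  have h1 : ∑ A : Finset (Fin n), g A * chi {l} A
      = (∑ A : Finset (Fin n), (g A - g (symmDiff A {l})) * chi {l} A) / 2 := by
    have h2 : ∑ A : Finset (Fin n), g (symmDiff A {l}) * chi {l} A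
        = - ∑ A : Finset (Fin n), g A * chi {l} A := by
      rw [← sum_symmDiff (fun A => g (symmDiff A {l}) * chi {l} A) {l}]
      rw [← Finset.sum_neg_distrib]
      refine Finset.sum_congr rfl (fun A _ => ?_)
      rw [chi_symmDiff, chi_single {l} l (by simp)]
      simp
    simp_rw [sub_mul]
    rw [Finset.sum_sub_distrib, h2]
    ring
  have h3 : ∑ A : Finset (Fin n), (g A - g (symmDiff A {l})) * chi {l} A
      = - ∑ A : Finset (Fin n), (g (insert l A) - g (A.erase l)) := by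
    rw [← Finset.sum_neg_distrib]
    refine Finset.sum_congr rfl (fun A _ => ?_)
    by_cases h : l ∈ A
    · rw [symmDiff_single_mem h, Finset.insert_eq_of_mem h]
      simp [chi, h]
    · rw [symmDiff_single_not_mem h, Finset.erase_eq_of_notMem h]
      simp [chi, h]
  unfold hat avg
  rw [h1, h3, Finset.sum_sub_distrib]
  ring

lemma near3_sum {n : ℕ} (g : Finset (Fin n) → ℝ) (K : Finset (Fin n))
    (C : Finset (Finset (Fin n))) :
    avg (fun A => g A * ((∑ l ∈ K, -chi {l} A) + (∑ S ∈ C, -chi S A)))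
      = (∑ l ∈ K, -hat g {l}) + ∑ S ∈ C, -hat g S := by
  have h1 : ∀ {κ : Type} (s : Finset κ) (f : κ → Finset (Fin n)),
      (∑ A : Finset (Fin n), g A * ∑ x ∈ s, -chi (f x) A) / 2 ^ n = ∑ x ∈ s, -hat g (f x) := by
    intro κ s f
    unfold hat
    simp_rw [Finset.mul_sum]
    rw [Finset.sum_comm, Finset.sum_div]
    refine Finset.sum_congr rfl (fun x _ => ?_)
    rw [← neg_div, ← Finset.sum_neg_distrib]
    simp
  unfold avg
  simp_rw [mul_add]
  rw [Finset.sum_add_distrib, add_div]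
  rw [h1 K (fun l => {l}), h1 C (fun S => S)]

lemma near3_aux {n : ℕ} (g : Finset (Fin n) → ℝ) (h01 : ∀ A, g A = 0 ∨ g A = 1)
    (hmono : ∀ A B, A ⊆ B → g A ≤ g B) (i : Fin n) (μ δ ρ : ℝ) (hμ : avg g = μ)
    (hδ : ∀ l, -hat g {l} ≤ δ) (hi : ρ * δ < -hat g {i}) (hρ0 : 0 < ρ) (hρ1 : ρ ≤ 1)
    (hA : μ ≤ 3 * (ρ * δ)) (hB : 1 / 4 < δ * (4 - 14 * (1 - ρ))) (m : ℕ) (hm : 1 ≤ m) (t c : ℝ)
    (hplus : ∀ (K : Finset (Fin n)) (C : Finset (Finset (Fin n))), i ∈ K →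
      (∀ S ∈ C, S ⊆ K.erase i) → (∀ S ∈ C, 3 ≤ S.card) →
      (∀ S ∈ C, ∀ T ∈ C, S ≠ T → Disjoint S T) → K.card + C.card = m →
      avg (fun A => max ((∑ l ∈ K, -chi {l} A) + (∑ S ∈ C, -chi S A) - t) 0) ≤ c)
    (hC : t * μ + c < m * (ρ * δ)) :
    ((Finset.univ : Finset (Finset (Fin n))).filter
      (fun S => S ≠ ∅ ∧ i ∉ S ∧ hat g S < -(ρ * δ))).card < m - 1 := by
  classical
  by_contra hcon
  replace hcon := not_lt.mp hcon
  set T := (Finset.univ : Finset (Finset (Fin n))).filter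
      (fun S => S ≠ ∅ ∧ i ∉ S ∧ hat g S < -(ρ * δ)) with hT
  set K : Finset (Fin n) := Finset.univ.filter (fun l => ρ * δ < -hat g {l}) with hK
  set C : Finset (Finset (Fin n)) := T.filter (fun S => 2 ≤ S.card) with hCdef
  have hiK : i ∈ K := by simp [hK, hi]
  have hTmem : ∀ S ∈ T, S ≠ ∅ ∧ i ∉ S ∧ hat g S < -(ρ * δ) := by
    intro S hS; simpa [hT] using hS
  have hsub : ∀ S ∈ T, S ⊆ K.erase i := by
    intro S hS l hl
    obtain ⟨-, h2, h3⟩ := hTmem S hS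
    rw [Finset.mem_erase]
    refine ⟨fun h => h2 (h ▸ hl), ?_⟩
    have h4 := abs_hat_le g hmono S l hl
    rw [← near3_hat_single] at h4
    have h5 := neg_le_abs (hat g S)
    simp only [hK, Finset.mem_filter, Finset.mem_univ, true_and]
    linarith
  have hcard : T.card ≤ (K.card - 1) + C.card := by
    have h1 : T ⊆ (K.erase i).image (fun l => ({l} : Finset (Fin n))) ∪ C := by
      intro S hS
      rw [Finset.mem_union]
      by_cases h2 : 2 ≤ S.card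
      · right; simp [hCdef, hS, h2]
      · left
        have h3 : S.card = 1 := by
          have : S.card ≠ 0 := by
            rw [Ne, Finset.card_eq_zero]; exact (hTmem S hS).1
          omega
        obtain ⟨l, hl⟩ := Finset.card_eq_one.mp h3
        rw [Finset.mem_image]
        exact ⟨l, hsub S hS (by simp [hl]), hl.symm⟩
    calc T.card ≤ _ := Finset.card_le_card h1
      _ ≤ _ := Finset.card_union_le _ _
      _ ≤ _ := by
          gcongr
          exact Finset.card_image_le.trans (by rw [Finset.card_erase_of_mem hiK])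
  have hK1 : 1 ≤ K.card := Finset.card_pos.mpr ⟨i, hiK⟩
  have hge : m ≤ K.card + C.card := by omega
  obtain ⟨K', C', hK', hiK', hC', hC'', hcard'⟩ : ∃ (K' : Finset (Fin n))
      (C' : Finset (Finset (Fin n))), K' ⊆ K ∧ i ∈ K' ∧ C' ⊆ C ∧
      (∀ S ∈ C', S ⊆ K'.erase i) ∧ K'.card + C'.card = m := by
    by_cases h : m ≤ K.card
    · obtain ⟨K', h1, h2, h3⟩ := Finset.exists_subsuperset_card_eq
        (Finset.singleton_subset_iff.mpr hiK) (n := m) (by simpa using hm) h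
      exact ⟨K', ∅, h2, Finset.singleton_subset_iff.mp h1, by simp, by simp, by simpa using h3⟩
    · push Not at h
      obtain ⟨C', h1, h2⟩ := Finset.exists_subset_card_eq (s := C) (n := m - K.card) (by omega)
      refine ⟨K, C', subset_rfl, hiK, h1, ?_, by omega⟩
      intro S hS
      exact hsub S (Finset.mem_filter.mp (h1 hS)).1
  have hCT : ∀ S ∈ C', S ∈ T ∧ 2 ≤ S.card := fun S hS => by
    simpa [hCdef] using Finset.mem_filter.mp (hC' hS)
  have h3 : ∀ S ∈ C', 3 ≤ S.card := by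
    intro S hS
    have h1 := (hCT S hS).2
    have h2 := top_card_ne_two g h01 hmono μ δ ρ hμ hδ hρ0 hρ1 hA S (hTmem S (hCT S hS).1).2.2
    omega
  have hdis : ∀ S ∈ C', ∀ T ∈ C', S ≠ T → Disjoint S T := by
    intro S hS S' hS' hne
    exact top_disjoint g h01 hmono μ δ ρ hμ hδ hρ0 hρ1 hA hB S S'
      (hTmem S (hCT S hS).1).2.2 (hTmem S' (hCT S' hS').1).2.2 (hCT S hS).2 (hCT S' hS').2 hne
  have hpl := hplus K' C' hiK' hC'' h3 hdis hcard'
  have hsum : (m : ℝ) * (ρ * δ) < (∑ l ∈ K', -hat g {l}) + ∑ S ∈ C', -hat g S := by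
    have h1 : ∑ l ∈ K', (ρ * δ) < ∑ l ∈ K', -hat g {l} := by
      refine Finset.sum_lt_sum_of_nonempty ⟨i, hiK'⟩ ?_
      intro l hl
      simpa [hK] using hK' hl
    have h2 : ∑ S ∈ C', (ρ * δ) ≤ ∑ S ∈ C', -hat g S := by
      refine Finset.sum_le_sum ?_
      intro S hS
      have := (hTmem S (hCT S hS).1).2.2
      linarith
    rw [Finset.sum_const, nsmul_eq_mul] at h1 h2
    have h4 : (m : ℝ) = K'.card + C'.card := by rw [← hcard']; push_cast; ring
    rw [h4]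
    linarith
  rw [← near3_sum] at hsum
  have hle : avg (fun A => g A * ((∑ l ∈ K', -chi {l} A) + (∑ S ∈ C', -chi S A)))
      ≤ t * μ + avg (fun A => max ((∑ l ∈ K', -chi {l} A) + (∑ S ∈ C', -chi S A) - t) 0) := by
    rw [← hμ]
    unfold avg
    rw [← mul_div_assoc, ← add_div, Finset.mul_sum, ← Finset.sum_add_distrib]
    have h2n : (0 : ℝ) < 2 ^ n := by positivity
    gcongr with A
    beta_reduce
    set x := (∑ l ∈ K', -chi {l} A) + (∑ S ∈ C', -chi S A)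
    rcases h01 A with h | h
    · rw [h, zero_mul, mul_zero, zero_add]
      exact le_max_right _ _
    · rw [h, one_mul, mul_one]
      have := le_max_left (x - t) 0
      linarith
  linarith

theorem near_top_16 {n : ℕ} (g : Finset (Fin n) → ℝ) (h01 : ∀ A, g A = 0 ∨ g A = 1)
    (hmono : ∀ A B, A ⊆ B → g A ≤ g B) (i : Fin n) (μ δ ρ : ℝ) (hμ : avg g = μ)
    (hδ : ∀ l, -hat g {l} ≤ δ) (hi : ρ * δ < -hat g {i}) (hρ0 : 0 < ρ) (hρ1 : ρ ≤ 1)
    (hA : μ ≤ 3 * (ρ * δ)) (hB : 1 / 4 < δ * (4 - 14 * (1 - ρ)))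
    (hC : 4 * μ + 3465 / 10000 < 16 * (ρ * δ)) :
    ((Finset.univ : Finset (Finset (Fin n))).filter
      (fun S => S ≠ ∅ ∧ i ∉ S ∧ hat g S < -(ρ * δ))).card ≤ 14 := by
  have := near3_aux g h01 hmono i μ δ ρ hμ hδ hi hρ0 hρ1 hA hB 16 (by norm_num) 4 _
    (fun K C h1 h2 h3 h4 h5 => plus_bound_16 i K C h1 h2 h3 h4 h5) (by push_cast; exact hC)
  omega

theorem near_top_18 {n : ℕ} (g : Finset (Fin n) → ℝ) (h01 : ∀ A, g A = 0 ∨ g A = 1)
    (hmono : ∀ A B, A ⊆ B → g A ≤ g B) (i : Fin n) (μ δ ρ : ℝ) (hμ : avg g = μ)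
    (hδ : ∀ l, -hat g {l} ≤ δ) (hi : ρ * δ < -hat g {i}) (hρ0 : 0 < ρ) (hρ1 : ρ ≤ 1)
    (hA : μ ≤ 3 * (ρ * δ)) (hB : 1 / 4 < δ * (4 - 14 * (1 - ρ)))
    (hC : 4 * μ + 42 / 100 < 18 * (ρ * δ)) :
    ((Finset.univ : Finset (Finset (Fin n))).filter
      (fun S => S ≠ ∅ ∧ i ∉ S ∧ hat g S < -(ρ * δ))).card ≤ 16 := by
  have := near3_aux g h01 hmono i μ δ ρ hμ hδ hi hρ0 hρ1 hA hB 18 (by norm_num) 4 _
    (fun K C h1 h2 h3 h4 h5 => plus_bound_18 i K C h1 h2 h3 h4 h5) (by push_cast; exact hC)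
  omega

theorem near_top_15 {n : ℕ} (g : Finset (Fin n) → ℝ) (h01 : ∀ A, g A = 0 ∨ g A = 1)
    (hmono : ∀ A B, A ⊆ B → g A ≤ g B) (i : Fin n) (μ δ ρ : ℝ) (hμ : avg g = μ)
    (hδ : ∀ l, -hat g {l} ≤ δ) (hi : ρ * δ < -hat g {i}) (hρ0 : 0 < ρ) (hρ1 : ρ ≤ 1)
    (hA : μ ≤ 3 * (ρ * δ)) (hB : 1 / 4 < δ * (4 - 14 * (1 - ρ)))
    (hC : 3 * μ + 5051 / 10000 < 15 * (ρ * δ)) :
    ((Finset.univ : Finset (Finset (Fin n))).filter
      (fun S => S ≠ ∅ ∧ i ∉ S ∧ hat g S < -(ρ * δ))).card ≤ 13 := by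
  have := near3_aux g h01 hmono i μ δ ρ hμ hδ hi hρ0 hρ1 hA hB 15 (by norm_num) 3 _
    (fun K C h1 h2 h3 h4 h5 => plus_bound_15 i K C h1 h2 h3 h4 h5) (by push_cast; exact hC)
  omega

end Pool.Agent.Lib.MP36
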