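import Pool.Agent.Lib.MP_36bd7d_h28.Near1
import Pool.Agent.Lib.MP_36bd7d_h28.Near3
import Pool.Agent.Lib.MP_36bd7d_co.NearCount

/-!
MP_36bd7d_co: counts of the near-top characters of `P + Q`, where `P A = g (A.erase i)` and
`Q A = g (insert i A)` for a monotone 0/1 function `g`.
-/
set_option autoImplicit false

open Finset

namespace Pool.Agent.Lib.MP36

variable {n : ℕ}

/-- flipping the membership of `i` -/
def cntFlip (i : Fin n) : Finset (Fin n) ≃ Finset (Fin n) where
  toFun A := symmDiff A {i}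
  invFun A := symmDiff A {i}
  left_inv A := by simp
  right_inv A := by simp

lemma cntFlip_apply (i : Fin n) (A : Finset (Fin n)) : cntFlip i A = symmDiff A {i} := rfl

lemma cnt_symmDiff_of_mem {i : Fin n} {A : Finset (Fin n)} (h : i ∈ A) :
    symmDiff A {i} = A.erase i := by
  ext j
  by_cases hj : j = i
  · subst hj; simp [Finset.mem_symmDiff, h]
  · simp [Finset.mem_symmDiff, hj]

lemma cnt_symmDiff_of_notMem {i : Fin n} {A : Finset (Fin n)} (h : i ∉ A) :
    symmDiff A {i} = insert i A := by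
  ext j
  by_cases hj : j = i
  · subst hj; simp [Finset.mem_symmDiff, h]
  · simp [Finset.mem_symmDiff, hj]

lemma cnt_chi_flip_of_mem {S : Finset (Fin n)} {i : Fin n} (h : i ∈ S) (A : Finset (Fin n)) :
    chi S (symmDiff A {i}) = - chi S A := by
  rw [chi_symmDiff, chi_single S i h]; ring

lemma cnt_chi_single_of_notMem {S : Finset (Fin n)} {i : Fin n} (h : i ∉ S) :
    chi S {i} = 1 := by
  unfold chi
  refine Finset.prod_eq_one (fun j hj => ?_)
  have : j ≠ i := fun e => h (e ▸ hj)
  simp [this]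

lemma cnt_chi_flip_of_notMem {S : Finset (Fin n)} {i : Fin n} (h : i ∉ S)
    (A : Finset (Fin n)) : chi S (symmDiff A {i}) = chi S A := by
  rw [chi_symmDiff, cnt_chi_single_of_notMem h, mul_one]

lemma cnt_sum_flip (i : Fin n) (f : Finset (Fin n) → ℝ) :
    ∑ A, f (symmDiff A {i}) = ∑ A, f A :=
  (cntFlip i).sum_comp f

/-- a function which does not depend on `i` has no coefficient at `S ∋ i` -/
lemma cnt_hat_eq_zero {i : Fin n} {f : Finset (Fin n) → ℝ}
    (hf : ∀ A, f (symmDiff A {i}) = f A) {S : Finset (Fin n)} (h : i ∈ S) : hat f S = 0 := by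
  have h1 := cnt_sum_flip i (fun A => f A * chi S A)
  simp only [hf, cnt_chi_flip_of_mem h, mul_neg, Finset.sum_neg_distrib] at h1
  have h2 : ∑ A, f A * chi S A = 0 := by linarith
  unfold hat
  rw [h2, zero_div]

lemma cnt_erase_flip (g : Finset (Fin n) → ℝ) (i : Fin n) (A : Finset (Fin n)) :
    g ((symmDiff A {i}).erase i) = g (A.erase i) := by
  by_cases h : i ∈ A
  · rw [cnt_symmDiff_of_mem h]; simp
  · rw [cnt_symmDiff_of_notMem h, Finset.erase_insert h, Finset.erase_eq_of_notMem h]

lemma cnt_insert_flip (g : Finset (Fin n) → ℝ) (i : Fin n) (A : Finset (Fin n)) :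
    g (insert i (symmDiff A {i})) = g (insert i A) := by
  by_cases h : i ∈ A
  · rw [cnt_symmDiff_of_mem h, Finset.insert_erase h, Finset.insert_eq_of_mem h]
  · rw [cnt_symmDiff_of_notMem h]; simp

lemma cnt_pair (g : Finset (Fin n) → ℝ) (i : Fin n) (A : Finset (Fin n)) :
    g A + g (symmDiff A {i}) = g (A.erase i) + g (insert i A) := by
  by_cases h : i ∈ A
  · rw [cnt_symmDiff_of_mem h, Finset.insert_eq_of_mem h]; ring
  · rw [cnt_symmDiff_of_notMem h, Finset.erase_eq_of_notMem h]

lemma cnt_pair' (g : Finset (Fin n) → ℝ) (i : Fin n) (A : Finset (Fin n)) :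
    g A * chi {i} A + g (symmDiff A {i}) * chi {i} (symmDiff A {i})
      = g (A.erase i) - g (insert i A) := by
  rw [cnt_chi_flip_of_mem (Finset.mem_singleton_self i)]
  by_cases h : i ∈ A
  · rw [cnt_symmDiff_of_mem h, Finset.insert_eq_of_mem h]
    have : chi {i} A = -1 := by simp [chi, h]
    rw [this]; ring
  · rw [cnt_symmDiff_of_notMem h, Finset.erase_eq_of_notMem h]
    have : chi {i} A = 1 := by simp [chi, h]
    rw [this]; ring

lemma cnt_hat_add (f g : Finset (Fin n) → ℝ) (S : Finset (Fin n)) :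
    hat (fun A => f A + g A) S = hat f S + hat g S := by
  unfold hat
  rw [← add_div, ← Finset.sum_add_distrib]
  congr 1
  exact Finset.sum_congr rfl (fun A _ => by ring)

lemma cnt_hat_half (g : Finset (Fin n) → ℝ) {i : Fin n} {S : Finset (Fin n)} (h : i ∉ S) :
    hat (fun A => g (A.erase i)) S + hat (fun A => g (insert i A)) S = 2 * hat g S := by
  rw [← cnt_hat_add]
  have h1 := cnt_sum_flip i (fun A => g A * chi S A)
  simp only [cnt_chi_flip_of_notMem h] at h1
  unfold hat
  have h2 : ∑ A, (g (A.erase i) + g (insert i A)) * chi S A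
      = ∑ A, g A * chi S A + ∑ A, g (symmDiff A {i}) * chi S A := by
    rw [← Finset.sum_add_distrib]
    refine Finset.sum_congr rfl (fun A _ => ?_)
    rw [← cnt_pair]; ring
  rw [h2, h1]
  ring

lemma cnt_hat_single (g : Finset (Fin n) → ℝ) (i : Fin n) :
    avg (fun A => g (A.erase i)) - avg (fun A => g (insert i A)) = 2 * hat g {i} := by
  have h1 := cnt_sum_flip i (fun A => g A * chi {i} A)
  unfold hat avg
  have h2 : ∑ A, (g (A.erase i) - g (insert i A))
      = ∑ A, g A * chi {i} A + ∑ A, g (symmDiff A {i}) * chi {i} (symmDiff A {i}) := by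
    rw [← Finset.sum_add_distrib]
    exact Finset.sum_congr rfl (fun A _ => (cnt_pair' g i A).symm)
  rw [← sub_div, ← Finset.sum_sub_distrib, h2, h1]
  ring

lemma cnt_mono_comp {f : Finset (Fin n) → ℝ} (hmono : ∀ A B, A ⊆ B → f A ≤ f B) :
    Pool.Agent.C36.Mono (fun x : Fin n → ZMod 2 => f (nequiv x)) := by
  intro x y h
  refine hmono _ _ (fun j hj => ?_)
  simp only [nequiv, nsupp, Equiv.coe_fn_mk, Finset.mem_filter, Finset.mem_univ,
    true_and] at hj ⊢
  exact h j hj

theorem count13 {n : ℕ} (g : Finset (Fin n) → ℝ) (i : Fin n) (q ρ : ℝ)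
    (h01 : ∀ A, g A = 0 ∨ g A = 1) (hmono : ∀ A B, A ⊆ B → g A ≤ g B)
    (hp : avg (fun A => g (A.erase i)) = 1 / 8) (hq : avg (fun A => g (insert i A)) = q)
    (hW : ∀ W : Finset (Fin n), W ≠ ∅ →
      |hat (fun A => g (A.erase i)) W| + |hat (fun A => g (insert i A)) W| ≤ q - 1 / 8)
    (h1 : 1 < (q - 1 / 8) * (8 - 22 * (1 - ρ))) (h2 : (1 / 8 + q) / 3 < ρ * (q - 1 / 8))
    (h4 : 4 * (1 / 8) + 2 * q + 93998 / 100000 < 14 * (ρ * (q - 1 / 8))) :
    ((Finset.univ : Finset (Finset (Fin n))).filter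
      (fun S => S ≠ ∅ ∧ hat (fun A => g (A.erase i)) S + hat (fun A => g (insert i A)) S
        < -(ρ * (q - 1 / 8)))).card ≤ 13 := by
  have hg0 : ∀ A, 0 ≤ g A := fun A => by rcases h01 A with h | h <;> rw [h] <;> norm_num
  have hg1 : ∀ A, g A ≤ 1 := fun A => by rcases h01 A with h | h <;> rw [h] <;> norm_num
  have hPm : Pool.Agent.C36.Mono (fun x : Fin n → ZMod 2 => g ((nequiv x).erase i)) :=
    cnt_mono_comp (f := fun A => g (A.erase i))
      (fun A B hAB => hmono _ _ (Finset.erase_subset_erase i hAB))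
  have hQm : Pool.Agent.C36.Mono (fun x : Fin n → ZMod 2 => g (insert i (nequiv x))) :=
    cnt_mono_comp (f := fun A => g (insert i A))
      (fun A B hAB => hmono _ _ (Finset.insert_subset_insert i hAB))
  have hP : Pool.Agent.C36.avg (fun x : Fin n → ZMod 2 => g ((nequiv x).erase i)) = 1 / 8 := by
    rw [navg_eq (fun A => g (A.erase i)), hp]
  have hQ : Pool.Agent.C36.avg (fun x : Fin n → ZMod 2 => g (insert i (nequiv x))) = q := by
    rw [navg_eq (fun A => g (insert i A)), hq]
  have hhat : ∀ S, Pool.Agent.C36.hat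
      (fun x : Fin n → ZMod 2 => g ((nequiv x).erase i) + g (insert i (nequiv x))) S
      = hat (fun A => g (A.erase i)) S + hat (fun A => g (insert i A)) S := by
    intro S
    rw [nhat_eq (fun A => g (A.erase i) + g (insert i A)), cnt_hat_add]
  have key := Pool.Agent.C36.near_top_card_le
    (fun x : Fin n → ZMod 2 => g ((nequiv x).erase i))
    (fun x : Fin n → ZMod 2 => g (insert i (nequiv x)))
    (fun x : Fin n → ZMod 2 => g ((nequiv x).erase i) + g (insert i (nequiv x)))
    (fun x => rfl) hPm hQm (fun x => hg0 _) (fun x => hg1 _) (fun x => hg0 _) (fun x => hg1 _)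
    (q - 1 / 8) (1 - ρ) ?_ h1 ?_ ?_
  · refine le_trans (Finset.card_le_card ?_) key
    intro S hS
    rw [Finset.mem_filter] at hS ⊢
    refine ⟨Finset.mem_univ _, Finset.nonempty_iff_ne_empty.2 hS.2.1, ?_⟩
    rw [hhat]
    have := hS.2.2
    linarith
  · intro j
    rw [hhat]
    have h := hW {j} (Finset.singleton_ne_empty j)
    have ha := neg_abs_le (hat (fun A => g (A.erase i)) {j})
    have hb := neg_abs_le (hat (fun A => g (insert i A)) {j})
    linarith
  · rw [hP, hQ]; linarith
  · rw [hP, hQ]; linarith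

theorem count16 {n : ℕ} (g : Finset (Fin n) → ℝ) (i : Fin n) (q : ℝ)
    (h01 : ∀ A, g A = 0 ∨ g A = 1) (hmono : ∀ A B, A ⊆ B → g A ≤ g B)
    (hp : avg (fun A => g (A.erase i)) = 1 / 8) (hq : avg (fun A => g (insert i A)) = q)
    (hW : ∀ W : Finset (Fin n), W ≠ ∅ →
      |hat (fun A => g (A.erase i)) W| + |hat (fun A => g (insert i A)) W| ≤ q - 1 / 8)
    (hq1 : 26 / 100 ≤ q) :
    ((Finset.univ : Finset (Finset (Fin n))).filter
      (fun S => S ≠ ∅ ∧ hat (fun A => g (A.erase i)) S + hat (fun A => g (insert i A)) S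
        < -(98 / 100 * (q - 1 / 8)))).card ≤ 16 := by
  have hμ : avg g = (q + 1 / 8) / 2 := by
    have h := cnt_hat_half g (i := i) (Finset.notMem_empty i)
    rw [hat_empty, hat_empty, hat_empty, hp, hq] at h
    linarith
  have hi : hat g {i} = -((q - 1 / 8) / 2) := by
    have h := cnt_hat_single g i
    rw [hp, hq] at h
    linarith
  have key := near_top_18 g h01 hmono i ((q + 1 / 8) / 2) ((q - 1 / 8) / 2) (98 / 100) hμ
    ?_ ?_ (by norm_num) (by norm_num) (by linarith) (by linarith) (by linarith)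
  · refine le_trans (Finset.card_le_card ?_) key
    intro S hS
    rw [Finset.mem_filter] at hS ⊢
    obtain ⟨-, hne, hlt⟩ := hS
    have hiS : i ∉ S := by
      intro hiS
      rw [cnt_hat_eq_zero (i := i) (cnt_erase_flip g i) hiS,
        cnt_hat_eq_zero (i := i) (cnt_insert_flip g i) hiS] at hlt
      linarith
    refine ⟨Finset.mem_univ _, hne, hiS, ?_⟩
    have h := cnt_hat_half g hiS
    linarith
  · intro l
    by_cases hl : l = i
    · subst hl; rw [hi]; linarith
    · have h := cnt_hat_half g (i := i) (S := {l}) (by simpa using fun e => hl e.symm)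
      have hw := hW {l} (Finset.singleton_ne_empty l)
      have ha := neg_abs_le (hat (fun A => g (A.erase i)) {l})
      have hb := neg_abs_le (hat (fun A => g (insert i A)) {l})
      linarith
  · rw [hi]; linarith

end Pool.Agent.Lib.MP36
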