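import Pool.Agent.Lib.MP_36bd7d_h28.Fourier

set_option autoImplicit false

open Finset

namespace Pool.Agent.Lib.MP36

variable {n : ℕ}

/-! ### The group algebra side -/

/-- Average over four subsets. -/
noncomputable def avg4 (f : Finset (Fin n) → Finset (Fin n) → Finset (Fin n) → Finset (Fin n) → ℝ) :
    ℝ := (∑ a, ∑ b, ∑ c, ∑ d, f a b c d) / (2 ^ n) ^ 4

/-- The six features of a point `u` and a second point `v` (third point `u + v`). -/
noncomputable def feat (P Q : Finset (Fin n) → ℝ) (a : Fin 6) (u v : Finset (Fin n)) : ℝ :=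
  ![P u, Q u, P v * P (symmDiff u v), P v * Q (symmDiff u v) + Q v * P (symmDiff u v),
    Q v * Q (symmDiff u v), Q u * (Q v * Q (symmDiff u v))] a

/-- The six Fourier features, as functions of the coefficients of `P`, `Q` and of the triangle
function. -/
def hv (x y t : ℝ) : Fin 6 → ℝ := ![x, y, x ^ 2, 2 * x * y, y ^ 2, t]

/-- Quadratic form of a `6 × 6` matrix. -/
def quad (M : Fin 6 → Fin 6 → ℝ) (x : Fin 6 → ℝ) : ℝ := ∑ a, ∑ b, M a b * (x a * x b)

/-! ### Positions `0, …, 15` and linear maps -/

/-- Xor-linear extension of four positions. -/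
def lin (b : ℕ × ℕ × ℕ × ℕ) (j : ℕ) : ℕ :=
  ((if j.testBit 0 then b.1 else 0) ^^^ (if j.testBit 1 then b.2.1 else 0)) ^^^
    ((if j.testBit 2 then b.2.2.1 else 0) ^^^ (if j.testBit 3 then b.2.2.2 else 0))

/-- The ordered bases of the space of positions. -/
def bases : Finset (ℕ × ℕ × ℕ × ℕ) :=
  (range 16 ×ˢ range 16 ×ˢ range 16 ×ˢ range 16).filter (fun b => ∀ j ∈ Finset.Icc (1 : ℕ) 15, lin b j ≠ 0)

/-- Sum of a code functional over all bases. -/
noncomputable def tot (Ψ : (ℕ → ℕ) → ℝ) (c : ℕ → ℕ) : ℝ :=
  ∑ b ∈ bases, Ψ (fun j => c (lin b j))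

/-- The linear extension of four vectors. -/
def vlin (v : Finset (Fin n) × Finset (Fin n) × Finset (Fin n) × Finset (Fin n)) (j : ℕ) :
    Finset (Fin n) :=
  symmDiff (symmDiff (if j.testBit 0 then v.1 else ∅) (if j.testBit 1 then v.2.1 else ∅))
    (symmDiff (if j.testBit 2 then v.2.2.1 else ∅) (if j.testBit 3 then v.2.2.2 else ∅))

/-- The code (sequence of labels) of four vectors. -/
def code (lab : Finset (Fin n) → ℕ)
    (v : Finset (Fin n) × Finset (Fin n) × Finset (Fin n) × Finset (Fin n)) (j : ℕ) : ℕ :=
  lab (vlin v j)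

/-- The `j`-th label of a packed code. -/
def dig (N j : ℕ) : ℕ := (N >>> (2 * j)) % 4

/-- Membership outside the plane spanned by `x` and `y`. -/
def out2 (x y u : ℕ) : Bool := u != 0 && u != x && u != y && u != (x ^^^ y)

/-- First coset representative of the plane spanned by `x` and `y`. -/
def rp1 (x y : ℕ) : ℕ := if out2 x y 1 then 1 else if out2 x y 2 then 2 else 4

/-- Outside the plane and its first coset. -/
def out3 (x y u : ℕ) : Bool := out2 x y u && out2 x y (u ^^^ rp1 x y)

/-- Second coset representative. -/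
def rp2 (x y : ℕ) : ℕ :=
  if out3 x y 1 then 1 else if out3 x y 2 then 2 else if out3 x y 4 then 4 else 8

/-- Parity of the common bits of `f` and `x`. -/
def pr (f x : ℕ) : Bool :=
  Bool.xor (Bool.xor ((f &&& x).testBit 0) ((f &&& x).testBit 1))
    (Bool.xor ((f &&& x).testBit 2) ((f &&& x).testBit 3))

/-- Representatives of the `115` orbits of admissible codes. -/
def leaves : List ℕ :=
  [679641640, 411206184, 142770728, 344097320, 75661864, 8553000, 339903016, 71467560, 4358696,
   164392, 339837480, 71402024, 4293160, 98856, 33320, 339886632, 71451176, 4342312, 148008,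
   339821096, 71385640, 4276776, 1073824296, 82472, 16936, 2147615272, 1073873448, 131624,
   339804712, 71369256, 4260392, 1073807912, 66088, 552, 1094795560, 21053736, 339820840,
   71385384, 4276520, 16859432, 67191080, 82216, 16680, 16843048, 67174696, 1073807656, 65832,
   296, 40, 286331160, 1091637528, 17895704, 1141969176, 68227352, 1118488, 4264216, 69912, 4376,
   339820824, 71385368, 4276504, 82200, 16664, 268501272, 1073807640, 65816, 280, 24, 8,
   1431655764, 357913940, 89478484, 22369620, 5592404, 18175316, 1398100, 349524, 87380, 21844,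
   18158932, 1410667860, 336926036, 68490580, 1381716, 1342510420, 268768596, 333140, 1073812820,
   70996, 5460, 1342506324, 268764500, 329044, 1091634516, 17892692, 1115476, 268502356, 66900,
   1364, 16843092, 67174740, 65876, 340, 84, 339820820, 71385364, 4276500, 82196, 16660,
   1073807636, 65812, 276, 20, 4, 0]

end Pool.Agent.Lib.MP36
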