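import Mathlib

set_option autoImplicit false

open Finset

namespace Pool.Agent.Lib.MP36

variable {n : ℕ}

/-- The Walsh character with index `W`. -/
def chi (W A : Finset (Fin n)) : ℝ := ∏ i ∈ W, (if i ∈ A then (-1 : ℝ) else 1)

lemma chi_symmDiff (W A B : Finset (Fin n)) : chi W (symmDiff A B) = chi W A * chi W B := by
  unfold chi
  rw [← Finset.prod_mul_distrib]
  refine Finset.prod_congr rfl (fun i _ => ?_)
  by_cases hA : i ∈ A <;> by_cases hB : i ∈ B <;> simp [Finset.mem_symmDiff, hA, hB]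

lemma chi_empty_left (A : Finset (Fin n)) : chi ∅ A = 1 := by simp [chi]

lemma chi_empty_right (W : Finset (Fin n)) : chi W ∅ = 1 := by simp [chi]

lemma abs_chi (W A : Finset (Fin n)) : |chi W A| = 1 := by
  unfold chi
  rw [Finset.abs_prod]
  apply Finset.prod_eq_one
  intro i _
  split_ifs <;> simp

lemma chi_single (W : Finset (Fin n)) (l : Fin n) (hl : l ∈ W) : chi W {l} = -1 := by
  unfold chi
  rw [Finset.prod_eq_single l]
  · simp
  · intro b _ hb
    simp [hb]
  · intro h
    exact absurd hl h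

lemma sum_chi (A : Finset (Fin n)) :
    ∑ W : Finset (Fin n), chi W A = if A = ∅ then (2 : ℝ) ^ n else 0 := by
  have h : ∑ W : Finset (Fin n), chi W A
      = ∏ i : Fin n, (1 + (if i ∈ A then (-1 : ℝ) else 1)) := by
    rw [Finset.prod_one_add]
    rw [Finset.powerset_univ]
    rfl
  rw [h]
  split_ifs with hA
  · subst hA
    simp
    norm_num
  · obtain ⟨i, hi⟩ := Finset.nonempty_iff_ne_empty.mpr hA
    apply Finset.prod_eq_zero (Finset.mem_univ i)
    simp [hi]

/-- Normalised Walsh coefficient. -/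
noncomputable def hat (u : Finset (Fin n) → ℝ) (W : Finset (Fin n)) : ℝ :=
  (∑ A : Finset (Fin n), u A * chi W A) / 2 ^ n

/-- Average over all subsets. -/
noncomputable def avg (u : Finset (Fin n) → ℝ) : ℝ := (∑ A : Finset (Fin n), u A) / 2 ^ n

lemma hat_empty (u : Finset (Fin n) → ℝ) : hat u ∅ = avg u := by
  simp [hat, avg, chi_empty_left]

lemma symmDiff_eq_empty_iff' (A B : Finset (Fin n)) : symmDiff A B = ∅ ↔ B = A := by
  rw [← Finset.bot_eq_empty, symmDiff_eq_bot]
  exact eq_comm

lemma parseval (u v : Finset (Fin n) → ℝ) :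
    ∑ W : Finset (Fin n), hat u W * hat v W = avg (fun A => u A * v A) := by
  have h2 : (2 : ℝ) ^ n ≠ 0 := by positivity
  have key : ∑ W : Finset (Fin n), (∑ A : Finset (Fin n), u A * chi W A) *
      (∑ B : Finset (Fin n), v B * chi W B) = 2 ^ n * ∑ A : Finset (Fin n), u A * v A := by
    calc ∑ W : Finset (Fin n), (∑ A : Finset (Fin n), u A * chi W A) *
          (∑ B : Finset (Fin n), v B * chi W B)
        = ∑ W : Finset (Fin n), ∑ A : Finset (Fin n), ∑ B : Finset (Fin n),
            (u A * v B) * chi W (symmDiff A B) := by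
          refine Finset.sum_congr rfl (fun W _ => ?_)
          rw [Finset.sum_mul_sum]
          refine Finset.sum_congr rfl (fun A _ => Finset.sum_congr rfl (fun B _ => ?_))
          rw [chi_symmDiff]; ring
      _ = ∑ A : Finset (Fin n), ∑ B : Finset (Fin n),
            (u A * v B) * ∑ W : Finset (Fin n), chi W (symmDiff A B) := by
          rw [Finset.sum_comm]
          refine Finset.sum_congr rfl (fun A _ => ?_)
          rw [Finset.sum_comm]
          refine Finset.sum_congr rfl (fun B _ => ?_)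
          rw [Finset.mul_sum]
      _ = ∑ A : Finset (Fin n), ∑ B : Finset (Fin n),
            (if B = A then (u A * v B) * 2 ^ n else 0) := by
          refine Finset.sum_congr rfl (fun A _ => Finset.sum_congr rfl (fun B _ => ?_))
          rw [sum_chi]
          simp only [symmDiff_eq_empty_iff']
          split_ifs <;> simp
      _ = 2 ^ n * ∑ A : Finset (Fin n), u A * v A := by
          rw [Finset.mul_sum]
          refine Finset.sum_congr rfl (fun A _ => ?_)
          rw [Finset.sum_ite_eq' Finset.univ A]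
          simp; ring
  unfold hat avg
  have h3 : ∀ W : Finset (Fin n), (∑ A : Finset (Fin n), u A * chi W A) / 2 ^ n *
      ((∑ A : Finset (Fin n), v A * chi W A) / 2 ^ n)
      = ((∑ A : Finset (Fin n), u A * chi W A) * (∑ B : Finset (Fin n), v B * chi W B))
        / (2 ^ n * 2 ^ n) := by
    intro W; field_simp
  simp_rw [h3]
  rw [← Finset.sum_div, key]
  field_simp

lemma triple (u v w : Finset (Fin n) → ℝ)
    (h : ∀ A B : Finset (Fin n), u A * v B * w (symmDiff A B) = 0) :
    ∑ W : Finset (Fin n), hat u W * hat v W * hat w W = 0 := by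
  have key : ∑ W : Finset (Fin n), (∑ A : Finset (Fin n), u A * chi W A) *
      (∑ B : Finset (Fin n), v B * chi W B) * (∑ C : Finset (Fin n), w C * chi W C) = 0 := by
    calc ∑ W : Finset (Fin n), (∑ A : Finset (Fin n), u A * chi W A) *
          (∑ B : Finset (Fin n), v B * chi W B) * (∑ C : Finset (Fin n), w C * chi W C)
        = ∑ W : Finset (Fin n), ∑ A : Finset (Fin n), ∑ B : Finset (Fin n),
            ∑ C : Finset (Fin n),
            (u A * v B * w C) * chi W (symmDiff (symmDiff A B) C) := by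
          refine Finset.sum_congr rfl (fun W _ => ?_)
          rw [Finset.sum_mul_sum, Finset.sum_mul]
          refine Finset.sum_congr rfl (fun A _ => ?_)
          rw [Finset.sum_mul_sum]
          refine Finset.sum_congr rfl (fun B _ => Finset.sum_congr rfl (fun C _ => ?_))
          rw [chi_symmDiff, chi_symmDiff]; ring
      _ = ∑ A : Finset (Fin n), ∑ B : Finset (Fin n), ∑ C : Finset (Fin n),
            (u A * v B * w C) * ∑ W : Finset (Fin n), chi W (symmDiff (symmDiff A B) C) := by
          rw [Finset.sum_comm]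
          refine Finset.sum_congr rfl (fun A _ => ?_)
          rw [Finset.sum_comm]
          refine Finset.sum_congr rfl (fun B _ => ?_)
          rw [Finset.sum_comm]
          refine Finset.sum_congr rfl (fun C _ => ?_)
          rw [Finset.mul_sum]
      _ = 0 := by
          refine Finset.sum_eq_zero (fun A _ => Finset.sum_eq_zero (fun B _ =>
            Finset.sum_eq_zero (fun C _ => ?_)))
          rw [sum_chi]
          simp only [symmDiff_eq_empty_iff']
          split_ifs with hC
          · rw [hC, h A B]; simp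
          · simp
  unfold hat
  have h3 : ∀ W : Finset (Fin n), (∑ A : Finset (Fin n), u A * chi W A) / 2 ^ n *
      ((∑ A : Finset (Fin n), v A * chi W A) / 2 ^ n) *
      ((∑ A : Finset (Fin n), w A * chi W A) / 2 ^ n)
      = ((∑ A : Finset (Fin n), u A * chi W A) * (∑ B : Finset (Fin n), v B * chi W B)
          * (∑ C : Finset (Fin n), w C * chi W C))
        / (2 ^ n * 2 ^ n * 2 ^ n) := by
    intro W; field_simp
  simp_rw [h3]
  rw [← Finset.sum_div, key]
  simp

/-- Translation by a set is a bijection. -/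
lemma sum_symmDiff (u : Finset (Fin n) → ℝ) (T : Finset (Fin n)) :
    ∑ A : Finset (Fin n), u (symmDiff A T) = ∑ A : Finset (Fin n), u A := by
  refine Finset.sum_bij' (fun A _ => symmDiff A T) (fun A _ => symmDiff A T)
    (by simp) (by simp) ?_ ?_ ?_
  · intro A _; simp
  · intro A _; simp
  · intro A _; rfl

lemma symmDiff_single_mem {A : Finset (Fin n)} {l : Fin n} (h : l ∈ A) :
    symmDiff A {l} = A.erase l := by
  ext x
  simp only [Finset.mem_symmDiff, Finset.mem_singleton, Finset.mem_erase]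
  by_cases hx : x = l
  · subst hx; simp [h]
  · simp [hx]

lemma symmDiff_single_not_mem {A : Finset (Fin n)} {l : Fin n} (h : l ∉ A) :
    symmDiff A {l} = insert l A := by
  ext x
  simp only [Finset.mem_symmDiff, Finset.mem_singleton, Finset.mem_insert]
  by_cases hx : x = l
  · subst hx; simp [h]
  · simp [hx]

lemma pair_sum (k : Finset (Fin n) → ℝ) (i : Fin n) :
    ∑ A : Finset (Fin n), (k (A.erase i) + k (insert i A)) = 2 * ∑ A : Finset (Fin n), k A := by
  have h : ∀ A : Finset (Fin n), k (A.erase i) + k (insert i A) = k A + k (symmDiff A {i}) := by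
    intro A
    by_cases hi : i ∈ A
    · rw [symmDiff_single_mem hi, Finset.insert_eq_of_mem hi]; ring
    · rw [symmDiff_single_not_mem hi, Finset.erase_eq_of_notMem hi]
  simp_rw [h]
  rw [Finset.sum_add_distrib, sum_symmDiff]
  ring

/-- The Walsh coefficient of a monotone function is bounded by each influence. -/
lemma abs_hat_le (u : Finset (Fin n) → ℝ) (hu : ∀ A B : Finset (Fin n), A ⊆ B → u A ≤ u B)
    (W : Finset (Fin n)) (l : Fin n) (hl : l ∈ W) :
    |hat u W| ≤ (avg (fun A => u (insert l A)) - avg (fun A => u (A.erase l))) / 2 := by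
  have h1 : ∑ A : Finset (Fin n), u A * chi W A
      = (∑ A : Finset (Fin n), (u A - u (symmDiff A {l})) * chi W A) / 2 := by
    have h2 : ∑ A : Finset (Fin n), u (symmDiff A {l}) * chi W A
        = - ∑ A : Finset (Fin n), u A * chi W A := by
      rw [← sum_symmDiff (fun A => u (symmDiff A {l}) * chi W A) {l}]
      rw [← Finset.sum_neg_distrib]
      refine Finset.sum_congr rfl (fun A _ => ?_)
      rw [chi_symmDiff, chi_single W l hl]
      simp
    simp_rw [sub_mul]
    rw [Finset.sum_sub_distrib, h2]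
    ring
  have h3 : |∑ A : Finset (Fin n), (u A - u (symmDiff A {l})) * chi W A|
      ≤ ∑ A : Finset (Fin n), (u (insert l A) - u (A.erase l)) := by
    refine (Finset.abs_sum_le_sum_abs _ _).trans (Finset.sum_le_sum (fun A _ => ?_))
    rw [abs_mul, abs_chi, mul_one]
    by_cases h : l ∈ A
    · rw [symmDiff_single_mem h, Finset.insert_eq_of_mem h,
        abs_of_nonneg (sub_nonneg.mpr (hu _ _ (Finset.erase_subset l A)))]
    · rw [symmDiff_single_not_mem h, Finset.erase_eq_of_notMem h, abs_sub_comm,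
        abs_of_nonneg (sub_nonneg.mpr (hu _ _ (Finset.subset_insert l A)))]
  unfold hat avg
  rw [h1]
  rw [abs_div, abs_div]
  have h2n : (0 : ℝ) < 2 ^ n := by positivity
  rw [abs_of_pos (by norm_num : (0 : ℝ) < 2), abs_of_pos h2n]
  rw [← sub_div, ← Finset.sum_sub_distrib]
  rw [div_div, div_div, mul_comm (2 : ℝ) (2 ^ n)]
  gcongr

lemma abs_hat_le_avg (u : Finset (Fin n) → ℝ) (hu : ∀ A, 0 ≤ u A) (W : Finset (Fin n)) :
    |hat u W| ≤ avg u := by
  unfold hat avg
  have h2n : (0 : ℝ) < 2 ^ n := by positivity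
  rw [abs_div, abs_of_pos h2n]
  gcongr
  refine (Finset.abs_sum_le_sum_abs _ _).trans (Finset.sum_le_sum (fun A _ => ?_))
  rw [abs_mul, abs_chi, mul_one, abs_of_nonneg (hu A)]

/-- The analytic core: an inequality for two real sequences. -/
lemma core {ι : Type*} [Fintype ι] [DecidableEq ι] (o : ι) (P Q : ι → ℝ) (p q : ℝ)
    (hPo : P o = p) (hQo : Q o = q) (hp0 : 0 ≤ p) (hq0 : 0 ≤ q) (hpq : p ≤ q) (hq2 : q ≤ 1 / 2)
    (hPP : ∑ W, P W * P W = p) (hQQ : ∑ W, Q W * Q W = q)
    (hPPP : ∑ W, P W * P W * P W = 0) (hPQQ : ∑ W, P W * Q W * Q W = 0)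
    (hPp : ∀ W, P W ≤ p)
    (hD : ∀ W, W ≠ o → |P W| + |Q W| ≤ q - p) :
    p ≤ q * (1 - q) ^ 2 := by
  rcases hq0.eq_or_lt with hq | hq
  · subst hq
    nlinarith
  have hsum : ∀ f : ι → ℝ, (∀ W, W ≠ o → 0 ≤ f W) → f o ≤ ∑ W, f W := by
    intro f hf
    rw [← Finset.add_sum_erase Finset.univ f (Finset.mem_univ o)]
    have : 0 ≤ ∑ W ∈ Finset.univ.erase o, f W :=
      Finset.sum_nonneg (fun W hW => hf W (Finset.ne_of_mem_erase hW))
    linarith
  -- the simple bound
  have hA : p ≤ q * (1 - q) := by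
    have h1 := hsum (fun W => (q - p) * (Q W * Q W) + P W * Q W * Q W) (by
      intro W hW
      have h2 := hD W hW
      have h3 : -(q - p) ≤ P W := by
        have := neg_abs_le (P W)
        have := abs_nonneg (Q W)
        linarith
      have h4 : 0 ≤ (Q W * Q W) * ((q - p) + P W) :=
        mul_nonneg (mul_self_nonneg _) (by linarith)
      nlinarith)
    rw [Finset.sum_add_distrib, ← Finset.mul_sum, hQQ, hPQQ] at h1
    simp only [hPo, hQo] at h1
    have h5 : 0 ≤ q * (q * (1 - q) - p) := by nlinarith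
    have h6 := nonneg_of_mul_nonneg_right h5 hq
    linarith
  by_contra hcon
  push Not at hcon
  obtain ⟨t, ht⟩ : ∃ t : ℝ, t = 1 - q := ⟨_, rfl⟩
  have hqt : q = 1 - t := by linarith
  rw [← ht] at hcon hA
  have ht2 : 1 / 2 ≤ t := by linarith
  have ht1 : t < 1 := by linarith
  have ht0 : 0 < t := by linarith
  have hmain := hsum (fun W => q * p * (P W * P W) + (-q) * (P W * P W * P W)
      + (q ^ 2 * t ^ 3 * (2 + t)) * (Q W * Q W) + (t ^ 2 * (3 + t)) * (P W * Q W * Q W)) (by
    intro W hW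
    have h2 := hD W hW
    obtain ⟨x, hx⟩ : ∃ x, x = P W := ⟨_, rfl⟩
    obtain ⟨y, hy⟩ : ∃ y, y = Q W := ⟨_, rfl⟩
    have hxp : x ≤ p := by rw [hx]; exact hPp W
    rw [← hx, ← hy] at h2 ⊢
    have hrew : q * p * (x * x) + (-q) * (x * x * x)
      + (q ^ 2 * t ^ 3 * (2 + t)) * (y * y) + (t ^ 2 * (3 + t)) * (x * y * y)
      = q * x ^ 2 * (p - x) + y ^ 2 * (q ^ 2 * t ^ 3 * (2 + t) + t ^ 2 * (3 + t) * x) := by ring
    rw [hrew]
    have h7 : 0 ≤ q * x ^ 2 * (p - x) :=
      mul_nonneg (mul_nonneg hq.le (sq_nonneg x)) (by linarith)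
    by_cases hs : 0 ≤ q ^ 2 * t ^ 3 * (2 + t) + t ^ 2 * (3 + t) * x
    · exact add_nonneg h7 (mul_nonneg (sq_nonneg y) hs)
    · push Not at hs
      have hxneg : x < 0 := by
        by_contra hx0
        push Not at hx0
        have : 0 ≤ q ^ 2 * t ^ 3 * (2 + t) + t ^ 2 * (3 + t) * x := by positivity
        linarith
      obtain ⟨a, ha⟩ : ∃ a, a = -x := ⟨_, rfl⟩
      have hxa : x = -a := by linarith
      have ha0 : 0 < a := by linarith
      rw [hxa] at h2 hs ⊢
      rw [abs_neg, abs_of_pos ha0] at h2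
      have hD0 : q - p < q ^ 2 * (1 + t) := by
        have : q ^ 2 * (1 + t) = q - q * t ^ 2 := by rw [hqt]; ring
        linarith
      have hya : |y| ≤ q ^ 2 * (1 + t) - a := by linarith
      have hy2 : y ^ 2 ≤ (q ^ 2 * (1 + t) - a) ^ 2 := by
        rw [← sq_abs y]
        exact pow_le_pow_left₀ (abs_nonneg y) hya 2
      have haD : a ≤ q ^ 2 * (1 + t) := by
        have := abs_nonneg y
        linarith
      have hid : q * a ^ 2 * (q * t ^ 2 + a)
          - (q ^ 2 * (1 + t) - a) ^ 2 * (t ^ 2 * (3 + t) * a - q ^ 2 * t ^ 3 * (2 + t))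
          = (a - q ^ 2 * t) ^ 2 * ((q - t ^ 2 * (3 + t)) * a
              + q ^ 2 * t * (2 + t) * (1 + t) ^ 2) := by
        rw [hqt]; ring
      have hlin : 0 ≤ (q - t ^ 2 * (3 + t)) * a + q ^ 2 * t * (2 + t) * (1 + t) ^ 2 := by
        have hc0 : 0 ≤ q ^ 2 * t * (2 + t) * (1 + t) ^ 2 := by positivity
        by_cases hqs : 0 ≤ q - t ^ 2 * (3 + t)
        · have := mul_nonneg hqs ha0.le
          linarith
        · push Not at hqs
          have h8 : (q - t ^ 2 * (3 + t)) * (q ^ 2 * (1 + t))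
              ≤ (q - t ^ 2 * (3 + t)) * a := mul_le_mul_of_nonpos_left haD hqs.le
          have h9 : (q - t ^ 2 * (3 + t)) * (q ^ 2 * (1 + t))
              + q ^ 2 * t * (2 + t) * (1 + t) ^ 2 = q ^ 2 * (1 + t) ^ 2 := by
            rw [hqt]; ring
          have h10 : 0 ≤ q ^ 2 * (1 + t) ^ 2 := by positivity
          linarith
      have h11 : 0 ≤ (a - q ^ 2 * t) ^ 2 * ((q - t ^ 2 * (3 + t)) * a
              + q ^ 2 * t * (2 + t) * (1 + t) ^ 2) := mul_nonneg (sq_nonneg _) hlin
      have h12 : 0 ≤ t ^ 2 * (3 + t) * a - q ^ 2 * t ^ 3 * (2 + t) := by linarith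
      have h13 : y ^ 2 * (t ^ 2 * (3 + t) * a - q ^ 2 * t ^ 3 * (2 + t))
          ≤ (q ^ 2 * (1 + t) - a) ^ 2 * (t ^ 2 * (3 + t) * a - q ^ 2 * t ^ 3 * (2 + t)) :=
        mul_le_mul_of_nonneg_right hy2 h12
      have h14 : q * a ^ 2 * (q * t ^ 2 + a) ≤ q * a ^ 2 * (p + a) := by
        have : 0 ≤ q * a ^ 2 := by positivity
        exact mul_le_mul_of_nonneg_left (by linarith) this
      have h15 : q * (-a) ^ 2 * (p - -a) + y ^ 2 * (q ^ 2 * t ^ 3 * (2 + t) + t ^ 2 * (3 + t) * -a)
          = q * a ^ 2 * (p + a) - y ^ 2 * (t ^ 2 * (3 + t) * a - q ^ 2 * t ^ 3 * (2 + t)) := by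
        ring
      rw [h15]
      linarith)
  rw [Finset.sum_add_distrib, Finset.sum_add_distrib, Finset.sum_add_distrib,
    ← Finset.mul_sum, ← Finset.mul_sum, ← Finset.mul_sum, ← Finset.mul_sum,
    hPP, hPPP, hQQ, hPQQ] at hmain
  simp only [hPo, hQo] at hmain
  have h16 : 0 ≤ q * ((p - q * t ^ 2) * (p - q * t ^ 2 * (2 + t))) := by
    have : q * p * p + -q * 0 + q ^ 2 * t ^ 3 * (2 + t) * q + t ^ 2 * (3 + t) * 0
      - (q * p * (p * p) + -q * (p * p * p) + q ^ 2 * t ^ 3 * (2 + t) * (q * q)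
        + t ^ 2 * (3 + t) * (p * q * q))
      = q * ((p - q * t ^ 2) * (p - q * t ^ 2 * (2 + t)))
        + (q ^ 3 * t ^ 3 * (2 + t)) * (1 - q - t) := by ring
    have h17 : 1 - q - t = 0 := by linarith
    rw [h17] at this
    linarith
  have h18 : p - q * t ^ 2 * (2 + t) < 0 := by
    have h19 : q * t < q * t ^ 2 * (2 + t) := by
      have : 0 < q * t * (t * (2 + t) - 1) := by
        apply mul_pos (mul_pos hq ht0)
        nlinarith
      nlinarith
    linarith
  have h20 : 0 < p - q * t ^ 2 := by linarith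
  have h21 : (p - q * t ^ 2) * (p - q * t ^ 2 * (2 + t)) < 0 := mul_neg_of_pos_of_neg h20 h18
  have h22 : q * ((p - q * t ^ 2) * (p - q * t ^ 2 * (2 + t))) < 0 := mul_neg_of_pos_of_neg hq h21
  linarith

end Pool.Agent.Lib.MP36
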