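import Pool.Agent.Lib.MP_36bd7d_h28.Defs

set_option autoImplicit false

open Finset

namespace Pool.Agent.Lib.MP36

private lemma lin_aux_ite (p q : Bool) (a : ℕ) :
    (if (p ^^ q) = true then a else 0)
      = (if p = true then a else 0) ^^^ (if q = true then a else 0) := by
  cases p <;> cases q <;> simp

private lemma lin_aux_xor8 (a b c d e f g h : ℕ) :
    ((a ^^^ b) ^^^ (c ^^^ d)) ^^^ ((e ^^^ f) ^^^ (g ^^^ h))
      = ((a ^^^ c) ^^^ (e ^^^ g)) ^^^ ((b ^^^ d) ^^^ (f ^^^ h)) := by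
  ac_rfl

theorem lin_xor (b : ℕ × ℕ × ℕ × ℕ) (x y : ℕ) : lin b (x ^^^ y) = lin b x ^^^ lin b y := by
  unfold lin
  simp only [Nat.testBit_xor, lin_aux_ite]
  exact lin_aux_xor8 _ _ _ _ _ _ _ _

lemma linm_zero (b : ℕ × ℕ × ℕ × ℕ) : lin b 0 = 0 := by
  simp [lin]

lemma linm_mem_bases {b : ℕ × ℕ × ℕ × ℕ} : b ∈ bases ↔
    (b.1 < 16 ∧ b.2.1 < 16 ∧ b.2.2.1 < 16 ∧ b.2.2.2 < 16) ∧
      ∀ j ∈ Finset.Icc (1 : ℕ) 15, lin b j ≠ 0 := by
  unfold bases
  rw [Finset.mem_filter, Finset.mem_product, Finset.mem_product, Finset.mem_product,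
    Finset.mem_range, Finset.mem_range, Finset.mem_range, Finset.mem_range]

private lemma lin_aux_lt (p : Prop) [Decidable p] {a : ℕ} (ha : a < 16) :
    (if p then a else 0) < 2 ^ 4 := by
  split_ifs
  · exact ha
  · norm_num

theorem lin_lt {b : ℕ × ℕ × ℕ × ℕ} (hb : b ∈ bases) (j : ℕ) : lin b j < 16 := by
  obtain ⟨⟨h1, h2, h3, h4⟩, -⟩ := linm_mem_bases.mp hb
  unfold lin
  exact Nat.xor_lt_two_pow (n := 4)
    (Nat.xor_lt_two_pow (lin_aux_lt _ h1) (lin_aux_lt _ h2))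
    (Nat.xor_lt_two_pow (lin_aux_lt _ h3) (lin_aux_lt _ h4))

lemma linm_ne_zero {b : ℕ × ℕ × ℕ × ℕ} (hb : b ∈ bases) {j : ℕ} (hj : j < 16) (h0 : j ≠ 0) :
    lin b j ≠ 0 :=
  (linm_mem_bases.mp hb).2 j (Finset.mem_Icc.mpr ⟨Nat.one_le_iff_ne_zero.mpr h0, by omega⟩)

theorem lin_injOn {b : ℕ × ℕ × ℕ × ℕ} (hb : b ∈ bases) {i j : ℕ} (hi : i < 16) (hj : j < 16)
    (h : lin b i = lin b j) : i = j := by
  by_contra hne
  have h1 : i ^^^ j < 16 := Nat.xor_lt_two_pow (n := 4) hi hj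
  have h2 : i ^^^ j ≠ 0 := fun h0 => hne (Nat.xor_eq_zero_iff.mp h0)
  apply linm_ne_zero hb h1 h2
  rw [lin_xor, h, Nat.xor_self]

private lemma vlin_aux_ite {n : ℕ} (p q : Bool) (a : Finset (Fin n)) :
    (if (p ^^ q) = true then a else ∅)
      = symmDiff (if p = true then a else ∅) (if q = true then a else ∅) := by
  cases p <;> cases q <;> simp [symmDiff_def]

private lemma vlin_aux8 {n : ℕ} (a b c d e f g h : Finset (Fin n)) :
    symmDiff (symmDiff (symmDiff a b) (symmDiff c d)) (symmDiff (symmDiff e f) (symmDiff g h))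
      = symmDiff (symmDiff (symmDiff a c) (symmDiff e g))
        (symmDiff (symmDiff b d) (symmDiff f h)) := by
  have hc : Std.Commutative (α := Finset (Fin n)) symmDiff := ⟨symmDiff_comm⟩
  have ha : Std.Associative (α := Finset (Fin n)) symmDiff := ⟨symmDiff_assoc⟩
  ac_rfl

theorem vlin_xor {n : ℕ} (v : Finset (Fin n) × Finset (Fin n) × Finset (Fin n) × Finset (Fin n))
    (x y : ℕ) : vlin v (x ^^^ y) = symmDiff (vlin v x) (vlin v y) := by
  unfold vlin
  simp only [Nat.testBit_xor, vlin_aux_ite]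
  exact vlin_aux8 _ _ _ _ _ _ _ _

lemma linm_vlin_zero {n : ℕ}
    (v : Finset (Fin n) × Finset (Fin n) × Finset (Fin n) × Finset (Fin n)) :
    vlin v 0 = ∅ := by
  simp [vlin]

/-- Composition of linear maps of positions. -/
def linmComp (g b : ℕ × ℕ × ℕ × ℕ) : ℕ × ℕ × ℕ × ℕ :=
  (lin g b.1, lin g b.2.1, lin g b.2.2.1, lin g b.2.2.2)

lemma linm_lin_comp (g b : ℕ × ℕ × ℕ × ℕ) (j : ℕ) : lin (linmComp g b) j = lin g (lin b j) := by
  have h : ∀ (p : Prop) [Decidable p] (a : ℕ),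
      lin g (if p then a else 0) = if p then lin g a else 0 := by
    intro p _ a
    split_ifs
    · rfl
    · exact linm_zero g
  conv_rhs => rw [show lin b j = ((if j.testBit 0 then b.1 else 0) ^^^
    (if j.testBit 1 then b.2.1 else 0)) ^^^
    ((if j.testBit 2 then b.2.2.1 else 0) ^^^ (if j.testBit 3 then b.2.2.2 else 0)) from rfl]
  rw [lin_xor, lin_xor, lin_xor, h, h, h, h]
  rfl

lemma linm_comp_mem {g b : ℕ × ℕ × ℕ × ℕ} (hg : g ∈ bases) (hb : b ∈ bases) :
    linmComp g b ∈ bases := by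
  rw [linm_mem_bases]
  refine ⟨⟨lin_lt hg _, lin_lt hg _, lin_lt hg _, lin_lt hg _⟩, fun j hj => ?_⟩
  rw [Finset.mem_Icc] at hj
  rw [linm_lin_comp]
  exact linm_ne_zero hg (lin_lt hb j) (linm_ne_zero hb (by omega) (by omega))

lemma linm_comp_injOn {g : ℕ × ℕ × ℕ × ℕ} (hg : g ∈ bases) :
    Set.InjOn (linmComp g) (bases : Set (ℕ × ℕ × ℕ × ℕ)) := by
  intro b hb b' hb' h
  obtain ⟨⟨h1, h2, h3, h4⟩, -⟩ := linm_mem_bases.mp (Finset.mem_coe.mp hb)
  obtain ⟨⟨h1', h2', h3', h4'⟩, -⟩ := linm_mem_bases.mp (Finset.mem_coe.mp hb')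
  simp only [linmComp, Prod.mk.injEq] at h
  obtain ⟨e1, e2, e3, e4⟩ := h
  exact Prod.ext (lin_injOn hg h1 h1' e1) (Prod.ext (lin_injOn hg h2 h2' e2)
    (Prod.ext (lin_injOn hg h3 h3' e3) (lin_injOn hg h4 h4' e4)))

lemma linm_comp_image {g : ℕ × ℕ × ℕ × ℕ} (hg : g ∈ bases) :
    bases.image (linmComp g) = bases := by
  apply Finset.eq_of_subset_of_card_le
  · intro x hx
    obtain ⟨b, hb, rfl⟩ := Finset.mem_image.mp hx
    exact linm_comp_mem hg hb
  · rw [Finset.card_image_of_injOn (linm_comp_injOn hg)]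

/-- E2: invariance of the total under a change of basis -/
theorem tot_comp (Ψ : (ℕ → ℕ) → ℝ) (c : ℕ → ℕ) {g : ℕ × ℕ × ℕ × ℕ} (hg : g ∈ bases) :
    tot Ψ (fun j => c (lin g j)) = tot Ψ c := by
  unfold tot
  conv_rhs => rw [← linm_comp_image hg]
  rw [Finset.sum_image (linm_comp_injOn hg)]
  refine Finset.sum_congr rfl (fun b _ => ?_)
  congr 1
  funext j
  rw [linm_lin_comp]

/-- A basis reaches every position. -/
lemma linm_surj {b : ℕ × ℕ × ℕ × ℕ} (hb : b ∈ bases) {x : ℕ} (hx : x < 16) :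
    ∃ j < 16, lin b j = x := by
  have h : (range 16).image (lin b) = range 16 := by
    apply Finset.eq_of_subset_of_card_le
    · intro y hy
      obtain ⟨j, -, rfl⟩ := Finset.mem_image.mp hy
      exact Finset.mem_range.mpr (lin_lt hb j)
    · rw [Finset.card_image_of_injOn]
      intro i hi j hj hij
      exact lin_injOn hb (Finset.mem_range.mp (Finset.mem_coe.mp hi))
        (Finset.mem_range.mp (Finset.mem_coe.mp hj)) hij
  have h2 : x ∈ (range 16).image (lin b) := by rw [h]; exact Finset.mem_range.mpr hx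
  obtain ⟨j, hj, hjx⟩ := Finset.mem_image.mp h2
  exact ⟨j, Finset.mem_range.mp hj, hjx⟩

/-- The quadruple of vectors at the positions of `b`. -/
def linmVComp {n : ℕ} (b : ℕ × ℕ × ℕ × ℕ)
    (v : Finset (Fin n) × Finset (Fin n) × Finset (Fin n) × Finset (Fin n)) :
    Finset (Fin n) × Finset (Fin n) × Finset (Fin n) × Finset (Fin n) :=
  (vlin v b.1, vlin v b.2.1, vlin v b.2.2.1, vlin v b.2.2.2)

lemma linm_vlin_comp {n : ℕ} (b : ℕ × ℕ × ℕ × ℕ)
    (v : Finset (Fin n) × Finset (Fin n) × Finset (Fin n) × Finset (Fin n)) (j : ℕ) :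
    vlin (linmVComp b v) j = vlin v (lin b j) := by
  have h : ∀ (p : Prop) [Decidable p] (a : ℕ),
      vlin v (if p then a else 0) = if p then vlin v a else ∅ := by
    intro p _ a
    split_ifs
    · rfl
    · exact linm_vlin_zero v
  conv_rhs => rw [show lin b j = ((if j.testBit 0 then b.1 else 0) ^^^
    (if j.testBit 1 then b.2.1 else 0)) ^^^
    ((if j.testBit 2 then b.2.2.1 else 0) ^^^ (if j.testBit 3 then b.2.2.2 else 0)) from rfl]
  rw [vlin_xor, vlin_xor, vlin_xor, h, h, h, h]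
  rfl

lemma linm_vcomp_injective {n : ℕ} {b : ℕ × ℕ × ℕ × ℕ} (hb : b ∈ bases) :
    Function.Injective (linmVComp (n := n) b) := by
  intro v w hvw
  have h : ∀ x < 16, vlin v x = vlin w x := by
    intro x hx
    obtain ⟨j, -, rfl⟩ := linm_surj hb hx
    rw [← linm_vlin_comp, ← linm_vlin_comp, hvw]
  have e1 := h 1 (by norm_num)
  have e2 := h 2 (by norm_num)
  have e4 := h 4 (by norm_num)
  have e8 := h 8 (by norm_num)
  have t : ∀ u : Finset (Fin n) × Finset (Fin n) × Finset (Fin n) × Finset (Fin n),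
      vlin u 1 = u.1 ∧ vlin u 2 = u.2.1 ∧ vlin u 4 = u.2.2.1 ∧ vlin u 8 = u.2.2.2 := by
    intro u
    have b1 : Nat.testBit 1 0 = true ∧ Nat.testBit 1 1 = false ∧ Nat.testBit 1 2 = false ∧
      Nat.testBit 1 3 = false := by decide
    have b2 : Nat.testBit 2 0 = false ∧ Nat.testBit 2 1 = true ∧ Nat.testBit 2 2 = false ∧
      Nat.testBit 2 3 = false := by decide
    have b4 : Nat.testBit 4 0 = false ∧ Nat.testBit 4 1 = false ∧ Nat.testBit 4 2 = true ∧
      Nat.testBit 4 3 = false := by decide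
    have b8 : Nat.testBit 8 0 = false ∧ Nat.testBit 8 1 = false ∧ Nat.testBit 8 2 = false ∧
      Nat.testBit 8 3 = true := by decide
    have s1 : ∀ a : Finset (Fin n), symmDiff a ∅ = a := fun a => symmDiff_bot a
    have s2 : ∀ a : Finset (Fin n), symmDiff ∅ a = a := fun a => bot_symmDiff a
    refine ⟨?_, ?_, ?_, ?_⟩
    · simp only [vlin, b1.1, b1.2.1, b1.2.2.1, b1.2.2.2, if_true, Bool.false_eq_true, if_false,
        s1, s2]
    · simp only [vlin, b2.1, b2.2.1, b2.2.2.1, b2.2.2.2, if_true, Bool.false_eq_true, if_false,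
        s1, s2]
    · simp only [vlin, b4.1, b4.2.1, b4.2.2.1, b4.2.2.2, if_true, Bool.false_eq_true, if_false,
        s1, s2]
    · simp only [vlin, b8.1, b8.2.1, b8.2.2.1, b8.2.2.2, if_true, Bool.false_eq_true, if_false,
        s1, s2]
  rw [(t v).1, (t w).1] at e1
  rw [(t v).2.1, (t w).2.1] at e2
  rw [(t v).2.2.1, (t w).2.2.1] at e4
  rw [(t v).2.2.2, (t w).2.2.2] at e8
  exact Prod.ext e1 (Prod.ext e2 (Prod.ext e4 e8))

/-- E1: averaging the total over all quadruples of vectors -/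
theorem sum_tot {n : ℕ} (Ψ : (ℕ → ℕ) → ℝ) (lab : Finset (Fin n) → ℕ) :
    ∑ v : Finset (Fin n) × Finset (Fin n) × Finset (Fin n) × Finset (Fin n), tot Ψ (code lab v)
      = (bases.card : ℝ) * ∑ v : Finset (Fin n) × Finset (Fin n) × Finset (Fin n) × Finset (Fin n),
          Ψ (code lab v) := by
  unfold tot
  rw [Finset.sum_comm, ← nsmul_eq_mul, ← Finset.sum_const]
  refine Finset.sum_congr rfl (fun b hb => ?_)
  have hbij : Function.Bijective (linmVComp (n := n) b) :=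
    Finite.injective_iff_bijective.mp (linm_vcomp_injective hb)
  rw [← hbij.sum_comp (fun v => Ψ (code lab v))]
  refine Finset.sum_congr rfl (fun v _ => ?_)
  congr 1
  funext j
  show lab (vlin v (lin b j)) = lab (vlin (linmVComp b v) j)
  rw [linm_vlin_comp]

end Pool.Agent.Lib.MP36
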