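import Pool.Agent.Lib.MP_36bd7d_h28.Defs
import Pool.Agent.Lib.MP_36bd7d_co.NearTop

/-!
MP_36bd7d_co: structure of the near-top characters of a monotone 0/1 function of a set, by
translation to functions on `Fin n → ZMod 2` (helper57's `NearTop.lean`).
-/
set_option autoImplicit false

open Finset

namespace Pool.Agent.Lib.MP36

/-- the support of a point of `Fin n → ZMod 2` -/
def nsupp {n : ℕ} (x : Fin n → ZMod 2) : Finset (Fin n) := Finset.univ.filter (fun i => x i ≠ 0)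

/-- points of `Fin n → ZMod 2` and subsets of `Fin n` -/
def nequiv {n : ℕ} : (Fin n → ZMod 2) ≃ Finset (Fin n) where
  toFun x := nsupp x
  invFun A := fun i => if i ∈ A then 1 else 0
  left_inv x := by
    have h01 : ∀ a : ZMod 2, a = 0 ∨ a = 1 := by decide
    funext i
    rcases h01 (x i) with h | h <;> simp [nsupp, h]
  right_inv A := by
    ext i
    by_cases h : i ∈ A <;> simp [nsupp, h]

lemma nchi_eq {n : ℕ} (S : Finset (Fin n)) (x : Fin n → ZMod 2) :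
    Pool.Agent.C36.chi S x = chi S (nequiv x) := by
  unfold Pool.Agent.C36.chi chi
  refine Finset.prod_congr rfl (fun i _ => ?_)
  by_cases h : x i = 0 <;> simp [nequiv, nsupp, h, Pool.Agent.C36.sgn]

lemma navg_eq {n : ℕ} (g : Finset (Fin n) → ℝ) :
    Pool.Agent.C36.avg (fun x : Fin n → ZMod 2 => g (nequiv x)) = avg g := by
  unfold Pool.Agent.C36.avg avg
  rw [Fintype.card_fin]
  congr 1
  exact Fintype.sum_equiv nequiv _ _ (fun x => rfl)

lemma nhat_eq {n : ℕ} (g : Finset (Fin n) → ℝ) (S : Finset (Fin n)) :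
    Pool.Agent.C36.hat (fun x : Fin n → ZMod 2 => g (nequiv x)) S = hat g S := by
  unfold Pool.Agent.C36.hat Pool.Agent.C36.avg hat
  rw [Fintype.card_fin]
  congr 1
  exact Fintype.sum_equiv nequiv _ _ (fun x => by rw [nchi_eq])

lemma nhat_two {n : ℕ} (g : Finset (Fin n) → ℝ) (S : Finset (Fin n)) :
    Pool.Agent.C36.hat (fun x : Fin n → ZMod 2 => 2 * g (nequiv x)) S = 2 * hat g S := by
  rw [← nhat_eq]
  unfold Pool.Agent.C36.hat
  rw [← Pool.Agent.C36.avg_mul_left]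
  exact Pool.Agent.C36.avg_congr (fun x => by ring)

lemma navg_two {n : ℕ} (g : Finset (Fin n) → ℝ) :
    Pool.Agent.C36.avg (fun x : Fin n → ZMod 2 => 2 * g (nequiv x)) = 2 * avg g := by
  rw [Pool.Agent.C36.avg_mul_left, navg_eq]

lemma nmono {n : ℕ} {g : Finset (Fin n) → ℝ} (hmono : ∀ A B, A ⊆ B → g A ≤ g B) :
    Pool.Agent.C36.Mono (fun x : Fin n → ZMod 2 => 2 * g (nequiv x)) := by
  intro x y h
  have : nequiv x ⊆ nequiv y := by
    intro i hi
    simp only [nequiv, nsupp, Equiv.coe_fn_mk, Finset.mem_filter, Finset.mem_univ,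
      true_and] at hi ⊢
    exact h i hi
  have := hmono _ _ this
  simp only
  linarith

theorem top_card_ne_two {n : ℕ} (g : Finset (Fin n) → ℝ) (h01 : ∀ A, g A = 0 ∨ g A = 1)
    (hmono : ∀ A B, A ⊆ B → g A ≤ g B) (μ δ ρ : ℝ) (hμ : avg g = μ)
    (hδ : ∀ l, -hat g {l} ≤ δ) (hρ0 : 0 < ρ) (hρ1 : ρ ≤ 1) (hA : μ ≤ 3 * (ρ * δ))
    (S : Finset (Fin n)) (hS : hat g S < -(ρ * δ)) : S.card ≠ 2 := by
  intro hc
  have h0 : ∀ x : Fin n → ZMod 2, 0 ≤ 2 * g (nequiv x) := by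
    intro x
    rcases h01 (nequiv x) with h | h <;> rw [h] <;> norm_num
  have h := Pool.Agent.C36.neg_hat_pair_le (nmono hmono) h0 hc
  rw [nhat_two, navg_two, hμ] at h
  linarith

theorem top_disjoint {n : ℕ} (g : Finset (Fin n) → ℝ) (h01 : ∀ A, g A = 0 ∨ g A = 1)
    (hmono : ∀ A B, A ⊆ B → g A ≤ g B) (μ δ ρ : ℝ) (hμ : avg g = μ)
    (hδ : ∀ l, -hat g {l} ≤ δ) (hρ0 : 0 < ρ) (hρ1 : ρ ≤ 1) (hA : μ ≤ 3 * (ρ * δ))
    (hB : 1 / 4 < δ * (4 - 14 * (1 - ρ)))
    (S T : Finset (Fin n)) (hS : hat g S < -(ρ * δ)) (hT : hat g T < -(ρ * δ))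
    (hS2 : 2 ≤ S.card) (hT2 : 2 ≤ T.card) (hST : S ≠ T) : Disjoint S T := by
  have h0 : ∀ x : Fin n → ZMod 2, 0 ≤ 2 * g (nequiv x) := by
    intro x
    rcases h01 (nequiv x) with h | h <;> rw [h] <;> norm_num
  have h2 : ∀ x : Fin n → ZMod 2, 2 * g (nequiv x) ≤ 2 := by
    intro x
    rcases h01 (nequiv x) with h | h <;> rw [h] <;> norm_num
  have hS3 : 3 ≤ S.card := by
    have := top_card_ne_two g h01 hmono μ δ ρ hμ hδ hρ0 hρ1 hA S hS
    omega
  have hT3 : 3 ≤ T.card := by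
    have := top_card_ne_two g h01 hmono μ δ ρ hμ hδ hρ0 hρ1 hA T hT
    omega
  -- `δ` is positive
  obtain ⟨l, hl⟩ : S.Nonempty := Finset.card_pos.1 (by omega)
  have h3 := Pool.Agent.C36.neg_hat_le_singleton (nmono hmono) hl
  rw [nhat_two, nhat_two] at h3
  have h4 := hδ l
  have h5 : 0 < (1 - ρ) * δ := by nlinarith
  have hδ0 : 0 < δ := by
    by_contra hc
    push Not at hc
    have : (1 - ρ) * δ ≤ 0 := mul_nonpos_of_nonneg_of_nonpos (by linarith) hc
    linarith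
  refine Pool.Agent.C36.near_disjoint (W := fun x : Fin n → ZMod 2 => 2 * g (nequiv x))
    (nmono hmono) h0 h2 (D := 2 * δ) (η := 1 - ρ) ?_ ?_ hS3 hT3 hST ?_ ?_
  · intro j
    rw [nhat_two]
    have := hδ j
    linarith
  · nlinarith
  · rw [nhat_two]
    nlinarith
  · rw [nhat_two]
    nlinarith

end Pool.Agent.Lib.MP36
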