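import Pool.Agent.Lib.MP_36bd7d_h28.Defs

set_option autoImplicit false

open Finset

namespace Pool.Agent.Lib.MP36

/-! ### Small cases -/

theorem small_n {n : ℕ} (h1 : 1 ≤ n) (h3 : n ≤ 3) (F : Finset (Finset (Fin n)))
    (hdeg : ∀ i : Fin n, (2 : ℝ) ^ ((n : ℤ) - 4) < (((F.filter (fun A => i ∈ A)).card : ℕ) : ℝ)) :
    ∃ X ∈ F, ∃ Y ∈ F, ∃ Z ∈ F, X ∪ Y ∪ Z = Finset.univ := by
  have hex : ∀ i : Fin n, ∃ A ∈ F, i ∈ A := by
    intro i
    have h := hdeg i
    have h0 : (0 : ℝ) < (((F.filter (fun A => i ∈ A)).card : ℕ) : ℝ) :=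
      lt_trans (by positivity) h
    have h2 : 0 < (F.filter (fun A => i ∈ A)).card := by exact_mod_cast h0
    obtain ⟨A, hA⟩ := Finset.card_pos.1 h2
    rw [mem_filter] at hA
    exact ⟨A, hA.1, hA.2⟩
  choose f hf1 hf2 using hex
  have key : ∀ a b c : Fin n, (∀ x : Fin n, x = a ∨ x = b ∨ x = c) →
      ∃ X ∈ F, ∃ Y ∈ F, ∃ Z ∈ F, X ∪ Y ∪ Z = Finset.univ := by
    intro a b c h
    refine ⟨f a, hf1 a, f b, hf1 b, f c, hf1 c, ?_⟩
    ext x
    simp only [mem_union, mem_univ, iff_true]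
    rcases h x with rfl | rfl | rfl
    · exact Or.inl (Or.inl (hf2 _))
    · exact Or.inl (Or.inr (hf2 _))
    · exact Or.inr (hf2 _)
  interval_cases n
  · exact key 0 0 0 (fun x => Or.inl (Subsingleton.elim _ _))
  · exact key 0 1 1 (by decide)
  · exact key 0 1 2 (by decide)

/-! ### The maximal family -/

/-- No three members cover the ground set. -/
def Red1NoCover {n : ℕ} (F : Finset (Finset (Fin n))) : Prop :=
  ∀ X ∈ F, ∀ Y ∈ F, ∀ Z ∈ F, X ∪ Y ∪ Z ≠ Finset.univ

theorem red1_exists_max {n : ℕ} (F : Finset (Finset (Fin n))) (hF : Red1NoCover F) :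
    ∃ M : Finset (Finset (Fin n)), F ⊆ M ∧ Red1NoCover M ∧
      ∀ D, Red1NoCover (insert D M) → D ∈ M := by
  have hfin : {M : Finset (Finset (Fin n)) | Red1NoCover M}.Finite := Set.toFinite _
  obtain ⟨M, hFM, hM⟩ := hfin.exists_le_maximal (a := F) hF
  refine ⟨M, hFM, hM.prop, fun D hD => ?_⟩
  have h := hM.le_of_ge hD (Finset.subset_insert D M)
  exact h (Finset.mem_insert_self D M)

/-- A bound for the pairs of projections of two families. -/
theorem red1_proj {n : ℕ} (U V : Finset (Finset (Fin n))) (T : Finset (Fin n))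
    (h : ∀ u ∈ U, ∀ v ∈ V, ((u ∩ v) ∩ T).Nonempty) :
    4 * ((U.image (fun u => u ∩ T)).card * (V.image (fun v => v ∩ T)).card) ≤ 4 ^ T.card := by
  set P := U.image (fun u => u ∩ T) with hP
  set Q := V.image (fun v => v ∩ T) with hQ
  have hsub : P.image (fun s => T \ s) ⊆ T.powerset \ Q := by
    intro s hs
    rw [mem_image] at hs
    obtain ⟨p, hp, rfl⟩ := hs
    rw [hP, mem_image] at hp
    obtain ⟨u, hu, rfl⟩ := hp
    rw [mem_sdiff, mem_powerset]
    refine ⟨sdiff_subset, fun hq => ?_⟩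
    rw [hQ, mem_image] at hq
    obtain ⟨v, hv, hve⟩ := hq
    obtain ⟨x, hx⟩ := h u hu v hv
    simp only [mem_inter] at hx
    have h1 : x ∈ v ∩ T := by simp [hx.1.2, hx.2]
    rw [hve] at h1
    simp [hx.1.1, hx.2] at h1
  have hcard : (P.image (fun s => T \ s)).card = P.card := by
    apply card_image_of_injOn
    intro s hs s' hs' he
    have hsT : ∀ s ∈ (P : Set (Finset (Fin n))), s ⊆ T := by
      intro s hs
      rw [mem_coe, hP, mem_image] at hs
      obtain ⟨u, _, rfl⟩ := hs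
      exact inter_subset_right
    have e : T \ (T \ s) = T \ (T \ s') := by
      have : T \ s = T \ s' := he
      rw [this]
    rwa [Finset.sdiff_sdiff_eq_self (hsT s hs), Finset.sdiff_sdiff_eq_self (hsT s' hs')] at e
  have hQsub : Q ⊆ T.powerset := by
    intro s hs
    rw [hQ, mem_image] at hs
    obtain ⟨v, _, rfl⟩ := hs
    rw [mem_powerset]
    exact inter_subset_right
  have h1 := card_le_card hsub
  rw [hcard, card_sdiff_of_subset hQsub, card_powerset] at h1
  have h2 := card_le_card hQsub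
  rw [card_powerset] at h2
  have h3 : P.card + Q.card ≤ 2 ^ T.card := by omega
  calc 4 * (P.card * Q.card) ≤ (P.card + Q.card) ^ 2 := by
        have := Nat.mul_self_le_mul_self (Nat.le_refl (P.card + Q.card))
        rcases Nat.le_total P.card Q.card with h | h
        · obtain ⟨d, hd⟩ := Nat.exists_eq_add_of_le h
          rw [hd]
          nlinarith [Nat.zero_le (d * d)]
        · obtain ⟨d, hd⟩ := Nat.exists_eq_add_of_le h
          rw [hd]
          nlinarith [Nat.zero_le (d * d)]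
    _ ≤ (2 ^ T.card) ^ 2 := Nat.pow_le_pow_left h3 2
    _ = 4 ^ T.card := by
        rw [← pow_mul, mul_comm, pow_mul]
        norm_num

/-- The size of a family with fixed traces on a pair is at most the product of the sizes of the
projections. -/
theorem red1_inj {n : ℕ} (U : Finset (Finset (Fin n))) (S T R D : Finset (Fin n))
    (hcov : ∀ x, x ∈ S ∨ x ∈ T ∨ x ∈ R ∨ x ∈ D)
    (hD : ∀ u ∈ U, ∀ u' ∈ U, ∀ x ∈ D, x ∈ u ↔ x ∈ u') :
    U.card ≤ (U.image (fun u => u ∩ S)).card * (U.image (fun u => u ∩ T)).card * 2 ^ R.card := by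
  rw [← card_powerset R, mul_assoc, ← card_product, ← card_product]
  apply card_le_card_of_injOn (fun u => (u ∩ S, u ∩ T, u ∩ R))
  · intro u hu
    rw [mem_coe] at hu
    simp only [coe_product, Set.mem_prod, mem_coe, mem_powerset]
    exact ⟨mem_image_of_mem _ hu, mem_image_of_mem _ hu, inter_subset_right⟩
  · intro u hu u' hu' he
    simp only [Prod.mk.injEq] at he
    obtain ⟨e1, e2, e3⟩ := he
    ext x
    rcases hcov x with h | h | h | h
    · have := Finset.ext_iff.1 e1 x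
      simpa [h] using this
    · have := Finset.ext_iff.1 e2 x
      simpa [h] using this
    · have := Finset.ext_iff.1 e3 x
      simpa [h] using this
    · exact hD u hu u' hu' x h

theorem exists_structure {n : ℕ} (hn : 4 ≤ n) (F : Finset (Finset (Fin n)))
    (hdeg : ∀ i : Fin n, (2 : ℝ) ^ ((n : ℤ) - 4) < (((F.filter (fun A => i ∈ A)).card : ℕ) : ℝ))
    (hno : ¬ ∃ X ∈ F, ∃ Y ∈ F, ∃ Z ∈ F, X ∪ Y ∪ Z = Finset.univ) :
    ∃ G : Finset (Finset (Fin n)),
      (∀ A ∈ G, ∀ B, A ⊆ B → B ∈ G) ∧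
      (∀ A ∈ G, ∀ B ∈ G, ∀ C ∈ G, A ∩ B ∩ C ≠ ∅) ∧
      (∀ i : Fin n, 2 ^ (n - 4) < (G.filter (fun A => i ∉ A)).card) ∧
      (∀ i l : Fin n, i ≠ l → (Finset.univ \ {i, l} : Finset (Fin n)) ∈ G) := by
  classical
  have hF : Red1NoCover F := by
    intro X hX Y hY Z hZ h
    exact hno ⟨X, hX, Y, hY, Z, hZ, h⟩
  obtain ⟨M, hFM, hM, hmax⟩ := red1_exists_max F hF
  -- closure under subsets
  have hdown : ∀ A ∈ M, ∀ B, B ⊆ A → B ∈ M := by
    intro A hA B hBA
    apply hmax
    have hrep : ∀ X ∈ insert B M, ∃ X' ∈ M, X ⊆ X' := by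
      intro X hX
      rcases mem_insert.1 hX with rfl | hX
      · exact ⟨A, hA, hBA⟩
      · exact ⟨X, hX, Subset.refl _⟩
    intro X hX Y hY Z hZ he
    obtain ⟨X', hX', hXX⟩ := hrep X hX
    obtain ⟨Y', hY', hYY⟩ := hrep Y hY
    obtain ⟨Z', hZ', hZZ⟩ := hrep Z hZ
    apply hM X' hX' Y' hY' Z' hZ'
    apply Finset.eq_univ_of_forall
    intro x
    have : x ∈ X ∪ Y ∪ Z := by rw [he]; exact mem_univ x
    simp only [mem_union] at this ⊢
    rcases this with (h | h) | h
    · exact Or.inl (Or.inl (hXX h))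
    · exact Or.inl (Or.inr (hYY h))
    · exact Or.inr (hZZ h)
  set G : Finset (Finset (Fin n)) := univ.filter (fun A => Aᶜ ∈ M) with hG
  have hGm : ∀ A, A ∈ G ↔ Aᶜ ∈ M := by
    intro A
    rw [hG, mem_filter]
    simp
  have hup : ∀ A ∈ G, ∀ B, A ⊆ B → B ∈ G := by
    intro A hA B hAB
    rw [hGm] at hA ⊢
    exact hdown _ hA _ (compl_subset_compl.2 hAB)
  have h3 : ∀ A ∈ G, ∀ B ∈ G, ∀ C ∈ G, A ∩ B ∩ C ≠ ∅ := by
    intro A hA B hB C hC he
    rw [hGm] at hA hB hC
    apply hM _ hA _ hB _ hC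
    rw [← compl_inter, ← compl_inter, he, compl_empty]
  have hdegG : ∀ i : Fin n, 2 ^ (n - 4) < (G.filter (fun A => i ∉ A)).card := by
    intro i
    have e1 : (2 : ℝ) ^ ((n : ℤ) - 4) = ((2 ^ (n - 4) : ℕ) : ℝ) := by
      have : (n : ℤ) - 4 = ((n - 4 : ℕ) : ℤ) := by omega
      rw [this, zpow_natCast]
      push_cast
      rfl
    have h := hdeg i
    rw [e1] at h
    have h' : 2 ^ (n - 4) < (F.filter (fun A => i ∈ A)).card := by exact_mod_cast h
    refine lt_of_lt_of_le h' ?_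
    refine card_le_card_of_injOn (fun A => Aᶜ) ?_ ?_
    · intro A hA
      rw [mem_coe, mem_filter] at hA
      rw [mem_coe, mem_filter, hGm, compl_compl]
      refine ⟨hFM hA.1, ?_⟩
      rw [mem_compl, not_not]
      exact hA.2
    · intro A _ B _ h
      exact compl_injective h
  refine ⟨G, hup, h3, hdegG, ?_⟩
  intro i l hil
  by_contra hcon
  set D : Finset (Fin n) := {i, l} with hD
  have hDM : D ∉ M := by
    intro h
    apply hcon
    rw [hGm, ← compl_eq_univ_sdiff, compl_compl]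
    exact h
  have hDcard : D.card ≤ 2 := card_le_two
  -- the cover of the enlarged family
  have hcov : ∃ X ∈ M, ∃ Y ∈ M, ∀ x, x ∈ D ∨ x ∈ X ∨ x ∈ Y := by
    by_contra hnc
    apply hDM
    apply hmax
    intro X hX Y hY Z hZ he
    have hall : ∀ x, x ∈ X ∨ x ∈ Y ∨ x ∈ Z := by
      intro x
      have : x ∈ X ∪ Y ∪ Z := by rw [he]; exact mem_univ x
      simp only [mem_union] at this
      rcases this with (h | h) | h
      · exact Or.inl h
      · exact Or.inr (Or.inl h)
      · exact Or.inr (Or.inr h)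
    have hDne : ∃ x, x ∉ D := by
      by_contra hne
      push Not at hne
      have : D = univ := Finset.eq_univ_of_forall hne
      rw [this, card_univ, Fintype.card_fin] at hDcard
      omega
    have hpair : ∀ X ∈ M, ∀ Y ∈ M, ¬ ∀ x, x ∈ D ∨ x ∈ X ∨ x ∈ Y := by
      intro X hX Y hY h
      exact hnc ⟨X, hX, Y, hY, h⟩
    rcases mem_insert.1 hX with hX1 | hX1 <;> rcases mem_insert.1 hY with hY1 | hY1 <;>
      rcases mem_insert.1 hZ with hZ1 | hZ1
    · obtain ⟨x, hx⟩ := hDne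
      rcases hall x with h | h | h
      · exact hx (hX1 ▸ h)
      · exact hx (hY1 ▸ h)
      · exact hx (hZ1 ▸ h)
    · apply hpair Z hZ1 Z hZ1
      intro x
      rcases hall x with h | h | h
      · exact Or.inl (hX1 ▸ h)
      · exact Or.inl (hY1 ▸ h)
      · exact Or.inr (Or.inl h)
    · apply hpair Y hY1 Y hY1
      intro x
      rcases hall x with h | h | h
      · exact Or.inl (hX1 ▸ h)
      · exact Or.inr (Or.inl h)
      · exact Or.inl (hZ1 ▸ h)
    · apply hpair Y hY1 Z hZ1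
      intro x
      rcases hall x with h | h | h
      · exact Or.inl (hX1 ▸ h)
      · exact Or.inr (Or.inl h)
      · exact Or.inr (Or.inr h)
    · apply hpair X hX1 X hX1
      intro x
      rcases hall x with h | h | h
      · exact Or.inr (Or.inl h)
      · exact Or.inl (hY1 ▸ h)
      · exact Or.inl (hZ1 ▸ h)
    · apply hpair X hX1 Z hZ1
      intro x
      rcases hall x with h | h | h
      · exact Or.inr (Or.inl h)
      · exact Or.inl (hY1 ▸ h)
      · exact Or.inr (Or.inr h)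
    · apply hpair X hX1 Y hY1
      intro x
      rcases hall x with h | h | h
      · exact Or.inr (Or.inl h)
      · exact Or.inr (Or.inr h)
      · exact Or.inl (hZ1 ▸ h)
    · exact hM X hX1 Y hY1 Z hZ1 he
  obtain ⟨X, hX, Y, hY, hXY⟩ := hcov
  have hA : Xᶜ ∈ G := by rw [hGm, compl_compl]; exact hX
  have hB : Yᶜ ∈ G := by rw [hGm, compl_compl]; exact hY
  set A : Finset (Fin n) := Xᶜ with hAdef
  set B : Finset (Fin n) := Yᶜ with hBdef
  have hAB : ∀ x, x ∈ A → x ∈ B → x ∈ D := by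
    intro x h1 h2
    rw [hAdef, mem_compl] at h1
    rw [hBdef, mem_compl] at h2
    rcases hXY x with h | h | h
    · exact h
    · exact absurd h h1
    · exact absurd h h2
  have hil' : ∀ C ∈ G, i ∈ C ∨ l ∈ C := by
    intro C hC
    obtain ⟨x, hx⟩ := Finset.nonempty_iff_ne_empty.2 (h3 A hA B hB C hC)
    simp only [mem_inter] at hx
    have hxD := hAB x hx.1.1 hx.1.2
    rw [hD, mem_insert, mem_singleton] at hxD
    rcases hxD with rfl | rfl
    · exact Or.inl hx.2
    · exact Or.inr hx.2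
  set U := G.filter (fun C => l ∉ C) with hU
  set V := G.filter (fun C => i ∉ C) with hV
  have hUi : ∀ u ∈ U, i ∈ u ∧ l ∉ u ∧ u ∈ G := by
    intro u hu
    rw [hU, mem_filter] at hu
    refine ⟨?_, hu.2, hu.1⟩
    rcases hil' u hu.1 with h | h
    · exact h
    · exact absurd h hu.2
  have hVl : ∀ v ∈ V, l ∈ v ∧ i ∉ v ∧ v ∈ G := by
    intro v hv
    rw [hV, mem_filter] at hv
    refine ⟨?_, hv.2, hv.1⟩
    rcases hil' v hv.1 with h | h
    · exact absurd h hv.2
    · exact h
  set S : Finset (Fin n) := A \ D with hS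
  set T : Finset (Fin n) := B \ D with hT
  set R : Finset (Fin n) := univ \ (S ∪ T ∪ D) with hR
  have hmeet : ∀ E ∈ G, ∀ u ∈ U, ∀ v ∈ V, ((u ∩ v) ∩ (E \ D)).Nonempty := by
    intro E hE u hu v hv
    obtain ⟨hu1, hu2, hu3⟩ := hUi u hu
    obtain ⟨hv1, hv2, hv3⟩ := hVl v hv
    obtain ⟨x, hx⟩ := Finset.nonempty_iff_ne_empty.2 (h3 u hu3 v hv3 E hE)
    simp only [mem_inter] at hx
    refine ⟨x, ?_⟩
    simp only [mem_inter, mem_sdiff]
    refine ⟨hx.1, hx.2, ?_⟩
    rw [hD, mem_insert, mem_singleton]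
    rintro (rfl | rfl)
    · exact hv2 hx.1.2
    · exact hu2 hx.1.1
  have hPS := red1_proj U V S (hmeet A hA)
  have hPT := red1_proj U V T (hmeet B hB)
  have hcovR : ∀ x, x ∈ S ∨ x ∈ T ∨ x ∈ R ∨ x ∈ D := by
    intro x
    by_cases h : x ∈ S ∪ T ∪ D
    · simp only [mem_union] at h
      rcases h with (h | h) | h
      · exact Or.inl h
      · exact Or.inr (Or.inl h)
      · exact Or.inr (Or.inr (Or.inr h))
    · refine Or.inr (Or.inr (Or.inl ?_))
      rw [hR, mem_sdiff]
      exact ⟨mem_univ x, h⟩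
  have hIU := red1_inj U S T R D hcovR (by
    intro u hu u' hu' x hx
    obtain ⟨h1, h2, _⟩ := hUi u hu
    obtain ⟨h1', h2', _⟩ := hUi u' hu'
    rw [hD, mem_insert, mem_singleton] at hx
    rcases hx with rfl | rfl
    · exact ⟨fun _ => h1', fun _ => h1⟩
    · exact ⟨fun h => absurd h h2, fun h => absurd h h2'⟩)
  have hIV := red1_inj V S T R D hcovR (by
    intro u hu u' hu' x hx
    obtain ⟨h1, h2, _⟩ := hVl u hu
    obtain ⟨h1', h2', _⟩ := hVl u' hu'
    rw [hD, mem_insert, mem_singleton] at hx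
    rcases hx with rfl | rfl
    · exact ⟨fun h => absurd h h2, fun h => absurd h h2'⟩
    · exact ⟨fun _ => h1', fun _ => h1⟩)
  -- cardinalities
  have hdST : Disjoint S T := by
    rw [Finset.disjoint_left]
    intro x h1 h2
    rw [hS, mem_sdiff] at h1
    rw [hT, mem_sdiff] at h2
    exact h1.2 (hAB x h1.1 h2.1)
  have hdD : Disjoint (S ∪ T) D := by
    rw [Finset.disjoint_left]
    intro x h1 h2
    rw [mem_union, hS, hT, mem_sdiff, mem_sdiff] at h1
    rcases h1 with h1 | h1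
    · exact h1.2 h2
    · exact h1.2 h2
  have hcardR : S.card + T.card + 2 + R.card = n := by
    have h1 : R.card = n - (S ∪ T ∪ D).card := by
      rw [hR, card_univ_sdiff, Fintype.card_fin]
    have h2 : (S ∪ T ∪ D).card = S.card + T.card + 2 := by
      rw [card_union_of_disjoint hdD, card_union_of_disjoint hdST, hD, card_pair hil]
    have h4 : (S ∪ T ∪ D).card ≤ n := by
      have := card_le_univ (S ∪ T ∪ D)
      rwa [Fintype.card_fin] at this
    omega
  have hUc := hdegG l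
  have hVc := hdegG i
  rw [← hU] at hUc
  rw [← hV] at hVc
  set us := (U.image (fun u => u ∩ S)).card
  set ut := (U.image (fun u => u ∩ T)).card
  set vs := (V.image (fun u => u ∩ S)).card
  set vt := (V.image (fun u => u ∩ T)).card
  have hprod : 16 * (U.card * V.card) ≤ 4 ^ (n - 2) := by
    calc 16 * (U.card * V.card) ≤ 16 * ((us * ut * 2 ^ R.card) * (vs * vt * 2 ^ R.card)) :=
          Nat.mul_le_mul_left _ (Nat.mul_le_mul hIU hIV)
      _ = (4 * (us * vs)) * (4 * (ut * vt)) * (2 ^ R.card * 2 ^ R.card) := by ring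
      _ ≤ 4 ^ S.card * 4 ^ T.card * (2 ^ R.card * 2 ^ R.card) :=
          Nat.mul_le_mul_right _ (Nat.mul_le_mul hPS hPT)
      _ = 4 ^ S.card * 4 ^ T.card * 4 ^ R.card := by
          rw [← mul_pow]; norm_num
      _ = 4 ^ (n - 2) := by
          rw [← pow_add, ← pow_add]
          congr 1
          omega
  have hlow : 2 ^ (n - 4) * 2 ^ (n - 4) < U.card * V.card := Nat.mul_lt_mul'' hUc hVc
  have h4 : 4 ^ (n - 2) = 16 * (2 ^ (n - 4) * 2 ^ (n - 4)) := by
    obtain ⟨k, rfl⟩ := Nat.exists_eq_add_of_le hn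
    rw [show 4 + k - 2 = k + 2 by omega, show 4 + k - 4 = k by omega, ← mul_pow, pow_add]
    norm_num
    ring
  rw [h4] at hprod
  omega

end Pool.Agent.Lib.MP36
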