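import Pool.Agent.Lib.MP_36bd7d_h28.Defs

set_option autoImplicit false

open Finset

namespace Pool.Agent.Lib.MP36

variable {n : ℕ}

/-- indicator of a family -/
noncomputable def red2Ind (G : Finset (Finset (Fin n))) (A : Finset (Fin n)) : ℝ :=
  if A ∈ G then 1 else 0

lemma red2Ind_nonneg (G : Finset (Finset (Fin n))) (A : Finset (Fin n)) : 0 ≤ red2Ind G A := by
  unfold red2Ind
  split_ifs <;> norm_num

lemma red2Ind_01 (G : Finset (Finset (Fin n))) (A : Finset (Fin n)) :
    red2Ind G A = 0 ∨ red2Ind G A = 1 := by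
  unfold red2Ind
  split_ifs <;> simp

lemma red2Ind_mem {G : Finset (Finset (Fin n))} {A : Finset (Fin n)} (h : A ∈ G) :
    red2Ind G A = 1 := by
  simp [red2Ind, h]

lemma red2Ind_notMem {G : Finset (Finset (Fin n))} {A : Finset (Fin n)} (h : A ∉ G) :
    red2Ind G A = 0 := by
  simp [red2Ind, h]

lemma red2Ind_of_ne {G : Finset (Finset (Fin n))} {A : Finset (Fin n)} (h : red2Ind G A ≠ 0) :
    A ∈ G := by
  by_contra hc
  exact h (red2Ind_notMem hc)

/-- Trimming an up-set (among the sets avoiding `i`) to a prescribed size. -/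
lemma red2_trim (i : Fin n) (m : ℕ) : ∀ (k : ℕ) (G0 : Finset (Finset (Fin n))),
    G0.card = m + k → (∀ A ∈ G0, ∀ B, A ⊆ B → i ∉ B → B ∈ G0) →
    ∃ G1 ⊆ G0, G1.card = m ∧ (∀ A ∈ G1, ∀ B, A ⊆ B → i ∉ B → B ∈ G1) := by
  intro k
  induction k with
  | zero => intro G0 h hu; exact ⟨G0, Finset.Subset.refl _, by simpa using h, hu⟩
  | succ k ih =>
    intro G0 h hu
    have hne : G0.Nonempty := by
      rw [← Finset.card_pos]; omega
    obtain ⟨A0, hA0, hmin⟩ := Finset.exists_min_image G0 Finset.card hne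
    have h' : (G0.erase A0).card = m + k := by rw [Finset.card_erase_of_mem hA0]; omega
    obtain ⟨G1, h1, h2, h3⟩ := ih (G0.erase A0) h' (by
      intro A hA B hAB hiB
      rw [Finset.mem_erase] at hA ⊢
      refine ⟨?_, hu A hA.2 B hAB hiB⟩
      rintro rfl
      exact hA.1 (Finset.eq_of_subset_of_card_le hAB (hmin A hA.2)))
    exact ⟨G1, h1.trans (Finset.erase_subset _ _), h2, h3⟩

lemma red2_sum_erase (G : Finset (Finset (Fin n))) (l : Fin n) :
    ∑ A : Finset (Fin n), red2Ind G (A.erase l)
      = 2 * ((G.filter (fun A => l ∉ A)).card : ℝ) := by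
  have h1 := pair_sum (fun A : Finset (Fin n) => if l ∈ A then 0 else red2Ind G A) l
  have h2 : ∑ A : Finset (Fin n), red2Ind G (A.erase l)
      = 2 * ∑ A : Finset (Fin n), (if l ∈ A then 0 else red2Ind G A) := by
    rw [← h1]
    refine Finset.sum_congr rfl (fun A _ => ?_)
    simp
  rw [h2]
  congr 1
  rw [Finset.card_eq_sum_ones]
  push_cast
  rw [Finset.sum_filter]
  rw [← Finset.sum_subset (Finset.subset_univ G)]
  · refine Finset.sum_congr rfl (fun A hA => ?_)
    rw [red2Ind_mem hA]
    by_cases h : l ∈ A <;> simp [h]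
  · intro A _ hA
    rw [red2Ind_notMem hA]
    simp

lemma red2_avg_add (u v : Finset (Fin n) → ℝ) : avg (fun A => u A + v A) = avg u + avg v := by
  unfold avg
  rw [Finset.sum_add_distrib, add_div]

lemma red2_avg_sub (u v : Finset (Fin n) → ℝ) : avg (fun A => u A - v A) = avg u - avg v := by
  unfold avg
  rw [Finset.sum_sub_distrib, sub_div]

lemma red2_avg_mono {u v : Finset (Fin n) → ℝ} (h : ∀ A, u A ≤ v A) : avg u ≤ avg v := by
  unfold avg
  have h2n : (0 : ℝ) < 2 ^ n := by positivity
  gcongr with A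
  exact h A

lemma red2_avg_pair (k : Finset (Fin n) → ℝ) (i : Fin n) :
    avg (fun A => k (A.erase i)) + avg (fun A => k (insert i A)) = 2 * avg k := by
  unfold avg
  rw [← add_div, ← Finset.sum_add_distrib, pair_sum]
  ring

lemma red2_avg_compl (u : Finset (Fin n) → ℝ) : avg (fun A => u Aᶜ) = avg u := by
  unfold avg
  congr 1
  exact Finset.sum_bij' (fun A _ => Aᶜ) (fun A _ => Aᶜ) (by simp) (by simp) (by simp) (by simp)
        (by simp)

lemma red2_avg_one : avg (fun _ : Finset (Fin n) => (1 : ℝ)) = 1 := by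
  unfold avg
  simp

lemma red2_hat_sub (u v : Finset (Fin n) → ℝ) (W : Finset (Fin n)) :
    hat (fun A => u A - v A) W = hat u W - hat v W := by
  unfold hat
  rw [← sub_div, ← Finset.sum_sub_distrib]
  congr 1
  exact Finset.sum_congr rfl (fun A _ => by ring)

theorem trim {n : ℕ} (hn : 4 ≤ n) (G : Finset (Finset (Fin n)))
    (hup : ∀ A ∈ G, ∀ B, A ⊆ B → B ∈ G)
    (h3 : ∀ A ∈ G, ∀ B ∈ G, ∀ C ∈ G, A ∩ B ∩ C ≠ ∅)
    (hdeg : ∀ i : Fin n, 2 ^ (n - 4) < (G.filter (fun A => i ∉ A)).card)
    (hpair : ∀ i l : Fin n, i ≠ l → (Finset.univ \ {i, l} : Finset (Fin n)) ∈ G) :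
    ∃ (g : Finset (Fin n) → ℝ) (i : Fin n) (q : ℝ),
      (∀ A, g A = 0 ∨ g A = 1) ∧ (∀ A B, A ⊆ B → g A ≤ g B) ∧
      (∀ A B C, A ∩ B ∩ C = ∅ → g A * g B * g C = 0) ∧
      avg (fun A => g (A.erase i)) = 1 / 8 ∧ avg (fun A => g (insert i A)) = q ∧
      (∀ W : Finset (Fin n), W ≠ ∅ →
        |hat (fun A => g (A.erase i)) W| + |hat (fun A => g (insert i A)) W| ≤ q - 1 / 8) ∧
      (∀ W : Finset (Fin n), W ≠ ∅ → |hat (fun A => g (insert i A)) W| ≤ 1 / 2 - q) := by
  have h2n : (0 : ℝ) < 2 ^ n := by positivity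
  obtain ⟨i, -, hi⟩ := Finset.exists_min_image (Finset.univ : Finset (Fin n))
    (fun i => avg (fun A => red2Ind G (A.erase i))) ⟨⟨0, by omega⟩, Finset.mem_univ _⟩
  -- monotonicity of the indicator of `G`
  have hGmono : ∀ A B : Finset (Fin n), A ⊆ B → red2Ind G A ≤ red2Ind G B := by
    intro A B h
    by_cases hA : A ∈ G
    · rw [red2Ind_mem hA, red2Ind_mem (hup A hA B h)]
    · rw [red2Ind_notMem hA]; exact red2Ind_nonneg _ _
  -- the trimmed family
  obtain ⟨G1, hG1, hG1c, hG1u⟩ := red2_trim i (2 ^ (n - 4))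
    ((G.filter (fun A => i ∉ A)).card - 2 ^ (n - 4)) (G.filter (fun A => i ∉ A))
    (by have := hdeg i; omega) (by
      intro A hA B hAB hiB
      rw [Finset.mem_filter] at hA ⊢
      exact ⟨hup A hA.1 B hAB, hiB⟩)
  obtain ⟨G', hG'⟩ : ∃ G', G' = G1 ∪ G.filter (fun A => i ∈ A) := ⟨_, rfl⟩
  have hmemG' : ∀ A, A ∈ G' ↔ (A ∈ G1 ∨ (A ∈ G ∧ i ∈ A)) := by
    intro A; rw [hG', Finset.mem_union, Finset.mem_filter]
  have hG1G : ∀ A ∈ G1, A ∈ G ∧ i ∉ A := by
    intro A hA
    have := hG1 hA
    rwa [Finset.mem_filter] at this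
  have hG'G : ∀ A ∈ G', A ∈ G := by
    intro A hA
    rcases (hmemG' A).1 hA with h | h
    · exact (hG1G A h).1
    · exact h.1
  have hgle : ∀ A, red2Ind G' A ≤ red2Ind G A := by
    intro A
    by_cases hA : A ∈ G'
    · rw [red2Ind_mem hA, red2Ind_mem (hG'G A hA)]
    · rw [red2Ind_notMem hA]; exact red2Ind_nonneg _ _
  have hgmono : ∀ A B : Finset (Fin n), A ⊆ B → red2Ind G' A ≤ red2Ind G' B := by
    intro A B h
    by_cases hA : A ∈ G'
    · rw [red2Ind_mem hA, red2Ind_mem]
      rw [hmemG']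
      by_cases hiB : i ∈ B
      · exact Or.inr ⟨hup A (hG'G A hA) B h, hiB⟩
      · rcases (hmemG' A).1 hA with h' | h'
        · exact Or.inl (hG1u A h' B h hiB)
        · exact absurd (h h'.2) hiB
    · rw [red2Ind_notMem hA]; exact red2Ind_nonneg _ _
  have hgins : ∀ A, red2Ind G' (insert i A) = red2Ind G (insert i A) := by
    intro A
    unfold red2Ind
    have : insert i A ∈ G' ↔ insert i A ∈ G := by
      rw [hmemG']
      constructor
      · rintro (h | h)
        · exact (hG1G _ h).1
        · exact h.1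
      · intro h
        exact Or.inr ⟨h, Finset.mem_insert_self _ _⟩
    simp only [this]
  have hfil : G'.filter (fun A => i ∉ A) = G1 := by
    ext A
    rw [Finset.mem_filter, hmemG']
    constructor
    · rintro ⟨h | h, h'⟩
      · exact h
      · exact absurd h.2 h'
    · intro h
      exact ⟨Or.inl h, (hG1G A h).2⟩
  have hp8 : avg (fun A => red2Ind G' (A.erase i)) = 1 / 8 := by
    unfold avg
    rw [red2_sum_erase, hfil, hG1c]
    obtain ⟨m, rfl⟩ : ∃ m, n = m + 4 := ⟨n - 4, by omega⟩
    rw [Nat.add_sub_cancel]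
    push_cast
    rw [pow_add]
    field_simp
    norm_num
  obtain ⟨P, hP⟩ : ∃ P : Finset (Fin n) → ℝ, P = fun A => red2Ind G' (A.erase i) := ⟨_, rfl⟩
  obtain ⟨Po, hPo⟩ : ∃ Po : Finset (Fin n) → ℝ, Po = fun A => red2Ind G (A.erase i) := ⟨_, rfl⟩
  obtain ⟨Q, hQ⟩ : ∃ Q : Finset (Fin n) → ℝ, Q = fun A => red2Ind G (insert i A) := ⟨_, rfl⟩
  have hQ' : (fun A => red2Ind G' (insert i A)) = Q := by
    rw [hQ]; funext A; exact hgins A
  have hPA : ∀ A, P A = red2Ind G' (A.erase i) := by intro A; rw [hP]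
  have hPoA : ∀ A, Po A = red2Ind G (A.erase i) := by intro A; rw [hPo]
  have hQA : ∀ A, Q A = red2Ind G (insert i A) := by intro A; rw [hQ]
  have hPPo : ∀ A, P A ≤ Po A := by intro A; rw [hPA, hPoA]; exact hgle _
  have hPoQ : ∀ A, Po A ≤ Q A := by
    intro A; rw [hPoA, hQA]
    exact hGmono _ _ ((Finset.erase_subset i A).trans (Finset.subset_insert i A))
  have hPmono : ∀ A B : Finset (Fin n), A ⊆ B → P A ≤ P B := by
    intro A B h
    rw [hPA, hPA]
    exact hgmono _ _ (Finset.erase_subset_erase i h)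
  have hPomono : ∀ A B : Finset (Fin n), A ⊆ B → Po A ≤ Po B := by
    intro A B h
    rw [hPoA, hPoA]
    exact hGmono _ _ (Finset.erase_subset_erase i h)
  have hQmono : ∀ A B : Finset (Fin n), A ⊆ B → Q A ≤ Q B := by
    intro A B h
    rw [hQA, hQA]
    exact hGmono _ _ (Finset.insert_subset_insert i h)
  have hQ01 : ∀ A, Q A = 0 ∨ Q A = 1 := by intro A; rw [hQA]; exact red2Ind_01 _ _
  obtain ⟨q, hq⟩ : ∃ q : ℝ, q = avg Q := ⟨_, rfl⟩
  have hPq : 1 / 8 ≤ q := by
    rw [← hp8, hq, ← hP]
    exact red2_avg_mono (fun A => (hPPo A).trans (hPoQ A))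
  -- the element `l` different from `i`
  obtain ⟨l0, hl0⟩ : ∃ l : Fin n, i ≠ l := by
    by_cases h : i = ⟨0, by omega⟩
    · exact ⟨⟨1, by omega⟩, by rw [h]; simp⟩
    · exact ⟨⟨0, by omega⟩, h⟩
  have huniv : (Finset.univ.erase i : Finset (Fin n)) ∈ G := by
    refine hup _ (hpair i l0 hl0) _ ?_
    intro x hx
    simp only [Finset.mem_sdiff, Finset.mem_univ, Finset.mem_insert, Finset.mem_singleton,
      true_and, not_or] at hx
    simp [hx.1]
  have hsum2 : ∀ A : Finset (Fin n), Q A + Q Aᶜ ≤ 1 := by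
    intro A
    rcases hQ01 A with h | h
    · rw [h]; rcases hQ01 Aᶜ with h' | h' <;> rw [h'] <;> norm_num
    · rcases hQ01 Aᶜ with h' | h'
      · rw [h, h']; norm_num
      · exfalso
        rw [hQA] at h h'
        have m1 := red2Ind_of_ne (by rw [h]; norm_num : red2Ind G (insert i A) ≠ 0)
        have m2 := red2Ind_of_ne (by rw [h']; norm_num : red2Ind G (insert i Aᶜ) ≠ 0)
        apply h3 _ m1 _ m2 _ huniv
        ext x
        simp only [Finset.mem_inter, Finset.mem_insert, Finset.mem_compl, Finset.mem_erase,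
          Finset.mem_univ, and_true, Finset.notMem_empty, iff_false]
        tauto
  have hq2 : q ≤ 1 / 2 := by
    have h1 := red2_avg_mono hsum2
    rw [red2_avg_add, red2_avg_compl, red2_avg_one] at h1
    linarith
  have hQi : ∀ W : Finset (Fin n), i ∈ W → |hat Q W| ≤ 0 := by
    intro W hW
    have h2 := abs_hat_le Q hQmono W i hW
    have e3 : (fun A => Q (insert i A)) = Q := by
      funext A; rw [hQA, hQA]; simp
    have e4 : (fun A => Q (A.erase i)) = Q := by
      funext A; rw [hQA, hQA]; congr 1; ext x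
      simp only [Finset.mem_erase, Finset.mem_insert]; tauto
    rw [e3, e4] at h2
    simpa using h2
  have hPi : ∀ W : Finset (Fin n), i ∈ W → |hat P W| ≤ 0 := by
    intro W hW
    have h1 := abs_hat_le P hPmono W i hW
    have e1 : (fun A => P (insert i A)) = P := by
      funext A; rw [hPA, hPA]; congr 1; ext x
      simp only [Finset.mem_erase, Finset.mem_insert]; tauto
    have e2 : (fun A => P (A.erase i)) = P := by
      funext A; rw [hPA, hPA]; simp
    rw [e1, e2] at h1
    simpa using h1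
  refine ⟨red2Ind G', i, q, red2Ind_01 G', hgmono, ?_, hp8, ?_, ?_, ?_⟩
  · -- product over three sets
    intro A B C hABC
    by_contra hne
    have hA : red2Ind G' A ≠ 0 := by intro h0; rw [h0] at hne; simp at hne
    have hB : red2Ind G' B ≠ 0 := by intro h0; rw [h0] at hne; simp at hne
    have hC : red2Ind G' C ≠ 0 := by intro h0; rw [h0] at hne; simp at hne
    exact h3 A (hG'G _ (red2Ind_of_ne hA)) B (hG'G _ (red2Ind_of_ne hB)) C
      (hG'G _ (red2Ind_of_ne hC)) hABC
  · rw [hQ', hq]
  · -- the first coefficient bound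
    intro W hW
    rw [hQ', ← hP]
    by_cases hiW : i ∈ W
    · have h1 := hPi W hiW
      have h2 := hQi W hiW
      linarith
    · obtain ⟨l, hl⟩ := Finset.nonempty_iff_ne_empty.mpr hW
      have hli : l ≠ i := by rintro rfl; exact hiW hl
      have h1 := abs_hat_le Po hPomono W l hl
      have h2 := abs_hat_le Q hQmono W l hl
      have e5 : avg (fun A => Po (insert l A)) + avg (fun A => Q (insert l A))
          = 2 * avg (fun A => red2Ind G (insert l A)) := by
        rw [← red2_avg_pair (fun A => red2Ind G (insert l A)) i]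
        congr 2
        · funext A; rw [hPoA, Finset.erase_insert_of_ne hli]
        · funext A; rw [hQA, Finset.insert_comm]
      have e6 : avg (fun A => Po (A.erase l)) + avg (fun A => Q (A.erase l))
          = 2 * avg (fun A => red2Ind G (A.erase l)) := by
        rw [← red2_avg_pair (fun A => red2Ind G (A.erase l)) i]
        congr 2
        · funext A; rw [hPoA, Finset.erase_right_comm]
        · funext A; rw [hQA, Finset.erase_insert_of_ne (Ne.symm hli)]
      have h4 := hi l (Finset.mem_univ l)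
      have h5 := red2_avg_pair (red2Ind G) l
      have h6 := red2_avg_pair (red2Ind G) i
      have h7 : avg (fun A => red2Ind G (insert i A)) = q := by rw [hq, hQ]
      have h8 : |hat Po W - hat P W| ≤ avg Po - 1 / 8 := by
        rw [← red2_hat_sub, ← hp8, ← hP, ← red2_avg_sub]
        exact abs_hat_le_avg _ (fun A => sub_nonneg.2 (hPPo A)) W
      have h9 : avg (fun A => red2Ind G (A.erase i)) = avg Po := by rw [hPo]
      have h10 : |hat P W| ≤ |hat Po W| + |hat Po W - hat P W| := by
        have := abs_sub_abs_le_abs_sub (hat P W) (hat Po W)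
        rw [abs_sub_comm (hat P W) (hat Po W)] at this
        linarith
      rw [h9] at h4 h6
      rw [h7] at h6
      linarith
  · -- the second coefficient bound
    intro W hW
    rw [hQ']
    by_cases hiW : i ∈ W
    · have h2 := hQi W hiW
      linarith
    · obtain ⟨l, hl⟩ := Finset.nonempty_iff_ne_empty.mpr hW
      have hli : l ≠ i := by rintro rfl; exact hiW hl
      have h2 := abs_hat_le Q hQmono W l hl
      obtain ⟨N, hN⟩ : ∃ N : Finset (Fin n) → ℝ, N = fun A => 1 - Q A - Q Aᶜ := ⟨_, rfl⟩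
      have hNA : ∀ A, N A = 1 - Q A - Q Aᶜ := by intro A; rw [hN]
      have hNavg : avg N = 1 - 2 * q := by
        rw [hN]
        have : avg (fun A => 1 - Q A - Q Aᶜ) = avg (fun A => (1 - Q A)) - avg (fun A => Q Aᶜ) :=
          red2_avg_sub _ _
        rw [this, red2_avg_compl, red2_avg_sub, red2_avg_one, hq]
        ring
      have hNc : ∀ A, N Aᶜ = N A := by intro A; rw [hNA, hNA, compl_compl]; ring
      have hNl : avg (fun A => N (A.erase l)) = avg N := by
        have h5 := red2_avg_pair N l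
        have h6 : avg (fun A => N (insert l A)) = avg (fun A => N (A.erase l)) := by
          rw [← red2_avg_compl (fun A => N (A.erase l))]
          congr 1
          funext A
          rw [← hNc (insert l A), Finset.compl_insert]
        linarith
      have hkey : ∀ A, Q (insert l A) - Q (A.erase l) ≤ N (A.erase l) := by
        intro A
        have hz : insert l A = insert l (A.erase l) := by
          ext x
          simp only [Finset.mem_insert, Finset.mem_erase]
          tauto
        rw [hz]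
        obtain ⟨z, hz'⟩ : ∃ z, z = A.erase l := ⟨_, rfl⟩
        rw [← hz', hNA]
        have hs := hsum2 z
        rcases hQ01 (insert l z) with h | h
        · rw [h]
          have : 0 ≤ Q z := by rw [hQA]; exact red2Ind_nonneg _ _
          linarith
        · rw [h]
          rcases hQ01 zᶜ with h' | h'
          · rw [h']; linarith
          · exfalso
            rw [hQA] at h h'
            have m1 := red2Ind_of_ne (by rw [h]; norm_num : red2Ind G (insert i (insert l z)) ≠ 0)
            have m2 := red2Ind_of_ne (by rw [h']; norm_num : red2Ind G (insert i zᶜ) ≠ 0)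
            apply h3 _ m1 _ m2 _ (hpair i l hli.symm)
            ext x
            simp only [Finset.mem_inter, Finset.mem_insert, Finset.mem_compl, Finset.mem_sdiff,
              Finset.mem_univ, Finset.mem_singleton, true_and, not_or, Finset.notMem_empty,
              iff_false]
            tauto
      have h7 := red2_avg_mono hkey
      rw [red2_avg_sub, hNl, hNavg] at h7
      linarith

end Pool.Agent.Lib.MP36
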