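import Pool.Agent.Lib.MP_36bd7d_h28.Defs
import Pool.Agent.Lib.MP_36bd7d_h28.Red1
import Pool.Agent.Lib.MP_36bd7d_h28.Red2

set_option autoImplicit false

open Finset

namespace Pool.Agent.Lib.MP36

theorem red3_sq {x : ℝ} (h : x = 0 ∨ x = 1) : x * x = x := by
  rcases h with h | h <;> rw [h] <;> norm_num

theorem q_bounds {n : ℕ} (g : Finset (Fin n) → ℝ) (i : Fin n) (q : ℝ)
    (h01 : ∀ A, g A = 0 ∨ g A = 1) (hmono : ∀ A B, A ⊆ B → g A ≤ g B)
    (h3 : ∀ A B C, A ∩ B ∩ C = ∅ → g A * g B * g C = 0)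
    (hp : avg (fun A => g (A.erase i)) = 1 / 8) (hq : avg (fun A => g (insert i A)) = q)
    (hW : ∀ W : Finset (Fin n), W ≠ ∅ →
        |hat (fun A => g (A.erase i)) W| + |hat (fun A => g (insert i A)) W| ≤ q - 1 / 8)
    (hQ : ∀ W : Finset (Fin n), W ≠ ∅ → |hat (fun A => g (insert i A)) W| ≤ 1 / 2 - q) :
    19 / 100 < q ∧ q < 39 / 100 := by
  have hi : ({i} : Finset (Fin n)) ≠ ∅ := Finset.singleton_ne_empty i
  have hq2 : q ≤ 1 / 2 := by
    have h1 := hQ {i} hi
    have h2 := abs_nonneg (hat (fun A => g (insert i A)) {i})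
    linarith
  have hpq : 1 / 8 ≤ q := by
    have h1 := hW {i} hi
    have h2 := abs_nonneg (hat (fun A => g (insert i A)) {i})
    have h4 := abs_nonneg (hat (fun A => g (A.erase i)) {i})
    linarith
  have hPo : hat (fun A => g (A.erase i)) ∅ = 1 / 8 := by rw [hat_empty, hp]
  have hQo : hat (fun A => g (insert i A)) ∅ = q := by rw [hat_empty, hq]
  have hPP : ∑ W, hat (fun A => g (A.erase i)) W * hat (fun A => g (A.erase i)) W = 1 / 8 := by
    rw [parseval, ← hp]
    congr 1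
    funext A
    exact red3_sq (h01 _)
  have hQQ : ∑ W, hat (fun A => g (insert i A)) W * hat (fun A => g (insert i A)) W = q := by
    rw [parseval, ← hq]
    congr 1
    funext A
    exact red3_sq (h01 _)
  have hPPP : ∑ W, hat (fun A => g (A.erase i)) W * hat (fun A => g (A.erase i)) W *
      hat (fun A => g (A.erase i)) W = 0 := by
    apply triple
    intro A B
    apply h3
    ext x
    simp only [Finset.mem_inter, Finset.mem_erase, Finset.mem_symmDiff, Finset.notMem_empty,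
      iff_false]
    tauto
  have hPQQ : ∑ W, hat (fun A => g (A.erase i)) W * hat (fun A => g (insert i A)) W *
      hat (fun A => g (insert i A)) W = 0 := by
    apply triple
    intro A B
    apply h3
    ext x
    simp only [Finset.mem_inter, Finset.mem_erase, Finset.mem_insert, Finset.mem_symmDiff,
      Finset.notMem_empty, iff_false]
    tauto
  have hPp : ∀ W, hat (fun A => g (A.erase i)) W ≤ 1 / 8 := by
    intro W
    have h1 := abs_hat_le_avg (fun A => g (A.erase i)) (fun A => by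
      rcases h01 (A.erase i) with h | h <;> rw [h] <;> norm_num) W
    rw [hp] at h1
    exact (le_abs_self _).trans h1
  constructor
  · by_contra hcon
    push Not at hcon
    have h1 := core (∅ : Finset (Fin n)) (hat (fun A => g (A.erase i)))
      (hat (fun A => g (insert i A))) (1 / 8) q hPo hQo (by norm_num) (by linarith) hpq hq2
      hPP hQQ hPPP hPQQ hPp hW
    nlinarith [mul_nonneg (sub_nonneg.2 hcon) (sub_nonneg.2 hpq), sq_nonneg (q - 19 / 100),
      mul_nonneg (sub_nonneg.2 hcon) (sq_nonneg q)]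
  · by_contra hcon
    push Not at hcon
    have hd0 : 0 ≤ 1 / 2 - q := by linarith
    have hsum : ∀ f : Finset (Fin n) → ℝ, (∀ W, W ≠ ∅ → 0 ≤ f W) → f ∅ ≤ ∑ W, f W := by
      intro f hf
      rw [← Finset.add_sum_erase Finset.univ f (Finset.mem_univ ∅)]
      have : 0 ≤ ∑ W ∈ Finset.univ.erase ∅, f W :=
        Finset.sum_nonneg (fun W hW => hf W (Finset.ne_of_mem_erase hW))
      linarith
    have h1 := hsum (fun W => hat (fun A => g (A.erase i)) W * hat (fun A => g (insert i A)) W *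
        hat (fun A => g (insert i A)) W
        + ((1 / 2 - q) * (3 / 4)) * (hat (fun A => g (A.erase i)) W * hat (fun A => g (A.erase i)) W)
        + ((1 / 2 - q) * (1 / 3)) *
          (hat (fun A => g (insert i A)) W * hat (fun A => g (insert i A)) W)) (by
      intro W hW'
      have h2 := hQ W hW'
      generalize hat (fun A => g (A.erase i)) W = x
      generalize hat (fun A => g (insert i A)) W = y at h2
      show 0 ≤ x * y * y + ((1 / 2 - q) * (3 / 4)) * (x * x) + ((1 / 2 - q) * (1 / 3)) * (y * y)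
      have h5 : |x * y * y| ≤ (1 / 2 - q) * (|x| * |y|) := by
        rw [abs_mul, abs_mul, mul_comm]
        exact mul_le_mul_of_nonneg_right h2 (mul_nonneg (abs_nonneg _) (abs_nonneg _))
      have h6 : |x| * |y| ≤ 3 / 4 * (x * x) + 1 / 3 * (y * y) := by
        rw [← abs_mul_abs_self x, ← abs_mul_abs_self y]
        nlinarith [sq_nonneg (|x| * 3 - |y| * 2)]
      have h7 : (1 / 2 - q) * (|x| * |y|) ≤ (1 / 2 - q) * (3 / 4 * (x * x) + 1 / 3 * (y * y)) :=
        mul_le_mul_of_nonneg_left h6 hd0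
      have h8 := neg_abs_le (x * y * y)
      nlinarith)
    rw [Finset.sum_add_distrib, Finset.sum_add_distrib, ← Finset.mul_sum, ← Finset.mul_sum,
      hPP, hQQ, hPQQ] at h1
    simp only [hPo, hQo] at h1
    nlinarith [mul_nonneg (sub_nonneg.2 hcon) hd0, sq_nonneg (q - 1 / 2),
      mul_nonneg (mul_nonneg (sub_nonneg.2 hcon) hd0) (sub_nonneg.2 hpq)]

theorem reduction {n : ℕ} (hn : 4 ≤ n) (F : Finset (Finset (Fin n)))
    (hdeg : ∀ i : Fin n, (2 : ℝ) ^ ((n : ℤ) - 4) < (((F.filter (fun A => i ∈ A)).card : ℕ) : ℝ))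
    (hno : ¬ ∃ X ∈ F, ∃ Y ∈ F, ∃ Z ∈ F, X ∪ Y ∪ Z = Finset.univ) :
    ∃ (g : Finset (Fin n) → ℝ) (i : Fin n) (q : ℝ),
      (∀ A, g A = 0 ∨ g A = 1) ∧ (∀ A B, A ⊆ B → g A ≤ g B) ∧
      (∀ A B C, A ∩ B ∩ C = ∅ → g A * g B * g C = 0) ∧
      avg (fun A => g (A.erase i)) = 1 / 8 ∧ avg (fun A => g (insert i A)) = q ∧
      (∀ W : Finset (Fin n), W ≠ ∅ →
        |hat (fun A => g (A.erase i)) W| + |hat (fun A => g (insert i A)) W| ≤ q - 1 / 8) ∧
      19 / 100 < q ∧ q < 39 / 100 := by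
  obtain ⟨G, hup, hG3, hGdeg, hpair⟩ := exists_structure hn F hdeg hno
  obtain ⟨g, i, q, h01, hmono, h3, hp, hq, hW, hQ⟩ := trim hn G hup hG3 hGdeg hpair
  have hb := q_bounds g i q h01 hmono h3 hp hq hW hQ
  exact ⟨g, i, q, h01, hmono, h3, hp, hq, hW, hb.1, hb.2⟩

end Pool.Agent.Lib.MP36
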